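import Pool.Agent.Lib.MP_d48993_lc.AE.Gr.Stm
import Pool.Agent.Lib.MP_d48993_lc.AE.Node.Mono
import Pool.Agent.Lib.MP_d48993_lc.AE.Node.Stagea
import Pool.Agent.Lib.MP_d48993_lc.AE.Node.LimitStep
import Pool.Agent.Lib.MP_d48993_lc.AE.Node.Xreal

/-!
# Part G (MP_d48993): module ADOPT (helper66)

An allowed extension of a tuple is adopted, or the task is skipped.
-/

set_option autoImplicit false

namespace Pool.Agent.Lib.MP_d48993_lc.Gr

open Pool.Agent.Lib.MP_d48993_lc.Node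
open MP_8c048d_lc (pre join RecF)
open Txt (ht st mC mN mR ltN okN Leg)

namespace Ado

/-! ## Texts -/

theorem ltN_trans {a b c : ℕ} (h : ltN a b = true) (h' : ltN b c = true) : ltN a c = true := by
  unfold Txt.ltN at h h' ⊢
  simp only [Bool.or_eq_true, Bool.and_eq_true, decide_eq_true_eq] at h h' ⊢
  omega

/-- What is known about the text `w` of an item with the first value `v`. -/
structure TI (T : List ℕ → Bool) (b : ℕ) (v w : List ℕ) : Prop where
  le : Txt.Le T (ht T v) v w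
  null : ∀ l ∈ (st T w).drop (ht T v), l.1 = none
  ok : ∀ m, ltN m b = true → okN (st T w) m = true
  opn : Txt.opn T w = none

theorem TI.hts {T : List ℕ → Bool} {b : ℕ} {v w : List ℕ} (h : TI T b v w) : ht T v ≤ ht T w :=
  (h.le.take le_rfl le_rfl).1

theorem okN_snoc {L : List Txt.Lv} {m m' l : ℕ} {q : Option (List ℕ)} (h : ltN m' m = true) :
    okN (L ++ [((none : Option (List ℕ)), m, l, q)]) m' = true := by
  unfold Txt.okN
  simp [h]

theorem TI.weak {T : List ℕ → Bool} {b m : ℕ} {v w : List ℕ} (h : TI T b v w)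
    (hm : ltN m b = true) : TI T m v w :=
  ⟨h.le, h.null, fun m' hm' => h.ok m' (ltN_trans hm' hm), h.opn⟩

/-- The new text of an adopted item. -/
theorem TI.adopt {T : List ℕ → Bool} {b m : ℕ} {v w w' : List ℕ} (h : TI T b v w)
    (hm : ltN m b = true) (hw : Txt.Le T (ht T w + 1) w w') :
    TI T m v (w' ++ [mR (ht T w) [], mN m]) ∧
      Txt.Le T (ht T w) w (w' ++ [mR (ht T w) [], mN m]) := by
  obtain ⟨-, -, -, h4⟩ := Txt.reopen hw (q := []) (by rw [h.opn, Txt.okR_none])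
  obtain ⟨h5, ⟨l, h6⟩, h7⟩ := h4 m (h.ok m hm)
  refine ⟨⟨h.le.trans (h5.mono h.hts), ?_, ?_, h7⟩, h5⟩
  · rw [h6]
    intro x hx
    rw [List.drop_append_of_le_length h.hts] at hx
    rcases List.mem_append.1 hx with hx | hx
    · exact h.null x hx
    · rw [List.mem_singleton] at hx
      rw [hx]
  · intro m' hm'
    rw [h6]
    exact okN_snoc hm'

/-- The new text of a skipped item. -/
theorem TI.skip {T : List ℕ → Bool} {b m : ℕ} {v w : List ℕ} (h : TI T b v w)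
    (hm : ltN m b = true) :
    TI T m v (w ++ [mN m]) ∧ (∀ k, Txt.Le T k w (w ++ [mN m])) ∧
      ht T (w ++ [mN m]) = ht T w + 1 := by
  have hl : Leg T w := h.le.leg
  obtain ⟨-, ⟨l, h6⟩, h7⟩ := Txt.close_null hl (h.ok m hm) 0
  refine ⟨⟨h.le.trans (Txt.close_null hl (h.ok m hm) _).1, ?_, ?_, h7⟩,
    fun k => (Txt.close_null hl (h.ok m hm) k).1, ?_⟩
  · rw [h6]
    intro x hx
    rw [List.drop_append_of_le_length h.hts] at hx
    rcases List.mem_append.1 hx with hx | hx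
    · exact h.null x hx
    · rw [List.mem_singleton] at hx
      rw [hx]
  · intro m' hm'
    rw [h6]
    exact okN_snoc hm'
  · unfold Txt.ht
    rw [h6, List.length_append, List.length_singleton]

/-! ## Conditions -/

theorem cv_text {W : World} {T : List ℕ → Prop} {c : Cnd3} (h : CV W T c) (w : List ℕ) :
    CV W T (w, c.2) :=
  ⟨h.root, h.uniq, h.mem, h.img, h.stem, h.emb, h.stemEmb, h.parent, h.ac⟩

/-- A condition is valid if its stems are. -/
theorem cv_stems (hC : CodesStatement) {W W' : World} {T : List ℕ → Prop} {c : Cnd3}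
    (h : CV W T c) (hs : ∀ e ∈ c.2, VStr W' o e.2.2 (endd o e.2.2)) : CV W' T c := by
  refine ⟨h.root, h.uniq, h.mem, fun e he => ?_, fun e he => ⟨(h.stem e he).1, hs e he⟩, h.emb,
    h.stemEmb, h.parent, h.ac⟩
  obtain ⟨t, ht⟩ := (h.stem e he).1
  have h1 := hs e he
  rw [← ht] at h1
  exact ((Stagea.vstr_append hC).1 h1).1

theorem cv_ext (hM : MonoStatement) {δ δ' : Data} {T : List ℕ → Prop} {c : Cnd3} (hw : Wf δ)
    (he : DExt δ δ') (h : CV δ.W T c) : CV δ'.W T c :=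
  ⟨h.root, h.uniq, h.mem, fun e h1 => Stagea.vstr_mono hM hw he (h.img e h1),
    fun e h1 => ⟨(h.stem e h1).1, Stagea.vstr_mono hM hw he (h.stem e h1).2⟩, h.emb, h.stemEmb,
    h.parent, h.ac⟩

theorem te_zero {Tr : ℕ → List ℕ → Prop} {E : List ℕ} (hE : 0 ∉ E) {s : List ℕ}
    (hs : TE Tr E s) : s.head? ≠ some 0 := by
  cases s with
  | nil => simp
  | cons e s =>
    intro h
    have h1 : e = 0 := by simpa using h
    exact hE (h1 ▸ hs.1)

/-- Moves are no facts. -/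
theorem cle_text {Tr : ℕ → List ℕ → Prop} {E : List ℕ} (hE : 0 ∉ E) {c c' : Cnd3}
    (h : CLe (TE Tr E) c c') (l : List ℕ) (hl : ∀ a ∈ l, Txt.kd a ≠ 0) :
    CLe (TE Tr E) c (c'.1 ++ l, c'.2) where
  px := h.px.trans (List.prefix_append _ _)
  old := h.old
  new := h.new
  fact := by
    intro n hn s ρ hf hT
    have hn' : n ∈ (c'.1 ++ l).drop c.1.length := hn
    rw [List.drop_append_of_le_length h.px.length_le] at hn'
    rcases List.mem_append.1 hn' with h1 | h1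
    · exact h.fact n h1 s ρ hf hT
    · exact absurd (Txt.head_of_kd (hl n h1) hf) (te_zero hE hT)

theorem lgc_text {b c : Cnd3} (h : LgC b c) (w : List ℕ) : LgC b (w, c.2) := h

/-! ## Closures and data -/

theorem inCl_ext (hM : MonoStatement) {δ δ' : Data} (hw : Wf δ) (hw' : Wf δ') (he : DExt δ δ')
    {y x : St} (hx : x.1 < δ.N) (h : InCl δ.W y x) : InCl δ'.W y x :=
  (hM.2.2.2.2 δ δ' hw hw' he y x hx).1 h

/-- The hereditary edges of valid symbols. -/
theorem he_lt (hB : BasicStatement) {δ : Data} (hw : Wf δ) {s : ℕ} (hs : VS δ.W s) {v v' : St}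
    (h : HE s v v') : v'.1 < δ.N :=
  ((hB δ.W hw.inv.fit).2.2.2.1 s hs v v' h).1.2.1

theorem own_ext (hM : MonoStatement) {δ δ' : Data} (hw : Wf δ) (he : DExt δ δ') {r : ℕ}
    (hr : r < δ.N) : δ'.W.own r = δ.W.own r :=
  (hM.2.2.1 δ δ' hw he).own r hr

theorem adv_pub {δ δ' : Data} (hw : Wf δ) (he : DExt δ δ') (hp : δ'.pub = δ.pub)
    (ha : ∀ p ∈ δ'.advL, p ∉ δ.advL → δ.N ≤ p.1.1) {y : St} (hy : y.1 ∈ δ.pub) :
    δ'.W.adv y = none ↔ δ.W.adv y = none := by
  obtain ⟨l, hl, -⟩ := he.adv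
  constructor
  · intro h
    refine Stagea.adv_none_of (fun q hq => Stagea.adv_none h q ?_) hy
    rw [hl]
    exact List.mem_append_left _ hq
  · intro h
    refine Stagea.adv_none_of (fun q hq hqy => ?_) (by rw [hp]; exact hy)
    by_cases h1 : q ∈ δ.advL
    · exact Stagea.adv_none h q h1 hqy
    · have h2 := ha q hq h1
      have h3 := hw.pub _ hy
      rw [hqy] at h2
      omega

/-! ## One colour of an adopted extension -/

/-- A colour with treated states: the new data. -/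
structure ColA (δ δ' δ'' : Data) (y : St) (α μ : List ℕ) : Prop where
  wf : Wf δ'' ∧ LgD δ'' ∧ DExt δ δ''
  pub : δ''.pub = δ.pub
  str : VStr δ''.W (endd y α) μ (endd (endd y α) μ)
  cl : ∀ g ∈ μ, ∀ v v', HE g v v' → InCl δ''.W y v'
  adv : ∀ p ∈ δ''.advL, p ∉ δ.advL → δ.N ≤ p.1.1
  own : ∀ r, δ.N ≤ r → r < δ''.N → δ''.W.own r = some y ∨
    ∃ w', δ''.W.own r = some w' ∧ δ.N ≤ w'.1

/-- A colour with conditions: the new data. -/
structure ColB (δ δ' δ'' : Data) (k : Cnd3) : Prop where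
  gd : GD δ''
  ext : DExt δ δ''
  pub : δ''.pub = δ.pub
  N : δ''.N = δ'.N
  str : ∀ e ∈ k.2, VStr δ''.W o e.2.2 (endd o e.2.2)
  edge : ∀ x t, δ''.W.edge x t → δ.N ≤ t.1 → δ'.W.edge x t

section

variable {P : Par} {C : Ctx} {b m H : ℕ} {S : PS} {y : ℕ → St} {mu : ℕ → List ℕ} {it : ℕ → Itm}
  {γ' : ℕ → Data} {nu : ℕ → List ℕ} {k : ℕ → Cnd3}

theorem tx_of {s : ℕ} (hs : s < P.p) (hJ : C.J s = true) : Tx P C.J H s = true := by
  unfold Tx Prs
  simp [hs, hJ]

theorem tx_J {s : ℕ} (hs : s < P.p) (h : Tx P C.J H s = true) : C.J s = true := by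
  unfold Tx Prs at h
  simp only [hs, Bool.and_eq_true, Bool.or_eq_true, decide_eq_true_eq] at h
  rcases h.2 with h | h
  · omega
  · exact h

theorem colA (hA : AdoptAGStatement) (hI : PInv P C b S) (hT : PTup P C S H y mu it)
    (hE : SExt P C S H 1 y it γ' nu k) {s : ℕ} (hs : s < P.p) (hJ : C.J s = false) :
    ∃ δ'', ColA (S.g s) (γ' s) δ'' (y s) (S.al s (y s)) (nu s) := by
  obtain ⟨hw, hlg, -⟩ := hI.wf s hs
  obtain ⟨hY, -⟩ := hT.str s hs hJ
  obtain ⟨-, hu, hpub⟩ := hI.root s hs hJ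
  have hyp : (y s).1 ∈ (S.g s).pub := by
    rw [hpub, hY.root]
    exact List.mem_append_right _ (List.mem_singleton.2 rfl)
  obtain ⟨hal, hal'⟩ := hI.al s hs hJ (y s) hY
  obtain ⟨hst, -⟩ := hE.str s hs hJ
  obtain ⟨hgd, hext⟩ := hE.good s hs
  obtain ⟨δ'', h1, h2, h3, h4, h5, h6, h7, h8⟩ := hA (S.g s) (y s) (S.al s (y s)) hw hlg hY.adm
    hY.zero hyp ((hI.adn s hs hJ (y s) hY.adm hY.zero hyp).2 ⟨hY.root, hY.len.le⟩)
    (fun y' ha hz hc hne => by
      have hp' : y'.1 ∈ (S.g s).pub := by rw [hc.1]; exact hyp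
      rw [Option.isSome_iff_ne_none]
      intro hn
      obtain ⟨-, hl⟩ := (hI.adn s hs hJ y' ha hz hp').1 hn
      have h1 := hc.2.length_le
      rw [hY.len] at h1
      have h2 : y'.2 = (y s).2 := (hc.2.eq_of_length (by rw [hY.len]; omega)).symm
      exact hne (Prod.ext hc.1 h2))
    (fun r hr hr' => by
      obtain ⟨w, hw1, hw2⟩ := hI.own s hs hJ r (by rw [← hY.root]; exact hr) hr'
      refine ⟨w, hw1, ?_, ?_⟩
      · rcases hw2 with h | h
        · rw [hY.root]; exact h.le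
        · rw [hY.root, h.root]
      · intro hc
        rcases hw2 with h | h
        · have := hc.1
          rw [hY.root] at this
          omega
        · exact Prod.ext hc.1.symm (hc.2.eq_of_length (by rw [hY.len, h.len])))
    hal (fun g hg => (hal' g hg).2) (γ' s) hgd hext (nu s) _ hst
  exact ⟨δ'', ⟨⟨h1, h2, h3⟩, h4, h5, h6, h7, h8⟩⟩

theorem colB (hB : BasicStatement) (hA : AdoptBGStatement) (hI : PInv P C b S)
    (hE : SExt P C S H 1 y it γ' nu k) {s : ℕ} (hs : s < P.p) (hJ : C.J s = true) :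
    ∃ δ'', ColB (S.g s) (γ' s) δ'' (k s) := by
  obtain ⟨hw, hlg, -⟩ := hI.wf s hs
  obtain ⟨hf, -⟩ := hI.full s hs hJ
  obtain ⟨hgd, hext⟩ := hE.good s hs
  obtain ⟨hcv, -, -⟩ := hE.cnd s hs hJ
  obtain ⟨δ'', h1, h2, h3, h4, h5, h6⟩ := hA (S.g s) (γ' s) ((k s).2.map fun e => e.2.2)
    ⟨hw, hf, hlg⟩ hgd hext (fun ρ hρ => by
      obtain ⟨e, he, rfl⟩ := List.mem_map.1 hρ
      exact (hcv.stem e he).2)
  refine ⟨δ'', h1, h2, h3, h4, fun e he => h5 _ (List.mem_map.2 ⟨e, he, rfl⟩), ?_⟩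
  intro x t hxt ht
  obtain ⟨ρ, hρ, g, hg, hh⟩ := h6 x t hxt ht
  obtain ⟨e, he, rfl⟩ := List.mem_map.1 hρ
  exact ((hB (γ' s).W hgd.wf.inv.fit).2.2.2.1 g ((hcv.stem e he).2.2 g hg) x t hh).1

end

end Ado

open Ado in
/-- Module ADOPT. -/
theorem adopt (hC : CodesStatement) (hB : BasicStatement) (hM : MonoStatement)
    (hAA : AdoptAGStatement) (hAB : AdoptBGStatement) : AdoptStatement := by
  classical
  intro P C b m H S y mu it γ' nu k hI hT hE hm
  have key : ∀ s, ∃ δ'' : Data, (s < P.p → C.J s = false →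
      ColA (S.g s) (γ' s) δ'' (y s) (S.al s (y s)) (nu s)) ∧
      (s < P.p → C.J s = true → ColB (S.g s) (γ' s) δ'' (k s)) := by
    intro s
    by_cases hs : s < P.p
    · cases hJ : C.J s with
      | false =>
        obtain ⟨δ'', h⟩ := colA hAA hI hT hE hs hJ
        exact ⟨δ'', fun _ _ => h, fun _ h' => absurd h' (by simp)⟩
      | true =>
        obtain ⟨δ'', h⟩ := colB hB hAB hI hE hs hJ
        exact ⟨δ'', fun _ h' => absurd h' (by simp), fun _ _ => h⟩
    · exact ⟨S.g s, fun h => absurd h hs, fun h => absurd h hs⟩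
  choose g hgA hgB using key
  have hwf : ∀ s < P.p, Wf (g s) ∧ LgD (g s) ∧ DExt (S.g s) (g s) := by
    intro s hs
    cases hJ : C.J s with
    | false => exact (hgA s hs hJ).wf
    | true =>
      have h := hgB s hs hJ
      exact ⟨h.gd.wf, h.gd.lg, h.ext⟩
  let al' : ℕ → St → List ℕ := fun s y' =>
    if C.J s = false ∧ y' = y s then S.al s y' ++ nu s else S.al s y'
  let cv' : Itm → Cnd3 := fun I =>
    if Tx P C.J H I.col = true ∧ it I.col = I then
      ((k I.col).1 ++ [mR (ht (HT P I) (S.cv I).1) [], mN m], (k I.col).2) else S.cv I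
  have hal1 : ∀ s, C.J s = false → al' s (y s) = S.al s (y s) ++ nu s := fun s h =>
    if_pos ⟨h, rfl⟩
  have hal2 : ∀ s y', y' ≠ y s → al' s y' = S.al s y' := fun s y' h =>
    if_neg (fun h' => h h'.2)
  have hcv1 : ∀ I, Tx P C.J H I.col = true → it I.col = I → cv' I =
      ((k I.col).1 ++ [mR (ht (HT P I) (S.cv I).1) [], mN m], (k I.col).2) := fun I h h' =>
    if_pos ⟨h, h'⟩
  have hcv2 : ∀ I, ¬ (Tx P C.J H I.col = true ∧ it I.col = I) → cv' I = S.cv I := fun I h =>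
    if_neg h
  have hTI : ∀ I, C.its I → TI (HT P I) b (C.cur I).1 (S.cv I).1 := fun I h => by
    obtain ⟨h1, h2, h3, h4⟩ := hI.txt I h
    exact ⟨h1, h2, h3, h4⟩
  have hmv : ∀ (n : ℕ), ∀ a ∈ [mR n [], mN m], Txt.kd a ≠ 0 := by
    intro n a ha
    rcases List.mem_cons.1 ha with rfl | ha
    · rw [Txt.kd_mR]; decide
    · rw [List.mem_singleton] at ha
      rw [ha, Txt.kd_mN]
      decide
  -- texts
  have htx : ∀ I, C.its I → TI (HT P I) m (C.cur I).1 (cv' I).1 ∧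
      Txt.Le (HT P I) (ht (HT P I) (S.cv I).1) (S.cv I).1 (cv' I).1 := by
    intro I hI'
    by_cases h : Tx P C.J H I.col = true ∧ it I.col = I
    · rw [hcv1 I h.1 h.2]
      have h1 := hE.txt I.col h.1
      rw [h.2] at h1
      exact (hTI I hI').adopt hm h1
    · rw [hcv2 I h]
      exact ⟨(hTI I hI').weak hm, Txt.Le.rfl' (hTI I hI').le.leg⟩
  -- conditions
  have hpt : ∀ I, C.its I → I.col < P.p → CV (g I.col).W (LT P I) (cv' I) ∧
      CLe (LT P I) (S.cv I) (cv' I) ∧ CLe (LT P I) (C.cur I) (cv' I) ∧ LgC (C.cur I) (cv' I) := by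
    intro I hI' hs
    obtain ⟨hJ, h1, h2, h3⟩ := hI.pt I hI' hs
    by_cases h : Tx P C.J H I.col = true ∧ it I.col = I
    · rw [hcv1 I h.1 h.2]
      obtain ⟨h4, h5, h6⟩ := hE.cnd I.col hs hJ
      rw [h.2] at h4 h5 h6
      have h7 := (hgB I.col hs hJ).str
      have h8 := cle_text (hI.lab I hI') h5 _ (hmv (ht (HT P I) (S.cv I).1))
      exact ⟨cv_text (cv_stems hC h4 h7) _, h8, Limit.cle_trans h2 h8 h4.uniq, lgc_text h6 _⟩
    · rw [hcv2 I h]
      exact ⟨cv_ext hM (hI.wf _ hs).1 (hwf _ hs).2.2 h1, Xreal.cle_refl _ _, h2, h3⟩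
  refine ⟨⟨g, al', cv'⟩, ⟨?_, ?_, ?_, ?_, ?_, ?_, hI.lab, ?_, ?_⟩, ⟨?_, ?_, ?_, ?_⟩, ?_, ?_, ?_⟩
  · -- wf
    intro s hs
    obtain ⟨h1, h2, h3⟩ := hwf s hs
    exact ⟨h1, h2, Mono.dext_trans _ _ _ (hI.wf s hs).2.2 h3⟩
  · -- full
    intro s hs hJ
    have h := hgB s hs hJ
    exact ⟨h.gd.full, h.pub.trans (hI.full s hs hJ).2⟩
  · -- root
    intro s hs hJ
    obtain ⟨h1, h2, h3⟩ := hI.root s hs hJ
    exact ⟨h1, lt_of_lt_of_le h2 (hwf s hs).2.2.N, (hgA s hs hJ).pub.trans h3⟩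
  · -- adn
    intro s hs hJ y' ha hz hp
    have h := hgA s hs hJ
    have hp' : y'.1 ∈ (S.g s).pub := by rw [← h.pub]; exact hp
    exact (adv_pub (hI.wf s hs).1 h.wf.2.2 h.pub h.adv hp').trans (hI.adn s hs hJ y' ha hz hp')
  · -- al
    intro s hs hJ y' hY'
    obtain ⟨h1, h2⟩ := hI.al s hs hJ y' hY'
    have h := hgA s hs hJ
    have hw := (hI.wf s hs).1
    have hold : VStr (g s).W y' (S.al s y') (endd y' (S.al s y')) ∧
        ∀ g' ∈ S.al s y', Lg y' (tgt g') ∧ ∀ v v', HE g' v v' → InCl (g s).W y' v' :=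
      ⟨Stagea.vstr_mono hM hw h.wf.2.2 h1, fun g' hg' => ⟨(h2 g' hg').1, fun v v' hv =>
        inCl_ext hM hw h.wf.1 h.wf.2.2 (he_lt hB hw (h1.2 g' hg') hv) ((h2 g' hg').2 v v' hv)⟩⟩
    show VStr (g s).W y' (al' s y') (endd y' (al' s y')) ∧
        ∀ g' ∈ al' s y', Lg y' (tgt g') ∧ ∀ v v', HE g' v v' → InCl (g s).W y' v'
    by_cases hy : y' = y s
    · rw [hy] at hold ⊢
      rw [hal1 s hJ, Stagea.endd_append hC]
      refine ⟨(Stagea.vstr_append hC).2 ⟨hold.1, h.str⟩, fun g' hg' => ?_⟩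
      rcases List.mem_append.1 hg' with hg' | hg'
      · exact hold.2 g' hg'
      · exact ⟨(hE.str s hs hJ).2 g' hg', h.cl g' hg'⟩
    · rw [hal2 s y' hy]
      exact hold
  · -- own
    intro s hs hJ r hr hr'
    have h := hgA s hs hJ
    have hw := (hI.wf s hs).1
    obtain ⟨-, hu, -⟩ := hI.root s hs hJ
    by_cases hrN : r < (S.g s).N
    · obtain ⟨w, h1, h2⟩ := hI.own s hs hJ r hr hrN
      exact ⟨w, (own_ext hM hw h.wf.2.2 hrN).trans h1, h2⟩
    · rcases h.own r (not_lt.1 hrN) hr' with h1 | ⟨w', h1, h2⟩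
      · exact ⟨y s, h1, Or.inr (hT.str s hs hJ).1⟩
      · exact ⟨w', h1, Or.inl (lt_of_lt_of_le hu h2)⟩
  · -- pt
    intro I hI' hs
    obtain ⟨h1, -, h2, h3⟩ := hpt I hI' hs
    exact ⟨(hI.pt I hI' hs).1, h1, h2, h3⟩
  · -- txt
    intro I hI'
    obtain ⟨h1, -⟩ := htx I hI'
    exact ⟨h1.le, h1.null, h1.ok, h1.opn⟩
  · -- Lat.ext
    exact fun s hs => (hwf s hs).2.2
  · -- Lat.al
    intro s hs hJ y' hY'
    have h := hgA s hs hJ
    show ∃ ν, al' s y' = S.al s y' ++ ν ∧ VStr (g s).W (endd y' (S.al s y')) ν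
      (endd y' (al' s y')) ∧ ∀ g ∈ ν, Lg y' (tgt g)
    by_cases hy : y' = y s
    · refine ⟨nu s, ?_, ?_, ?_⟩
      · rw [hy]; exact hal1 s hJ
      · rw [hy, hal1 s hJ, Stagea.endd_append hC]; exact h.str
      · rw [hy]; exact (hE.str s hs hJ).2
    · refine ⟨[], ?_, ?_, ?_⟩
      · rw [hal2 s y' hy, List.append_nil]
      · rw [hal2 s y' hy]
        exact ⟨rfl, fun g' hg' => absurd hg' List.not_mem_nil⟩
      · exact fun g' hg' => absurd hg' List.not_mem_nil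
  · -- Lat.pt
    exact fun I hI' hs => (hpt I hI' hs).2.1
  · -- Lat.txt
    exact fun I hI' => (htx I hI').2
  · exact fun s _ hJ => hal1 s hJ
  · intro c hc
    obtain ⟨-, hcol⟩ := hT.itm c hc
    have h1 : Tx P C.J H (it c).col = true := by rw [hcol]; exact hc
    have h2 : it (it c).col = it c := by rw [hcol]
    show cv' (it c) = _
    rw [hcv1 (it c) h1 h2, hcol]
  · intro s hs hJ
    have h := hgB s hs hJ
    exact ⟨h.N, h.edge⟩

open Ado in
/-- Module ADOPT, second part: a skipped task. -/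
theorem skip (hC : CodesStatement) (hM : MonoStatement) : SkipStatement := by
  classical
  intro P C b m H S y mu it hI hT hm
  let cv' : Itm → Cnd3 := fun I =>
    if Tx P C.J H I.col = true ∧ it I.col = I then ((S.cv I).1 ++ [mN m], (S.cv I).2) else S.cv I
  have hcv1 : ∀ I, Tx P C.J H I.col = true → it I.col = I →
      cv' I = ((S.cv I).1 ++ [mN m], (S.cv I).2) := fun I h h' => if_pos ⟨h, h'⟩
  have hcv2 : ∀ I, ¬ (Tx P C.J H I.col = true ∧ it I.col = I) → cv' I = S.cv I := fun I h =>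
    if_neg h
  have hTI : ∀ I, C.its I → TI (HT P I) b (C.cur I).1 (S.cv I).1 := fun I h => by
    obtain ⟨h1, h2, h3, h4⟩ := hI.txt I h
    exact ⟨h1, h2, h3, h4⟩
  have hmv : ∀ a ∈ [mN m], Txt.kd a ≠ 0 := by
    intro a ha
    rw [List.mem_singleton] at ha
    rw [ha, Txt.kd_mN]
    decide
  have htx : ∀ I, C.its I → TI (HT P I) m (C.cur I).1 (cv' I).1 ∧
      Txt.Le (HT P I) (ht (HT P I) (S.cv I).1) (S.cv I).1 (cv' I).1 := by
    intro I hI'
    by_cases h : Tx P C.J H I.col = true ∧ it I.col = I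
    · rw [hcv1 I h.1 h.2]
      obtain ⟨h1, h2, -⟩ := (hTI I hI').skip hm
      exact ⟨h1, h2 _⟩
    · rw [hcv2 I h]
      exact ⟨(hTI I hI').weak hm, Txt.Le.rfl' (hTI I hI').le.leg⟩
  have hpt : ∀ I, C.its I → I.col < P.p → CV (S.g I.col).W (LT P I) (cv' I) ∧
      CLe (LT P I) (S.cv I) (cv' I) ∧ CLe (LT P I) (C.cur I) (cv' I) ∧ LgC (C.cur I) (cv' I) := by
    intro I hI' hs
    obtain ⟨hJ, h1, h2, h3⟩ := hI.pt I hI' hs
    by_cases h : Tx P C.J H I.col = true ∧ it I.col = I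
    · rw [hcv1 I h.1 h.2]
      exact ⟨cv_text h1 _, cle_text (hI.lab I hI') (Xreal.cle_refl _ _) _ hmv,
        cle_text (hI.lab I hI') h2 _ hmv, lgc_text h3 _⟩
    · rw [hcv2 I h]
      exact ⟨h1, Xreal.cle_refl _ _, h2, h3⟩
  refine ⟨⟨S.g, S.al, cv'⟩, ⟨hI.wf, hI.full, hI.root, hI.adn, hI.al, hI.own, hI.lab, ?_, ?_⟩,
    ⟨?_, ?_, ?_, ?_⟩, ?_⟩
  · intro I hI' hs
    obtain ⟨h1, -, h2, h3⟩ := hpt I hI' hs
    exact ⟨(hI.pt I hI' hs).1, h1, h2, h3⟩
  · intro I hI'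
    obtain ⟨h1, -⟩ := htx I hI'
    exact ⟨h1.le, h1.null, h1.ok, h1.opn⟩
  · exact fun s _ => Limit.dext_refl _
  · intro s _ _ y' _
    exact ⟨[], (List.append_nil _).symm, ⟨rfl, fun g' hg' => absurd hg' List.not_mem_nil⟩,
      fun g' hg' => absurd hg' List.not_mem_nil⟩
  · exact fun I hI' hs => (hpt I hI' hs).2.1
  · exact fun I hI' => (htx I hI').2
  · intro S' hwS' hL off hoff γ' nu k hE
    have hν : ∀ s, ∃ ν, s < P.p → C.J s = false → S'.al s (y s) = S.al s (y s) ++ ν ∧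
        VStr (S'.g s).W (endd (y s) (S.al s (y s))) ν (endd (y s) (S'.al s (y s))) ∧
        ∀ g ∈ ν, Lg (y s) (tgt g) := by
      intro s
      by_cases h : s < P.p ∧ C.J s = false
      · obtain ⟨ν, h1⟩ := hL.al s h.1 h.2 (y s) (hT.str s h.1 h.2).1
        exact ⟨ν, fun _ _ => h1⟩
      · exact ⟨[], fun h1 h2 => absurd ⟨h1, h2⟩ h⟩
    choose ν hν using hν
    refine ⟨fun s => ν s ++ nu s, ⟨?_, ?_, ?_, ?_⟩, ?_⟩
    · intro s hs
      obtain ⟨h1, h2⟩ := hE.good s hs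
      exact ⟨h1, Mono.dext_trans _ _ _ (hL.ext s hs) h2⟩
    · intro s hs hJ
      obtain ⟨h1, h2, h3⟩ := hν s hs hJ
      obtain ⟨h4, h5⟩ := hE.str s hs hJ
      obtain ⟨h6, h7⟩ := hE.good s hs
      have h8 := Stagea.vstr_mono hM (hwS' s hs) h7 h2
      have h9 : endd (y s) (S'.al s (y s)) = endd (endd (y s) (S.al s (y s))) (ν s) := by
        rw [h1, Stagea.endd_append hC]
      show VStr (γ' s).W (endd (y s) (S.al s (y s))) (ν s ++ nu s)
        (endd (endd (y s) (S.al s (y s))) (ν s ++ nu s)) ∧ ∀ g ∈ ν s ++ nu s, Lg (y s) (tgt g)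
      rw [Stagea.endd_append hC, ← h9]
      refine ⟨(Stagea.vstr_append hC).2 ⟨by rw [← h9]; exact h8, by rw [← h9]; exact h4⟩, ?_⟩
      intro g' hg'
      rcases List.mem_append.1 hg' with hg' | hg'
      · exact h3 g' hg'
      · exact h5 g' hg'
    · intro s hs hJ
      have htxs : Tx P C.J H s = true := tx_of hs hJ
      obtain ⟨hits, hcol⟩ := hT.itm s htxs
      obtain ⟨h1, h2, h3⟩ := hE.cnd s hs hJ
      have h4 : CLe (LT P (it s)) (S.cv (it s)) (cv' (it s)) :=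
        (hpt (it s) hits (by rw [hcol]; exact hs)).2.1
      have h5 : CLe (LT P (it s)) (cv' (it s)) (S'.cv (it s)) :=
        hL.pt (it s) hits (by rw [hcol]; exact hs)
      exact ⟨h1, Limit.cle_trans h4 (Limit.cle_trans h5 h2 h1.uniq) h1.uniq, h3⟩
    · intro c hc
      obtain ⟨hits, hcol⟩ := hT.itm c hc
      have h1 : cv' (it c) = ((S.cv (it c)).1 ++ [mN m], (S.cv (it c)).2) :=
        hcv1 (it c) (by rw [hcol]; exact hc) (by rw [hcol])
      obtain ⟨-, h3, h4⟩ := (hTI (it c) hits).skip hm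
      have h5 := hL.txt (it c) hits
      have h6 := hE.txt c hc
      have h7 : Txt.Le (HT P (it c)) (ht (HT P (it c)) (cv' (it c)).1) (cv' (it c)).1
        (S'.cv (it c)).1 := h5
      rw [h1] at h7
      have h8 : ht (HT P (it c)) ((S.cv (it c)).1 ++ [mN m]) ≤
          ht (HT P (it c)) (S'.cv (it c)).1 := (h7.take le_rfl le_rfl).1
      show Txt.Le (HT P (it c)) (ht (HT P (it c)) (S.cv (it c)).1 + 1) (S.cv (it c)).1 (k c).1
      rw [h4] at h7 h8
      exact (h3 _).trans (h7.trans (h6.mono (le_trans h8 (Nat.le_add_right _ _))))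
    · intro s hs hJ
      obtain ⟨h1, -, -⟩ := hν s hs hJ
      show S.al s (y s) ++ (ν s ++ nu s) = S'.al s (y s) ++ nu s
      rw [h1, List.append_assoc]

end Pool.Agent.Lib.MP_d48993_lc.Gr
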