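import Pool.Agent.Lib.MP_d48993_lc.AE.Gr.Stm2
import Pool.Agent.Lib.MP_d48993_lc.AE.Gr.Blk

/-!
# Part G (MP_d48993): module BLK, the blocks (wrapper and computability)
-/

set_option autoImplicit false

namespace Pool.Agent.Lib.MP_d48993_lc.Gr

theorem blkPow_prim : Primrec₂ ((· ^ ·) : ℕ → ℕ → ℕ) :=
  Primrec₂.unpaired'.1 Nat.Primrec.pow

theorem nb_prim : Primrec₂ nb := by
  have h1 : PrimrecPred (fun x : ℕ × ℕ => x.2 ≤ 2) :=
    PrimrecRel.comp Primrec.nat_le Primrec.snd (Primrec.const 2)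
  have h2 : Primrec (fun x : ℕ × ℕ => (x.2 - 1) ^ x.1) :=
    blkPow_prim.comp (Primrec.nat_sub.comp Primrec.snd (Primrec.const 1)) Primrec.fst
  exact Primrec.ite h1 (Primrec.const 1) h2

/-- the step of the position -/
def nxtPos (p : ℕ) (q : ℕ × ℕ) : ℕ × ℕ :=
  if q.2 + 1 < nb p q.1 then (q.1, q.2 + 1) else (q.1 + 1, 0)

theorem pos_eq_rec (p t : ℕ) : pos p t = Nat.rec (motive := fun _ => ℕ × ℕ) (2, 0)
    (fun _ q => nxtPos p q) t := by
  induction t with
  | zero => rfl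
  | succ t ih =>
    rw [pos, ih]
    rfl

theorem nxtPos_prim : Primrec₂ nxtPos := by
  have hsucc : Primrec (fun x : ℕ × (ℕ × ℕ) => x.2.2 + 1) :=
    Primrec.succ.comp (Primrec.snd.comp Primrec.snd)
  have h1 : PrimrecPred (fun x : ℕ × (ℕ × ℕ) => x.2.2 + 1 < nb x.1 x.2.1) :=
    PrimrecRel.comp Primrec.nat_lt hsucc (nb_prim.comp Primrec.fst
      (Primrec.fst.comp Primrec.snd))
  have h2 : Primrec (fun x : ℕ × (ℕ × ℕ) => (x.2.1, x.2.2 + 1)) :=
    Primrec.pair (Primrec.fst.comp Primrec.snd) hsucc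
  have h3 : Primrec (fun x : ℕ × (ℕ × ℕ) => (x.2.1 + 1, 0)) :=
    Primrec.pair (Primrec.succ.comp (Primrec.fst.comp Primrec.snd)) (Primrec.const 0)
  exact Primrec.ite h1 h2 h3

theorem pos_prim : Primrec₂ pos := by
  have h0 : Primrec₂ (fun (p : ℕ) (x : ℕ × (ℕ × ℕ)) => nxtPos p x.2) :=
    nxtPos_prim.comp Primrec.fst (Primrec.snd.comp Primrec.snd)
  have h : Primrec₂ (fun (p t : ℕ) => (Nat.rec (motive := fun _ => ℕ × ℕ) (2, 0)
      (fun _ q => nxtPos p q) t : ℕ × ℕ)) :=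
    Primrec.nat_rec (Primrec.const (2, 0)) h0
  refine h.of_eq fun p t => ?_
  rw [pos_eq_rec]

/-- the step of the first index -/
def nxtFst (p : ℕ) (q : ℕ × ℕ) : ℕ := if q.1 ≤ 1 then 0 else q.2 + nb p q.1

theorem fst_eq_rec (p n : ℕ) : fst p n = Nat.rec (motive := fun _ => ℕ) 0
    (fun n q => nxtFst p (n, q)) n := by
  induction n with
  | zero => rfl
  | succ n ih =>
    rw [fst, ih]
    rfl

theorem nxtFst_prim : Primrec₂ nxtFst := by
  have h1 : PrimrecPred (fun x : ℕ × (ℕ × ℕ) => x.2.1 ≤ 1) :=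
    PrimrecRel.comp Primrec.nat_le (Primrec.fst.comp Primrec.snd) (Primrec.const 1)
  have h2 : Primrec (fun x : ℕ × (ℕ × ℕ) => x.2.2 + nb x.1 x.2.1) :=
    Primrec.nat_add.comp (Primrec.snd.comp Primrec.snd)
      (nb_prim.comp Primrec.fst (Primrec.fst.comp Primrec.snd))
  exact Primrec.ite h1 (Primrec.const 0) h2

theorem fst_prim : Primrec₂ fst := by
  have h : Primrec₂ (fun (p n : ℕ) => (Nat.rec (motive := fun _ => ℕ) 0
      (fun n q => nxtFst p (n, q)) n : ℕ)) :=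
    Primrec.nat_rec (Primrec.const 0) nxtFst_prim
  refine h.of_eq fun p n => ?_
  rw [fst_eq_rec]

theorem blk_prim : Primrec₂ blk := by
  have h : Primrec (fun x : ℕ × ℕ => (pos x.1 x.2).1) := Primrec.fst.comp pos_prim
  exact h

theorem ix_prim : Primrec₂ ix := by
  have h : Primrec (fun x : ℕ × ℕ => (pos x.1 x.2).2) := Primrec.snd.comp pos_prim
  exact h

/-- Module BLK. -/
theorem blkS : BlkStatement := by
  intro p hp
  refine ⟨rfl, fun t => ?_, fun n hn => ?_, fun t n hn => blk_iff p hn, fun t => ?_,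
    fun t s _ => dv_range p t s, fun n hn D hD => dv_surj p (by omega) D hD, fun J N => ?_,
    ?_, ?_⟩
  · rcases blk_step p t with h | h
    · exact Or.inl h.1
    · exact Or.inr h.1
  · exact ⟨blk_fst p hn, blk_lst p hn, fst_le_lst p hn, (lst_succ p hn).symm⟩
  · rcases blk_step p t with ⟨h1, h2⟩ | ⟨h1, h2, h3⟩
    · refine ⟨fun _ => h1, fun _ => ?_⟩
      have h4 := ix_lt p (t + 1)
      rw [h1, h2] at h4
      exact h4
    · refine ⟨fun h4 => ?_, fun h4 => ?_⟩ <;> omega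
  · exact jj_surj p J N
  · have h : Primrec (fun x : ℕ × ℕ => blk x.1 x.2) := blk_prim
    exact h.to_comp
  · have h : Primrec (fun x : ℕ × ℕ => fst x.1 x.2) := fst_prim
    exact h.to_comp

end Pool.Agent.Lib.MP_d48993_lc.Gr
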