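import Pool.Agent.Lib.MP_d48993_lc.AE.Gr.LimDefs
import Pool.Agent.Lib.MP_d48993_lc.AE.Gr.BlkS
import Pool.Agent.Lib.MP_d48993_lc.AE.Node.Decv
import Pool.Agent.Lib.MP_d48993_lc.AE.Rig.TxtC

/-!
# Part G (MP_d48993), module GDEC, part 1: primitive recursive predicates
-/

set_option autoImplicit false

namespace Pool.Agent.Lib.MP_d48993_lc.Gr.Dec

open Primrec Node Node.Decv Gr Gr.Lm

variable {γ : Type} [Primcodable γ]

/-- A primitive recursive predicate, as a function to `Bool`, for any instance. -/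
theorem dec_pr {q : γ → Prop} [inst : ∀ a, Decidable (q a)] (h : PrimrecPred q) :
    Primrec fun a => @decide (q a) (inst a) := by
  obtain ⟨_, h⟩ := h
  exact h.of_eq fun a => by congr

/-! ## Numbers -/

theorem blk_pr (p : ℕ) {t : γ → ℕ} (ht : Primrec t) : Primrec fun a => blk p (t a) :=
  blk_prim.comp (const p) ht

theorem ix_pr (p : ℕ) {t : γ → ℕ} (ht : Primrec t) : Primrec fun a => ix p (t a) :=
  ix_prim.comp (const p) ht

theorem dv_pr (p : ℕ) {t s : γ → ℕ} (ht : Primrec t) (hs : Primrec s) :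
    Primrec fun a => dv p (t a) (s a) := by
  have hb : Primrec fun a => blk p (t a) - 1 := nat_sub.comp (blk_pr p ht) (const 1)
  exact nat_add.comp (const 2) (nat_mod.comp (nat_div.comp (ix_pr p ht)
    (blkPow_prim.comp hb hs)) hb)

theorem testBit_pr {m s : γ → ℕ} (hm : Primrec m) (hs : Primrec s) :
    Primrec fun a => (m a).testBit (s a) := by
  have h : PrimrecPred fun a => m a / 2 ^ s a % 2 = 1 :=
    eqp (nat_mod.comp (nat_div.comp hm (blkPow_prim.comp (const 2) hs)) (const 2)) (const 1)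
  exact (dec_pr h).of_eq fun a => (Nat.testBit_eq_decide_div_mod_eq ..).symm

theorem jj_pr {n s : γ → ℕ} (hn : Primrec n) (hs : Primrec s) :
    Primrec fun a => JJ (n a) (s a) :=
  testBit_pr (Primrec.fst.comp (unpair.comp hn)) hs

theorem bk_pr {u : γ → ℕ} (hu : Primrec u) : Primrec fun a => bk (u a) :=
  Primrec.fst.comp (unpair.comp (snd.comp (unpair.comp hu)))

theorem digits_pr : Primrec (Nat.digits 2) := by
  have h : Primrec₂ (fun (_ : Unit) (n : ℕ) => Nat.digits 2 n) := by
    refine nat_strong_rec _ (g := fun (_ : Unit) (L : List (List ℕ)) => some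
      (if L.length = 0 then [] else (L.length % 2) :: (L[L.length / 2]?).getD [])) ?_ ?_
    · refine option_some.comp ?_
      have hl : Primrec fun q : Unit × List (List ℕ) => q.2.length := list_length.comp snd
      exact itep (eqp hl (const 0)) (const []) (list_cons.comp (nat_mod.comp hl (const 2))
        (getD_pr (get_pr snd (nat_div.comp hl (const 2))) (const [])))
    · intro _ n
      simp only [List.length_map, List.length_range]
      split_ifs with h
      · subst h; simp
      · congr 1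
        have h1 : n / 2 < n := Nat.div_lt_self (Nat.pos_of_ne_zero h) (by norm_num)
        rw [Nat.digits_def' (by norm_num) (Nat.pos_of_ne_zero h)]
        simp [h1]
  exact h.comp (const ()) Primrec.id

theorem kb_pr {n : γ → ℕ} (hn : Primrec n) : Primrec fun a => Kb (n a) := by
  have h1 : Primrec₂ (fun (_ : γ) (a : ℕ) => Encodable.encode ((Nat.digits 2 a).dropLast)) := by
    refine Primrec.encode.comp ?_
    have h2 : Primrec (fun l : List ℕ => l.dropLast) :=
      (list_take.comp (nat_sub.comp list_length (const 1)) Primrec.id).of_eq fun l => by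
        simp [List.dropLast_eq_take]
    exact h2.comp (digits_pr.comp snd)
  have h3 : Primrec fun a => (List.range (2 ^ (n a + 1))).map
      (fun a => Encodable.encode ((Nat.digits 2 a).dropLast)) :=
    list_map (list_range.comp (blkPow_prim.comp (const 2) (nat_add.comp hn (const 1)))) h1
  have h4 : Primrec₂ (fun (_ : γ) (x : ℕ × ℕ) => max x.1 x.2) :=
    nat_max.comp (Primrec.fst.comp snd) (snd.comp snd)
  exact nat_add.comp (list_foldr h3 (const 0) h4) (const 1)

/-! ## Levels -/

theorem rise_pr {x v : γ → St} (hx : Primrec x) (hv : Primrec v) :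
    PrimrecPred fun a => Rise (x a) (v a) :=
  nat_lt.comp (nat_add.comp (bk_pr (Primrec.fst.comp hx)) (list_length.comp (snd.comp hv)))
    (nat_add.comp (bk_pr (Primrec.fst.comp hv)) (list_length.comp (snd.comp hx)))

theorem same_pr {x v : γ → St} (hx : Primrec x) (hv : Primrec v) :
    PrimrecPred fun a => Same (x a) (v a) :=
  (eqp (nat_add.comp (bk_pr (Primrec.fst.comp hx)) (list_length.comp (snd.comp hv)))
    (nat_add.comp (bk_pr (Primrec.fst.comp hv)) (list_length.comp (snd.comp hx)))).and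
    (eqp (list_head?.comp (snd.comp hv)) (list_head?.comp (snd.comp hx)))

theorem lg_pr {x v : γ → St} (hx : Primrec x) (hv : Primrec v) :
    PrimrecPred fun a => Lg (x a) (v a) := (rise_pr hx hv).or (same_pr hx hv)

theorem lgD_iff (δ : Data) : LgD δ ↔ ∀ p ∈ δ.advL, ∀ α, δ.W.adv p.1 = some α →
    ∀ g ∈ α, Lg p.1 (tgt g) := by
  constructor
  · intro h p _ α hα
    exact h p.1 α hα
  · intro h y α hα g hg
    have hne : α ≠ [] := by rintro rfl; simp at hg
    obtain ⟨p, hp, rfl⟩ : ∃ p ∈ δ.advL, p.1 = y := by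
      have h1 : ((δ.2.2.2.1.find? (fun p => p.1 = y)).map Prod.snd).or
        (if y.1 < δ.1 ∧ y.1 ∉ δ.2.1 then some [] else none) = some α := hα
      cases h2 : δ.2.2.2.1.find? (fun p => p.1 = y) with
      | none =>
        rw [h2] at h1
        simp only [Option.map_none, Option.none_or] at h1
        split_ifs at h1
        exact absurd (Option.some.inj h1).symm hne
      | some p =>
        have h3 := List.find?_some h2
        exact ⟨p, List.mem_of_find?_eq_some h2, by simpa using h3⟩
    exact h p hp α hα g hg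

theorem lgD_pr {d : γ → Data} (hd : Primrec d) : PrimrecPred fun a => LgD (d a) := by
  refine PrimrecPred.of_eq ?_ fun a => (lgD_iff (d a)).symm
  refine fml (advL_pr hd) (fopt (R := fun (q : γ × St × List ℕ) α => ∀ g ∈ α, Lg q.2.1 (tgt g))
    (adv_pr (hd.comp Primrec.fst) (Primrec.fst.comp snd)) ?_)
  exact fml snd (lg_pr (Primrec.fst.comp (snd.comp (Primrec.fst.comp Primrec.fst))) (tgt_pr snd))

theorem gd_pr (hc : CodesStatement) {d : γ → Data} (hd : Primrec d) :
    PrimrecPred fun a => GD (d a) :=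
  ((wf_pr hc hd).and ((full_pr hd).and (lgD_pr hd))).of_eq fun _ =>
    ⟨fun h => ⟨h.1, h.2.1, h.2.2⟩, fun h => ⟨h.wf, h.full, h.lg⟩⟩

theorem vstr_pr (hc : CodesStatement) {d : γ → Data} {x y : γ → St} {τ : γ → List ℕ}
    (hd : Primrec d) (hx : Primrec x) (hτ : Primrec τ) (hy : Primrec y) :
    PrimrecPred fun a => VStr (d a).W (x a) (τ a) (y a) :=
  (ch_pr hx hτ hy).and (fml hτ (vs_pr hc (hd.comp Primrec.fst) snd))

/-! ## Conditions -/

theorem at_iff (z : St) (c : Cnd3) : At z c ↔
    (∀ e ∈ c.2, (endd o e.2.2).1 = z.1 ∧ (endd o e.2.2).2 = z.2 ++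
      [((endd o e.2.2).2.getLast?).getD 0] ∧ 1 ≤ ((endd o e.2.2).2.getLast?).getD 0) ∧
    ∀ e ∈ c.2, ∀ e' ∈ c.2, endd o e.2.2 = endd o e'.2.2 → e = e' := by
  constructor
  · rintro ⟨h1, h2⟩
    refine ⟨fun e he => ?_, h2⟩
    obtain ⟨i, hi, h3⟩ := h1 e he
    rw [h3]
    simp [ow, hi]
  · rintro ⟨h1, h2⟩
    refine ⟨fun e he => ?_, h2⟩
    obtain ⟨h3, h4, h5⟩ := h1 e he
    exact ⟨_, h5, Prod.ext h3 h4⟩

theorem at_pr {z : γ → St} {c : γ → Cnd3} (hz : Primrec z) (hc : Primrec c) :
    PrimrecPred fun a => At (z a) (c a) := by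
  refine PrimrecPred.of_eq ?_ fun a => (at_iff (z a) (c a)).symm
  have he : Primrec fun q : γ × (List ℕ × List ℕ × List ℕ) => endd o q.2.2.2 :=
    endd_pr (const o) (snd.comp (snd.comp snd))
  have hl : Primrec fun q : γ × (List ℕ × List ℕ × List ℕ) =>
      ((endd o q.2.2.2).2.getLast?).getD 0 := getD_pr (last_pr (snd.comp he)) (const 0)
  refine (fml (snd.comp hc) (PrimrecPred.and ?_ (PrimrecPred.and ?_ ?_))).and
    (fml (R := fun a e => ∀ e' ∈ (c a).2, endd o e.2.2 = endd o e'.2.2 → e = e') (snd.comp hc)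
    (fml (R := fun (q : γ × (List ℕ × List ℕ × List ℕ)) e' => endd o q.2.2.2 = endd o e'.2.2 →
      q.2 = e') (snd.comp (hc.comp Primrec.fst)) (imp (eqp ?_ ?_) (eqp ?_ ?_))))
  · exact eqp (Primrec.fst.comp he) (Primrec.fst.comp (hz.comp Primrec.fst))
  · exact eqp (snd.comp he) (list_append.comp (snd.comp (hz.comp Primrec.fst))
      (list_cons.comp hl (const [])))
  · exact nat_le.comp (const 1) hl
  · exact he.comp Primrec.fst
  · exact endd_pr (const o) (snd.comp (snd.comp snd))
  · exact snd.comp Primrec.fst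
  · exact snd

theorem prefix_pr {v w : γ → List ℕ} (hv : Primrec v) (hw : Primrec w) :
    PrimrecPred fun a => v a <+: w a :=
  (eqp hv (list_take.comp (list_length.comp hv) hw)).of_eq fun _ =>
    List.prefix_iff_eq_take.symm

theorem lgC_pr {b c : γ → Cnd3} (hb : Primrec b) (hc : Primrec c) :
    PrimrecPred fun a => LgC (b a) (c a) := by
  have h1 : Primrec fun q : (γ × (List ℕ × List ℕ × List ℕ)) × (List ℕ × List ℕ × List ℕ) =>
      q.2.2.2 := snd.comp (snd.comp snd)
  have h2 : Primrec fun q : (γ × (List ℕ × List ℕ × List ℕ)) × (List ℕ × List ℕ × List ℕ) =>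
      q.1.2.2.2 := snd.comp (snd.comp (snd.comp Primrec.fst))
  refine fml (R := fun a e' => ∃ e ∈ (b a).2, e.2.2 <+: e'.2.2 ∧
    ∀ g ∈ e'.2.2.drop e.2.2.length, Lg (endd o e.2.2) (tgt g)) (snd.comp hc)
    (eml (R := fun (q : γ × (List ℕ × List ℕ × List ℕ)) e => e.2.2 <+: q.2.2.2 ∧
    ∀ g ∈ q.2.2.2.drop e.2.2.length, Lg (endd o e.2.2) (tgt g)) (snd.comp (hb.comp Primrec.fst))
    ((prefix_pr h1 h2).and (fml (list_drop.comp (list_length.comp h1) h2) (lg_pr ?_ (tgt_pr snd)))))
  exact (endd_pr (const o) h1).comp Primrec.fst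

/-! ## Items -/

theorem dropLast_pr {l : γ → List ℕ} (hl : Primrec l) : Primrec fun a => (l a).dropLast :=
  (list_take.comp (nat_sub.comp (list_length.comp hl) (const 1)) hl).of_eq fun a => by
    simp [List.dropLast_eq_take]

theorem code0_pr {I : γ → Itm} (hI : Primrec I) : Primrec fun a => code0 (I a) := by
  have hc : Primrec fun a => (I a).c := snd.comp (snd.comp (snd.comp hI))
  refine Primrec.encode.comp (((Primrec.fst.comp hI).pair (Primrec.fst.comp (snd.comp hI))).pair
    (((Primrec.fst.comp (snd.comp (snd.comp hI))).pair (dropLast_pr (Primrec.fst.comp hc))).pair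
    (Primrec.pair ?_ ?_)))
  · exact Txt.prim_sg.comp (getD_pr (last_pr (Primrec.fst.comp hc)) (const 0))
  · exact list_map (snd.comp hc) ((Primrec.fst.comp snd).pair (Primrec.fst.comp (snd.comp snd))).to₂

theorem ends_iff (n : ℕ) (w : List ℕ) : Ends n w ↔ ∃ a, w.getLast? = some a ∧
    a = Txt.mC (Txt.sg a) n := by
  constructor
  · rintro ⟨v, s, rfl⟩
    refine ⟨Txt.mC s n, by simp, ?_⟩
    rw [show Txt.sg (Txt.mC s n) = s from Txt.sg_mm _ _ _]
  · rintro ⟨a, h1, h2⟩
    rw [List.getLast?_eq_some_iff] at h1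
    obtain ⟨l, hl⟩ := h1
    exact ⟨l, Txt.sg a, by rw [hl]; congr 2⟩

theorem ends_pr {n : γ → ℕ} {w : γ → List ℕ} (hn : Primrec n) (hw : Primrec w) :
    PrimrecPred fun a => Ends (n a) (w a) := by
  refine PrimrecPred.of_eq ?_ fun a => (ends_iff (n a) (w a)).symm
  exact eopt (R := fun a b => b = Txt.mC (Txt.sg b) (n a)) (last_pr hw)
    (eqp snd (Txt.prim_mC.comp (Txt.prim_sg.comp snd) (hn.comp Primrec.fst)))

/-! ## Stages -/

theorem t_pr {a : γ → Stg} (ha : Primrec a) : Primrec fun x => (a x).t := Primrec.fst.comp ha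
theorem ds_pr {a : γ → Stg} (ha : Primrec a) : Primrec fun x => (a x).ds :=
  Primrec.fst.comp (snd.comp ha)
theorem nbs_pr {a : γ → Stg} (ha : Primrec a) : Primrec fun x => (a x).nbs :=
  Primrec.fst.comp (snd.comp (snd.comp ha))
theorem fins_pr {a : γ → Stg} (ha : Primrec a) : Primrec fun x => (a x).fins :=
  Primrec.fst.comp (snd.comp (snd.comp (snd.comp ha)))
theorem curs_pr {a : γ → Stg} (ha : Primrec a) : Primrec fun x => (a x).curs :=
  Primrec.fst.comp (snd.comp (snd.comp (snd.comp (snd.comp ha))))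
theorem syms_pr {a : γ → Stg} (ha : Primrec a) : Primrec fun x => (a x).syms :=
  snd.comp (snd.comp (snd.comp (snd.comp (snd.comp ha))))

theorem dt_pr {a : γ → Stg} {s : γ → ℕ} (ha : Primrec a) (hs : Primrec s) :
    Primrec fun x => dt (a x) (s x) := (list_getD dd).comp (ds_pr ha) hs

theorem rt_pr {a : γ → Stg} {s : γ → ℕ} (ha : Primrec a) (hs : Primrec s) :
    Primrec fun x => rt (a x) (s x) := getD_pr (last_pr (pub_pr (dt_pr ha hs))) (const 0)

theorem nbd_pr {a : γ → Stg} {s : γ → ℕ} (ha : Primrec a) (hs : Primrec s) :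
    Primrec fun x => nbd (a x) (s x) := (list_getD 0).comp (nbs_pr ha) hs

theorem lk_pr {T : γ → Tab} {I : γ → Itm} (hT : Primrec T) (hI : Primrec I) :
    Primrec fun x => lk (T x) (I x) := by
  have h1 : Primrec fun a => (T a).find? (fun x : Itm × Cnd3 =>
      decide (Encodable.encode x.1 = Encodable.encode (I a))) :=
    find_pr (R := fun a (x : Itm × Cnd3) => Encodable.encode x.1 = Encodable.encode (I a)) hT
      (eqp (Primrec.encode.comp (Primrec.fst.comp snd)) (Primrec.encode.comp (hI.comp Primrec.fst)))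
  exact getD_pr (option_map h1 (snd.comp snd).to₂) (const ([], []))

theorem cu_pr {a : γ → Stg} {I : γ → Itm} (ha : Primrec a) (hI : Primrec I) :
    Primrec fun x => cu (a x) (I x) := lk_pr (curs_pr ha) hI

theorem fn_pr {a : γ → Stg} {I : γ → Itm} (ha : Primrec a) (hI : Primrec I) :
    Primrec fun x => fn (a x) (I x) := lk_pr (fins_pr ha) hI

theorem zq_pr {c : γ → Cnd3} (hc : Primrec c) : Primrec fun x => zq (c x) := by
  have h1 : Primrec fun a => ((c a).2.head?.map (fun e => e.2.2)).getD [] :=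
    getD_pr (option_map (list_head?.comp (snd.comp hc)) (snd.comp (snd.comp snd)).to₂) (const [])
  have h2 : Primrec fun a => endd o (((c a).2.head?.map (fun e => e.2.2)).getD []) :=
    endd_pr (const o) h1
  exact (Primrec.fst.comp h2).pair (dropLast_pr (snd.comp h2))

theorem keys_pr {T : γ → Tab} (hT : Primrec T) : Primrec fun x => (T x).map Prod.fst :=
  list_map hT (Primrec.fst.comp snd).to₂

/-- The pattern of a stage. -/
theorem cJ_pr (P : Par) {a : γ → Stg} {s : γ → ℕ} (ha : Primrec a) (hs : Primrec s) :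
    Primrec fun x => (ctx P (a x)).J (s x) := by
  have h1 : PrimrecPred fun x => blk P.p (a x).t ≤ 2 :=
    nat_le.comp (blk_pr P.p (t_pr ha)) (const 2)
  exact Primrec.or.comp (dec_pr h1) (jj_pr (blk_pr P.p (t_pr ha)) hs)

/-! ## Tuples -/

theorem prs_pr (P : Par) {H c : γ → ℕ} (hH : Primrec H) (hc : Primrec c) :
    Primrec fun x => Prs P (H x) (c x) := by
  have h1 : PrimrecPred fun x => c x < P.p := nat_lt.comp hc (const _)
  have h2 : PrimrecPred fun x => c x < P.p + P.q := nat_lt.comp hc (const _)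
  exact Primrec.or.comp (dec_pr h1) (Primrec.and.comp (dec_pr h2)
    (testBit_pr hH (nat_sub.comp hc (const _))))

theorem tx_pr (P : Par) {J : γ → ℕ → Bool} {H c : γ → ℕ}
    (hJ : Primrec fun q : γ × ℕ => J q.1 q.2) (hH : Primrec H) (hc : Primrec c) :
    Primrec fun x => Tx P (J x) (H x) (c x) := by
  have h1 : PrimrecPred fun x => P.p ≤ c x := nat_le.comp (const _) hc
  exact Primrec.and.comp (prs_pr P hH hc) (Primrec.or.comp (dec_pr h1)
    (hJ.comp (Primrec.id.pair hc)))

theorem tup_pr (P : Par) {J : γ → ℕ → Bool} {H : γ → ℕ} {σ : γ → ℕ → List ℕ} {k : γ → ℕ → Cnd3}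
    (hJ : Primrec fun q : γ × ℕ => J q.1 q.2) (hH : Primrec H)
    (hσ : Primrec fun q : γ × ℕ => σ q.1 q.2) (hk : Primrec fun q : γ × ℕ => k q.1 q.2) :
    Primrec fun x => tup P (J x) (H x) (σ x) (k x) := by
  refine list_map (list_range.comp (const (P.p + P.q))) (itep (c := fun q : γ × ℕ =>
    Tx P (J q.1) (H q.1) q.2 = true) (eqp ?_ (const true)) (Primrec.fst.comp hk) hσ).to₂
  exact tx_pr P (hJ.comp ((Primrec.fst.comp Primrec.fst).pair snd)) (hH.comp Primrec.fst) snd

theorem tlen_pr (P : Par) {H : γ → ℕ} {τ : γ → List (List ℕ)} (hH : Primrec H)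
    (hτ : Primrec τ) : Primrec fun x => tlen P (H x) (τ x) := by
  have h1 : PrimrecRel (fun (c : ℕ) (x : γ) => Prs P (H x) c = true) :=
    eqp (prs_pr P (hH.comp snd) Primrec.fst) (const true)
  have h2 : Primrec fun x => (List.range (P.p + P.q)).filter (Prs P (H x)) := by
    refine ((h1.listFilter).comp (const (List.range (P.p + P.q))) Primrec.id).of_eq fun x => ?_
    simp
  have h3 : Primrec fun x => ((List.range (P.p + P.q)).filter (Prs P (H x))).map
      (fun c => ((τ x).getD c []).length) :=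
    list_map h2 (list_length.comp ((list_getD []).comp (hτ.comp Primrec.fst) snd)).to₂
  exact list_foldr h3 (list_length.comp ((list_getD []).comp hτ (const 0)))
    (nat_min.comp (Primrec.fst.comp snd) (snd.comp snd)).to₂

theorem fj_pr (P : Par) {H : γ → ℕ} {τ : γ → List (List ℕ)} (hH : Primrec H)
    (hτ : Primrec τ) : Primrec fun x => fj P (H x) (τ x) := by
  have h1 : PrimrecPred fun q : γ × ℕ => Prs P (H q.1) (q.2 % (P.p + P.q)) = true :=
    eqp (prs_pr P (hH.comp Primrec.fst) (nat_mod.comp snd (const _))) (const true)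
  have h2 : Primrec fun q : γ × ℕ =>
      ((τ q.1).getD (q.2 % (P.p + P.q)) []).getD (q.2 / (P.p + P.q)) 0 :=
    (list_getD 0).comp ((list_getD []).comp (hτ.comp Primrec.fst) (nat_mod.comp snd (const _)))
      (nat_div.comp snd (const _))
  have h3 := list_map (list_range.comp (nat_mul.comp (const (P.p + P.q)) (tlen_pr P hH hτ)))
    (itep h1 h2 (const 0)).to₂
  exact h3.of_eq fun x => by simp only [fj]

end Pool.Agent.Lib.MP_d48993_lc.Gr.Dec
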