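import Pool.Agent.Lib.MP_d48993_lc.AE.Gr.LimStm
import Pool.Agent.Lib.MP_d48993_lc.AE.Gr.Dec1
import Pool.Agent.Lib.MP_d48993_lc.AE.Node.LimitAux
import Pool.Agent.Lib.MP_d48993_lc.AE.Node.Decc
import Pool.Agent.Lib.MP_d48993_lc.AE.Node.Codes
import Pool.Agent.Lib.MP_8c048d_lc.CE

/-!
# Part G (MP_d48993), module LDA1: data, strings, conditions are decidable
-/

set_option autoImplicit false
set_option synthInstance.maxSize 20000

namespace Pool.Agent.Lib.MP_d48993_lc.Gr.Dec

open Primrec Node Node.Decv Gr Gr.Lm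
open MP_8c048d_lc (e3_cp_comp e3_cp_and e3_cp_or)

variable {γ : Type} [Primcodable γ]

/-- Label trees. -/
theorem lt_eq (P : Par) (I : Itm) : LT P I = Limit.TT P.Tr (Encodable.encode I.E) := by
  simp only [Limit.TT, Limit.dl_encode]

theorem cv_cp (P : Par) (hP : P.Ok) {d : γ → Data} {I : γ → Itm} {c : γ → Cnd3}
    (hd : Computable d) (hI : Computable I) (hc : Computable c) :
    ComputablePred fun x => CV (d x).W (LT P (I x)) (c x) := by
  have h1 := (decc codes (decv codes) _ (Limit.tt_comp hP.trc)).1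
  have h2 : Computable fun x => (d x, Encodable.encode (I x).E, c x) :=
    hd.pair ((Computable.encode.comp (Computable.fst.comp (Computable.snd.comp
      (Computable.snd.comp hI)))).pair hc)
  refine (e3_cp_comp h1 h2).of_eq fun x => ?_
  rw [lt_eq]

theorem cle_cp (P : Par) (hP : P.Ok) {I : γ → Itm} {b c : γ → Cnd3}
    (hI : Computable I) (hb : Computable b) (hc : Computable c) :
    ComputablePred fun x => CLe (LT P (I x)) (b x) (c x) := by
  have h1 := (decc codes (decv codes) _ (Limit.tt_comp hP.trc)).2.1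
  have h2 : Computable fun x => (Encodable.encode (I x).E, b x, c x) :=
    (Computable.encode.comp (Computable.fst.comp (Computable.snd.comp
      (Computable.snd.comp hI)))).pair (hb.pair hc)
  refine (e3_cp_comp h1 h2).of_eq fun x => ?_
  rw [lt_eq]

theorem bad_pr {d : γ → Data} {l : γ → List ℕ} (hd : Primrec d) (hl : Primrec l) :
    PrimrecPred fun a => Bad (d a) (l a) :=
  eml (R := fun a v => (tgt v).1 < (d a).N ∧ ¬ (d a).W.edge (src v) (tgt v)) hl
    ((nat_lt.comp (Primrec.fst.comp (tgt_pr snd)) (N_pr (hd.comp Primrec.fst))).and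
      (edge_pr (hd.comp Primrec.fst) (src_pr snd) (tgt_pr snd)).not)

theorem pay_pr {x : γ → St} (hx : Primrec x) : Primrec fun a => pay (x a) :=
  getD_pr (option_map (list_head?.comp (snd.comp hx)) ((Primrec.ofNat (List ℕ)).comp snd).to₂)
    (const [])

theorem link_cp (P : Par) (hP : P.Ok) {t : γ → ℕ} {x y : γ → St} (ht : Primrec t)
    (hx : Primrec x) (hy : Primrec y) : ComputablePred fun a => Link P (t a) (x a) (y a) := by
  have hn : Primrec fun a => t a + 1 := nat_add.comp ht (const 1)
  have lx : Primrec fun a => (x a).2.length := list_length.comp (snd.comp hx)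
  have ly : Primrec fun a => (y a).2.length := list_length.comp (snd.comp hy)
  have b0 : Primrec fun a => blk P.p (t a) := blk_pr P.p ht
  have b1 : Primrec fun a => blk P.p (t a + 1) := blk_pr P.p hn
  have be : PrimrecPred fun a => blk P.p (t a + 1) = blk P.p (t a) := eqp b1 b0
  have h1 : PrimrecPred fun a => 1 ≤ (x a).2.length ∧ (x a).2.length ≤ blk P.p (t a) ∧
      1 ≤ (y a).2.length ∧ (y a).2.length ≤ blk P.p (t a + 1) ∧
      (blk P.p (t a + 1) = blk P.p (t a) →
        (y a).2.length = (x a).2.length ∧ (y a).2.head? = (x a).2.head?) :=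
    (nat_le.comp (const 1) lx).and ((nat_le.comp lx b0).and ((nat_le.comp (const 1) ly).and
      ((nat_le.comp ly b1).and (imp be ((eqp ly lx).and
        (eqp (list_head?.comp (snd.comp hy)) (list_head?.comp (snd.comp hx))))))))
  have h2 : PrimrecPred fun a => blk P.p (t a + 1) = blk P.p (t a) ∨ Rise (x a) (y a) :=
    be.or (rise_pr hx hy)
  have h3 : PrimrecPred fun a => bk (x a).1 + (y a).2.length = bk (y a).1 + (x a).2.length ∧
      pay (x a) <+: pay (y a) ∧ ¬ pay (x a) = pay (y a) :=
    (eqp (nat_add.comp (bk_pr (Primrec.fst.comp hx)) ly)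
      (nat_add.comp (bk_pr (Primrec.fst.comp hy)) lx)).and
      ((prefix_pr (pay_pr hx) (pay_pr hy)).and (eqp (pay_pr hx) (pay_pr hy)).not)
  have h4 : ComputablePred fun a => P.TB (pay (y a)) := e3_cp_comp hP.tbc (pay_pr hy).to_comp
  refine (e3_cp_and h1.computablePred (e3_cp_or h2.computablePred
    (e3_cp_and h3.computablePred h4))).of_eq fun a => ?_
  constructor
  · rintro ⟨⟨a1, a2, a3, a4, a5⟩, a6⟩
    refine ⟨a1, a2, a3, a4, a5, fun hne => ?_⟩
    rcases a6 with (h | h) | ⟨⟨b1, b2, b3⟩, b4⟩
    · exact absurd h hne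
    · exact Or.inl h
    · exact Or.inr ⟨b1, b2, b3, b4⟩
  · rintro ⟨a1, a2, a3, a4, a5, a6⟩
    refine ⟨⟨a1, a2, a3, a4, a5⟩, ?_⟩
    by_cases h : blk P.p (t a + 1) = blk P.p (t a)
    · exact Or.inl (Or.inl h)
    · rcases a6 h with h | ⟨b1, b2, b3, b4⟩
      · exact Or.inl (Or.inr h)
      · exact Or.inr ⟨⟨b1, b2, b3⟩, b4⟩

/-- Module LDA1. -/
theorem da1 : Da1Statement := by
  intro P hP
  constructor
  · exact (bk_pr Primrec.id).to_comp
  · exact (lg_pr Primrec.fst snd).computablePred
  · exact (gd_pr codes Primrec.id).computablePred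
  · exact (dext_pr Primrec.fst snd).computablePred
  · exact (edge_pr Primrec.fst (Primrec.fst.comp snd) (snd.comp snd)).computablePred
  · exact (adv_pr Primrec.fst snd).to_comp
  · exact (vs_pr codes Primrec.fst snd).computablePred
  · exact (vstr_pr codes Primrec.fst (Primrec.fst.comp snd) (Primrec.fst.comp (snd.comp snd))
      (snd.comp (snd.comp snd))).computablePred
  · exact cv_cp P hP Computable.fst (Computable.fst.comp Computable.snd)
      (Computable.snd.comp Computable.snd)
  · exact cle_cp P hP Computable.fst (Computable.fst.comp Computable.snd)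
      (Computable.snd.comp Computable.snd)
  · exact (lgC_pr Primrec.fst snd).computablePred
  · exact (at_pr Primrec.fst snd).computablePred
  · exact (zq_pr Primrec.id).to_comp
  · exact (adm_pr Primrec.id).computablePred
  · exact (zero_pr Primrec.id).computablePred
  · exact (bad_pr Primrec.fst snd).computablePred
  · exact link_cp P hP Primrec.fst (Primrec.fst.comp snd) (snd.comp snd)
  · exact (dt_pr Primrec.fst snd).to_comp
  · exact (rt_pr Primrec.fst snd).to_comp
  · exact (nbd_pr Primrec.fst snd).to_comp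
  · exact (cu_pr Primrec.fst snd).to_comp
  · exact (fn_pr Primrec.fst snd).to_comp

end Pool.Agent.Lib.MP_d48993_lc.Gr.Dec
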