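import Pool.Agent.Lib.MP_d48993_lc.AE.Gr.Stm
import Pool.Agent.Lib.MP_d48993_lc.AE.Rig.TxtC
import Pool.Agent.Lib.MP_d48993_lc.AE.Node.LimitAux

/-!
# Part G (MP_d48993), module GDEC: computability calculus (texts, levels, tuples)
-/

set_option autoImplicit false
set_option synthInstance.maxSize 2000
set_option linter.unusedSectionVars false

namespace Pool.Agent.Lib.MP_d48993_lc.Gr.Calc

open Pool.Agent.Lib.MP_d48993_lc.Node
open MP_8c048d_lc (pre join RecF Sig Clo Cop Del)
open Txt (ht st mC mN mR ltN okN Leg kd ar sg chn okR stp run runF Sta Lv)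
open Node.Limit (cop_eq cop_le cop_lt cop_mem cop_prefix cop_ball cop_sub)

variable {α β γ ι : Type} [Primcodable α] [Primcodable β] [Primcodable γ] [Primcodable ι]

attribute [local fun_prop] Computable Limit.cid Limit.cconst Limit.ccomp Limit.cfst Limit.csnd
  Limit.cpair

/-! ### Folds, maps and filters with parameters -/

theorem comp_foldlP {f : γ → α → β → α} (hf : Computable (fun x : γ × α × β => f x.1 x.2.1 x.2.2))
    {x : γ → α} (hx : Computable x) {l : γ → List β} (hl : Computable l) :
    Computable (fun c => (l c).foldl (f c) (x c)) := by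
  have h1 : Computable (fun c : γ => Nat.rec (motive := fun _ => α) (x c)
      (fun i a => (((l c)[i]?).map (fun b => f c a b)).getD a) (l c).length) := by
    refine Computable.nat_rec (h := fun (c : γ) (p : ℕ × α) =>
      (((l c)[p.1]?).map (fun b => f c p.2 b)).getD p.2) (Computable.list_length.comp hl) hx ?_
    have h2 : Computable (fun p : γ × ℕ × α => (l p.1)[p.2.1]?) :=
      Computable.list_getElem?.comp (hl.comp Computable.fst) (Computable.fst.comp Computable.snd)
    have h3 : Computable₂ (fun (p : γ × ℕ × α) (b : β) => f p.1 p.2.2 b) :=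
      hf.comp (f := fun x : γ × α × β => f x.1 x.2.1 x.2.2)
        (g := fun q : (γ × ℕ × α) × β => (q.1.1, q.1.2.2, q.2)) (by fun_prop)
    exact Computable.option_getD (Computable.option_map h2 h3)
      (Computable.snd.comp Computable.snd)
  refine h1.of_eq fun c => ?_
  have key : ∀ n, Nat.rec (motive := fun _ => α) (x c)
      (fun i a => (((l c)[i]?).map (fun b => f c a b)).getD a) n =
        ((l c).take n).foldl (f c) (x c) := by
    intro n
    induction n with
    | zero => simp
    | succ n ih => rw [Txt.foldl_take_succ, ← ih]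
  rw [key, List.take_length]

theorem comp_map {f : α → β → γ} (hf : Computable (fun x : α × β => f x.1 x.2)) {l : α → List β}
    (hl : Computable l) : Computable (fun a => (l a).map (f a)) := by
  have h1 : Computable (fun a => (l a).foldl (fun (r : List γ) b => r ++ [f a b]) []) := by
    refine comp_foldlP (f := fun a (r : List γ) b => r ++ [f a b]) ?_ (Computable.const []) hl
    exact Computable.list_append.comp (Computable.fst.comp Computable.snd)
      (Computable.list_cons.comp (hf.comp (f := fun x : α × β => f x.1 x.2)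
        (g := fun q : α × List γ × β => (q.1, q.2.2)) (by fun_prop)) (Computable.const []))
  refine h1.of_eq fun a => ?_
  have key : ∀ (l : List β) (r : List γ), l.foldl (fun (r : List γ) b => r ++ [f a b]) r =
      r ++ l.map (f a) := by
    intro l
    induction l with
    | nil => simp
    | cons b l ih => intro r; simp [ih]
  simpa using key (l a) []

theorem comp_filter {f : α → β → Bool} (hf : Computable (fun x : α × β => f x.1 x.2))
    {l : α → List β} (hl : Computable l) : Computable (fun a => (l a).filter (f a)) := by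
  have h1 : Computable (fun a => (l a).foldl
      (fun (r : List β) b => bif f a b then r ++ [b] else r) []) := by
    refine comp_foldlP (f := fun a (r : List β) b => bif f a b then r ++ [b] else r) ?_
      (Computable.const []) hl
    refine Computable.cond (hf.comp (f := fun x : α × β => f x.1 x.2)
        (g := fun q : α × List β × β => (q.1, q.2.2)) (by fun_prop)) ?_ (by fun_prop)
    exact Computable.list_append.comp (Computable.fst.comp Computable.snd)
      (Computable.list_cons.comp (Computable.snd.comp Computable.snd) (Computable.const []))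
  refine h1.of_eq fun a => ?_
  have key : ∀ (l : List β) (r : List β),
      l.foldl (fun (r : List β) b => bif f a b then r ++ [b] else r) r =
      r ++ l.filter (f a) := by
    intro l
    induction l with
    | nil => simp
    | cons b l ih =>
      intro r
      rw [List.foldl_cons, ih, List.filter_cons]
      cases f a b <;> simp
  simpa using key (l a) []

theorem comp_foldr {f : γ → β → α → α} (hf : Computable (fun x : γ × β × α => f x.1 x.2.1 x.2.2))
    {x : γ → α} (hx : Computable x) {l : γ → List β} (hl : Computable l) :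
    Computable (fun c => (l c).foldr (f c) (x c)) := by
  have h1 : Computable (fun c => (l c).reverse.foldl (fun a b => f c b a) (x c)) := by
    refine comp_foldlP (f := fun c a b => f c b a) ?_ hx (Primrec.list_reverse.to_comp.comp hl)
    exact hf.comp (f := fun x : γ × β × α => f x.1 x.2.1 x.2.2)
      (g := fun q : γ × α × β => (q.1, q.2.2, q.2.1)) (by fun_prop)
  exact h1.of_eq fun c => List.foldl_reverse

theorem comp_getD {l : α → List β} (hl : Computable l) {i : α → ℕ} (hi : Computable i) (b : β) :
    Computable (fun a => (l a).getD (i a) b) := by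
  have h : Computable (fun a => ((l a)[i a]?).getD b) :=
    Computable.option_getD (Computable.list_getElem?.comp hl hi) (Computable.const b)
  exact h.of_eq fun a => by simp

/-! ### Texts with uniformly computable headers -/

section texts

variable {T : ι → List ℕ → Bool}

theorem comp_okR (hT : Computable (fun x : ι × List ℕ => T x.1 x.2)) :
    Computable (fun x : ι × Option (List ℕ) × List ℕ => okR (T x.1) x.2.1 x.2.2) := by
  unfold okR
  refine Computable.option_getD (Computable.option_map (Computable.fst.comp Computable.snd) ?_) ?_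
  · have h1 : Primrec (fun p : (ι × Option (List ℕ) × List ℕ) × List ℕ =>
        decide (p.2.length < p.1.2.2.length) && decide (p.2 = p.1.2.2.take p.2.length)) := by
      have h2 : Primrec (fun p : (ι × Option (List ℕ) × List ℕ) × List ℕ => p.1.2.2) :=
        Primrec.snd.comp (Primrec.snd.comp Primrec.fst)
      refine Primrec.and.comp ?_ ?_
      · exact (Primrec.nat_lt.comp (Primrec.list_length.comp Primrec.snd)
          (Primrec.list_length.comp h2)).decide
      · refine (Primrec.eq.comp Primrec.snd ?_).decide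
        exact Primrec.list_take.comp (Primrec.list_length.comp Primrec.snd) h2
    have h3 : Computable (fun p : (ι × Option (List ℕ) × List ℕ) × List ℕ => T p.1.1 p.1.2.2) :=
      hT.comp (f := fun x : ι × List ℕ => T x.1 x.2)
        (g := fun p : (ι × Option (List ℕ) × List ℕ) × List ℕ => (p.1.1, p.1.2.2)) (by fun_prop)
    exact (Primrec.and.to_comp.comp h1.to_comp h3).to₂
  · exact ((Primrec.eq.comp (Primrec.snd.comp Primrec.snd) (Primrec.const [])).decide).to_comp

theorem comp_stp (hT : Computable (fun x : ι × List ℕ => T x.1 x.2)) :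
    Computable (fun x : ι × Sta × ℕ => stp (T x.1) x.2.1 x.2.2) := by
  have p2 : Primrec (fun p : ι × Sta × ℕ => p.2.2) := Primrec.snd.comp Primrec.snd
  have p1 : Primrec (fun p : ι × Sta × ℕ => p.2.1) := Primrec.fst.comp Primrec.snd
  -- the parts
  have k1 : Computable (fun p : ι × Sta × ℕ => decide (kd p.2.2 = 1)) :=
    ((Primrec.eq.comp (Txt.prim_kd.comp p2) (Primrec.const 1)).decide).to_comp
  have k2 : Computable (fun p : ι × Sta × ℕ => decide (kd p.2.2 = 2)) :=
    ((Primrec.eq.comp (Txt.prim_kd.comp p2) (Primrec.const 2)).decide).to_comp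
  have k3 : Computable (fun p : ι × Sta × ℕ => decide (kd p.2.2 = 3)) :=
    ((Primrec.eq.comp (Txt.prim_kd.comp p2) (Primrec.const 3)).decide).to_comp
  have pL : Primrec (fun p : ι × Sta × ℕ => p.2.1.2.1) :=
    Primrec.fst.comp (Primrec.snd.comp p1)
  have pq : Primrec (fun p : ι × Sta × ℕ => p.2.1.2.2) :=
    Primrec.snd.comp (Primrec.snd.comp p1)
  have pn : Primrec (fun p : ι × Sta × ℕ => p.2.1.1 + 1) :=
    Primrec.succ.comp (Primrec.fst.comp p1)
  have pa : Primrec (fun p : ι × Sta × ℕ => ar p.2.2) := Txt.prim_ar.comp p2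
  have ps : Primrec (fun p : ι × Sta × ℕ => sg p.2.2) := Txt.prim_sg.comp p2
  have c1 : Computable (fun p : ι × Sta × ℕ => okN p.2.1.2.1 (ar p.2.2)) :=
    (Txt.prim_okN.comp pL pa).to_comp
  have c3 : Computable (fun p : ι × Sta × ℕ => decide (ar p.2.2 ≤ p.2.1.2.1.length) &&
      okR (T p.1) (chn p.2.1 (ar p.2.2)) (sg p.2.2)) := by
    refine Primrec.and.to_comp.comp ?_ ?_
    · exact ((Primrec.nat_le.comp pa
        (Primrec.list_length.comp pL)).decide).to_comp
    · exact (comp_okR hT).comp (f := fun x : ι × Option (List ℕ) × List ℕ => okR (T x.1) x.2.1 x.2.2)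
        (g := fun p : ι × Sta × ℕ => (p.1, chn p.2.1 (ar p.2.2), sg p.2.2))
        (Computable.pair Computable.fst (Computable.pair (Txt.prim_chn.comp p1 pa).to_comp
          ps.to_comp))
  have r1 : Computable (fun p : ι × Sta × ℕ =>
      ((p.2.1.1 + 1, p.2.1.2.1 ++ [(none, ar p.2.2, p.2.1.1 + 1, p.2.1.2.2)], none) : Sta)) := by
    refine (Primrec.pair pn (Primrec.pair (Primrec.list_append.comp pL (Primrec.list_cons.comp ?_
      (Primrec.const []))) (Primrec.const none))).to_comp
    exact Primrec.pair (Primrec.const none) (Primrec.pair pa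
      (Primrec.pair pn pq))
  have r2 : Computable (fun p : ι × Sta × ℕ =>
      ((p.2.1.1 + 1, p.2.1.2.1 ++ [(some (sg p.2.2), ar p.2.2, p.2.1.1 + 1, p.2.1.2.2)],
        none) : Sta)) := by
    refine (Primrec.pair pn (Primrec.pair (Primrec.list_append.comp pL (Primrec.list_cons.comp ?_
      (Primrec.const []))) (Primrec.const none))).to_comp
    exact Primrec.pair (Primrec.option_some.comp ps)
      (Primrec.pair pa (Primrec.pair pn pq))
  have r3 : Computable (fun p : ι × Sta × ℕ =>
      ((p.2.1.1 + 1, p.2.1.2.1.take (ar p.2.2), some (sg p.2.2)) : Sta)) := by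
    exact (Primrec.pair pn (Primrec.pair (Primrec.list_take.comp pa pL)
      (Primrec.option_some.comp ps))).to_comp
  have r4 : Computable (fun p : ι × Sta × ℕ => ((p.2.1.1 + 1, p.2.1.2.1, p.2.1.2.2) : Sta)) :=
    (Primrec.pair pn (Primrec.pair pL pq)).to_comp
  have key : Computable (fun p : ι × Sta × ℕ =>
      bif decide (kd p.2.2 = 1) then
        (bif okN p.2.1.2.1 (ar p.2.2) then some
          ((p.2.1.1 + 1, p.2.1.2.1 ++ [(none, ar p.2.2, p.2.1.1 + 1, p.2.1.2.2)], none) : Sta)
            else none)
      else bif decide (kd p.2.2 = 2) then some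
          ((p.2.1.1 + 1, p.2.1.2.1 ++ [(some (sg p.2.2), ar p.2.2, p.2.1.1 + 1, p.2.1.2.2)],
            none) : Sta)
      else bif decide (kd p.2.2 = 3) then
        (bif decide (ar p.2.2 ≤ p.2.1.2.1.length) &&
          okR (T p.1) (chn p.2.1 (ar p.2.2)) (sg p.2.2) then
          some ((p.2.1.1 + 1, p.2.1.2.1.take (ar p.2.2), some (sg p.2.2)) : Sta) else none)
      else some ((p.2.1.1 + 1, p.2.1.2.1, p.2.1.2.2) : Sta)) :=
    Computable.cond k1 (Computable.cond c1 (Computable.option_some.comp r1)
        (Computable.const none))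
      (Computable.cond k2 (Computable.option_some.comp r2)
        (Computable.cond k3 (Computable.cond c3 (Computable.option_some.comp r3)
          (Computable.const none)) (Computable.option_some.comp r4)))
  refine Computable.of_eq key fun p => ?_
  obtain ⟨i, σ, a⟩ := p
  unfold stp
  simp only [Bool.cond_decide]
  by_cases h1 : kd a = 1
  · rw [if_pos h1, if_pos h1]
    cases okN σ.2.1 (ar a) <;> rfl
  · rw [if_neg h1, if_neg h1]
    by_cases h2 : kd a = 2
    · rw [if_pos h2, if_pos h2]
    · rw [if_neg h2, if_neg h2]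
      by_cases h3 : kd a = 3
      · rw [if_pos h3, if_pos h3]
        by_cases h4 : (ar a) ≤ σ.2.1.length ∧ okR (T i) (chn σ (ar a)) (sg a) = true
        · rw [if_pos h4, h4.2, decide_eq_true h4.1]; rfl
        · rw [if_neg h4]
          have h5 : (decide ((ar a) ≤ σ.2.1.length) && okR (T i) (chn σ (ar a)) (sg a)) =
              false := by
            rw [Bool.eq_false_iff]
            intro h6
            rw [Bool.and_eq_true, decide_eq_true_eq] at h6
            exact h4 h6
          rw [h5]; rfl
      · rw [if_neg h3, if_neg h3]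

theorem comp_run (hT : Computable (fun x : ι × List ℕ => T x.1 x.2)) {i : α → ι}
    (hi : Computable i) {w : α → List ℕ} (hw : Computable w) :
    Computable (fun a => run (T (i a)) (w a)) := by
  unfold run runF
  refine comp_foldlP (f := fun (a : α) (o : Option Sta) (b : ℕ) =>
    o.bind (fun σ => stp (T (i a)) σ b)) ?_ (Computable.const _) hw
  refine Computable.option_bind (Computable.fst.comp Computable.snd) ?_
  exact ((comp_stp hT).comp (f := fun x : ι × Sta × ℕ => stp (T x.1) x.2.1 x.2.2)
    (g := fun q : (α × Option Sta × ℕ) × Sta => (i q.1.1, q.2, q.1.2.2)) (by fun_prop)).to₂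

theorem cop_leg (hT : Computable (fun x : ι × List ℕ => T x.1 x.2)) {i : α → ι}
    (hi : Computable i) {w : α → List ℕ} (hw : Computable w) :
    Cop (fun a (_ : ℕ → ℕ) => Leg (T (i a)) (w a)) :=
  cop_eq (Primrec.option_isSome.to_comp.comp (comp_run hT hi hw)) (Computable.const true)

theorem comp_st (hT : Computable (fun x : ι × List ℕ => T x.1 x.2)) {i : α → ι}
    (hi : Computable i) {w : α → List ℕ} (hw : Computable w) :
    Computable (fun a => st (T (i a)) (w a)) := by
  unfold st
  exact Computable.option_getD (Computable.option_map (comp_run hT hi hw)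
    (Computable.fst.comp (Computable.snd.comp Computable.snd)).to₂) (Computable.const [])

theorem comp_ht (hT : Computable (fun x : ι × List ℕ => T x.1 x.2)) {i : α → ι}
    (hi : Computable i) {w : α → List ℕ} (hw : Computable w) :
    Computable (fun a => ht (T (i a)) (w a)) :=
  Computable.list_length.comp (comp_st hT hi hw)

theorem comp_opn (hT : Computable (fun x : ι × List ℕ => T x.1 x.2)) {i : α → ι}
    (hi : Computable i) {w : α → List ℕ} (hw : Computable w) :
    Computable (fun a => Txt.opn (T (i a)) (w a)) := by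
  unfold Txt.opn
  exact Computable.option_bind (comp_run hT hi hw)
    (Computable.snd.comp (Computable.snd.comp Computable.snd)).to₂

theorem cop_le' (hT : Computable (fun x : ι × List ℕ => T x.1 x.2)) {i : α → ι}
    (hi : Computable i) {k : α → ℕ} (hk : Computable k) {w w' : α → List ℕ} (hw : Computable w)
    (hw' : Computable w') : Cop (fun a (_ : ℕ → ℕ) => Txt.Le (T (i a)) (k a) (w a) (w' a)) := by
  have h3 : Cop (fun (p : (ℕ × List ℕ × List ℕ) × ℕ) (_ : ℕ → ℕ) =>
      ¬ (kd p.2 = 3 ∧ ar p.2 < p.1.1)) := by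
    refine Cop.of_computable ?_
    refine (PrimrecPred.not ((Primrec.eq.comp (Txt.prim_kd.comp Primrec.snd) (Primrec.const 3)).and
      (Primrec.nat_lt.comp (Txt.prim_ar.comp Primrec.snd)
        (Primrec.fst.comp Primrec.fst)))).computablePred
  have h4 := Cop.ballL (P := fun (p : ℕ × List ℕ × List ℕ) (a : ℕ) (_ : ℕ → ℕ) =>
    ¬ (kd a = 3 ∧ (ar a) < p.1)) h3 (l := fun p => p.2.2.drop p.2.1.length)
    ((Primrec.list_drop.comp (Primrec.list_length.comp (Primrec.fst.comp Primrec.snd))
      (Primrec.snd.comp Primrec.snd)).to_comp)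
  have h5 : Cop (fun a (_ : ℕ → ℕ) => ∀ b ∈ (w' a).drop (w a).length,
      ¬ (kd b = 3 ∧ (ar b) < k a)) := h4.comp (f := fun a => (k a, w a, w' a)) (by fun_prop)
  exact ((cop_prefix hw hw').and ((cop_leg hT hi hw').and h5)).congr fun a _ => Txt.le_iff.symm

end texts

/-! ### Levels -/

theorem comp_sz : Computable sz := (Primrec.fst.comp Primrec.unpair).to_comp

theorem comp_bk : Computable bk :=
  (Primrec.fst.comp (Primrec.unpair.comp (Primrec.snd.comp Primrec.unpair))).to_comp

theorem comp_add {f g : α → ℕ} (hf : Computable f) (hg : Computable g) :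
    Computable (fun a => f a + g a) := (Primrec.nat_add.to_comp).comp hf hg

theorem comp_len {f : α → List β} (hf : Computable f) : Computable (fun a => (f a).length) :=
  Computable.list_length.comp hf

theorem comp_head? {f : α → List β} (hf : Computable f) : Computable (fun a => (f a).head?) :=
  Primrec.list_head?.to_comp.comp hf

theorem cop_rise {x v : α → St} (hx : Computable x) (hv : Computable v) :
    Cop (fun a (_ : ℕ → ℕ) => Rise (x a) (v a)) :=
  cop_lt (comp_add (comp_bk.comp (Limit.cfst hx)) (comp_len (Limit.csnd hv)))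
    (comp_add (comp_bk.comp (Limit.cfst hv)) (comp_len (Limit.csnd hx)))

theorem cop_same {x v : α → St} (hx : Computable x) (hv : Computable v) :
    Cop (fun a (_ : ℕ → ℕ) => Same (x a) (v a)) :=
  (cop_eq (comp_add (comp_bk.comp (Limit.cfst hx)) (comp_len (Limit.csnd hv)))
    (comp_add (comp_bk.comp (Limit.cfst hv)) (comp_len (Limit.csnd hx)))).and
    (cop_eq (comp_head? (Limit.csnd hv)) (comp_head? (Limit.csnd hx)))

theorem cop_lg {x v : α → St} (hx : Computable x) (hv : Computable v) :
    Cop (fun a (_ : ℕ → ℕ) => Lg (x a) (v a)) := (cop_rise hx hv).or (cop_same hx hv)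

theorem comp_pay : Computable pay := by
  unfold pay str
  refine Computable.option_getD (Computable.option_map (comp_head? Computable.snd) ?_)
    (Computable.const [])
  exact (Computable.ofNat (List ℕ)).comp Computable.snd

/-! ### Data -/

theorem comp_src (hcd : CodesStatement) {f : α → ℕ} (hf : Computable f) :
    Computable (fun a => src (f a)) := hcd.2.2.2.2.1.comp hf

theorem comp_tgt (hcd : CodesStatement) {f : α → ℕ} (hf : Computable f) :
    Computable (fun a => tgt (f a)) := hcd.2.2.2.2.2.1.comp hf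

theorem comp_Ex (hcd : CodesStatement) {f : α → ℕ} (hf : Computable f) :
    Computable (fun a => Ex (f a)) := hcd.2.2.2.2.2.2.2.1.comp hf

theorem comp_endd (hcd : CodesStatement) {f : α → St} (hf : Computable f) {g : α → List ℕ}
    (hg : Computable g) : Computable (fun a => endd (f a) (g a)) :=
  hcd.2.2.2.2.2.2.2.2.2.1.comp (hf.pair hg)

theorem cop_all_lg (hcd : CodesStatement) {y : α → St} (hy : Computable y) {l : α → List ℕ}
    (hl : Computable l) : Cop (fun a (_ : ℕ → ℕ) => ∀ g ∈ l a, Lg (y a) (tgt g)) :=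
  Cop.ballL (P := fun (a : α) (g : ℕ) (_ : ℕ → ℕ) => Lg (y a) (tgt g))
    (cop_lg (hy.comp Computable.fst) (comp_tgt hcd Computable.snd)) hl

theorem cop_vstr' (hv : DecvStatement) (hcd : CodesStatement) {f : α → Data} (hf : Computable f)
    {x : α → St} (hx : Computable x) {g : α → List ℕ} (hg : Computable g) {y : α → St}
    (hy : Computable y) : Cop (fun a (_ : ℕ → ℕ) => VStr (f a).W (x a) (g a) (y a)) :=
  (Limit.cop_vstr hv hcd).comp (hf.pair (hx.pair (hg.pair hy)))

theorem adv_of_mem {δ : Data} (hw : Wf δ) {y : St} {α : List ℕ} (h : (y, α) ∈ δ.advL) :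
    δ.W.adv y = some α := by
  have h1 : δ.advL.find? (fun p => p.1 = y) = some (y, α) := by
    have hn := hw.advNodup
    generalize δ.advL = L at h hn
    induction L with
    | nil => simp at h
    | cons q L ih =>
      rw [List.map_cons, List.nodup_cons] at hn
      rcases List.mem_cons.1 h with rfl | h
      · simp
      · have hne : q.1 ≠ y := by
          rintro rfl
          exact hn.1 (List.mem_map.2 ⟨_, h, rfl⟩)
        rw [List.find?_cons_of_neg (by simpa using hne)]
        exact ih h hn.2
  show ((δ.advL.find? (fun p => p.1 = y)).map Prod.snd).or _ = _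
  rw [h1]
  rfl

theorem mem_of_adv {δ : Data} {y : St} {α : List ℕ} (h : δ.W.adv y = some α) (hα : α ≠ []) :
    (y, α) ∈ δ.advL := by
  have h' : ((δ.advL.find? (fun p => p.1 = y)).map Prod.snd).or
    (if y.1 < δ.1 ∧ y.1 ∉ δ.2.1 then some [] else none) = some α := h
  cases h1 : δ.advL.find? (fun p => p.1 = y) with
  | none =>
    rw [h1] at h'
    simp only [Option.map_none, Option.none_or] at h'
    split_ifs at h' with h2
    exact absurd (Option.some.inj h').symm hα
  | some q =>
    rw [h1] at h'
    simp only [Option.map_some, Option.some_or, Option.some.injEq] at h'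
    have h3 := List.mem_of_find?_eq_some h1
    have h4 := List.find?_some h1
    simp only [decide_eq_true_eq] at h4
    subst h4 h'
    exact h3

/-- Clean data, decidable form. -/
theorem lgD_iff {δ : Data} (hw : Wf δ) :
    LgD δ ↔ ∀ p ∈ δ.advL, ∀ g ∈ p.2, Lg p.1 (tgt g) := by
  constructor
  · intro h p hp g hg
    exact h p.1 p.2 (adv_of_mem hw hp) g hg
  · intro h y α hα g hg
    exact h _ (mem_of_adv hα (List.ne_nil_of_mem hg)) g hg

theorem cop_wflg (hv : DecvStatement) (hcd : CodesStatement) {f : α → Data}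
    (hf : Computable f) : Cop (fun a (_ : ℕ → ℕ) => Wf (f a) ∧ LgD (f a)) := by
  have h1 : Cop (fun a (_ : ℕ → ℕ) => Wf (f a)) := (Cop.of_computable hv.2.2.2.1).comp hf
  have h2 : Cop (fun a (_ : ℕ → ℕ) => ∀ p ∈ (f a).advL, ∀ g ∈ p.2, Lg p.1 (tgt g)) :=
    Cop.ballL (P := fun (_ : α) (p : St × List ℕ) (_ : ℕ → ℕ) => ∀ g ∈ p.2, Lg p.1 (tgt g))
      (cop_all_lg hcd (y := fun q : α × (St × List ℕ) => q.2.1) (by fun_prop)
        (by fun_prop)) (by fun_prop)
  refine (h1.and h2).congr fun a _ => ?_
  constructor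
  · rintro ⟨h3, h4⟩
    exact ⟨h3, (lgD_iff h3).2 h4⟩
  · rintro ⟨h3, h4⟩
    exact ⟨h3, (lgD_iff h3).1 h4⟩

theorem cop_full (hv : DecvStatement) {f : α → Data} (hf : Computable f) :
    Cop (fun a (_ : ℕ → ℕ) => Full (f a)) := (Cop.of_computable hv.2.2.2.2.1).comp hf

theorem cop_gd (hv : DecvStatement) (hcd : CodesStatement) {f : α → Data}
    (hf : Computable f) : Cop (fun a (_ : ℕ → ℕ) => GD (f a)) := by
  refine ((cop_wflg hv hcd hf).and (cop_full hv hf)).congr fun a _ => ?_
  constructor
  · rintro ⟨⟨h1, h2⟩, h3⟩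
    exact ⟨h1, h3, h2⟩
  · rintro ⟨h1, h2, h3⟩
    exact ⟨⟨h1, h3⟩, h2⟩

theorem cop_dext (hv : DecvStatement) {f g : α → Data} (hf : Computable f)
    (hg : Computable g) : Cop (fun a (_ : ℕ → ℕ) => DExt (f a) (g a)) :=
  (Cop.of_computable hv.2.2.2.2.2).comp (hf.pair hg)

/-! ### Conditions -/

theorem ow_iff (z x : St) : (∃ i, 1 ≤ i ∧ x = ow z i) ↔
    x.1 = z.1 ∧ x.2.dropLast = z.2 ∧ (x.2.getLast?.getD 0) ≠ 0 := by
  obtain ⟨r, s⟩ := x
  obtain ⟨r', s'⟩ := z
  constructor
  · rintro ⟨i, hi, h⟩
    have h1 : r = r' := congrArg Prod.fst h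
    have h2 : s = s' ++ [i] := congrArg Prod.snd h
    subst h1 h2
    simp
    omega
  · rintro ⟨h1, h2, h3⟩
    simp only at h1 h2 h3
    subst h1 h2
    cases s using List.reverseRecOn with
    | nil => simp at h3
    | append_singleton s a =>
      refine ⟨a, ?_, ?_⟩
      · simp at h3
        omega
      · simp [ow]

theorem comp_getLast {f : α → List β} (hf : Computable f) :
    Computable (fun a => (f a).getLast?) := Txt.prim_getLast.to_comp.comp hf

theorem cop_ow {z x : α → St} (hz : Computable z) (hx : Computable x) :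
    Cop (fun a (_ : ℕ → ℕ) => ∃ i, 1 ≤ i ∧ x a = ow (z a) i) := by
  refine ((cop_eq (Limit.cfst hx) (Limit.cfst hz)).and
    ((cop_eq (comp_dropLast (Limit.csnd hx)) (Limit.csnd hz)).and
      (cop_eq (Computable.option_getD (comp_getLast (Limit.csnd hx)) (Computable.const 0))
        (Computable.const 0)).not)).congr fun a _ => (ow_iff _ _).symm

theorem cop_at (hcd : CodesStatement) {z : α → St} (hz : Computable z) {c : α → Cnd3}
    (hc : Computable c) : Cop (fun a (_ : ℕ → ℕ) => At (z a) (c a)) := by
  have h1 : Cop (fun a (_ : ℕ → ℕ) => ∀ e ∈ (c a).2, ∃ i, 1 ≤ i ∧ endd o e.2.2 = ow (z a) i) :=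
    Cop.ballL (P := fun (a : α) (e : List ℕ × List ℕ × List ℕ) (_ : ℕ → ℕ) =>
      ∃ i, 1 ≤ i ∧ endd o e.2.2 = ow (z a) i)
      (cop_ow (z := fun q : α × (List ℕ × List ℕ × List ℕ) => z q.1)
        (x := fun q : α × (List ℕ × List ℕ × List ℕ) => endd o q.2.2.2)
        (hz.comp Computable.fst) (comp_endd hcd (Computable.const o) (by fun_prop)))
      (Limit.csnd hc)
  have h2 : Cop (fun a (_ : ℕ → ℕ) => ∀ e ∈ (c a).2, ∀ e' ∈ (c a).2,
      endd o e.2.2 = endd o e'.2.2 → e = e') := by
    refine Cop.ballL (P := fun (a : α) (e : List ℕ × List ℕ × List ℕ) (_ : ℕ → ℕ) =>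
      ∀ e' ∈ (c a).2, endd o e.2.2 = endd o e'.2.2 → e = e') ?_ (Limit.csnd hc)
    refine Cop.ballL (P := fun (q : α × (List ℕ × List ℕ × List ℕ))
      (e' : List ℕ × List ℕ × List ℕ) (_ : ℕ → ℕ) =>
      endd o q.2.2.2 = endd o e'.2.2 → q.2 = e') ?_ (Limit.csnd (hc.comp Computable.fst))
    refine Cop.imp (cop_eq
      (f := fun q : (α × (List ℕ × List ℕ × List ℕ)) × (List ℕ × List ℕ × List ℕ) =>
        endd o q.1.2.2.2) (comp_endd hcd (Computable.const o) (by fun_prop))
      (comp_endd hcd (Computable.const o) (by fun_prop))) (cop_eq (by fun_prop) (by fun_prop))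
  refine (h1.and h2).congr fun a _ => ⟨fun h => ⟨h.1, h.2⟩, fun h => ⟨h.1, h.2⟩⟩

theorem cop_lgc (hcd : CodesStatement) {b c : α → Cnd3} (hb : Computable b)
    (hc : Computable c) : Cop (fun a (_ : ℕ → ℕ) => LgC (b a) (c a)) := by
  unfold LgC
  refine Cop.ballL (P := fun (a : α) (e' : List ℕ × List ℕ × List ℕ) (_ : ℕ → ℕ) =>
    ∃ e ∈ (b a).2, e.2.2 <+: e'.2.2 ∧
      ∀ g ∈ e'.2.2.drop e.2.2.length, Lg (endd o e.2.2) (tgt g)) ?_ (Limit.csnd hc)
  refine Cop.bexL (P := fun (q : α × (List ℕ × List ℕ × List ℕ))
    (e : List ℕ × List ℕ × List ℕ) (_ : ℕ → ℕ) => e.2.2 <+: q.2.2.2 ∧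
      ∀ g ∈ q.2.2.2.drop e.2.2.length, Lg (endd o e.2.2) (tgt g)) (Cop.and ?_ ?_)
    (Limit.csnd (hb.comp Computable.fst))
  · exact cop_prefix (f := fun q : (α × (List ℕ × List ℕ × List ℕ)) ×
      (List ℕ × List ℕ × List ℕ) => q.2.2.2) (by fun_prop) (by fun_prop)
  · exact cop_all_lg hcd (y := fun q : (α × (List ℕ × List ℕ × List ℕ)) ×
      (List ℕ × List ℕ × List ℕ) => endd o q.2.2.2)
      (comp_endd hcd (Computable.const o) (by fun_prop))
      (comp_drop (comp_len (by fun_prop)) (by fun_prop))

theorem cop_cv' (hc : DeccStatement) {Tr : ℕ → List ℕ → Prop}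
    (hTr : ComputablePred (fun p : ℕ × List ℕ => Tr p.1 p.2)) {f : α → Data} (hf : Computable f)
    {E : α → List ℕ} (hE : Computable E) {g : α → Cnd3} (hg : Computable g) :
    Cop (fun a (_ : ℕ → ℕ) => CV (f a).W (TE Tr (E a)) (g a)) :=
  (Limit.cop_cv hc hTr hf (e := fun a => Encodable.encode (E a))
    (Computable.encode.comp hE) hg).congr fun a _ => by rw [Limit.TT, Limit.dl_encode]

theorem cop_cle' (hc : DeccStatement) {Tr : ℕ → List ℕ → Prop}
    (hTr : ComputablePred (fun p : ℕ × List ℕ => Tr p.1 p.2))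
    {E : α → List ℕ} (hE : Computable E) {f g : α → Cnd3} (hf : Computable f)
    (hg : Computable g) : Cop (fun a (_ : ℕ → ℕ) => CLe (TE Tr (E a)) (f a) (g a)) :=
  (Limit.cop_cle hc hTr (e := fun a => Encodable.encode (E a))
    (Computable.encode.comp hE) hf hg).congr fun a _ => by rw [Limit.TT, Limit.dl_encode]

end Pool.Agent.Lib.MP_d48993_lc.Gr.Calc
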