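import Pool.Agent.Lib.MP_d48993_lc.AE.Gr.LimStm
import Pool.Agent.Lib.MP_d48993_lc.AE.Gr.BlkS
import Pool.Agent.Lib.MP_d48993_lc.AE.Rig.TxtC
import Pool.Agent.Lib.MP_d48993_lc.AE.Gr.CalcA

/-!
# Part G (MP_d48993): module LDA2, decidability of texts, blocks, functionals
-/

set_option autoImplicit false
set_option synthInstance.maxSize 20000

namespace Pool.Agent.Lib.MP_d48993_lc.Gr.Lm

open Pool.Agent.Lib.MP_d48993_lc.Node
open MP_8c048d_lc (pre join RecF Cop)
open Txt (ht st mC mN mR ltN okN Leg kd ar sg)

/-! ## Numbers -/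

theorem prim_pow : Primrec₂ ((· ^ ·) : ℕ → ℕ → ℕ) := blkPow_prim

theorem prim_testBit : Primrec₂ (fun m s : ℕ => m.testBit s) := by
  have h1 : Primrec₂ (fun m s : ℕ => decide (m / 2 ^ s % 2 = 1)) := by
    refine (Primrec.eq.comp (Primrec.nat_mod.comp (Primrec.nat_div.comp Primrec.fst
      (prim_pow.comp (Primrec.const 2) Primrec.snd)) (Primrec.const 2)) (Primrec.const 1)).decide
  refine h1.of_eq fun m s => ?_
  rw [Nat.testBit_eq_decide_div_mod_eq]

theorem prim_jj : Primrec₂ JJ := by
  have h : Primrec (fun x : ℕ × ℕ => x.1.unpair.1.testBit x.2) :=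
    prim_testBit.comp (Txt.prim_u1.comp Primrec.fst) Primrec.snd
  exact h

theorem prim_prs (P : Par) : Primrec₂ (Prs P) := by
  have h : Primrec (fun x : ℕ × ℕ => decide (x.2 < P.p) ||
      (decide (x.2 < P.p + P.q) && x.1.testBit (x.2 - P.p))) := by
    refine Primrec.or.comp ?_ (Primrec.and.comp ?_ ?_)
    · exact (Primrec.nat_lt.comp Primrec.snd (Primrec.const P.p)).decide
    · exact (Primrec.nat_lt.comp Primrec.snd (Primrec.const (P.p + P.q))).decide
    · exact prim_testBit.comp Primrec.fst (Primrec.nat_sub.comp Primrec.snd (Primrec.const P.p))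
  exact h

theorem prim_dv (p : ℕ) : Primrec₂ (dv p) := by
  have hb : Primrec (fun x : ℕ × ℕ => blk p x.1 - 1) :=
    Primrec.nat_sub.comp (blk_prim.comp (Primrec.const p) Primrec.fst) (Primrec.const 1)
  have h : Primrec (fun x : ℕ × ℕ => 2 + ix p x.1 / (blk p x.1 - 1) ^ x.2 % (blk p x.1 - 1)) := by
    refine Primrec.nat_add.comp (Primrec.const 2) (Primrec.nat_mod.comp (Primrec.nat_div.comp ?_ ?_)
      hb)
    · exact ix_prim.comp (Primrec.const p) Primrec.fst
    · exact prim_pow.comp hb Primrec.snd
  exact h

/-- Filters. -/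
theorem prim_filter {α β : Type} [Primcodable α] [Primcodable β] {f : α → List β}
    {g : α → β → Bool} (hf : Primrec f) (hg : Primrec₂ g) :
    Primrec (fun a => (f a).filter (g a)) := by
  have h1 : Primrec (fun a => (f a).filterMap (fun b => bif g a b then some b else none)) :=
    Primrec.listFilterMap hf (Primrec.cond hg (Primrec.option_some.comp Primrec.snd)
      (Primrec.const none))
  refine h1.of_eq fun a => ?_
  induction f a with
  | nil => rfl
  | cons b l ih =>
    rw [List.filterMap_cons, List.filter_cons, ih]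
    cases g a b <;> rfl

/-! ## Digits -/

/-- The number of binary digits. -/
def dlen (a : ℕ) : ℕ := ((List.range (a + 1)).filter (fun i => decide (2 ^ i ≤ a))).length

theorem dlen_eq (a : ℕ) : (Nat.digits 2 a).length = dlen a := by
  unfold dlen
  rcases Nat.eq_zero_or_pos a with rfl | ha
  · simp
  · have h1 : (Nat.digits 2 a).length = Nat.log 2 a + 1 := Nat.digits_len 2 a (by norm_num) (by omega)
    have h3 : Nat.log 2 a ≤ a := Nat.log_le_self 2 a
    have h2 : (List.range (a + 1)).filter (fun i => decide (2 ^ i ≤ a)) = List.range (Nat.log 2 a + 1) := by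
      have e : a + 1 = (Nat.log 2 a + 1) + (a - Nat.log 2 a) := by omega
      rw [e, List.range_add, List.filter_append]
      have e1 : (List.range (Nat.log 2 a + 1)).filter (fun i => decide (2 ^ i ≤ a)) =
          List.range (Nat.log 2 a + 1) := by
        rw [List.filter_eq_self]
        intro i hi
        have := List.mem_range.1 hi
        exact decide_eq_true ((Nat.le_log_iff_pow_le (by norm_num) (by omega)).1 (by omega))
      have e2 : ((List.range (a - Nat.log 2 a)).map (Nat.log 2 a + 1 + ·)).filter
          (fun i => decide (2 ^ i ≤ a)) = [] := by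
        rw [List.filter_eq_nil_iff]
        intro i hi
        obtain ⟨j, hj, rfl⟩ := List.mem_map.1 hi
        rw [decide_eq_true_eq]
        intro h
        have := (Nat.le_log_iff_pow_le (by norm_num) (by omega)).2 h
        omega
      rw [e1, e2, List.append_nil]
    rw [h1, h2, List.length_range]

theorem digits_eq (a : ℕ) : Nat.digits 2 a = (List.range (dlen a)).map (fun i => a / 2 ^ i % 2) := by
  refine List.ext_getElem (by rw [dlen_eq]; simp) fun i h1 h2 => ?_
  have h3 := Nat.getD_digits a i (b := 2) (by norm_num)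
  rw [List.getD_eq_getElem _ _ h1] at h3
  rw [h3]
  simp

theorem prim_dlen : Primrec dlen := by
  unfold dlen
  refine Primrec.list_length.comp (prim_filter (Primrec.list_range.comp Primrec.succ) ?_)
  exact (Primrec.nat_le.comp (prim_pow.comp (Primrec.const 2) Primrec.snd) Primrec.fst).decide

theorem prim_digits : Primrec (Nat.digits 2) := by
  have h : Primrec (fun a : ℕ => (List.range (dlen a)).map (fun i => a / 2 ^ i % 2)) := by
    refine Primrec.list_map (Primrec.list_range.comp prim_dlen) ?_
    exact Primrec.nat_mod.comp (Primrec.nat_div.comp Primrec.fst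
      (prim_pow.comp (Primrec.const 2) Primrec.snd)) (Primrec.const 2)
  exact h.of_eq fun a => (digits_eq a).symm

theorem prim_dropLast {α : Type} [Primcodable α] : Primrec (fun l : List α => l.dropLast) := by
  have h1 : Primrec (fun l : List α => l.take (l.length - 1)) :=
    Primrec.list_take.comp (Primrec.nat_sub.comp Primrec.list_length (Primrec.const 1))
      Primrec.id
  refine h1.of_eq fun l => ?_
  rw [List.dropLast_eq_take]

theorem prim_kb : Primrec Kb := by
  unfold Kb
  have h1 : Primrec (fun n : ℕ => (List.range (2 ^ (n + 1))).map (fun a => Encodable.encode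
      ((Nat.digits 2 a).dropLast))) := by
    refine Primrec.list_map (Primrec.list_range.comp (prim_pow.comp (Primrec.const 2)
      Primrec.succ)) ?_
    exact Primrec.encode.comp (prim_dropLast.comp (prim_digits.comp Primrec.snd))
  have h2 : Primrec (fun n : ℕ => ((List.range (2 ^ (n + 1))).map (fun a => Encodable.encode
      ((Nat.digits 2 a).dropLast))).foldr max 0) := by
    refine Primrec.list_foldr (h := fun _ (p : ℕ × ℕ) => max p.1 p.2) h1 (Primrec.const 0) ?_
    exact Primrec.nat_max.comp (Primrec.fst.comp Primrec.snd) (Primrec.snd.comp Primrec.snd)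
  exact Primrec.succ.comp h2

/-! ## Moves -/

theorem ends_iff (n : ℕ) (w : List ℕ) : Ends n w ↔
    ((w.getLast?).map (fun a => decide (kd a = 2 ∧ ar a = n))).getD false = true := by
  constructor
  · rintro ⟨v, s, rfl⟩
    have h1 : kd (mC s n) = 2 := Txt.kd_mm 2 n s
    have h2 : ar (mC s n) = n := Txt.ar_mm 2 n s
    simp [h1, h2]
  · intro h
    rcases h1 : w.getLast? with _ | a
    · rw [h1] at h; cases h
    · rw [h1] at h
      have h2 : kd a = 2 ∧ ar a = n := by simpa using h
      obtain ⟨v, rfl⟩ : ∃ v, w = v ++ [a] := by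
        rcases List.eq_nil_or_concat w with rfl | ⟨v, b, rfl⟩
        · cases h1
        · have h3 : b = a := by simpa using h1
          exact ⟨v, by rw [h3]; simp⟩
      refine ⟨v, sg a, ?_⟩
      have h3 : Txt.mm (kd a) (ar a) (sg a) = a := Txt.mm_kd (by rw [h2.1]; norm_num)
      rw [h2.1, h2.2] at h3
      have h4 : mC (sg a) n = a := h3
      rw [h4]

theorem cp_ends : ComputablePred (fun x : ℕ × List ℕ => Ends x.1 x.2) := by
  have h1 : Primrec (fun x : ℕ × List ℕ =>
      ((x.2.getLast?).map (fun a => decide (kd a = 2 ∧ ar a = x.1))).getD false) := by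
    refine Primrec.option_getD.comp (Primrec.option_map (Txt.prim_getLast.comp Primrec.snd) ?_)
      (Primrec.const false)
    exact ((Primrec.eq.comp (Txt.prim_kd.comp Primrec.snd) (Primrec.const 2)).and
      (Primrec.eq.comp (Txt.prim_ar.comp Primrec.snd) (Primrec.fst.comp Primrec.fst))).decide
  refine ComputablePred.of_eq (p := fun x : ℕ × List ℕ =>
    ((x.2.getLast?).map (fun a => decide (kd a = 2 ∧ ar a = x.1))).getD false = true)
    ⟨inferInstance, ?_⟩ fun x => (ends_iff x.1 x.2).symm
  refine h1.to_comp.of_eq fun x => ?_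
  show _ = decide (((x.2.getLast?).map (fun a => decide (kd a = 2 ∧ ar a = x.1))).getD false = true)
  cases ((x.2.getLast?).map (fun a => decide (kd a = 2 ∧ ar a = x.1))).getD false <;> rfl

theorem prim_code0 : Primrec code0 := by
  unfold code0
  have hc : Primrec (fun I : Itm => I.c.1) :=
    Primrec.fst.comp (Primrec.snd.comp (Primrec.snd.comp Primrec.snd))
  have hl : Primrec (fun I : Itm => I.c.2) :=
    Primrec.snd.comp (Primrec.snd.comp (Primrec.snd.comp Primrec.snd))
  refine Primrec.encode.comp (Primrec.pair (Primrec.pair Primrec.fst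
    (Primrec.fst.comp Primrec.snd)) (Primrec.pair (Primrec.pair
      (Primrec.fst.comp (Primrec.snd.comp Primrec.snd)) (prim_dropLast.comp hc))
      (Primrec.pair (Txt.prim_sg.comp (Primrec.option_getD.comp (Txt.prim_getLast.comp hc)
        (Primrec.const 0))) (Primrec.list_map hl ?_))))
  exact Primrec.pair (Primrec.fst.comp Primrec.snd)
    (Primrec.fst.comp (Primrec.snd.comp Primrec.snd))

/-! ## Functionals -/

theorem prim_tlen (P : Par) : Primrec₂ (tlen P) := by
  have hD : Primrec₂ (fun (l : List (List ℕ)) (n : ℕ) => l.getD n []) := Primrec.list_getD []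
  have hrow : Primrec₂ (fun (x : ℕ × List (List ℕ)) (c : ℕ) => (x.2.getD c []).length) :=
    Primrec.list_length.comp (hD.comp (Primrec.snd.comp Primrec.fst) Primrec.snd)
  have h1 : Primrec (fun x : ℕ × List (List ℕ) =>
      (((List.range (P.p + P.q)).filter (Prs P x.1)).map (fun c => (x.2.getD c []).length))) := by
    refine Primrec.list_map (prim_filter (Primrec.const _) ?_) hrow
    exact (prim_prs P).comp (Primrec.fst.comp Primrec.fst) Primrec.snd
  have h2 : Primrec (fun x : ℕ × List (List ℕ) => tlen P x.1 x.2) := by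
    unfold tlen
    refine Primrec.list_foldr (h := fun _ (p : ℕ × ℕ) => min p.1 p.2) h1 ?_ ?_
    · exact Primrec.list_length.comp (hD.comp Primrec.snd (Primrec.const 0))
    · exact Primrec.nat_min.comp (Primrec.fst.comp Primrec.snd) (Primrec.snd.comp Primrec.snd)
  exact h2

theorem prim_fj (P : Par) : Primrec₂ (fj P) := by
  have h1 : Primrec (fun x : ℕ × List (List ℕ) => fj P x.1 x.2) := by
    unfold fj
    refine Primrec.list_map (Primrec.list_range.comp (Primrec.nat_mul.comp
      (Primrec.const (P.p + P.q)) ((prim_tlen P).comp Primrec.fst Primrec.snd))) ?_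
    have hm : Primrec (fun y : (ℕ × List (List ℕ)) × ℕ => y.2 % (P.p + P.q)) :=
      Primrec.nat_mod.comp Primrec.snd (Primrec.const _)
    have hd : Primrec (fun y : (ℕ × List (List ℕ)) × ℕ => y.2 / (P.p + P.q)) :=
      Primrec.nat_div.comp Primrec.snd (Primrec.const _)
    have hb : Primrec (fun y : (ℕ × List (List ℕ)) × ℕ => Prs P y.1.1 (y.2 % (P.p + P.q))) :=
      (prim_prs P).comp (Primrec.fst.comp Primrec.fst) hm
    refine Primrec.ite (Primrec.eq.comp hb (Primrec.const true)) ?_ (Primrec.const 0)
    exact (Primrec.list_getD 0).comp ((Primrec.list_getD []).comp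
      (Primrec.snd.comp Primrec.fst) hm) hd
  exact h1

theorem comp_ev {P : Par} (hP : P.Ok) :
    Computable (fun x : (ℕ × ℕ) × List (List ℕ) => ev P x.1.1 x.1.2 x.2) := by
  unfold ev
  refine hP.enum.comp.comp (Computable.fst.comp Computable.fst) ?_
  exact (prim_fj P).to_comp.comp (Computable.snd.comp Computable.fst) Computable.snd

/-- Module LDA2. -/
theorem da2 : Da2Statement := by
  intro P hP
  have hh : Computable (fun x : Itm × List ℕ => x.1.hd) :=
    Computable.fst.comp (Computable.snd.comp Computable.fst)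
  refine
    { leg := ?_, le := ?_, ht := ?_, st := ?_, opn := ?_, okN := ?_, ends := cp_ends,
      code0 := prim_code0.to_comp, blk := ?_, ix := ?_, nb := ?_, dv := ?_, jj := ?_, prs := ?_,
      ev := comp_ev hP, kb := prim_kb.to_comp }
  · exact Cop.toCP (Calc.cop_leg (T := P.Hd) hP.hdc hh Computable.snd)
  · exact Cop.toCP (Calc.cop_le' (T := P.Hd) hP.hdc
      (i := fun x : Itm × ℕ × List ℕ × List ℕ => x.1.hd)
      (Computable.fst.comp (Computable.snd.comp Computable.fst))
      (Computable.fst.comp Computable.snd)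
      (Computable.fst.comp (Computable.snd.comp Computable.snd))
      (Computable.snd.comp (Computable.snd.comp Computable.snd)))
  · exact Calc.comp_ht (T := P.Hd) hP.hdc hh Computable.snd
  · exact Calc.comp_st (T := P.Hd) hP.hdc hh Computable.snd
  · exact Calc.comp_opn (T := P.Hd) hP.hdc hh Computable.snd
  · exact Txt.prim_okN.to_comp
  · exact (blk_prim.comp (Primrec.const P.p) Primrec.id).to_comp
  · exact (ix_prim.comp (Primrec.const P.p) Primrec.id).to_comp
  · exact (nb_prim.comp (Primrec.const P.p) Primrec.id).to_comp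
  · exact (prim_dv P.p).to_comp
  · exact prim_jj.to_comp
  · exact (prim_prs P).to_comp

end Pool.Agent.Lib.MP_d48993_lc.Gr.Lm
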