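import Pool.Agent.Lib.MP_d48993_lc.AE.Gr.LimDefs

/-!
# Part G (MP_d48993): the statements of the decidability modules (finding 4200, G8.7)
-/

set_option autoImplicit false
set_option synthInstance.maxSize 20000

namespace Pool.Agent.Lib.MP_d48993_lc.Gr.Lm

open Pool.Agent.Lib.MP_d48993_lc.Node
open MP_8c048d_lc (pre join RecF)
open Txt (ht st mC mN mR ltN okN Leg)

/-- Decidability of the parts: data, strings, conditions. -/
structure DA1 (P : Par) : Prop where
  bk : Computable bk
  lg : ComputablePred (fun x : St × St => Lg x.1 x.2)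
  gd : ComputablePred GD
  dext : ComputablePred (fun x : Data × Data => DExt x.1 x.2)
  edge : ComputablePred (fun x : Data × St × St => x.1.W.edge x.2.1 x.2.2)
  adv : Computable (fun x : Data × St => x.1.W.adv x.2)
  vs : ComputablePred (fun x : Data × ℕ => VS x.1.W x.2)
  vstr : ComputablePred (fun x : Data × St × List ℕ × St => VStr x.1.W x.2.1 x.2.2.1 x.2.2.2)
  cv : ComputablePred (fun x : Data × Itm × Cnd3 => CV x.1.W (LT P x.2.1) x.2.2)
  cle : ComputablePred (fun x : Itm × Cnd3 × Cnd3 => CLe (LT P x.1) x.2.1 x.2.2)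
  lgc : ComputablePred (fun x : Cnd3 × Cnd3 => LgC x.1 x.2)
  at' : ComputablePred (fun x : St × Cnd3 => At x.1 x.2)
  zq : Computable zq
  adm : ComputablePred Adm
  zero : ComputablePred Zero
  bad : ComputablePred (fun x : Data × List ℕ => Bad x.1 x.2)
  link : ComputablePred (fun x : ℕ × St × St => Link P x.1 x.2.1 x.2.2)
  dt : Computable (fun x : Stg × ℕ => dt x.1 x.2)
  rt : Computable (fun x : Stg × ℕ => rt x.1 x.2)
  nbd : Computable (fun x : Stg × ℕ => nbd x.1 x.2)
  cu : Computable (fun x : Stg × Itm => cu x.1 x.2)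
  fn : Computable (fun x : Stg × Itm => fn x.1 x.2)

/-- Decidability of the parts: texts, blocks, functionals. -/
structure DA2 (P : Par) : Prop where
  leg : ComputablePred (fun x : Itm × List ℕ => Leg (HT P x.1) x.2)
  le : ComputablePred (fun x : Itm × ℕ × List ℕ × List ℕ =>
    Txt.Le (HT P x.1) x.2.1 x.2.2.1 x.2.2.2)
  ht : Computable (fun x : Itm × List ℕ => ht (HT P x.1) x.2)
  st : Computable (fun x : Itm × List ℕ => st (HT P x.1) x.2)
  opn : Computable (fun x : Itm × List ℕ => Txt.opn (HT P x.1) x.2)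
  okN : Computable (fun x : List Txt.Lv × ℕ => okN x.1 x.2)
  ends : ComputablePred (fun x : ℕ × List ℕ => Ends x.1 x.2)
  code0 : Computable code0
  blk : Computable (blk P.p)
  ix : Computable (ix P.p)
  nb : Computable (nb P.p)
  dv : Computable (fun x : ℕ × ℕ => dv P.p x.1 x.2)
  jj : Computable (fun x : ℕ × ℕ => JJ x.1 x.2)
  prs : Computable (fun x : ℕ × ℕ => Prs P x.1 x.2)
  ev : Computable (fun x : (ℕ × ℕ) × List (List ℕ) => ev P x.1.1 x.1.2 x.2)
  kb : Computable Kb

/-- Module LDA1 (from DECV, DECC, CODES; LimitRel-like). -/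
def Da1Statement : Prop := ∀ P : Par, P.Ok → DA1 P

/-- Module LDA2 (from TXTU, BLK). -/
def Da2Statement : Prop := ∀ P : Par, P.Ok → DA2 P

/-- Module LDI: the items. -/
def DiStatement : Prop := ∀ P : Par, P.Ok → DA1 P → DA2 P →
  ComputablePred (fun x : Stg × Itm => ItmOk P x.1 x.2)

/-- Module LDM: the coded contract. -/
def DmStatement : Prop := ∀ P : Par, P.Ok → DA1 P → DA2 P →
  ComputablePred (fun x : (Stg × Stg) × Qd =>
    Mx P { ctx P x.1.1 with u := rt x.1.2 } (blk P.p x.1.1.t) (endS x.1.1 x.1.2) x.2)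

/-- Module LFIN (from FINV): a stage has finitely many items. -/
def LfinStatement : Prop := ∀ P : Par, P.Ok → ∀ a : Stg, {I | ItmOk P a I}.Finite

end Pool.Agent.Lib.MP_d48993_lc.Gr.Lm
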