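import Pool.Agent.Lib.MP_d48993_lc.AE.Gr.CalcB
import Pool.Agent.Lib.MP_d48993_lc.AE.Gr.LimStm

/-!
# Part G (MP_d48993), module GDEC: the relation between two stages is decidable
-/

set_option autoImplicit false
set_option synthInstance.maxSize 20000
set_option linter.unusedSectionVars false

namespace Pool.Agent.Lib.MP_d48993_lc.Gr.Lm

open Pool.Agent.Lib.MP_d48993_lc.Node
open MP_8c048d_lc (pre join RecF Sig Clo Cop Del)
open Txt (ht st mC mN mR ltN okN Leg)
open Node.Limit (cop_eq cop_le cop_lt cop_mem cop_prefix)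
open Calc (comp_map comp_len comp_endd cop_bounded comp_sz comp_add comp_src comp_tgt comp_Ex
  cop_aext comp_app)

namespace GDec

variable {α β : Type} [Primcodable α] [Primcodable β]

attribute [local fun_prop] Computable Limit.cid Limit.cconst Limit.ccomp Limit.cfst Limit.csnd
  Limit.cpair

/-! ### General facts -/

theorem cop_nodup {l : α → List β} (hl : Computable l) :
    Cop (fun a (_ : ℕ → ℕ) => (l a).Nodup) := by
  have h1 : Cop (fun (x : α × ℕ) (_ : ℕ → ℕ) => ∀ i ∈ List.range x.2,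
      ¬ (l x.1)[i]? = (l x.1)[x.2]?) := by
    refine Cop.ballL (P := fun (x : α × ℕ) (i : ℕ) (_ : ℕ → ℕ) =>
      ¬ (l x.1)[i]? = (l x.1)[x.2]?) (Cop.not (cop_eq ?_ ?_))
      (Primrec.list_range.to_comp.comp Computable.snd)
    · exact Computable.list_getElem?.comp (hl.comp (Computable.fst.comp Computable.fst))
        Computable.snd
    · exact Computable.list_getElem?.comp (hl.comp (Computable.fst.comp Computable.fst))
        (Computable.snd.comp Computable.fst)
  refine (Cop.ballL (P := fun (a : α) (j : ℕ) (_ : ℕ → ℕ) => ∀ i ∈ List.range j,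
    ¬ (l a)[i]? = (l a)[j]?) h1 (l := fun a => List.range (l a).length)
    (Primrec.list_range.to_comp.comp (comp_len hl))).congr fun a _ => ?_
  simp only [List.mem_range]
  rw [List.nodup_iff_getElem?_ne_getElem?]
  constructor
  · intro h i j hij hj
    exact h j hj i hij
  · intro h j hj i hij
    exact h i j hij hj

theorem cop_pfx {Q : α → List ℕ → (ℕ → ℕ) → Prop} (h : Cop (fun (x : α × List ℕ) F =>
    Q x.1 x.2 F)) {l : α → List ℕ} (hl : Computable l) :
    Cop (fun a F => ∀ ν, ν <+: l a → Q a ν F) := by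
  have h1 : Cop (fun (x : α × ℕ) F => Q x.1 ((l x.1).take x.2) F) :=
    h.comp (f := fun x : α × ℕ => (x.1, (l x.1).take x.2))
      (Computable.fst.pair (comp_take Computable.snd (hl.comp Computable.fst)))
  refine (Cop.ballL (P := fun a m F => Q a ((l a).take m) F) h1
    (l := fun a => List.range ((l a).length + 1))
    (Primrec.list_range.to_comp.comp (Computable.succ.comp (comp_len hl)))).congr fun a F => ?_
  simp only [List.mem_range]
  constructor
  · intro h ν hν
    have h2 := h ν.length (by have := hν.length_le; omega)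
    rwa [← List.prefix_iff_eq_take.1 hν] at h2
  · intro h m _
    exact h _ (List.take_prefix _ _)

/-- A decidable implication with a hypothesis which is used. -/
theorem cp2 {γ : Type} [Primcodable γ] {Q : γ → Prop} (h : ComputablePred Q) {f : α → γ}
    (hf : Computable f) : Cop (fun a (_ : ℕ → ℕ) => Q (f a)) := (Cop.of_computable h).comp hf

section parts

variable {P : Par} (D1 : DA1 P) (D2 : DA2 P)
include D1

theorem c_dt {a : α → Stg} {s : α → ℕ} (ha : Computable a) (hs : Computable s) :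
    Computable (fun b => dt (a b) (s b)) :=
  Computable.comp (f := fun x : Stg × ℕ => dt x.1 x.2) (g := fun b => (a b, s b)) D1.dt
    (ha.pair hs)

theorem c_rt {a : α → Stg} {s : α → ℕ} (ha : Computable a) (hs : Computable s) :
    Computable (fun b => rt (a b) (s b)) :=
  Computable.comp (f := fun x : Stg × ℕ => rt x.1 x.2) (g := fun b => (a b, s b)) D1.rt
    (ha.pair hs)

theorem c_nbd {a : α → Stg} {s : α → ℕ} (ha : Computable a) (hs : Computable s) :
    Computable (fun b => nbd (a b) (s b)) :=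
  Computable.comp (f := fun x : Stg × ℕ => nbd x.1 x.2) (g := fun b => (a b, s b)) D1.nbd
    (ha.pair hs)

theorem c_cu {a : α → Stg} {I : α → Itm} (ha : Computable a) (hI : Computable I) :
    Computable (fun b => cu (a b) (I b)) :=
  Computable.comp (f := fun x : Stg × Itm => cu x.1 x.2) (g := fun b => (a b, I b)) D1.cu
    (ha.pair hI)

theorem c_fn {a : α → Stg} {I : α → Itm} (ha : Computable a) (hI : Computable I) :
    Computable (fun b => fn (a b) (I b)) :=
  Computable.comp (f := fun x : Stg × Itm => fn x.1 x.2) (g := fun b => (a b, I b)) D1.fn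
    (ha.pair hI)

theorem k_gd {f : α → Data} (hf : Computable f) : Cop (fun a (_ : ℕ → ℕ) => GD (f a)) :=
  cp2 D1.gd hf

theorem k_dext {f g : α → Data} (hf : Computable f) (hg : Computable g) :
    Cop (fun a (_ : ℕ → ℕ) => DExt (f a) (g a)) :=
  cp2 (Q := fun x : Data × Data => DExt x.1 x.2) D1.dext (hf.pair hg)

theorem k_edge {f : α → Data} (hf : Computable f) {x y : α → St} (hx : Computable x)
    (hy : Computable y) : Cop (fun a (_ : ℕ → ℕ) => (f a).W.edge (x a) (y a)) :=
  cp2 (Q := fun x : Data × St × St => x.1.W.edge x.2.1 x.2.2) D1.edge (hf.pair (hx.pair hy))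

theorem k_vs {f : α → Data} (hf : Computable f) {g : α → ℕ} (hg : Computable g) :
    Cop (fun a (_ : ℕ → ℕ) => VS (f a).W (g a)) :=
  cp2 (Q := fun x : Data × ℕ => VS x.1.W x.2) D1.vs (hf.pair hg)

theorem k_vstr {f : α → Data} (hf : Computable f) {x : α → St} (hx : Computable x)
    {σ : α → List ℕ} (hσ : Computable σ) {y : α → St} (hy : Computable y) :
    Cop (fun a (_ : ℕ → ℕ) => VStr (f a).W (x a) (σ a) (y a)) :=
  cp2 (Q := fun x : Data × St × List ℕ × St => VStr x.1.W x.2.1 x.2.2.1 x.2.2.2) D1.vstr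
    (hf.pair (hx.pair (hσ.pair hy)))

theorem k_cv {f : α → Data} (hf : Computable f) {I : α → Itm} (hI : Computable I)
    {c : α → Cnd3} (hc : Computable c) : Cop (fun a (_ : ℕ → ℕ) => CV (f a).W (LT P (I a)) (c a)) :=
  cp2 (Q := fun x : Data × Itm × Cnd3 => CV x.1.W (LT P x.2.1) x.2.2) D1.cv
    (hf.pair (hI.pair hc))

theorem k_cle {I : α → Itm} (hI : Computable I) {c c' : α → Cnd3} (hc : Computable c)
    (hc' : Computable c') : Cop (fun a (_ : ℕ → ℕ) => CLe (LT P (I a)) (c a) (c' a)) :=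
  cp2 (Q := fun x : Itm × Cnd3 × Cnd3 => CLe (LT P x.1) x.2.1 x.2.2) D1.cle
    (hI.pair (hc.pair hc'))

theorem k_lgc {c c' : α → Cnd3} (hc : Computable c)
    (hc' : Computable c') : Cop (fun a (_ : ℕ → ℕ) => LgC (c a) (c' a)) :=
  cp2 (Q := fun x : Cnd3 × Cnd3 => LgC x.1 x.2) D1.lgc (hc.pair hc')

theorem k_at {z : α → St} (hz : Computable z) {c : α → Cnd3} (hc : Computable c) :
    Cop (fun a (_ : ℕ → ℕ) => At (z a) (c a)) :=
  cp2 (Q := fun x : St × Cnd3 => At x.1 x.2) D1.at' (hz.pair hc)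

omit D1
include D2

theorem k_leg {I : α → Itm} (hI : Computable I) {w : α → List ℕ} (hw : Computable w) :
    Cop (fun a (_ : ℕ → ℕ) => Leg (HT P (I a)) (w a)) :=
  cp2 (Q := fun x : Itm × List ℕ => Leg (HT P x.1) x.2) (f := fun a => (I a, w a)) D2.leg
    (hI.pair hw)

theorem k_le {I : α → Itm} (hI : Computable I) {k : α → ℕ} (hk : Computable k)
    {w w' : α → List ℕ} (hw : Computable w) (hw' : Computable w') :
    Cop (fun a (_ : ℕ → ℕ) => Txt.Le (HT P (I a)) (k a) (w a) (w' a)) :=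
  cp2 (Q := fun x : Itm × ℕ × List ℕ × List ℕ => Txt.Le (HT P x.1) x.2.1 x.2.2.1 x.2.2.2)
    (f := fun a => (I a, k a, w a, w' a)) D2.le (hI.pair (hk.pair (hw.pair hw')))

theorem c_ht {I : α → Itm} (hI : Computable I) {w : α → List ℕ} (hw : Computable w) :
    Computable (fun a => ht (HT P (I a)) (w a)) :=
  Computable.comp (f := fun x : Itm × List ℕ => ht (HT P x.1) x.2) (g := fun a => (I a, w a))
    D2.ht (hI.pair hw)

theorem c_st {I : α → Itm} (hI : Computable I) {w : α → List ℕ} (hw : Computable w) :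
    Computable (fun a => st (HT P (I a)) (w a)) :=
  Computable.comp (f := fun x : Itm × List ℕ => st (HT P x.1) x.2) (g := fun a => (I a, w a))
    D2.st (hI.pair hw)

theorem c_opn {I : α → Itm} (hI : Computable I) {w : α → List ℕ} (hw : Computable w) :
    Computable (fun a => Txt.opn (HT P (I a)) (w a)) :=
  Computable.comp (f := fun x : Itm × List ℕ => Txt.opn (HT P x.1) x.2)
    (g := fun a => (I a, w a)) D2.opn (hI.pair hw)

theorem c_okN {L : α → List Txt.Lv} (hL : Computable L) {m : α → ℕ} (hm : Computable m) :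
    Computable (fun a => okN (L a) (m a)) :=
  Computable.comp (f := fun x : List Txt.Lv × ℕ => okN x.1 x.2) (g := fun a => (L a, m a))
    D2.okN (hL.pair hm)

theorem c_blk {a : α → Stg} (ha : Computable a) : Computable (fun b => blk P.p (a b).t) :=
  D2.blk.comp (Computable.fst.comp ha)

theorem c_r {a : α → Stg} (ha : Computable a) : Computable (fun b => (ctx P (a b)).r) := by
  have h1 : Computable (fun b => nb P.p (blk P.p (a b).t) - 1) :=
    (Primrec.nat_sub.to_comp).comp (D2.nb.comp (c_blk D2 ha)) (Computable.const 1)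
  exact (Primrec.nat_sub.to_comp).comp h1 (D2.ix.comp (Computable.fst.comp ha))

theorem c_J {a : α → Stg} (ha : Computable a) {s : α → ℕ} (hs : Computable s) :
    Computable (fun b => (ctx P (a b)).J (s b)) := by
  have h1 : Computable (fun b => decide (blk P.p (a b).t ≤ 2)) :=
    ((Primrec.nat_le.comp Primrec.id (Primrec.const 2)).decide.to_comp).comp (c_blk D2 ha)
  have h2 : Computable (fun b => JJ (blk P.p (a b).t) (s b)) :=
    Computable.comp (f := fun x : ℕ × ℕ => JJ x.1 x.2) (g := fun b => (blk P.p (a b).t, s b))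
      D2.jj ((c_blk D2 ha).pair hs)
  exact Primrec.or.to_comp.comp h1 h2

theorem c_D {a : α → Stg} (ha : Computable a) {s : α → ℕ} (hs : Computable s) :
    Computable (fun b => (ctx P (a b)).D (s b)) :=
  Computable.comp (f := fun x : ℕ × ℕ => dv P.p x.1 x.2) (g := fun b => ((a b).t, s b))
    D2.dv ((Computable.fst.comp ha).pair hs)

end parts

section clauses

variable {P : Par} (D1 : DA1 P) (D2 : DA2 P) {a a' : α → Stg} (ha : Computable a)
  (ha' : Computable a')

theorem comp_keys {T : α → Tab} (hT : Computable T) : Computable (fun x => (T x).map Prod.fst) :=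
  comp_map (f := fun (_ : α) (x : Itm × Cnd3) => x.1) (Computable.fst.comp Computable.snd) hT

include D1 ha ha' in
theorem c_good : Cop (fun x (_ : ℕ → ℕ) => ∀ s < P.p, GD (dt (a' x) s) ∧
    DExt (dt (a x) s) (dt (a' x) s) ∧ (dt (a' x) s).pub = (dt (a x) s).pub ++ [rt (a' x) s]) := by
  have e1 : Computable (fun x : α × ℕ => dt (a x.1) x.2) :=
    c_dt D1 (ha.comp Computable.fst) Computable.snd
  have e2 : Computable (fun x : α × ℕ => dt (a' x.1) x.2) :=
    c_dt D1 (ha'.comp Computable.fst) Computable.snd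
  have e3 : Computable (fun x : α × ℕ => rt (a' x.1) x.2) :=
    c_rt D1 (ha'.comp Computable.fst) Computable.snd
  refine cop_bounded (Q := fun x s _ => GD (dt (a' x) s) ∧
    DExt (dt (a x) s) (dt (a' x) s) ∧ (dt (a' x) s).pub = (dt (a x) s).pub ++ [rt (a' x) s]) P.p ?_
  exact (k_gd D1 e2).and ((k_dext D1 e1 e2).and (cop_eq (Limit.cfst (Limit.csnd e2))
    (comp_app (Limit.cfst (Limit.csnd e1)) (Computable.list_cons.comp e3 (Computable.const [])))))

include D1 D2 ha ha' in
theorem c_root : Cop (fun x (_ : ℕ → ℕ) => ∀ s < P.p, (dt (a x) s).N ≤ nbd (a' x) s ∧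
    nbd (a' x) s ≤ rt (a' x) s ∧ rt (a' x) s < (dt (a' x) s).N ∧
    bk (rt (a' x) s) = blk P.p (a x).t ∧
    Kb (blk P.p (a x).t + 2) + blk P.p (a x).t + 3 + (a x).t ≤ sz (rt (a' x) s)) := by
  have e1 : Computable (fun x : α × ℕ => dt (a x.1) x.2) :=
    c_dt D1 (ha.comp Computable.fst) Computable.snd
  have e2 : Computable (fun x : α × ℕ => dt (a' x.1) x.2) :=
    c_dt D1 (ha'.comp Computable.fst) Computable.snd
  have e3 : Computable (fun x : α × ℕ => rt (a' x.1) x.2) :=
    c_rt D1 (ha'.comp Computable.fst) Computable.snd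
  have e4 : Computable (fun x : α × ℕ => nbd (a' x.1) x.2) :=
    c_nbd D1 (ha'.comp Computable.fst) Computable.snd
  have e5 : Computable (fun x : α × ℕ => blk P.p (a x.1).t) := c_blk D2 (ha.comp Computable.fst)
  have e6 : Computable (fun x : α × ℕ => Kb (blk P.p (a x.1).t + 2)) :=
    D2.kb.comp (comp_add e5 (Computable.const 2))
  have e7 : Computable (fun x : α × ℕ => (a x.1).t) :=
    Computable.fst.comp (ha.comp Computable.fst)
  refine cop_bounded (Q := fun x s _ => (dt (a x) s).N ≤ nbd (a' x) s ∧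
    nbd (a' x) s ≤ rt (a' x) s ∧ rt (a' x) s < (dt (a' x) s).N ∧
    bk (rt (a' x) s) = blk P.p (a x).t ∧
    Kb (blk P.p (a x).t + 2) + blk P.p (a x).t + 3 + (a x).t ≤ sz (rt (a' x) s)) P.p ?_
  exact (cop_le (Limit.cfst e1) e4).and ((cop_le e4 e3).and ((cop_lt e3 (Limit.cfst e2)).and
    ((cop_eq (D1.bk.comp e3) e5).and (cop_le (comp_add (comp_add (comp_add e6 e5)
      (Computable.const 3)) e7) (comp_sz.comp e3)))))

include D1 ha ha' in
theorem c_szs : Cop (fun x (_ : ℕ → ℕ) => ∀ s < P.p, ∀ r ∈ (dt (a x) s).pub,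
    sz r ≤ sz (rt (a' x) s)) := by
  have e1 : Computable (fun x : α × ℕ => dt (a x.1) x.2) :=
    c_dt D1 (ha.comp Computable.fst) Computable.snd
  have e3 : Computable (fun x : α × ℕ => rt (a' x.1) x.2) :=
    c_rt D1 (ha'.comp Computable.fst) Computable.snd
  refine cop_bounded (Q := fun x s _ => ∀ r ∈ (dt (a x) s).pub, sz r ≤ sz (rt (a' x) s)) P.p ?_
  exact Cop.ballL (P := fun (x : α × ℕ) (r : ℕ) (_ : ℕ → ℕ) => sz r ≤ sz (rt (a' x.1) x.2))
    (cop_le (comp_sz.comp Computable.snd) (comp_sz.comp (e3.comp Computable.fst)))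
    (Limit.cfst (Limit.csnd e1))

include D1 ha' in
theorem c_nbs : Cop (fun x (_ : ℕ → ℕ) => ∀ s < P.p, nbd (a' x) s ≤ sz (rt (a' x) s)) := by
  have e3 : Computable (fun x : α × ℕ => rt (a' x.1) x.2) :=
    c_rt D1 (ha'.comp Computable.fst) Computable.snd
  have e4 : Computable (fun x : α × ℕ => nbd (a' x.1) x.2) :=
    c_nbd D1 (ha'.comp Computable.fst) Computable.snd
  exact cop_bounded (Q := fun x s _ => nbd (a' x) s ≤ sz (rt (a' x) s)) P.p
    (cop_le e4 (comp_sz.comp e3))

include D1 ha' in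
theorem c_gap {x y : α → St} (hx : Computable x) (hy : Computable y) :
    Cop (fun q (_ : ℕ → ℕ) => ∀ s < P.p, (dt (a' q) s).W.edge (x q) (y q) →
      nbd (a' q) s ≤ (y q).1 → rt (a' q) s ≤ (y q).1) := by
  have e2 : Computable (fun x : α × ℕ => dt (a' x.1) x.2) :=
    c_dt D1 (ha'.comp Computable.fst) Computable.snd
  have e3 : Computable (fun x : α × ℕ => rt (a' x.1) x.2) :=
    c_rt D1 (ha'.comp Computable.fst) Computable.snd
  have e4 : Computable (fun x : α × ℕ => nbd (a' x.1) x.2) :=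
    c_nbd D1 (ha'.comp Computable.fst) Computable.snd
  have ey : Computable (fun x : α × ℕ => (y x.1).1) := Limit.cfst (hy.comp Computable.fst)
  refine cop_bounded (Q := fun q s _ => (dt (a' q) s).W.edge (x q) (y q) →
      nbd (a' q) s ≤ (y q).1 → rt (a' q) s ≤ (y q).1) P.p ?_
  exact Cop.imp (k_edge D1 e2 (hx.comp Computable.fst) (hy.comp Computable.fst))
    (Cop.imp (cop_le e4 ey) (cop_le e3 ey))

include D1 ha' in
theorem c_many (hcd : CodesStatement) {L : α → List (List ℕ)} (hL : Computable L) :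
    Cop (fun q (_ : ℕ → ℕ) => ∀ s < P.p, (L q).Nodup → (∀ σ ∈ L q, VStr (dt (a' q) s).W o σ
      (endd o σ) ∧ (endd o σ).1 < rt (a' q) s) → 3 * (L q).length + 3 < sz (rt (a' q) s)) := by
  have e2 : Computable (fun x : α × ℕ => dt (a' x.1) x.2) :=
    c_dt D1 (ha'.comp Computable.fst) Computable.snd
  have e3 : Computable (fun x : α × ℕ => rt (a' x.1) x.2) :=
    c_rt D1 (ha'.comp Computable.fst) Computable.snd
  have eL : Computable (fun x : α × ℕ => L x.1) := hL.comp Computable.fst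
  refine cop_bounded (Q := fun q s _ => (L q).Nodup → (∀ σ ∈ L q, VStr (dt (a' q) s).W o σ
      (endd o σ) ∧ (endd o σ).1 < rt (a' q) s) → 3 * (L q).length + 3 < sz (rt (a' q) s)) P.p ?_
  refine Cop.imp (cop_nodup eL) (Cop.imp ?_ ?_)
  · have e5 : Computable (fun q : (α × ℕ) × List ℕ => endd o q.2) :=
      comp_endd hcd (Computable.const o) Computable.snd
    exact Cop.ballL (P := fun (x : α × ℕ) (σ : List ℕ) (_ : ℕ → ℕ) =>
      VStr (dt (a' x.1) x.2).W o σ (endd o σ) ∧ (endd o σ).1 < rt (a' x.1) x.2)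
      ((k_vstr D1 (e2.comp Computable.fst) (Computable.const o) Computable.snd e5).and
        (cop_lt (Limit.cfst e5) (e3.comp Computable.fst))) eL
  · exact cop_lt (comp_add ((Primrec.nat_mul.to_comp).comp (Computable.const 3) (comp_len eL))
      (Computable.const 3)) (comp_sz.comp e3)

include D1 D2 ha ha' in
theorem c_can (hcd : CodesStatement) {x y : α → St} (hx : Computable x) (hy : Computable y) :
    Cop (fun q (_ : ℕ → ℕ) => ∀ s < P.p, Adm (x q) → (x q).1 < nbd (a' q) s → Adm (y q) →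
      (y q).1 = rt (a' q) s → (y q).2.length ≤ blk P.p (a q).t + 2 →
      ∃ g ∈ (a' q).syms, VS (dt (a' q) s).W g ∧ src g = x q ∧ tgt g = y q ∧ Ex g = []) := by
  have e2 : Computable (fun x : α × ℕ => dt (a' x.1) x.2) :=
    c_dt D1 (ha'.comp Computable.fst) Computable.snd
  have e3 : Computable (fun x : α × ℕ => rt (a' x.1) x.2) :=
    c_rt D1 (ha'.comp Computable.fst) Computable.snd
  have e4 : Computable (fun x : α × ℕ => nbd (a' x.1) x.2) :=
    c_nbd D1 (ha'.comp Computable.fst) Computable.snd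
  have ex : Computable (fun q : α × ℕ => x q.1) := hx.comp Computable.fst
  have ey : Computable (fun q : α × ℕ => y q.1) := hy.comp Computable.fst
  refine cop_bounded (Q := fun q s _ => Adm (x q) → (x q).1 < nbd (a' q) s → Adm (y q) →
      (y q).1 = rt (a' q) s → (y q).2.length ≤ blk P.p (a q).t + 2 →
      ∃ g ∈ (a' q).syms, VS (dt (a' q) s).W g ∧ src g = x q ∧ tgt g = y q ∧ Ex g = []) P.p ?_
  refine Cop.imp (cp2 D1.adm ex) (Cop.imp (cop_lt (Limit.cfst ex) e4) (Cop.imp (cp2 D1.adm ey)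
    (Cop.imp (cop_eq (Limit.cfst ey) e3) (Cop.imp (cop_le (comp_len (Limit.csnd ey))
      (comp_add (c_blk D2 (ha.comp Computable.fst)) (Computable.const 2))) ?_))))
  refine Cop.bexL (P := fun (q : α × ℕ) (g : ℕ) (_ : ℕ → ℕ) =>
    VS (dt (a' q.1) q.2).W g ∧ src g = x q.1 ∧ tgt g = y q.1 ∧ Ex g = []) ?_
    (Limit.csnd (Limit.csnd (Limit.csnd (Limit.csnd (Limit.csnd (ha'.comp Computable.fst))))))
  exact (k_vs D1 (e2.comp Computable.fst) Computable.snd).and
    ((cop_eq (comp_src hcd Computable.snd) (ex.comp Computable.fst)).and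
      ((cop_eq (comp_tgt hcd Computable.snd) (ey.comp Computable.fst)).and
        (cop_eq (comp_Ex hcd Computable.snd) (Computable.const []))))

include D1 D2 ha ha' in
theorem c_txt {m : α → ℕ} (hm : Computable m) :
    Cop (fun q (_ : ℕ → ℕ) => ∀ I ∈ (a q).curs.map Prod.fst, Leg (HT P I) (fn (a' q) I).1 ∧
      Txt.Le (HT P I) (ht (HT P I) (cu (a q) I).1) (cu (a q) I).1 (fn (a' q) I).1 ∧
      (∀ l ∈ (st (HT P I) (fn (a' q) I).1).drop (ht (HT P I) (cu (a q) I).1), l.1 = none) ∧
      ((m q).unpair.1 < (ctx P (a q)).r → okN (st (HT P I) (fn (a' q) I).1) (m q) = true) ∧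
      Txt.opn (HT P I) (fn (a' q) I).1 = none) := by
  refine Cop.ballL (P := fun (q : α) (I : Itm) (_ : ℕ → ℕ) => Leg (HT P I) (fn (a' q) I).1 ∧
      Txt.Le (HT P I) (ht (HT P I) (cu (a q) I).1) (cu (a q) I).1 (fn (a' q) I).1 ∧
      (∀ l ∈ (st (HT P I) (fn (a' q) I).1).drop (ht (HT P I) (cu (a q) I).1), l.1 = none) ∧
      ((m q).unpair.1 < (ctx P (a q)).r → okN (st (HT P I) (fn (a' q) I).1) (m q) = true) ∧
      Txt.opn (HT P I) (fn (a' q) I).1 = none) ?_
    (comp_keys (Limit.cfst (Limit.csnd (Limit.csnd (Limit.csnd (Limit.csnd ha))))))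
  have eI : Computable (fun q : α × Itm => q.2) := Computable.snd
  have ef : Computable (fun q : α × Itm => (fn (a' q.1) q.2).1) :=
    Limit.cfst (c_fn D1 (ha'.comp Computable.fst) eI)
  have ec : Computable (fun q : α × Itm => (cu (a q.1) q.2).1) :=
    Limit.cfst (c_cu D1 (ha.comp Computable.fst) eI)
  have eh : Computable (fun q : α × Itm => ht (HT P q.2) (cu (a q.1) q.2).1) := c_ht D2 eI ec
  have es : Computable (fun q : α × Itm => st (HT P q.2) (fn (a' q.1) q.2).1) := c_st D2 eI ef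
  have em : Computable (fun q : α × Itm => m q.1) := hm.comp Computable.fst
  refine (k_leg D2 eI ef).and ((k_le D2 eI eh ec ef).and (Cop.and ?_ (Cop.and ?_ ?_)))
  · exact Cop.ballL (P := fun (_ : α × Itm) (l : Txt.Lv) (_ : ℕ → ℕ) => l.1 = none)
      (cop_eq (Computable.fst.comp Computable.snd) (Computable.const none)) (comp_drop eh es)
  · exact Cop.imp (cop_lt ((Primrec.fst.comp Primrec.unpair).to_comp.comp em)
      (c_r D2 (ha.comp Computable.fst))) (cop_eq (c_okN D2 es em) (Computable.const true))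
  · exact cop_eq (c_opn D2 eI ef) (Computable.const none)

include D1 ha ha' in
theorem c_pt (hcd : CodesStatement) :
    Cop (fun q (_ : ℕ → ℕ) => ∀ I ∈ (a q).curs.map Prod.fst, I.col < P.p →
      CV (dt (a' q) I.col).W (LT P I) (fn (a' q) I) ∧
      CLe (LT P I) (cu (a q) I) (fn (a' q) I) ∧ LgC (cu (a q) I) (fn (a' q) I) ∧
      At ((rt (a' q) I.col, (zq (cu (a q) I)).2) : St) (fn (a' q) I) ∧
      ∀ e ∈ (fn (a' q) I).2, ∀ ν, ν <+: e.2.2 → (endd o ν).1 ∈ (dt (a' q) I.col).pub →
        (endd o ν).1 ≤ (zq (cu (a q) I)).1 ∨ ν = e.2.2) := by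
  refine Cop.ballL (P := fun (q : α) (I : Itm) (_ : ℕ → ℕ) => I.col < P.p →
      CV (dt (a' q) I.col).W (LT P I) (fn (a' q) I) ∧
      CLe (LT P I) (cu (a q) I) (fn (a' q) I) ∧ LgC (cu (a q) I) (fn (a' q) I) ∧
      At ((rt (a' q) I.col, (zq (cu (a q) I)).2) : St) (fn (a' q) I) ∧
      ∀ e ∈ (fn (a' q) I).2, ∀ ν, ν <+: e.2.2 → (endd o ν).1 ∈ (dt (a' q) I.col).pub →
        (endd o ν).1 ≤ (zq (cu (a q) I)).1 ∨ ν = e.2.2) ?_
    (comp_keys (Limit.cfst (Limit.csnd (Limit.csnd (Limit.csnd (Limit.csnd ha))))))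
  have eI : Computable (fun q : α × Itm => q.2) := Computable.snd
  have eco : Computable (fun q : α × Itm => q.2.col) := Limit.cfst eI
  have ef : Computable (fun q : α × Itm => fn (a' q.1) q.2) :=
    c_fn D1 (ha'.comp Computable.fst) eI
  have ec : Computable (fun q : α × Itm => cu (a q.1) q.2) :=
    c_cu D1 (ha.comp Computable.fst) eI
  have ed : Computable (fun q : α × Itm => dt (a' q.1) q.2.col) :=
    c_dt D1 (ha'.comp Computable.fst) eco
  have er : Computable (fun q : α × Itm => rt (a' q.1) q.2.col) :=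
    c_rt D1 (ha'.comp Computable.fst) eco
  have ez : Computable (fun q : α × Itm => zq (cu (a q.1) q.2)) := D1.zq.comp ec
  refine Cop.imp (cop_lt eco (Computable.const _)) ((k_cv D1 ed eI ef).and
    ((k_cle D1 eI ec ef).and ((k_lgc D1 ec ef).and ((k_at D1 (er.pair (Limit.csnd ez)) ef).and
      ?_))))
  refine Cop.ballL (P := fun (q : α × Itm) (e : List ℕ × List ℕ × List ℕ) (_ : ℕ → ℕ) =>
    ∀ ν, ν <+: e.2.2 → (endd o ν).1 ∈ (dt (a' q.1) q.2.col).pub →
        (endd o ν).1 ≤ (zq (cu (a q.1) q.2)).1 ∨ ν = e.2.2) ?_ (Limit.csnd ef)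
  refine cop_pfx (Q := fun (x : (α × Itm) × (List ℕ × List ℕ × List ℕ)) (ν : List ℕ)
    (_ : ℕ → ℕ) => (endd o ν).1 ∈ (dt (a' x.1.1) x.1.2.col).pub →
        (endd o ν).1 ≤ (zq (cu (a x.1.1) x.1.2)).1 ∨ ν = x.2.2.2) ?_ (by fun_prop)
  have e5 : Computable (fun q : ((α × Itm) × (List ℕ × List ℕ × List ℕ)) × List ℕ =>
      (endd o q.2).1) := Limit.cfst (comp_endd hcd (Computable.const o) Computable.snd)
  have e6 : Computable (fun q : ((α × Itm) × (List ℕ × List ℕ × List ℕ)) × List ℕ =>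
      q.1.1) := Computable.fst.comp Computable.fst
  exact Cop.imp (cop_mem e5 (Limit.cfst (Limit.csnd (ed.comp e6)))) (Cop.or
    (cop_le e5 (Limit.cfst (ez.comp e6))) (cop_eq (by fun_prop) (by fun_prop)))

include D1 D2 ha ha' in
theorem c_adv {y : α → St} (hy : Computable y) :
    Cop (fun q (_ : ℕ → ℕ) => ∀ s < P.p, Adm (y q) → Zero (y q) → (y q).1 = rt (a' q) s →
      ((ctx P (a q)).J s = true ∨ (y q).2.length ≠ (ctx P (a q)).D s) →
      (dt (a' q) s).W.adv (y q) = some []) := by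
  have e2 : Computable (fun x : α × ℕ => dt (a' x.1) x.2) :=
    c_dt D1 (ha'.comp Computable.fst) Computable.snd
  have e3 : Computable (fun x : α × ℕ => rt (a' x.1) x.2) :=
    c_rt D1 (ha'.comp Computable.fst) Computable.snd
  have ey : Computable (fun q : α × ℕ => y q.1) := hy.comp Computable.fst
  have ea : Computable (fun q : α × ℕ => a q.1) := ha.comp Computable.fst
  refine cop_bounded (Q := fun q s _ => Adm (y q) → Zero (y q) → (y q).1 = rt (a' q) s →
      ((ctx P (a q)).J s = true ∨ (y q).2.length ≠ (ctx P (a q)).D s) →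
      (dt (a' q) s).W.adv (y q) = some []) P.p ?_
  refine Cop.imp (cp2 D1.adm ey) (Cop.imp (cp2 D1.zero ey) (Cop.imp (cop_eq (Limit.cfst ey) e3)
    (Cop.imp (Cop.or (cop_eq (c_J D2 ea Computable.snd) (Computable.const true))
      (Cop.not (cop_eq (comp_len (Limit.csnd ey)) (c_D D2 ea Computable.snd)))) ?_)))
  have e8 : Computable (fun q : α × ℕ => (dt (a' q.1) q.2).W.adv (y q.1)) :=
    Computable.comp (f := fun x : Data × St => x.1.W.adv x.2)
      (g := fun q : α × ℕ => (dt (a' q.1) q.2, y q.1)) D1.adv (e2.pair ey)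
  exact cop_eq e8 (Computable.const _)

include D2 ha ha' in
theorem c_next {I : α → Itm} (hI : Computable I)
    (hDi : ComputablePred (fun x : Stg × Itm => ItmOk P x.1 x.2)) :
    Cop (fun q (_ : ℕ → ℕ) =>
      (blk P.p ((a q).t + 1) = blk P.p (a q).t → (a' q).curs = (a' q).fins) ∧
      (blk P.p ((a q).t + 1) ≠ blk P.p (a q).t → ((a' q).curs.map Prod.fst).Nodup ∧
        (∀ x ∈ (a' q).curs, x.2 = x.1.c ∧ ItmOk P (a' q) x.1) ∧
        (ItmOk P (a' q) (I q) → I q ∈ (a' q).curs.map Prod.fst))) := by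
  have et : Computable (fun q => (a q).t) := Computable.fst.comp ha
  have e1 : Cop (fun q (_ : ℕ → ℕ) => blk P.p ((a q).t + 1) = blk P.p (a q).t) :=
    cop_eq (D2.blk.comp (Computable.succ.comp et)) (D2.blk.comp et)
  have ec : Computable (fun q => (a' q).curs) :=
    Limit.cfst (Limit.csnd (Limit.csnd (Limit.csnd (Limit.csnd ha'))))
  have ef : Computable (fun q => (a' q).fins) :=
    Limit.cfst (Limit.csnd (Limit.csnd (Limit.csnd ha')))
  refine (Cop.imp e1 (cop_eq ec ef)).and (Cop.imp e1.not ((cop_nodup (comp_keys ec)).and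
    (Cop.and ?_ (Cop.imp ?_ (cop_mem hI (comp_keys ec))))))
  · refine Cop.ballL (P := fun (q : α) (x : Itm × Cnd3) (_ : ℕ → ℕ) =>
      x.2 = x.1.c ∧ ItmOk P (a' q) x.1) (Cop.and ?_ ?_) ec
    · exact cop_eq (Limit.csnd Computable.snd)
        (Limit.csnd (Limit.csnd (Limit.csnd (Limit.cfst Computable.snd))))
    · exact cp2 (Q := fun x : Stg × Itm => ItmOk P x.1 x.2) hDi
        (f := fun q : α × (Itm × Cnd3) => (a' q.1, q.2.1))
        ((ha'.comp Computable.fst).pair (Limit.cfst Computable.snd))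
  · exact cp2 (Q := fun x : Stg × Itm => ItmOk P x.1 x.2) hDi (f := fun q : α => (a' q, I q))
      (ha'.pair hI)

include D1 D2 ha ha' in
/-- All clauses, for computable arguments. -/
theorem c_all (hcd : CodesStatement)
    (hDi : ComputablePred (fun x : Stg × Itm => ItmOk P x.1 x.2))
    (hDm : ComputablePred (fun x : (Stg × Stg) × Qd =>
      Mx P { ctx P x.1.1 with u := rt x.1.2 } (blk P.p x.1.1.t) (endS x.1.1 x.1.2) x.2))
    {k : α → Kd} (hk : Computable k) :
    Cop (fun q (_ : ℕ → ℕ) => RRk P (k q) (a q) (a' q)) := by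
  have k1 : Computable (fun q => (k q).2.1.1) := Limit.cfst (Limit.cfst (Limit.csnd hk))
  have k2 : Computable (fun q => (k q).2.1.2) := Limit.csnd (Limit.cfst (Limit.csnd hk))
  have k3 : Computable (fun q => (k q).2.2.1) := Limit.cfst (Limit.csnd (Limit.csnd hk))
  have k4 : Computable (fun q => (k q).2.2.2.1) :=
    Limit.cfst (Limit.csnd (Limit.csnd (Limit.csnd hk)))
  have k5 : Computable (fun q => (k q).2.2.2.2) :=
    Limit.csnd (Limit.csnd (Limit.csnd (Limit.csnd hk)))
  have c1 : Cop (fun q (_ : ℕ → ℕ) => (a' q).t = (a q).t + 1) :=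
    cop_eq (Computable.fst.comp ha') (Computable.succ.comp (Computable.fst.comp ha))
  have c2 : Cop (fun q (_ : ℕ → ℕ) => (a' q).ds.length = P.p ∧ (a' q).nbs.length = P.p) :=
    (cop_eq (comp_len (Limit.cfst (Limit.csnd ha'))) (Computable.const _)).and
      (cop_eq (comp_len (Limit.cfst (Limit.csnd (Limit.csnd ha')))) (Computable.const _))
  have c3 := c_good (P := P) D1 ha ha'
  have c4 := c_root (P := P) D1 D2 ha ha'
  have c5 := c_szs (P := P) D1 ha ha'
  have c6 := c_gap (P := P) D1 ha' k1 k2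
  have c7 := c_many (P := P) D1 ha' hcd k3
  have c8 := c_can (P := P) D1 D2 ha ha' hcd k1 k2
  have c9 : Cop (fun q (_ : ℕ → ℕ) => (a' q).fins.map Prod.fst = (a q).curs.map Prod.fst) :=
    cop_eq (comp_keys (Limit.cfst (Limit.csnd (Limit.csnd (Limit.csnd ha')))))
      (comp_keys (Limit.cfst (Limit.csnd (Limit.csnd (Limit.csnd (Limit.csnd ha))))))
  have c10 := c_txt (P := P) D1 D2 ha ha' k4
  have c11 := c_pt (P := P) D1 ha ha' hcd
  have c12 : Cop (fun q (_ : ℕ → ℕ) => Mx P { ctx P (a q) with u := rt (a' q) }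
      (blk P.p (a q).t) (endS (a q) (a' q)) (k q).1) :=
    cp2 (Q := fun x : (Stg × Stg) × Qd =>
      Mx P { ctx P x.1.1 with u := rt x.1.2 } (blk P.p x.1.1.t) (endS x.1.1 x.1.2) x.2) hDm
      (f := fun q : α => ((a q, a' q), (k q).1)) ((ha.pair ha').pair (Limit.cfst hk))
  have c13 := c_adv (P := P) D1 D2 ha ha' k1
  have c14 := c_next (P := P) D2 ha ha' k5 hDi
  have c15 := c_nbs (P := P) D1 ha'
  refine (c1.and (c2.and (c3.and (c4.and (c5.and (c6.and (c7.and (c8.and (c9.and (c10.and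
    (c11.and (c12.and (c13.and (c14.and c15)))))))))))))).congr fun q _ => ?_
  constructor
  · rintro ⟨d1, d2, d3, d4, d5, d6, d7, d8, d9, d10, d11, d12, d13, ⟨d14, d15⟩, d16⟩
    exact ⟨d1, d2, d3, d4, d5, d6, d7, d8, d9, d10, d11, d12, d13, d14, d15, d16⟩
  · rintro ⟨d1, d2, d3, d4, d5, d6, d7, d8, d9, d10, d11, d12, d13, d14, d15, d16⟩
    exact ⟨d1, d2, d3, d4, d5, d6, d7, d8, d9, d10, d11, d12, d13, ⟨d14, d15⟩, d16⟩

end clauses

end GDec

/-- Module GDEC, from CODES, LDA1, LDA2, LDI, LDM. -/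
theorem decS (hcd : CodesStatement) (h1 : Da1Statement) (h2 : Da2Statement) (h3 : DiStatement)
    (h4 : DmStatement) : DecStatement := by
  intro P hP
  have D1 := h1 P hP
  have D2 := h2 P hP
  exact Cop.toCP (GDec.c_all D1 D2 (Computable.fst.comp Computable.snd)
    (Computable.snd.comp Computable.snd) hcd (h3 P hP D1 D2) (h4 P hP D1 D2)
    (k := fun x : Kd × Stg × Stg => x.1) Computable.fst)

end Pool.Agent.Lib.MP_d48993_lc.Gr.Lm
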