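import Pool.Agent.Lib.MP_d48993_lc.AE.Gr.LimDec
import Pool.Agent.Lib.MP_d48993_lc.AE.Node.Decv
import Pool.Agent.Lib.MP_d48993_lc.AE.Node.Decc
import Pool.Agent.Lib.MP_d48993_lc.AE.Node.Codes

/-!
# Part G (MP_d48993), module LDM: the coded contract is decidable (finding 4200, G8.7)
-/

set_option autoImplicit false
set_option synthInstance.maxSize 20000
set_option linter.unusedSectionVars false

namespace Pool.Agent.Lib.MP_d48993_lc.Gr.Lm

open Pool.Agent.Lib.MP_d48993_lc.Node
open MP_8c048d_lc (pre join RecF Sig Clo Cop Del)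
open Txt (ht st mC mN mR ltN okN Leg)
open Node.Limit (cop_eq cop_le cop_lt cop_mem cop_prefix)
open Calc (comp_map comp_len comp_endd cop_bounded comp_app comp_getD comp_Tx comp_tup Tx_lt
  cop_aext)
open GDec (cp2 c_dt c_rt c_cu c_fn k_vstr c_blk c_J comp_keys)

namespace Dm

variable {α β : Type} [Primcodable α] [Primcodable β]

section parts

variable {P : Par}

theorem c_al (D1 : DA1 P) {a' : α → Stg} (ha' : Computable a') {s : α → ℕ} (hs : Computable s)
    {y : α → St} (hy : Computable y) :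
    Computable (fun x => ((dt (a' x) (s x)).W.adv (y x)).getD []) := by
  have e : Computable (fun x => (dt (a' x) (s x)).W.adv (y x)) :=
    Computable.comp (f := fun x : Data × St => x.1.W.adv x.2)
      (g := fun x => (dt (a' x) (s x), y x)) D1.adv ((c_dt D1 ha' hs).pair hy)
  exact Computable.option_getD e (Computable.const [])

theorem c_J2 (D2 : DA2 P) {a : α → Stg} (ha : Computable a) :
    Computable (fun x : α × ℕ => (ctx P (a x.1)).J x.2) :=
  c_J D2 (ha.comp Computable.fst) Computable.snd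

theorem c_Tx (D2 : DA2 P) {a : α → Stg} (ha : Computable a) {H : α → ℕ} (hH : Computable H)
    {c : α → ℕ} (hc : Computable c) :
    Computable (fun x : α => Tx P (ctx P (a x)).J (H x) (c x)) :=
  comp_Tx P (J := fun x : α => (ctx P (a x)).J) (c_J2 D2 ha) hH hc

/-- The value of a functional. -/
theorem c_ev (D1 : DA1 P) (D2 : DA2 P) {a a' : α → Stg} (ha : Computable a)
    (ha' : Computable a') {i H : α → ℕ} (hi : Computable i) (hH : Computable H)
    {y : α → List St} (hy : Computable y) {mu : α → List (List ℕ)} (hmu : Computable mu)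
    {nu : α → ℕ → List ℕ} (hnu : Computable (fun x : α × ℕ => nu x.1 x.2)) {k : α → ℕ → Cnd3}
    (hk : Computable (fun x : α × ℕ => k x.1 x.2)) :
    Computable (fun x => evS P { ctx P (a x) with u := rt (a' x) } (endS (a x) (a' x)) (i x)
      (H x) (lS (y x)) (lL (mu x)) (nu x) (k x)) := by
  have gy : Computable (fun x : α × ℕ => lS (y x.1) x.2) :=
    comp_getD (hy.comp Computable.fst) Computable.snd _
  have gm : Computable (fun x : α × ℕ => lL (mu x.1) x.2) :=
    comp_getD (hmu.comp Computable.fst) Computable.snd _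
  have gal : Computable (fun x : α × ℕ => ((dt (a' x.1) x.2).W.adv (lS (y x.1) x.2)).getD []) :=
    c_al D1 (ha'.comp Computable.fst) Computable.snd gy
  have gσ : Computable (fun x : α × ℕ => (fun (x : α) (c : ℕ) => lL (mu x) c ++
      ((dt (a' x) c).W.adv (lS (y x) c)).getD [] ++ nu x c) x.1 x.2) :=
    comp_app (comp_app gm gal) hnu
  have gt : Computable (fun x => tup P (ctx P (a x)).J (H x) (fun c => lL (mu x) c ++
      ((dt (a' x) c).W.adv (lS (y x) c)).getD [] ++ nu x c) (k x)) :=
    comp_tup P (J := fun x => (ctx P (a x)).J) (c_J2 D2 ha) hH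
      (σ := fun x c => lL (mu x) c ++ ((dt (a' x) c).W.adv (lS (y x) c)).getD [] ++ nu x c)
      gσ (k := k) hk
  have ge : Computable (fun x => ev P (i x) (H x) (tup P (ctx P (a x)).J (H x)
      (fun c => lL (mu x) c ++ ((dt (a' x) c).W.adv (lS (y x) c)).getD [] ++ nu x c) (k x))) :=
    Computable.comp (f := fun x : (ℕ × ℕ) × List (List ℕ) => ev P x.1.1 x.1.2 x.2)
      (g := fun x => ((i x, H x), tup P (ctx P (a x)).J (H x) (fun c => lL (mu x) c ++
        ((dt (a' x) c).W.adv (lS (y x) c)).getD [] ++ nu x c) (k x)))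
      D2.ev ((hi.pair hH).pair gt)
  exact ge.of_eq fun x => rfl

/-- Tuples, strings. -/
theorem cop_ptA (D1 : DA1 P) (D2 : DA2 P) {a a' : α → Stg} (ha : Computable a)
    (ha' : Computable a') {y : α → List St} (hy : Computable y)
    {mu : α → List (List ℕ)} (hmu : Computable mu) :
    Cop (fun x (_ : ℕ → ℕ) => ∀ s < P.p, (ctx P (a x)).J s = false →
      ((lS (y x) s).1 = rt (a' x) s ∧ Adm (lS (y x) s) ∧ Zero (lS (y x) s) ∧
        (lS (y x) s).2.length = dv P.p (a x).t s) ∧
      VStr (dt (a' x) s).W o (lL (mu x) s) (lS (y x) s)) := by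
  have g : Computable (fun x : α × ℕ => x.2) := Computable.snd
  have ga : Computable (fun x : α × ℕ => a x.1) := ha.comp Computable.fst
  have ga' : Computable (fun x : α × ℕ => a' x.1) := ha'.comp Computable.fst
  have gy : Computable (fun x : α × ℕ => lS (y x.1) x.2) :=
    comp_getD (hy.comp Computable.fst) Computable.snd _
  have gm : Computable (fun x : α × ℕ => lL (mu x.1) x.2) :=
    comp_getD (hmu.comp Computable.fst) Computable.snd _
  have gt : Computable (fun x : α × ℕ => (a x.1).t) := Computable.fst.comp ga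
  have gD : Computable (fun x : α × ℕ => dv P.p (a x.1).t x.2) :=
    Computable.comp (f := fun x : ℕ × ℕ => dv P.p x.1 x.2)
      (g := fun x : α × ℕ => ((a x.1).t, x.2)) D2.dv (gt.pair g)
  have gr : Computable (fun x : α × ℕ => rt (a' x.1) x.2) := c_rt D1 ga' g
  have gd : Computable (fun x : α × ℕ => dt (a' x.1) x.2) := c_dt D1 ga' g
  have gJ : Computable (fun x : α × ℕ => (ctx P (a x.1)).J x.2) := c_J2 D2 ha
  have gy1 : Computable (fun x : α × ℕ => (lS (y x.1) x.2).1) := Limit.cfst gy
  have gy2 : Computable (fun x : α × ℕ => (lS (y x.1) x.2).2.length) := comp_len (Limit.csnd gy)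
  have e1 : Cop (fun (x : α × ℕ) (_ : ℕ → ℕ) => (ctx P (a x.1)).J x.2 = false) :=
    cop_eq gJ (Computable.const false)
  have e2 : Cop (fun (x : α × ℕ) (_ : ℕ → ℕ) => (lS (y x.1) x.2).1 = rt (a' x.1) x.2) :=
    cop_eq gy1 gr
  have e3 : Cop (fun (x : α × ℕ) (_ : ℕ → ℕ) => Adm (lS (y x.1) x.2)) := cp2 D1.adm gy
  have e4 : Cop (fun (x : α × ℕ) (_ : ℕ → ℕ) => Zero (lS (y x.1) x.2)) := cp2 D1.zero gy
  have e5 : Cop (fun (x : α × ℕ) (_ : ℕ → ℕ) => (lS (y x.1) x.2).2.length =
    dv P.p (a x.1).t x.2) := cop_eq gy2 gD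
  have e6 : Cop (fun (x : α × ℕ) (_ : ℕ → ℕ) => VStr (dt (a' x.1) x.2).W o (lL (mu x.1) x.2)
    (lS (y x.1) x.2)) := k_vstr D1 gd (Computable.const o) gm gy
  exact cop_bounded (Q := fun x s _ => (ctx P (a x)).J s = false →
      ((lS (y x) s).1 = rt (a' x) s ∧ Adm (lS (y x) s) ∧ Zero (lS (y x) s) ∧
        (lS (y x) s).2.length = dv P.p (a x).t s) ∧
      VStr (dt (a' x) s).W o (lL (mu x) s) (lS (y x) s)) P.p
    (e1.imp ((e2.and (e3.and (e4.and e5))).and e6))

/-- Tuples, items. -/
theorem cop_ptB (D2 : DA2 P) {a : α → Stg} (ha : Computable a)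
    {H : α → ℕ} (hH : Computable H) {it : α → List Itm} (hit : Computable it) :
    Cop (fun x (_ : ℕ → ℕ) => ∀ c < P.p + P.q, Tx P (ctx P (a x)).J (H x) c = true →
      lI (it x) c ∈ (a x).curs.map Prod.fst ∧ (lI (it x) c).col = c) := by
  have g : Computable (fun x : α × ℕ => x.2) := Computable.snd
  have ga : Computable (fun x : α × ℕ => a x.1) := ha.comp Computable.fst
  have gi : Computable (fun x : α × ℕ => lI (it x.1) x.2) :=
    comp_getD (hit.comp Computable.fst) Computable.snd _
  have gT : Computable (fun x : α × ℕ => Tx P (ctx P (a x.1)).J (H x.1) x.2) :=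
    c_Tx D2 ga (hH.comp Computable.fst) g
  have gk : Computable (fun x : α × ℕ => (a x.1).curs.map Prod.fst) :=
    comp_keys (Limit.cfst (Limit.csnd (Limit.csnd (Limit.csnd (Limit.csnd ga)))))
  have gc : Computable (fun x : α × ℕ => (lI (it x.1) x.2).col) := Limit.cfst gi
  have e1 : Cop (fun (x : α × ℕ) (_ : ℕ → ℕ) => Tx P (ctx P (a x.1)).J (H x.1) x.2 = true) :=
    cop_eq gT (Computable.const true)
  have e2 : Cop (fun (x : α × ℕ) (_ : ℕ → ℕ) => lI (it x.1) x.2 ∈ (a x.1).curs.map Prod.fst) :=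
    cop_mem gi gk
  have e3 : Cop (fun (x : α × ℕ) (_ : ℕ → ℕ) => (lI (it x.1) x.2).col = x.2) := cop_eq gc g
  exact cop_bounded (Q := fun x c _ => Tx P (ctx P (a x)).J (H x) c = true →
      lI (it x) c ∈ (a x).curs.map Prod.fst ∧ (lI (it x) c).col = c) (P.p + P.q)
    (e1.imp (e2.and e3))

/-- Tuples. -/
theorem cop_ptup (D1 : DA1 P) (D2 : DA2 P) {a a' : α → Stg} (ha : Computable a)
    (ha' : Computable a') {H : α → ℕ} (hH : Computable H) {y : α → List St} (hy : Computable y)
    {mu : α → List (List ℕ)} (hmu : Computable mu) {it : α → List Itm} (hit : Computable it) :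
    Cop (fun x (_ : ℕ → ℕ) => PTup P { ctx P (a x) with u := rt (a' x) }
      (endS (a x) (a' x)) (H x) (lS (y x)) (lL (mu x)) (lI (it x))) := by
  refine ((cop_ptA D1 D2 ha ha' hy hmu).and (cop_ptB D2 ha hH hit)).congr fun x F => ?_
  constructor
  · rintro ⟨h3, h4⟩
    refine ⟨fun s hs hJ => ?_, fun c hc => h4 c (Tx_lt P hc) hc⟩
    obtain ⟨⟨e1, e2, e3, e4⟩, e5⟩ := h3 s hs hJ
    exact ⟨⟨e1, e2, e3, e4⟩, e5⟩
  · intro h
    refine ⟨fun s hs hJ => ?_, fun c _ hc => h.itm c hc⟩
    obtain ⟨e1, e2⟩ := h.str s hs hJ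
    exact ⟨⟨e1.root, e1.adm, e1.zero, e1.len⟩, e2⟩

/-- Extensions. -/
theorem cop_sext (hP : P.Ok) (D1 : DA1 P) (D2 : DA2 P) {a a' : α → Stg} (ha : Computable a)
    (ha' : Computable a') {H : α → ℕ} (hH : Computable H) {y : α → List St} (hy : Computable y)
    {it : α → List Itm} (hit : Computable it) {γ : α → List Data} (hγ : Computable γ)
    {nu : α → List (List ℕ)} (hnu : Computable nu) {k : α → List Cnd3} (hk : Computable k) :
    Cop (fun x (_ : ℕ → ℕ) => SExt P { ctx P (a x) with u := rt (a' x) }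
      (endS (a x) (a' x)) (H x) 0 (lS (y x)) (lI (it x)) (lD (γ x)) (lL (nu x)) (lC (k x))) := by
  have hv := Node.decv codes
  have hc := Node.decc codes hv
  have g : Computable (fun x : α × ℕ => x.2) := Computable.snd
  have ga : Computable (fun x : α × ℕ => a x.1) := ha.comp Computable.fst
  have ga' : Computable (fun x : α × ℕ => a' x.1) := ha'.comp Computable.fst
  have gy : Computable (fun x : α × ℕ => lS (y x.1) x.2) :=
    comp_getD (hy.comp Computable.fst) Computable.snd _
  have gi : Computable (fun x : α × ℕ => lI (it x.1) x.2) :=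
    comp_getD (hit.comp Computable.fst) Computable.snd _
  have gγ : Computable (fun x : α × ℕ => lD (γ x.1) x.2) :=
    comp_getD (hγ.comp Computable.fst) Computable.snd _
  have gn : Computable (fun x : α × ℕ => lL (nu x.1) x.2) :=
    comp_getD (hnu.comp Computable.fst) Computable.snd _
  have gk : Computable (fun x : α × ℕ => lC (k x.1) x.2) :=
    comp_getD (hk.comp Computable.fst) Computable.snd _
  have gd : Computable (fun x : α × ℕ => dt (a' x.1) x.2) := c_dt D1 ga' g
  have gal : Computable (fun x : α × ℕ => ((dt (a' x.1) x.2).W.adv (lS (y x.1) x.2)).getD []) :=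
    c_al D1 ga' g gy
  have gcu : Computable (fun x : α × ℕ => cu (a x.1) (lI (it x.1) x.2)) := c_cu D1 ga gi
  have gfn : Computable (fun x : α × ℕ => fn (a' x.1) (lI (it x.1) x.2)) := c_fn D1 ga' gi
  have h := cop_aext hv hc codes hP (J := fun x => (ctx P (a x)).J) (c_J2 D2 ha)
    (H := H) (off := fun _ => 0) hH (Computable.const 0) (g := fun x s => dt (a' x) s) gd
    (y := fun x s => lS (y x) s) gy (al := fun x s => ((dt (a' x) s).W.adv (lS (y x) s)).getD [])
    gal (it := fun x s => lI (it x) s) gi (bs := fun x s => cu (a x) (lI (it x) s))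
    (cv := fun x s => fn (a' x) (lI (it x) s)) gcu gfn (g' := fun x s => lD (γ x) s) gγ
    (nu := fun x s => lL (nu x) s) gn (k := fun x s => lC (k x) s) gk
  exact h.congr fun x _ => Iff.rfl

end parts

/-! ### The contract -/

theorem cop_mx {P : Par} (hP : P.Ok) (D1 : DA1 P) (D2 : DA2 P) {a a' : α → Stg}
    (ha : Computable a) (ha' : Computable a') {q : α → Qd} (hq : Computable q) :
    Cop (fun x (_ : ℕ → ℕ) => Mx P { ctx P (a x) with u := rt (a' x) } (blk P.p (a x).t)
      (endS (a x) (a' x)) (q x)) := by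
  have q1 : Computable (fun x => (q x).1) := Limit.cfst hq
  have q2 : Computable (fun x => (q x).2) := Limit.csnd hq
  have q11 : Computable (fun x => (q x).1.1) := Limit.cfst q1
  have q121 : Computable (fun x => (q x).1.2.1) := Limit.cfst (Limit.csnd q1)
  have q122 : Computable (fun x => (q x).1.2.2) := Limit.csnd (Limit.csnd q1)
  have q21 : Computable (fun x => (q x).2.1) := Limit.cfst q2
  have q22 : Computable (fun x => (q x).2.2) := Limit.csnd q2
  have qy : Computable (fun x => (q x).2.1.1) := Limit.cfst q21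
  have qm : Computable (fun x => (q x).2.1.2.1) := Limit.cfst (Limit.csnd q21)
  have qi : Computable (fun x => (q x).2.1.2.2) := Limit.csnd (Limit.csnd q21)
  have qg : Computable (fun x => (q x).2.2.1) := Limit.cfst q22
  have qn : Computable (fun x => (q x).2.2.2.1) := Limit.cfst (Limit.csnd q22)
  have qk : Computable (fun x => (q x).2.2.2.2) := Limit.csnd (Limit.csnd q22)
  have c0 : Computable (fun _ : α => 0) := Computable.const 0
  have hb : Computable (fun x => blk P.p (a x).t) := c_blk D2 ha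
  have g0 : Computable (fun x : α × ℕ => (fun (x : α) (c : ℕ) =>
      (endS (a x) (a' x)).cv (lI (q x).2.1.2.2 c)) x.1 x.2) :=
    c_fn D1 (ha'.comp Computable.fst) (comp_getD (qi.comp Computable.fst) Computable.snd _)
  have g1 : Computable (fun x : α × ℕ => (fun (x : α) (c : ℕ) => lL (q x).2.2.2.1 c) x.1 x.2) :=
    comp_getD (qn.comp Computable.fst) Computable.snd _
  have g2 : Computable (fun x : α × ℕ => (fun (x : α) (c : ℕ) => lC (q x).2.2.2.2 c) x.1 x.2) :=
    comp_getD (qk.comp Computable.fst) Computable.snd _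
  have e0 : ∀ {H : α → ℕ}, Computable H → Computable (fun x => evS P
      { ctx P (a x) with u := rt (a' x) } (endS (a x) (a' x)) (q x).1.2.1 (H x) (lS (q x).2.1.1)
      (lL (q x).2.1.2.1) (fun _ => []) (fun c => (endS (a x) (a' x)).cv (lI (q x).2.1.2.2 c))) :=
    fun hH => c_ev D1 D2 ha ha' q121 hH qy qm (nu := fun _ _ => []) (Computable.const [])
      (k := fun x c => (endS (a x) (a' x)).cv (lI (q x).2.1.2.2 c)) g0
  have e1 : ∀ {H : α → ℕ}, Computable H → Computable (fun x => evS P
      { ctx P (a x) with u := rt (a' x) } (endS (a x) (a' x)) (q x).1.2.1 (H x) (lS (q x).2.1.1)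
      (lL (q x).2.1.2.1) (lL (q x).2.2.2.1) (lC (q x).2.2.2.2)) :=
    fun hH => c_ev D1 D2 ha ha' q121 hH qy qm (nu := fun x c => lL (q x).2.2.2.1 c) g1
      (k := fun x c => lC (q x).2.2.2.2 c) g2
  have pt := cop_ptup D1 D2 ha ha' q11 qy qm qi
  have pt0 := cop_ptup D1 D2 ha ha' c0 qy qm qi
  have se := cop_sext hP D1 D2 ha ha' q11 qy qi qg qn qk
  have se0 := cop_sext hP D1 D2 ha ha' c0 qy qi qg qn qk
  have hd : Computable (fun x => dt (a' x) (q x).1.2.2) := c_dt D1 ha' q122
  have hd' : Computable (fun x => lD (q x).2.2.1 (q x).1.2.2) := comp_getD qg q122 _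
  have hbad : ∀ {f : α → Data} {l : α → List ℕ}, Computable f → Computable l →
      Cop (fun x (_ : ℕ → ℕ) => Bad (f x) (l x)) := fun hf hl =>
    cp2 (Q := fun x : Data × List ℕ => Bad x.1 x.2) D1.bad (hf.pair hl)
  have A := Cop.imp pt (Cop.imp (cop_lt q121 hb) (Cop.imp (cop_lt q122 hb)
    (Cop.or (cop_le q122 (comp_len (e0 q11))) (Cop.imp se (cop_lt (comp_len (e1 q11)) q122)))))
  have B := Cop.imp pt (Cop.imp (cop_lt q121 hb) (Cop.imp (cop_lt q122 (Computable.const P.p))
    (Cop.imp (cop_eq (c_J D2 ha q122) (Computable.const true))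
      (Cop.or (hbad hd (e0 q11)) (Cop.imp se (Cop.not (hbad hd' (e1 q11))))))))
  have J0 : Cop (fun x (_ : ℕ → ℕ) => ∀ s < P.p, (ctx P (a x)).J s = false) :=
    cop_bounded (Q := fun x s _ => (ctx P (a x)).J s = false) P.p
      (cop_eq (c_J2 D2 ha) (Computable.const false))
  have C := Cop.imp pt0 (Cop.imp J0 (Cop.imp (cop_lt q121 hb)
    (Cop.or (Cop.not (Calc.cop_TB hP (e0 c0))) (Cop.imp se0 (cop_le (comp_len (e1 c0))
      (comp_len (e0 c0)))))))
  refine (A.and (B.and C)).congr fun x F => ?_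
  exact ⟨fun h => ⟨h.1, h.2.1, h.2.2⟩, fun h => ⟨h.hit, h.kill, h.killn⟩⟩

end Dm

/-- Module LDM. -/
theorem dmS : DmStatement := fun _ hP D1 D2 =>
  Cop.toCP (Dm.cop_mx hP D1 D2 (α := (Stg × Stg) × Qd)
    (a := fun x => x.1.1) (a' := fun x => x.1.2) (q := fun x => x.2)
    (Computable.fst.comp Computable.fst) (Computable.snd.comp Computable.fst) Computable.snd)

end Pool.Agent.Lib.MP_d48993_lc.Gr.Lm
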