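import Pool.Agent.Lib.MP_d48993_lc.AE.Gr.Stm2
import Pool.Agent.Lib.MP_d48993_lc.AE.Node.Codes
import Pool.Agent.Lib.MP_d48993_lc.AE.Node.Basic
import Pool.Agent.Lib.MP_d48993_lc.AE.Node.Mono
import Pool.Agent.Lib.MP_d48993_lc.AE.Node.Ltree

/-!
# Part G (MP_d48993): module LIMF (helper39), the limit of the construction
-/

set_option autoImplicit false

namespace Pool.Agent.Lib.MP_d48993_lc.Gr

open Pool.Agent.Lib.MP_d48993_lc.Node
open MP_8c048d_lc (pre join RecF)

namespace LimF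

section

variable {P : Par} {G : Gph} {s : ℕ}

theorem dext (hM : MonoStatement) (h : Lim4 P G) (hs : s < P.p) :
    ∀ m n, m ≤ n → DExt (G.d m s) (G.d n s) := by
  intro m n hmn
  induction n, hmn using Nat.le_induction with
  | base => exact Ltree.dext_refl _
  | succ n _ ih =>
    exact hM.2.2.2.1 _ _ _ ih (h.good m s hs).wf (h.good n s hs).wf (h.ext n s hs)

theorem lt_N (h : Lim4 P G) (hs : s < P.p) : ∀ n, n < (G.d n s).N := by
  intro n
  induction n with
  | zero => exact (h.good 0 s hs).wf.pos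
  | succ n ih =>
    obtain ⟨h1, h2, h3, -⟩ := h.root n s hs
    omega

theorem u_lt (hM : MonoStatement) (h : Lim4 P G) (hs : s < P.p) {t t' : ℕ} (ht : t < t') :
    G.u t s < (G.d t' s).N := by
  have h1 := (h.root t s hs).2.2.1
  have h2 := (dext hM h hs (t + 1) t' ht).N
  omega

theorem nb_lt (hM : MonoStatement) (h : Lim4 P G) (hs : s < P.p) {t t' : ℕ} (ht : t < t') :
    G.u t s < G.nb t' s := by
  have h1 := u_lt hM h hs ht
  have h2 := (h.root t' s hs).1
  omega

theorem u_mono (hM : MonoStatement) (h : Lim4 P G) (hs : s < P.p) {t t' : ℕ} (ht : t < t') :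
    G.u t s < G.u t' s :=
  lt_of_lt_of_le (nb_lt hM h hs ht) (h.root t' s hs).2.1

theorem sz_mono (h : Lim4 P G) (hs : s < P.p) {t t' : ℕ} (ht : t ≤ t') :
    sz (G.u t s) ≤ sz (G.u t' s) := by
  induction t', ht using Nat.le_induction with
  | base => exact le_rfl
  | succ n _ ih => exact ih.trans (h.szs n s hs)

/-- Symbols valid at some stage are valid later. -/
theorem vs_mono (hM : MonoStatement) (h : Lim4 P G) (hs : s < P.p) {m n : ℕ} (hmn : m ≤ n)
    {g : ℕ} (hg : VS (G.d m s).W g) : VS (G.d n s).W g :=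
  hM.1 _ _ _ (hM.2.2.1 _ _ (h.good m s hs).wf (dext hM h hs m n hmn)) (Ltree.dlt _) g hg

theorem vstr_mono (hM : MonoStatement) (h : Lim4 P G) (hs : s < P.p) {m n : ℕ} (hmn : m ≤ n)
    {x y : St} {τ : List ℕ} (hτ : VStr (G.d m s).W x τ y) : VStr (G.d n s).W x τ y :=
  ⟨hτ.1, fun g hg => vs_mono hM h hs hmn (hτ.2 g hg)⟩

theorem vs_loc (hB : BasicStatement) (hM : MonoStatement) (h : Lim4 P G) (hs : s < P.p) {g t : ℕ}
    (hg : VL G s g) (hN : (tgt g).1 < (G.d t s).N) : VS (G.d t s).W g := by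
  obtain ⟨m, hm⟩ := hg
  rcases le_total m t with h1 | h1
  · exact vs_mono hM h hs h1 hm
  · exact Ltree.vs_back hB hM (h.good t s hs).wf (h.good t s hs).full (dext hM h hs t m h1) hm hN

theorem vstr_loc (hB : BasicStatement) (hM : MonoStatement) (h : Lim4 P G) (hs : s < P.p)
    (σ : List ℕ) (t : ℕ) (hN : (endd o σ).1 < (G.d t s).N) :
    LEs G s σ ↔ VStr (G.d t s).W o σ (endd o σ) := by
  refine ⟨?_, fun h1 => ⟨t, h1⟩⟩
  rintro ⟨m, hm⟩
  rcases le_total m t with h1 | h1
  · exact vstr_mono hM h hs h1 hm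
  · exact Ltree.vstr_back hB hM (h.good t s hs).wf (h.good t s hs).full
      (dext hM h hs t m h1) hm hN

/-- There are no roots between the bound and the public root. -/
theorem end_lt (hB : BasicStatement) (hM : MonoStatement) (h : Lim4 P G)
    (hs : s < P.p) {σ : List ℕ} {t : ℕ} (hσ : LEs G s σ) (hu : (endd o σ).1 < G.u t s) :
    (endd o σ).1 < G.nb t s := by
  by_contra hlt
  have hN : G.u t s < (G.d (t + 1) s).N := u_lt hM h hs (Nat.lt_succ_self t)
  have h1 := (vstr_loc hB hM h hs σ (t + 1) (by omega)).1 hσ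
  rcases List.eq_nil_or_concat σ with rfl | ⟨τ, g, rfl⟩
  · have h2 := (h.root t s hs).1
    have h3 := (h.good t s hs).wf.pos
    have h4 : (endd o ([] : List ℕ)).1 = 0 := rfl
    omega
  · have h2 : endd o (τ.concat g) = tgt g := by simp [endd]
    have h3 := (hB _ (Ltree.dfit (G.d (t + 1) s))).1 g (h1.2 g (by simp))
    rw [h2] at hlt hu
    have h4 := h.gap t s hs _ _ h3 (by omega)
    omega

theorem end_adm (hB : BasicStatement) (h : Lim4 P G) (hs : s < P.p) {σ : List ℕ}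
    (hσ : LEs G s σ) : Adm (endd o σ) := by
  obtain ⟨m, hm⟩ := hσ
  exact (Ltree.end_adm hB (h.good m s hs).wf hm).1

/-- Canonical symbols from the ends of strings. -/
theorem can_end (hB : BasicStatement) (hM : MonoStatement) (h : Lim4 P G)
    (hs : s < P.p) {σ : List ℕ} {t : ℕ} (hσ : LEs G s σ) (hu : (endd o σ).1 < G.u t s) {y : St}
    (hy : Adm y) (hyu : y.1 = G.u t s) (hyl : y.2.length ≤ blk P.p t + 2) :
    ∃ g, VL G s g ∧ src g = endd o σ ∧ tgt g = y ∧ Ex g = [] := by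
  obtain ⟨g, h1, h2, h3, h4⟩ := h.can t s hs (endd o σ) y (end_adm hB h hs hσ)
    (end_lt hB hM h hs hσ hu) hy hyu hyl
  exact ⟨g, ⟨_, h1⟩, h2, h3, h4⟩

/-- Canonical symbols from public states. -/
theorem can_pub (hM : MonoStatement) (h : Lim4 P G) (hs : s < P.p) {x : St} {t t' : ℕ}
    (ht : t' < t) (hx : Adm x) (hxu : x.1 = G.u t' s) {y : St}
    (hy : Adm y) (hyu : y.1 = G.u t s) (hyl : y.2.length ≤ blk P.p t + 2) :
    ∃ g, VL G s g ∧ src g = x ∧ tgt g = y ∧ Ex g = [] := by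
  obtain ⟨g, h1, h2, h3, h4⟩ := h.can t s hs x y hx (by rw [hxu]; exact nb_lt hM h hs ht)
    hy hyu hyl
  exact ⟨g, ⟨_, h1⟩, h2, h3, h4⟩

theorem adm_nil (u : ℕ) : Adm ((u, []) : St) := ⟨Nat.zero_le _, by simp⟩

/-- The facts used in PROC. -/
theorem limD (hC : CodesStatement) (hB : BasicStatement) (hM : MonoStatement) (h : Lim4 P G)
    (hs : s < P.p) : Proc.LimD (fun t => G.d t s) (us G s) where
  wf n := (h.good n s hs).wf
  full n := (h.good n s hs).full
  ext := dext hM h hs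
  big n := (lt_N h hs n).le
  root n := by
    obtain ⟨h1, h2, -, -, h3, -⟩ := h.root n s hs
    exact ⟨h1.trans h2, h3⟩
  pub n := by rw [h.pub n s hs]; simp
  nil := ⟨0, rfl, by simp⟩
  pc := by
    rintro σ τ ⟨ρ, rfl⟩ ⟨n, hn⟩
    obtain ⟨-, -, -, -, -, -, -, -, -, -, -, c2, -⟩ := hC
    exact ⟨n, ((c2 _ _ _ _).1 hn.1).1, fun g hg => hn.2 g (List.mem_append_left _ hg)⟩
  ned := by
    intro σ hσ
    have h1 := lt_N h hs (endd o σ).1
    have h2 := (h.root (endd o σ).1 s hs).1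
    have h3 := (h.root (endd o σ).1 s hs).2.1
    have h4 : (endd o σ).1 < G.u (endd o σ).1 s := by omega
    obtain ⟨g, ⟨m, hm⟩, g2, g3, -⟩ := can_end hB hM h hs hσ h4 (adm_nil _) rfl (Nat.zero_le _)
    obtain ⟨n, hn⟩ := hσ
    refine ⟨g, max m n, ?_⟩
    have h5 := vstr_mono hM h hs (le_max_right m n) hn
    have h6 := Ltree.vstr_single (vs_mono hM h hs (le_max_left m n) hm)
    rw [g2] at h6
    exact Ltree.vstr_end hC (Ltree.vstr_append hC h5 h6)
  loc σ n hn := vstr_loc hB hM h hs σ n hn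

end

end LimF

/-- Module LIMF. -/
theorem limF_of (hC : CodesStatement) (hB : BasicStatement) (hM : MonoStatement) :
    LimFStatement := by
  intro P _ G h s hs
  exact ⟨LimF.dext hM h hs, LimF.limD hC hB hM h hs, fun t t' ht => LimF.u_mono hM h hs ht,
    fun t t' ht => LimF.sz_mono h hs ht, fun g t hg hN => LimF.vs_loc hB hM h hs hg hN,
    fun σ t hN => LimF.vstr_loc hB hM h hs σ t hN,
    fun σ t hσ hu y hy hyu hyl => LimF.can_end hB hM h hs hσ hu hy hyu hyl,
    fun x t t' ht hx hxu y hy hyu hyl => LimF.can_pub hM h hs ht hx hxu hy hyu hyl⟩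

/-- Module LIMF. -/
theorem limF : LimFStatement :=
  limF_of codes (basic codes) (mono codes (basic codes))

end Pool.Agent.Lib.MP_d48993_lc.Gr
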