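import Pool.Agent.Lib.MP_d48993_lc.AE.Gr.LimDefs
import Pool.Agent.Lib.MP_d48993_lc.AE.Gr.LimF
import Pool.Agent.Lib.MP_d48993_lc.AE.Gr.Blk

/-!
# Part G (MP_d48993): module LEND (helper29), the record of the sequence
-/

set_option autoImplicit false

namespace Pool.Agent.Lib.MP_d48993_lc.Gr.Lm

open Pool.Agent.Lib.MP_d48993_lc.Node
open MP_8c048d_lc (pre join RecF)
open Txt (ht st mC mN mR ltN okN Leg)

namespace LimEnd

/-! ## Codes of binary strings -/

theorem le_foldr_max (l : List ℕ) : ∀ x ∈ l, x ≤ l.foldr max 0 := by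
  induction l with
  | nil => intro x hx; simp at hx
  | cons a l ih =>
    intro x hx
    rw [List.foldr_cons]
    rcases List.mem_cons.1 hx with rfl | h
    · exact le_max_left _ _
    · exact (ih x h).trans (le_max_right _ _)

theorem lt_Kb (n : ℕ) (σ : List ℕ) (hb : ∀ b ∈ σ, b < 2) (hl : σ.length ≤ n) :
    Encodable.encode σ < Kb n := by
  have h1 : ∀ b ∈ σ ++ [1], b < 2 := by
    intro b hb'
    rcases List.mem_append.1 hb' with h | h
    · exact hb b h
    · rw [List.mem_singleton.1 h]; omega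
  have h2 : Nat.digits 2 (Nat.ofDigits 2 (σ ++ [1])) = σ ++ [1] := by
    refine Nat.digits_ofDigits 2 (by norm_num) _ h1 ?_
    intro h
    simp
  have h3 : Nat.ofDigits 2 (σ ++ [1]) < 2 ^ (n + 1) := by
    refine (Nat.ofDigits_lt_base_pow_length (by norm_num) h1).trans_le ?_
    refine Nat.pow_le_pow_right (by norm_num) ?_
    simp; omega
  refine Nat.lt_succ_of_le (le_foldr_max _ _ ?_)
  refine List.mem_map.2 ⟨_, List.mem_range.2 h3, ?_⟩
  rw [h2]; simp

/-! ## Prefixes of valid strings -/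

section

variable {P : Par} {W : World} (hW : ∀ x t, W.edge x t → Fit x t)
include hW

omit hW in
theorem vpre {σ ν : List ℕ} (hσ : VStr W o σ (endd o σ)) (h : ν <+: σ) :
    VStr W o ν (endd o ν) := by
  obtain ⟨τ, rfl⟩ := h
  obtain ⟨-, -, -, -, -, -, -, -, -, -, -, c12, c13⟩ := codes
  exact ⟨((c12 _ _ _ _).1 hσ.1).1, fun s hs => hσ.2 s (List.mem_append_left _ hs)⟩

theorem pre_le {σ ν : List ℕ} (hσ : VStr W o σ (endd o σ)) (h : ν <+: σ) :
    (endd o ν).1 ≤ (endd o σ).1 ∧ ((endd o ν).1 = (endd o σ).1 → ν = σ) := by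
  obtain ⟨τ, rfl⟩ := h
  obtain ⟨-, -, -, -, -, -, -, -, -, -, -, c12, c13⟩ := codes
  have h1 := (c12 o ν τ (endd o (ν ++ τ))).1 hσ.1
  have h2 : VStr W (endd o ν) τ (endd o (ν ++ τ)) :=
    ⟨h1.2, fun s hs => hσ.2 s (List.mem_append_right _ hs)⟩
  obtain ⟨i1, i2, -, -⟩ := Ltree.vstr_roots hW (basic codes W hW).1 τ _ _ h2
  refine ⟨i1, fun he => ?_⟩
  cases τ with
  | nil => simp
  | cons s τ =>
    exfalso
    have h3 : src s = endd o ν := h2.1.1
    have h4 := hW _ _ ((basic codes W hW).1 s (h2.2 s (by simp)))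
    have h5 := h4.2.2.1
    rw [h3] at h5
    have := i2 s (by simp)
    omega

/-- Regular strings with respect to a finite list of roots. -/
theorem reg_ul {U : ℕ → ℕ} (hU : StrictMono U) {m : ℕ} {σ : List ℕ}
    (hσ : VStr W o σ (endd o σ)) (he : (endd o σ).1 = U (m - 1)) (_hm : 0 < m)
    (hr : Reg P U σ) :
    Reg P (ul ((List.range m).map U) ((endd o σ).1 + 1)) σ := by
  have e1 : ∀ t, t < m → ul ((List.range m).map U) ((endd o σ).1 + 1) t = U t := by
    intro t ht
    unfold ul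
    rw [if_pos (by simpa using ht)]
    simp [List.getD, ht]
  have e2 : ∀ t, ¬ t < m → ul ((List.range m).map U) ((endd o σ).1 + 1) t =
      (endd o σ).1 + 1 + t := by
    intro t ht
    unfold ul
    rw [if_neg (by simpa using ht)]
  have e3 : ∀ t, ul ((List.range m).map U) ((endd o σ).1 + 1) t ≤ (endd o σ).1 → t < m := by
    intro t h
    by_contra h1
    rw [e2 t h1] at h
    omega
  refine ⟨?_, ?_, ?_, ?_⟩
  · intro t ht
    have := e3 t ht
    rw [e1 t this] at ht ⊢
    exact hr.pass t ht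
  · intro t ν hν h
    have h1 := (pre_le hW hσ hν).1
    have h2 := e3 t (h ▸ h1)
    rw [e1 t h2] at h
    exact hr.dep t ν hν h
  · intro t ν ν' hν hν' h h'
    have h1 := (pre_le hW hσ hν').1
    have h2 := e3 (t + 1) (h' ▸ h1)
    rw [e1 _ h2] at h'
    rw [e1 t (by omega)] at h
    exact hr.link t ν ν' hν hν' h h'
  · intro t ν ν' hνν' hν' h h'
    have h1 := (pre_le hW hσ hν').1
    have h0 := (pre_le hW hσ (hνν'.trans hν')).1
    have h2 := e3 t (h ▸ h0)
    rw [e1 t h2] at h
    refine hr.prv t ν ν' hνν' hν' h ?_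
    by_cases h3 : t + 1 < m
    · rwa [e1 _ h3] at h'
    · have h4 : m - 1 < t + 1 := by omega
      have := hU h4
      omega

/-- One root further. -/
theorem reg_step {U : ℕ → ℕ} (hU : StrictMono U) (hbk : ∀ t, bk (U t) = blk P.p t)
    {t : ℕ} {σ σ' : List ℕ} {w : List ℕ} {i i' : ℕ} (hσ' : VStr W o σ' (endd o σ'))
    (hr : Reg P U σ) (hp : σ <+: σ') (e : endd o σ = ow (U t, w) i)
    (e' : endd o σ' = ow (U (t + 1), w) i') (hw : 1 ≤ w.length)
    (hn : ∀ ν, ν <+: σ' → (∃ j ≤ t + 1, (endd o ν).1 = U j) → (endd o ν).1 ≤ U t ∨ ν = σ')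
    (hl : ∀ g ∈ σ'.drop σ.length, Lg (endd o σ) (tgt g)) : Reg P U σ' := by
  have eσ : (endd o σ).1 = U t := by rw [e]; rfl
  have eσ' : (endd o σ').1 = U (t + 1) := by rw [e']; rfl
  have ew : (endd o σ).2 = w ++ [i] := by rw [e]; rfl
  have ew' : (endd o σ').2 = w ++ [i'] := by rw [e']; rfl
  have hσ := vpre hσ' hp
  have hdep := hr.dep t σ (List.prefix_refl _) eσ
  rw [ew] at hdep
  have hlen : w.length + 1 ≤ blk P.p t := by simpa using hdep.2
  have hb := blk_le_succ P.p t
  have key : ∀ ν, ν <+: σ' → ∀ j, (endd o ν).1 = U j →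
      (j ≤ t ∧ ν <+: σ) ∨ (j = t + 1 ∧ ν = σ') := by
    intro ν hν j hj
    have h1 := (pre_le hW hσ' hν).1
    rw [eσ', hj] at h1
    have h2 : j ≤ t + 1 := hU.le_iff_le.1 h1
    rcases hn ν hν ⟨j, h2, hj⟩ with h3 | h3
    · left
      have h4 : j ≤ t := hU.le_iff_le.1 (by rw [← hj]; exact h3)
      refine ⟨h4, ?_⟩
      rcases List.prefix_or_prefix_of_prefix hν hp with h5 | h5
      · exact h5
      · have h6 := pre_le hW (vpre hσ' hν) h5
        have h7 := h6.2 (by rw [eσ]; have := h6.1; rw [eσ] at this; omega)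
        rw [h7]
    · right
      refine ⟨?_, h3⟩
      rw [h3, eσ'] at hj
      exact (hU.injective hj).symm
  refine ⟨?_, ?_, ?_, ?_⟩
  · intro T hT
    rw [eσ'] at hT
    have h2 : T ≤ t + 1 := hU.le_iff_le.1 hT
    rcases Nat.lt_or_ge t T with h3 | h3
    · have h4 : T = t + 1 := by omega
      subst h4
      exact ⟨σ', List.prefix_refl _, eσ'⟩
    · obtain ⟨ν, h5, h6⟩ := hr.pass T (by rw [eσ]; exact hU.le_iff_le.2 h3)
      exact ⟨ν, h5.trans hp, h6⟩
  · intro T ν hν h
    rcases key ν hν T h with ⟨h1, h2⟩ | ⟨h1, h2⟩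
    · exact hr.dep T ν h2 h
    · subst h1 h2
      rw [ew']
      simp only [List.length_append, List.length_singleton]
      omega
  · intro T ν ν' hν hν' h h'
    rcases key ν' hν' (T + 1) h' with ⟨h1, h2⟩ | ⟨h1, h2⟩
    · rcases key ν hν T h with ⟨h3, h4⟩ | ⟨h3, h4⟩
      · exact hr.link T ν ν' h4 h2 h h'
      · omega
    · have h1' : T = t := by omega
      subst h1' h2
      rcases key ν hν T h with ⟨h3, h4⟩ | ⟨h3, h4⟩
      · have h5 := (pre_le hW hσ h4).2 (by rw [h, eσ])
        subst h5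
        refine ⟨?_, ?_, ?_, ?_, ?_, ?_⟩
        · rw [ew]; simp
        · rw [ew]; simpa using hlen
        · rw [ew']; simp
        · rw [ew']; simp only [List.length_append, List.length_singleton]; omega
        · intro _
          rw [ew, ew']
          refine ⟨by simp, ?_⟩
          cases w with
          | nil => simp at hw
          | cons a w => rfl
        · intro hne
          left
          show bk (endd o ν).1 + (endd o ν').2.length < bk (endd o ν').1 + (endd o ν).2.length
          rw [ew, ew', eσ, eσ', hbk, hbk]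
          simp only [List.length_append, List.length_singleton]
          omega
      · omega
  · intro T ν ν' hνν' hν' h h'
    rcases key ν (hνν'.trans hν') T h with ⟨h1, h2⟩ | ⟨h1, h2⟩
    · have hV' := vpre hσ' hν'
      rcases Nat.lt_or_ge T t with h3 | h3
      · refine hr.prv T ν ν' hνν' ?_ h h'
        rcases List.prefix_or_prefix_of_prefix hν' hp with h5 | h5
        · exact h5
        · exfalso
          have h6 := (pre_le hW hV' h5).1
          have h7 : U (T + 1) ≤ U t := hU.le_iff_le.2 h3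
          omega
      · have h4 : T = t := by omega
        subst h4
        have h5 := (pre_le hW hσ h2).2 (by rw [h, eσ])
        subst h5
        obtain ⟨ρ, rfl⟩ := hνν'
        obtain ⟨ρ', hρ'⟩ := hν'
        rcases List.eq_nil_or_concat ρ with h6 | ⟨ρ₁, g, h6⟩
        · subst h6
          rw [List.append_nil]
          exact Or.inr ⟨rfl, rfl⟩
        · have h7 : endd o (ν ++ ρ) = tgt g := by
            rw [h6]
            simp [endd]
          rw [h7]
          refine hl g ?_
          rw [← hρ', h6]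
          simp
    · subst h2
      have h3 : ν' = ν := by
        have := hνν'.length_le
        exact hν'.eq_of_length_le this
      subst h3
      exact Or.inr ⟨rfl, rfl⟩

end

/-! ## Conditions at a state -/

theorem zq_eq {z : St} {c : Cnd3} (h : At z c) (hc : c.2 ≠ []) : zq c = z := by
  obtain ⟨c1, c2⟩ := c
  cases c2 with
  | nil => exact absurd rfl hc
  | cons e l =>
    obtain ⟨i, -, h2⟩ := h.en e (by simp)
    show ((endd o e.2.2).1, (endd o e.2.2).2.dropLast) = z
    rw [h2]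
    simp [ow]

theorem ne_nil {W : World} {T : List ℕ → Prop} {c : Cnd3} (h : CV W T c) : c.2 ≠ [] := by
  obtain ⟨p, hp⟩ := h.root
  intro h0
  rw [h0] at hp
  simp at hp

theorem lk_eq {T : Tab} {I : Itm} (h1 : I ∈ T.map Prod.fst) (h2 : ∀ x ∈ T, x.2 = x.1.c) :
    lk T I = I.c := by
  unfold lk
  cases h3 : T.find? (fun x : Itm × Cnd3 =>
    decide (Encodable.encode x.1 = Encodable.encode I)) with
  | none =>
    exfalso
    rw [List.find?_eq_none] at h3
    obtain ⟨x, hx, hx'⟩ := List.mem_map.1 h1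
    have := h3 x hx
    rw [hx'] at this
    simp at this
  | some x =>
    have h4 := List.find?_some h3
    have h5 := List.mem_of_find?_eq_some h3
    have h6 : x.1 = I := Encodable.encode_injective (by simpa using h4)
    show x.2 = I.c
    rw [h2 x h5, h6]

/-! ## The sequence -/

structure Sq (P : Par) (A : ℕ → Stg) : Prop where
  zero : A 0 = a0 P
  inv : ∀ n, IvA P (A n)
  rel : ∀ n k, RRk P k (A n) (A (n + 1))

theorem dt_a0 (P : Par) (s : ℕ) : dt (a0 P) s = dd := by
  show (List.replicate P.p dd).getD s dd = dd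
  rw [List.getD_eq_getElem?_getD, List.getElem?_replicate]
  split <;> rfl

section

variable {P : Par} {A : ℕ → Stg} (h : Sq P A)
include h

theorem t_eq (n : ℕ) : (A n).t = n := by
  induction n with
  | zero => rw [h.zero]; rfl
  | succ n ih => rw [(h.rel n default).t, ih]

theorem pub_eq {s : ℕ} (hs : s < P.p) (n : ℕ) :
    (dt (A n) s).pub = (List.range n).map (fun t => rt (A (t + 1)) s) := by
  induction n with
  | zero => rw [h.zero, dt_a0]; rfl
  | succ n ih =>
    rw [((h.rel n default).good s hs).2.2, ih, List.range_succ, List.map_append]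
    rfl

theorem u_mono {s : ℕ} (hs : s < P.p) : StrictMono (fun t => rt (A (t + 1)) s) := by
  refine strictMono_nat_of_lt_succ fun t => ?_
  have h1 := (h.rel t default).root s hs
  have h2 := (h.rel (t + 1) default).root s hs
  show rt (A (t + 1)) s < rt (A (t + 1 + 1)) s
  omega

theorem u_bk {s : ℕ} (hs : s < P.p) (t : ℕ) : bk (rt (A (t + 1)) s) = blk P.p t := by
  rw [((h.rel t default).root s hs).2.2.2.1, t_eq h t]

theorem good {s : ℕ} (hs : s < P.p) (n : ℕ) : GD (dt (A n) s) := (h.inv n).stin.good s hs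

/-- The items at the beginning of a root. -/
structure Pq (P : Par) (A : ℕ → Stg) (n t : ℕ) (I : Itm) : Prop where
  key : I ∈ (A t).curs.map Prod.fst
  pt : I.col < P.p → ∃ z : St, z.1 = rt (A (fst P.p n - 1 + 1)) I.col ∧ 1 ≤ z.2.length ∧
    At z I.c ∧ At ((rt (A (t - 1 + 1)) I.col, z.2) : St) (cu (A t) I) ∧
    ∀ e ∈ (cu (A t) I).2, Reg P (fun t => rt (A (t + 1)) I.col) e.2.2

theorem cu_first {n : ℕ} (hn : 3 ≤ n) {I : Itm} (hI : IsItm P (gph A) n I) :
    I ∈ (A (fst P.p n)).curs.map Prod.fst ∧ cu (A (fst P.p n)) I = I.c := by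
  obtain ⟨r, hr⟩ : ∃ r, fst P.p n = r + 1 := ⟨fst P.p n - 1, by have := fst_pos P.p hn; omega⟩
  have hb : blk P.p (r + 1) = n := by rw [← hr]; exact blk_fst P.p (by omega)
  have hb' : blk P.p r ≠ n := by
    intro h1
    have := (blk_eq_iff P.p (show 2 ≤ n by omega)).1 h1
    omega
  have hne : blk P.p ((A r).t + 1) ≠ blk P.p (A r).t := by
    rw [t_eq h r, hb]
    exact hb'.symm
  have hok : ItmOk P (A (r + 1)) I := by
    have ht := t_eq h (r + 1)
    refine ⟨?_, ?_, ?_, hI.leg, hI.lab, fun hc => ?_, hI.sh⟩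
    · rw [ht, hb]; exact hI.three
    · rw [ht, hb]; exact hI.ends
    · rw [ht, hb]; exact hI.code
    · obtain ⟨h1, h2⟩ := hI.pt hc
      obtain ⟨z, z1, z2, z3⟩ := h2.at'
      have h3 : CV (dt (A (r + 1)) I.col).W (LT P I) I.c := by
        have := h2.cv
        rw [hr] at this
        exact this
      have hz : zq I.c = z := zq_eq z3 (ne_nil h3)
      have hz1 : z.1 = rt (A (r + 1)) I.col := by
        rw [z1, hr]; rfl
      rw [ht, hb, hz]
      refine ⟨h1, h3, hz1, z2, z3, fun e he => ?_⟩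
      rw [pub_eq h hc (r + 1)]
      obtain ⟨i, -, hi⟩ := z3.en e he
      refine reg_ul (Ltree.dfit (dt (A (r + 1)) I.col)) (u_mono h hc) (h3.stem e he).2 ?_
        (Nat.succ_pos r) (h2.reg e he)
      rw [hi]
      exact hz1
  have h4 := (h.rel r (default, default, default, default, I)).next2 hne
  have h5 := h4.2.2 hok
  rw [hr]
  exact ⟨h5, lk_eq h5 fun x hx => (h4.2.1 x hx).1⟩

/-- The values at the end of a root. -/
theorem fin_pt {n t : ℕ} (h3 : 3 ≤ n) (ht : blk P.p t = n) {I : Itm} (hc : I.col < P.p)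
    (hk : I ∈ (A t).curs.map Prod.fst) {z : St} (hz : 1 ≤ z.2.length)
    (ha : At ((rt (A (t - 1 + 1)) I.col, z.2) : St) (cu (A t) I))
    (hr : ∀ e ∈ (cu (A t) I).2, Reg P (fun t => rt (A (t + 1)) I.col) e.2.2) :
    At ((rt (A (t + 1)) I.col, z.2) : St) (fn (A (t + 1)) I) ∧
      ∀ e ∈ (fn (A (t + 1)) I).2, Reg P (fun t => rt (A (t + 1)) I.col) e.2.2 := by
  obtain ⟨h1, h2, h4, h5, h6⟩ := (h.rel t default).pt I hk hc
  have hcv : CV (dt (A t) I.col).W (LT P I) (cu (A t) I) :=
    ((h.inv t).stin.pt I hk hc).2.1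
  have hzq := zq_eq ha (ne_nil hcv)
  rw [hzq] at h5 h6
  refine ⟨h5, fun e' he' => ?_⟩
  obtain ⟨r, hr'⟩ : ∃ r, t = r + 1 := by
    refine ⟨t - 1, ?_⟩
    have h7 := fst_pos P.p h3
    have h8 := ((blk_eq_iff P.p (show 2 ≤ n by omega)).1 ht).1
    omega
  subst hr'
  obtain ⟨e, he, hp, hl⟩ := h4 e' he'
  obtain ⟨i, -, hi⟩ := ha.en e he
  obtain ⟨i', -, hi'⟩ := h5.en e' he'
  refine reg_step (Ltree.dfit (dt (A (r + 1 + 1)) I.col)) (u_mono h hc) (u_bk h hc) (t := r)
    (h1.stem e' he').2 (hr e he) hp hi hi' hz ?_ hl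
  intro ν hν hj
  refine h6 e' he' ν hν ?_
  rw [pub_eq h hc]
  obtain ⟨j, hj1, hj2⟩ := hj
  rw [hj2]
  exact List.mem_map.2 ⟨j, List.mem_range.2 (by omega), rfl⟩

theorem pq {n : ℕ} (hn : 3 ≤ n) {I : Itm} (hI : IsItm P (gph A) n I) :
    ∀ t, fst P.p n ≤ t → t < fst P.p (n + 1) → Pq P A n t I := by
  intro t ht
  induction t, ht using Nat.le_induction with
  | base =>
    intro _
    obtain ⟨h1, h2⟩ := cu_first h hn hI
    refine ⟨h1, fun hc => ?_⟩
    obtain ⟨-, h3⟩ := hI.pt hc
    obtain ⟨z, z1, z2, z3⟩ := h3.at'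
    rw [h2]
    refine ⟨z, z1, z2, z3, ?_, h3.reg⟩
    have e : ((rt (A (fst P.p n - 1 + 1)) I.col, z.2) : St) = z := Prod.ext z1.symm rfl
    rw [e]
    exact z3
  | succ t ht ih =>
    intro hlt
    have h0 := ih (by omega)
    have hb : blk P.p t = n := (blk_eq_iff P.p (by omega)).2 ⟨ht, by omega⟩
    have hb' : blk P.p (t + 1) = n := (blk_eq_iff P.p (by omega)).2 ⟨by omega, hlt⟩
    have h1 := (h.rel t default).next1 (by rw [t_eq h t, hb, hb'])
    have h2 := (h.rel t default).keys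
    have h3 : cu (A (t + 1)) I = fn (A (t + 1)) I := by
      unfold cu fn
      rw [h1]
    refine ⟨by rw [h1, h2]; exact h0.key, fun hc => ?_⟩
    obtain ⟨z, z1, z2, z3, z4, z5⟩ := h0.pt hc
    rw [h3]
    obtain ⟨f1, f2⟩ := fin_pt h hn hb hc h0.key z2 z4 z5
    exact ⟨z, z1, z2, z3, f1, f2⟩

theorem pq' {t : ℕ} {I : Itm} (hI : IsItm P (gph A) (blk P.p t) I) :
    Pq P A (blk P.p t) t I := by
  have h1 := (blk_eq_iff P.p (two_le_blk P.p t)).1 (rfl : blk P.p t = blk P.p t)
  exact pq h hI.three hI t h1.1 h1.2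

theorem itv {t : ℕ} {I : Itm} (hI : IsItm P (gph A) (blk P.p t) I) : ItV P (gph A) t I := by
  have h0 := pq' h hI
  obtain ⟨h1, h2, h3, -, h4⟩ := (h.rel t default).txt I h0.key
  refine ⟨h1, h2, h3, h4, fun hc => ?_⟩
  obtain ⟨z, z1, z2, z3, z4, z5⟩ := h0.pt hc
  obtain ⟨f1, f2⟩ := fin_pt h hI.three rfl hc h0.key z2 z4 z5
  obtain ⟨g1, g2, g3, -, -⟩ := (h.rel t default).pt I h0.key hc
  exact ⟨g1, g2, g3, f2, z, z1, z2, z3, f1⟩

theorem ctr (hCode : CodeStatement) (t : ℕ) : Ctr P (gph A) t := by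
  have hD : Done P { ctx P (A t) with u := rt (A (t + 1)) } (blk P.p (A t).t)
      (endS (A t) (A (t + 1))) :=
    (hCode _ _ _ _).1 fun q => (h.rel t (q, default)).con
  have ht := t_eq h t
  have hJ : 3 ≤ blk P.p t → (ctx P (A t)).J = JJ (blk P.p t) := by
    intro h3
    funext s
    show (decide (blk P.p (A t).t ≤ 2) || JJ (blk P.p (A t).t) s) = _
    rw [ht, decide_eq_false (by omega)]
    rfl
  rw [ht] at hD
  have hTup : ∀ H y mu it, Ttup P (gph A) t H y mu it →
      PTup P { ctx P (A t) with u := rt (A (t + 1)) } (endS (A t) (A (t + 1))) H y mu it := by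
    intro H y mu it hT
    have hJ' := hJ hT.three
    refine ⟨fun s hs hs' => ?_, fun c hc => ?_⟩
    · obtain ⟨h1, h2⟩ := hT.str s hs (by rw [← hJ']; exact hs')
      refine ⟨⟨h1.root, h1.adm, h1.zero, ?_⟩, h2⟩
      show (y s).2.length = dv P.p (A t).t s
      rw [ht]
      exact h1.len
    · obtain ⟨h1, h2⟩ := hT.itm c (by rw [← hJ']; exact hc)
      exact ⟨(pq' h h1).key, h2⟩
  have hF : ∀ H y it γ' nu k, 3 ≤ blk P.p t → Fut P (gph A) t H y it γ' nu k →
      SExt P { ctx P (A t) with u := rt (A (t + 1)) } (endS (A t) (A (t + 1))) H 0 y it γ' nu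
        k := by
    intro H y it γ' nu k h3 hF
    have hJ' := hJ h3
    unfold Fut at hF
    rw [← hJ'] at hF
    exact hF
  have hE : ∀ i H y mu nu k, 3 ≤ blk P.p t →
      evS P { ctx P (A t) with u := rt (A (t + 1)) } (endS (A t) (A (t + 1))) i H y mu nu k =
        evX P (gph A) t i H y mu nu k := by
    intro i H y mu nu k h3
    have hJ' := hJ h3
    unfold evX
    rw [← hJ']
    rfl
  have hE' : ∀ i H y mu it, 3 ≤ blk P.p t →
      evS P { ctx P (A t) with u := rt (A (t + 1)) } (endS (A t) (A (t + 1))) i H y mu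
        (fun _ => []) (fun c => (endS (A t) (A (t + 1))).cv (it c)) =
        evF P (gph A) t i H y mu it := by
    intro i H y mu it h3
    rw [hE _ _ _ _ _ _ h3]
    rfl
  refine ⟨?_, ?_, ?_⟩
  · intro H y mu it hT i hi m hm
    rcases hD.hit H y mu it (hTup _ _ _ _ hT) i hi m hm with h1 | h1
    · left
      rw [← hE' _ _ _ _ _ hT.three]
      exact h1
    · right
      intro γ' nu k hk
      rw [← hE _ _ _ _ _ _ hT.three]
      exact h1 γ' nu k (hF _ _ _ _ _ _ hT.three hk)
  · intro H y mu it hT i hi b hb hJb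
    rcases hD.kill H y mu it (hTup _ _ _ _ hT) i hi b hb
      (by show (ctx P (A t)).J b = true; rw [hJ hT.three]; exact hJb) with h1 | h1
    · left
      rw [← hE' _ _ _ _ _ hT.three]
      exact h1
    · right
      intro γ' nu k hk
      rw [← hE _ _ _ _ _ _ hT.three]
      exact h1 γ' nu k (hF _ _ _ _ _ _ hT.three hk)
  · intro y mu it hT hall i hi
    rcases hD.killn y mu it (hTup _ _ _ _ hT)
      (fun s hs => by show (ctx P (A t)).J s = false; rw [hJ hT.three]; exact hall s hs)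
      i hi with h1 | h1
    · left
      rw [← hE' _ _ _ _ _ hT.three]
      exact h1
    · right
      intro γ' nu k hk
      rw [← hE _ _ _ _ _ _ hT.three, ← hE' _ _ _ _ _ hT.three]
      exact h1 γ' nu k (hF _ _ _ _ _ _ hT.three hk)

end

end LimEnd

open LimEnd in
/-- Module LEND. -/
theorem lend (hCode : CodeStatement) : EndStatement := by
  intro P _ A hA0 hA
  have h : Sq P A := ⟨hA0, fun n => (hA n).1, fun n k => (hA n).2 k⟩
  refine ⟨?_, ?_, ?_, ?_, ?_, ?_, ?_, ?_, ?_, ?_, ?_, ?_, ?_, ?_, ?_⟩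
  · intro s _
    show (dt (A 0) s).pub = [] ∧ (dt (A 0) s).prv = [] ∧ (dt (A 0) s).N = 1
    rw [hA0, dt_a0]
    exact ⟨rfl, rfl, rfl⟩
  · exact fun t s hs => good h hs t
  · exact fun t s hs => ((h.rel t default).good s hs).2.1
  · exact fun t s hs => ((h.rel t default).good s hs).2.2
  · intro t s hs
    obtain ⟨h1, h2, h3, h4, h5⟩ := (h.rel t default).root s hs
    rw [t_eq h t] at h4 h5
    exact ⟨h1, h2, h3, h4, by show t ≤ sz (rt (A (t + 1)) s); omega,
      by show blk P.p t + 2 < sz (rt (A (t + 1)) s); omega⟩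
  · exact fun t s hs x y => (h.rel t (default, (x, y), default, default, default)).gap s hs
  · intro t s hs
    refine (h.rel (t + 1) default).szs s hs (rt (A (t + 1)) s) ?_
    rw [pub_eq h hs]
    exact List.mem_map.2 ⟨t, List.mem_range.2 (by omega), rfl⟩
  · intro t s hs σ hb hl
    obtain ⟨-, -, -, -, h5⟩ := (h.rel t default).root s hs
    rw [t_eq h t] at h5
    have h6 := lt_Kb (blk P.p t + 2) σ hb hl
    show _ < sz (rt (A (t + 1)) s)
    omega
  · exact fun t s hs L hL hL' =>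
      (h.rel t (default, default, L, default, default)).many s hs hL hL'
  · intro t s hs x y hx hxn hy hyu hyl
    obtain ⟨g, -, h1, h2, h3, h4⟩ := (h.rel t (default, (x, y), default, default, default)).can s
      hs hx hxn hy hyu (by rw [t_eq h t]; exact hyl)
    exact ⟨g, h1, h2, h3, h4⟩
  · exact fun n I hI => (cu_first h hI.three hI).2
  · intro t I _ hb
    have h1 := (h.rel t default).next1 (by rw [t_eq h t]; exact hb)
    show cu (A (t + 1)) I = fn (A (t + 1)) I
    unfold cu fn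
    rw [h1]
  · exact fun t I hI => itv h hI
  · exact fun t => ctr h hCode t
  · exact fun t s hs => (h.rel t default).nbs s hs

end Pool.Agent.Lib.MP_d48993_lc.Gr.Lm
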