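import Pool.Agent.Lib.MP_d48993_lc.AE.Gr.Stm
import Pool.Agent.Lib.MP_d48993_lc.AE.Node.Kills
import Pool.Agent.Lib.MP_d48993_lc.AE.Node.Decv
import Pool.Agent.Lib.MP_d48993_lc.AE.Node.Finv
import Pool.Agent.Lib.MP_d48993_lc.AE.Node.Stagea
import Pool.Agent.Lib.MP_d48993_lc.AE.Node.Mono
import Pool.Agent.Lib.MP_d48993_lc.AE.Node.Basic
import Pool.Agent.Lib.MP_d48993_lc.AE.Node.Codes

/-!
# Part G (MP_d48993), module TASK: functionals on tuples, later states (finding 4200, G8.4, L8)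
-/

set_option autoImplicit false

namespace Pool.Agent.Lib.MP_d48993_lc.Gr.Task

open Pool.Agent.Lib.MP_d48993_lc.Node
open Txt (ht st mC mN mR ltN okN Leg)

/-! ## Functionals on tuples -/

theorem tup_getD (P : Par) (J : ℕ → Bool) (H : ℕ) (σ : ℕ → List ℕ) (k : ℕ → Cnd3) {c : ℕ}
    (hc : c < P.p + P.q) :
    (tup P J H σ k).getD c [] = if Tx P J H c = true then (k c).1 else σ c := by
  unfold tup
  rw [List.getD_eq_getElem?_getD, List.getElem?_map, List.getElem?_range hc]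
  rfl

theorem prs_lt {P : Par} {H c : ℕ} (h : Prs P H c = true) : c < P.p + P.q := by
  unfold Prs at h
  simp only [Bool.or_eq_true, decide_eq_true_eq, Bool.and_eq_true] at h
  omega

theorem prs_of_lt {P : Par} {H c : ℕ} (h : c < P.p) : Prs P H c = true := by
  unfold Prs
  simp [h]

theorem tx_prs {P : Par} {J : ℕ → Bool} {H c : ℕ} (h : Tx P J H c = true) :
    Prs P H c = true := by
  unfold Tx at h
  rw [Bool.and_eq_true] at h
  exact h.1

theorem tx_of_lt {P : Par} {J : ℕ → Bool} {H c : ℕ} (h : c < P.p) : Tx P J H c = J c := by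
  unfold Tx
  rw [prs_of_lt h]
  simp [h]

/-- A column which is present and not a text. -/
theorem str_of_prs {P : Par} {J : ℕ → Bool} {H c : ℕ} (h : Prs P H c = true)
    (h' : ¬ Tx P J H c = true) : c < P.p ∧ J c = false := by
  unfold Tx at h'
  rw [h] at h'
  simp only [Bool.true_and, Bool.or_eq_true, decide_eq_true_eq, not_or, not_le,
    Bool.not_eq_true] at h'
  exact h'

theorem foldr_min_mono {β : Type} (f g : β → ℕ) (a b : ℕ) (hab : a ≤ b) :
    ∀ L : List β, (∀ x ∈ L, f x ≤ g x) → (L.map f).foldr min a ≤ (L.map g).foldr min b := by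
  intro L
  induction L with
  | nil => intro _; exact hab
  | cons x L ih =>
    intro h
    simp only [List.map_cons, List.foldr_cons]
    exact min_le_min (h x (by simp)) (ih fun y hy => h y (by simp [hy]))

theorem foldr_min_le {β : Type} (f : β → ℕ) (a : ℕ) (x : β) : ∀ L : List β, x ∈ L →
    (L.map f).foldr min a ≤ f x := by
  intro L
  induction L with
  | nil => intro h; exact absurd h (by simp)
  | cons y L ih =>
    intro h
    simp only [List.map_cons, List.foldr_cons]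
    rcases List.mem_cons.1 h with rfl | h
    · exact min_le_left _ _
    · exact (min_le_right _ _).trans (ih h)

theorem tlen_mono {P : Par} (h0 : 0 < P.p) (H : ℕ) {τ τ' : List (List ℕ)}
    (h : ∀ c, Prs P H c = true → τ.getD c [] <+: τ'.getD c []) : tlen P H τ ≤ tlen P H τ' := by
  unfold tlen
  refine foldr_min_mono _ _ _ _ (h 0 (prs_of_lt h0)).length_le _ fun c hc => ?_
  exact (h c (List.mem_filter.1 hc).2).length_le

theorem tlen_le {P : Par} {H : ℕ} (τ : List (List ℕ)) {c : ℕ} (hc : Prs P H c = true) :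
    tlen P H τ ≤ (τ.getD c []).length := by
  unfold tlen
  exact foldr_min_le (fun c => (τ.getD c []).length) _ c _
    (List.mem_filter.2 ⟨List.mem_range.2 (prs_lt hc), hc⟩)

theorem getD_pfx {σ τ : List ℕ} (h : σ <+: τ) {n : ℕ} (hn : n < σ.length) :
    σ.getD n 0 = τ.getD n 0 := by
  obtain ⟨r, rfl⟩ := h
  rw [List.getD_append _ _ _ _ hn]

theorem fj_mono {P : Par} (h0 : 0 < P.p) (H : ℕ) {τ τ' : List (List ℕ)}
    (h : ∀ c, Prs P H c = true → τ.getD c [] <+: τ'.getD c []) : fj P H τ <+: fj P H τ' := by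
  have h1 := tlen_mono h0 H h
  have h2 : (P.p + P.q) * tlen P H τ ≤ (P.p + P.q) * tlen P H τ' := Nat.mul_le_mul_left _ h1
  rw [List.prefix_iff_eq_take]
  unfold fj
  rw [← List.map_take, List.length_map, List.length_range, List.take_range, min_eq_left h2]
  refine List.map_congr_left fun n hn => ?_
  rw [List.mem_range] at hn
  by_cases hp : Prs P H (n % (P.p + P.q)) = true
  · rw [if_pos hp, if_pos hp]
    refine getD_pfx (h _ hp) (lt_of_lt_of_le ?_ (tlen_le τ hp))
    exact Nat.div_lt_of_lt_mul hn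
  · rw [if_neg hp, if_neg hp]

theorem pfx_antisymm {β : Type} {σ τ : List β} (h : σ <+: τ) (h' : τ <+: σ) : σ = τ :=
  h.eq_of_length (le_antisymm h.length_le h'.length_le)

theorem fj_congr {P : Par} (h0 : 0 < P.p) {H H' : ℕ} {τ τ' : List (List ℕ)}
    (hH : ∀ c, Prs P H c = Prs P H' c)
    (h : ∀ c, Prs P H c = true → τ.getD c [] = τ'.getD c []) : fj P H τ = fj P H' τ' := by
  have h1 : fj P H τ = fj P H τ' := pfx_antisymm
    (fj_mono h0 H fun c hc => by rw [h c hc])
    (fj_mono h0 H fun c hc => by rw [h c hc])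
  rw [h1]
  have h2 : Prs P H = Prs P H' := funext hH
  unfold fj tlen
  rw [h2]

/-- Monotonicity. -/
theorem ev_le {P : Par} (hP : P.Ok) (i H : ℕ) {J : ℕ → Bool} {σ σ' : ℕ → List ℕ}
    {k k' : ℕ → Cnd3} (hs : ∀ s < P.p, J s = false → σ s <+: σ' s)
    (hk : ∀ c, Tx P J H c = true → (k c).1 <+: (k' c).1) :
    ev P i H (tup P J H σ k) <+: ev P i H (tup P J H σ' k') := by
  refine hP.enum.mono i _ _ (fj_mono hP.pos H fun c hc => ?_)
  rw [tup_getD P J H σ k (prs_lt hc), tup_getD P J H σ' k' (prs_lt hc)]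
  by_cases ht : Tx P J H c = true
  · rw [if_pos ht, if_pos ht]
    exact hk c ht
  · rw [if_neg ht, if_neg ht]
    obtain ⟨h1, h2⟩ := str_of_prs hc ht
    exact hs c h1 h2

theorem tx_congr {P : Par} {J : ℕ → Bool} {H H' : ℕ} (hH : ∀ c, Prs P H c = Prs P H' c)
    (c : ℕ) : Tx P J H c = Tx P J H' c := by
  unfold Tx
  rw [hH]

theorem ev_eq {P : Par} (hP : P.Ok) (i : ℕ) {H H' : ℕ} {J : ℕ → Bool} {σ σ' : ℕ → List ℕ}
    {k k' : ℕ → Cnd3} (hH : ∀ c, Prs P H c = Prs P H' c)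
    (hs : ∀ s < P.p, J s = false → σ s = σ' s)
    (hk : ∀ c, Tx P J H c = true → (k c).1 = (k' c).1) :
    ev P i H (tup P J H σ k) = ev P i H' (tup P J H' σ' k') := by
  unfold ev
  rw [fj_congr hP.pos hH fun c hc => ?_]
  rw [tup_getD P J H σ k (prs_lt hc), tup_getD P J H' σ' k' (prs_lt hc)]
  by_cases ht : Tx P J H c = true
  · rw [if_pos ht, if_pos (by rw [← tx_congr hH]; exact ht)]
    exact hk c ht
  · rw [if_neg ht, if_neg (by rw [← tx_congr hH]; exact ht)]
    obtain ⟨h1, h2⟩ := str_of_prs hc ht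
    exact hs c h1 h2

theorem evS_le {P : Par} (hP : P.Ok) (C : Ctx) {S S' : PS} (i H : ℕ) {y : ℕ → St}
    {mu nu nu' : ℕ → List ℕ} {k k' : ℕ → Cnd3}
    (hs : ∀ s < P.p, C.J s = false → S.al s (y s) ++ nu s <+: S'.al s (y s) ++ nu' s)
    (hk : ∀ c, Tx P C.J H c = true → (k c).1 <+: (k' c).1) :
    evS P C S i H y mu nu k <+: evS P C S' i H y mu nu' k' := by
  refine ev_le hP i H (fun s h1 h2 => ?_) hk
  unfold cat
  rw [List.append_assoc, List.append_assoc]
  obtain ⟨r, hr⟩ := hs s h1 h2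
  exact ⟨r, by rw [List.append_assoc, hr]⟩

theorem evS_eq {P : Par} (hP : P.Ok) (C : Ctx) {S S' : PS} (i : ℕ) {H H' : ℕ} {y y' : ℕ → St}
    {mu mu' nu nu' : ℕ → List ℕ} {k k' : ℕ → Cnd3} (hH : ∀ c, Prs P H c = Prs P H' c)
    (hm : ∀ s < P.p, C.J s = false → mu s = mu' s)
    (hs : ∀ s < P.p, C.J s = false → S.al s (y s) ++ nu s = S'.al s (y' s) ++ nu' s)
    (hk : ∀ c, Tx P C.J H c = true → (k c).1 = (k' c).1) :
    evS P C S i H y mu nu k = evS P C S' i H' y' mu' nu' k' := by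
  refine ev_eq hP i hH (fun s h1 h2 => ?_) hk
  unfold cat
  rw [List.append_assoc, List.append_assoc, hs s h1 h2, hm s h1 h2]

/-! ## Later states -/

theorem hCo : CodesStatement := codes
theorem hBa : BasicStatement := basic codes
theorem hMo : MonoStatement := mono codes (basic codes)

variable {P : Par} {C : Ctx}

theorem PInv.leg {b : ℕ} {S : PS} (h : PInv P C b S) {I : Itm} (hI : C.its I) :
    Leg (HT P I) (S.cv I).1 := (h.txt I hI).1.leg

theorem Lat.refl {b : ℕ} {S : PS} (h : PInv P C b S) : Lat P C S S := by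
  refine ⟨fun s _ => Stagea.dext_refl _, fun s _ _ y _ => ⟨[], by simp, ⟨rfl, by simp⟩, by simp⟩,
    fun I _ _ => Kills.cle_refl _ _, fun I hI => Txt.Le.rfl' (PInv.leg h hI)⟩

theorem Lat.trans {b b' : ℕ} {S S' S'' : PS} (h1 : PInv P C b S') (h2 : PInv P C b' S'')
    (h : Lat P C S S') (h' : Lat P C S' S'') : Lat P C S S'' := by
  refine ⟨fun s hs => Mono.dext_trans _ _ _ (h.ext s hs) (h'.ext s hs), ?_, ?_, ?_⟩
  · intro s hs hJ y hy
    obtain ⟨ν, e, k1, k2⟩ := h.al s hs hJ y hy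
    obtain ⟨ν', e', k1', k2'⟩ := h'.al s hs hJ y hy
    refine ⟨ν ++ ν', by rw [e', e, List.append_assoc], ?_, ?_⟩
    · rw [Stagea.vstr_append hCo, ← Stagea.endd_append hCo, ← e]
      exact ⟨Stagea.vstr_mono hMo (h1.wf s hs).1 (h'.ext s hs) k1, k1'⟩
    · intro g hg
      rcases List.mem_append.1 hg with hg | hg
      · exact k2 g hg
      · exact k2' g hg
  · intro I hI hc
    exact Kills.cle_trans (h2.pt I hI hc).2.1 (h.pt I hI hc) (h'.pt I hI hc)
  · intro I hI
    have h3 := h.txt I hI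
    refine h3.trans ((h'.txt I hI).mono ?_)
    exact (h3.take le_rfl le_rfl).1

theorem PTup.up {S S' : PS} {H : ℕ} {y : ℕ → St} {mu : ℕ → List ℕ} {it : ℕ → Itm} {b : ℕ}
    (hI : PInv P C b S) (hL : Lat P C S S') (h : PTup P C S H y mu it) :
    PTup P C S' H y mu it :=
  ⟨fun s hs hJ => ⟨(h.str s hs hJ).1, Stagea.vstr_mono hMo (hI.wf s hs).1 (hL.ext s hs)
    (h.str s hs hJ).2⟩, h.itm⟩

/-- The functionals grow. -/
theorem evS_up (hP : P.Ok) {S S' : PS} {H : ℕ} {y : ℕ → St} {mu : ℕ → List ℕ} {it : ℕ → Itm}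
    (hL : Lat P C S S') (h : PTup P C S H y mu it) (i : ℕ) :
    evS P C S i H y mu (fun _ => []) (fun c => S.cv (it c)) <+:
      evS P C S' i H y mu (fun _ => []) (fun c => S'.cv (it c)) := by
  refine evS_le hP C i H (fun s hs hJ => ?_) (fun c hc => ?_)
  · obtain ⟨ν, e, -⟩ := hL.al s hs hJ (y s) (h.str s hs hJ).1
    rw [e, List.append_nil, List.append_nil]
    exact List.prefix_append _ _
  · exact (hL.txt _ (h.itm c hc).1).px

/-- The strings of the tuples are old. -/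
theorem vstr_back {b b' : ℕ} {S S' : PS} (h1 : PInv P C b S) (h2 : PInv P C b' S')
    (hL : Lat P C S S') {s : ℕ} (hs : s < P.p) (hJ : C.J s = false) {y : St} (hy : C.Y s y)
    {mu : List ℕ} (h : VStr (S'.g s).W o mu y) : VStr (S.g s).W o mu y := by
  refine Stagea.loc hBa hMo (u := C.u s) (h1.wf s hs).1 (h2.wf s hs).1 (hL.ext s hs)
    (h1.root s hs hJ).2.1 ?_ mu o y hy.root.le h
  intro v hv hr hlt
  by_cases hp : v.1 ∈ (S.g s).pub
  · have h3 := (h1.adn s hs hJ (ow v 0) (Stagea.adm_ow hv hr) ⟨v, rfl⟩ hp).not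
    rw [Option.isSome_iff_ne_none]
    rw [← ne_eq] at h3
    refine h3.2 fun h4 => ?_
    have h5 : v.1 = C.u s := h4.1
    omega
  · exact Stagea.adv_default (y := ow v 0) (hlt.trans (h1.root s hs hJ).2.1) hp

theorem PTup.back {b b' : ℕ} {S S' : PS} (h1 : PInv P C b S) (h2 : PInv P C b' S')
    (hL : Lat P C S S') {H : ℕ} {y : ℕ → St} {mu : ℕ → List ℕ} {it : ℕ → Itm}
    (h : PTup P C S' H y mu it) : PTup P C S H y mu it :=
  ⟨fun s hs hJ => ⟨(h.str s hs hJ).1, vstr_back h1 h2 hL hs hJ (h.str s hs hJ).1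
    (h.str s hs hJ).2⟩, h.itm⟩

end Pool.Agent.Lib.MP_d48993_lc.Gr.Task
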