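import Pool.Agent.Lib.MP_d48993_lc.AE.Gr.Stm3
import Pool.Agent.Lib.MP_d48993_lc.AE.Gr.TaskB

/-!
# Part G (MP_d48993): module STEP (finding 4200, G8.5), one step from STEPA, TASK, CLOSE, STEPT
-/

set_option autoImplicit false

namespace Pool.Agent.Lib.MP_d48993_lc.Gr

open Pool.Agent.Lib.MP_d48993_lc.Node
open Txt (ht st mC mN mR ltN okN Leg)
open Gr.Task (hCo hBa hMo)

namespace Step

/-- The result of a step for the colour `s`. -/
structure ColOut (P : Par) (C : Ctx) (n K : ℕ) (zp : Itm → St) (u0 : ℕ → ℕ) (S : PS) (s : ℕ)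
    (δ : Node.Data) (u nb : ℕ) (f : Itm → Cnd3) : Prop where
  gd : GD δ
  ext : DExt (S.g s) δ
  pub : δ.pub = (C.d0 s).pub ++ [u]
  n1 : (C.d0 s).N ≤ nb
  n2 : nb ≤ u
  n3 : u < δ.N
  bk : bk u = n
  K : K ≤ sz u
  gap : ∀ x y, δ.W.edge x y → nb ≤ y.1 → u ≤ y.1
  szs : ∀ r ∈ (C.d0 s).pub, sz r ≤ sz u
  many : ∀ L : List (List ℕ), L.Nodup →
    (∀ σ ∈ L, VStr δ.W o σ (endd o σ) ∧ (endd o σ).1 < u) → 3 * L.length + 3 < sz u
  can : CanU nb u n δ
  pt : ∀ I, C.its I → I.col = s → (f I).1 = (S.cv I).1 ∧ CV δ.W (LT P I) (f I) ∧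
    CLe (LT P I) (S.cv I) (f I) ∧ CLe (LT P I) (C.cur I) (f I) ∧ LgC (C.cur I) (f I) ∧
    At ((u, (zp I).2) : St) (f I) ∧
    ∀ e ∈ (f I).2, ∀ ν, ν <+: e.2.2 → (endd o ν).1 ∈ δ.pub →
      (endd o ν).1 ≤ (zp I).1 ∨ ν = e.2.2
  adv : ∀ y, Adm y → Zero y → y.1 = u → (C.J s = true ∨ y.2.length ≠ C.D s) →
    δ.W.adv y = some []
  str : C.J s = false → u = u0 s ∧ ∀ y, Adm y → Zero y → y.1 = u → y.2.length = C.D s →
    δ.W.adv y = some (S.al s y)
  nbs : nb ≤ sz u

variable {P : Par} {C : Ctx} {n K : ℕ} {zp : Itm → St} {u0 : ℕ → ℕ} {S₀ S : PS} {b : ℕ}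

theorem stIn_u (h : StIn P C n zp) : StIn P { C with u := u0 } n zp :=
  ⟨h.two, h.good, h.fin, h.dep, h.lab, h.leg, h.pt⟩

/-- Colours which are texts. -/
theorem col_txt (hE : StepTStatement) (hP : P.Ok) (hin : StIn P C n zp)
    (hS : PInv P { C with u := u0 } b S) {s : ℕ} (hs : s < P.p) (hJ : C.J s = true) :
    ∃ (δ : Node.Data) (u nb : ℕ) (f : Itm → Cnd3), ColOut P C n K zp u0 S s δ u nb f := by
  obtain ⟨δ, u, f, h1, h2, h3, h4, h5, h6, h7, h8, h9, h10, h11, h12, h13⟩ :=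
    hE P hP { C with u := u0 } n (max K (S.g s).N) b zp S s (stIn_u hin) hS hs hJ
  have hpub : (S.g s).pub = (C.d0 s).pub := (hS.full s hs hJ).2
  refine ⟨δ, u, (S.g s).N, f, ⟨h1, h2, by rw [h3, hpub], (hS.wf s hs).2.2.N, h4, by omega, h6,
    (le_max_left _ _).trans h7, h8, ?_, h10, h11, h13, fun y h14 h15 h16 _ => h12 y h14 h15 h16,
    ?_, (le_max_right _ _).trans h7⟩⟩
  · intro r hr
    exact h9 r (by rw [hpub]; exact hr)
  · intro h
    rw [hJ] at h
    cases h

/-- Colours which are strings. -/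
theorem col_str (hC : CloseStatement) (hK : ∀ s < P.p, (C.d0 s).N ≤ K) (hin : StIn P C n zp)
    (hA : StA P C n K u0 S₀)
    (hS : PInv P { C with u := u0 } b S) (hL : Lat P { C with u := u0 } S₀ S)
    {s : ℕ} (hs : s < P.p) (hJ : C.J s = false) :
    ∃ (δ : Node.Data) (u nb : ℕ) (f : Itm → Cnd3), ColOut P C n K zp u0 S s δ u nb f := by
  obtain ⟨r1, r2, r3⟩ := hS.root s hs hJ
  obtain ⟨w1, w2, w3⟩ := hS.wf s hs
  change (C.d0 s).N ≤ u0 s at r1
  change u0 s < (S.g s).N at r2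
  change (S.g s).pub = (C.d0 s).pub ++ [u0 s] at r3
  obtain ⟨δ, h1, h2, h3, h4, h5, h6, h7⟩ := hC (S.g s) (u0 s) (C.D s) (S.al s) w1 w2
    (by rw [r3]; simp) (hS.adn s hs hJ) (fun y hy1 hy2 hy3 hy4 => hS.al s hs hJ y ⟨hy3, hy1, hy2, hy4⟩)
  obtain ⟨a1, a2, a3, a4, a5, a6, a7⟩ := hA.root s hs hJ
  have hd0 := hin.good s hs
  have hext0 : DExt (C.d0 s) δ := Mono.dext_trans _ _ _ w3 h2
  obtain ⟨v1, v2, v3⟩ := (hA.inv 0).wf s hs
  have hextS : DExt (S₀.g s) δ := Mono.dext_trans _ _ _ (hL.ext s hs) h2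
  have hpub0 : (S₀.g s).pub = (C.d0 s).pub ++ [u0 s] := ((hA.inv 0).root s hs hJ).2.2
  have hgap : ∀ x y, δ.W.edge x y → (C.d0 s).N ≤ y.1 → u0 s ≤ y.1 := by
    intro x y hxy hy
    by_contra hlt
    push Not at hlt
    have e1 : (S₀.g s).W.edge x y :=
      ((hMo.2.2.1 _ _ v1 hextS).edge x y (by rw [a5]; omega)).1 hxy
    have e2 : y.1 ∈ (S₀.g s).pub ∨ (x, y) ∈ (S₀.g s).prv := e1.2.2
    rcases e2 with e2 | e2
    · rw [hpub0] at e2
      rcases List.mem_append.1 e2 with e3 | e3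
      · have := hd0.wf.pub _ e3
        omega
      · rw [List.mem_singleton] at e3
        omega
    · rw [a6] at e2
      have := (hd0.wf.prv _ e2).2.1
      simp only at this
      omega
  refine ⟨δ, u0 s, (C.d0 s).N, fun _ => default, ⟨h1, h2, by rw [h3, r3], le_rfl, r1,
    by rw [h4]; exact r2, a2, a3, hgap, a4, ?_, ?_, ?_, ?_, fun _ => ⟨rfl, h6⟩,
    (hK s hs).trans a3⟩⟩
  · intro L hnd hL'
    refine hA.many s hs hJ L hnd fun σ hσ => ?_
    obtain ⟨g1, g2⟩ := hL' σ hσ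
    have g3 : (endd o σ).1 < (C.d0 s).N := by
      rcases List.eq_nil_or_concat σ with rfl | ⟨σ', g, rfl⟩
      · exact hd0.wf.pos
      · have g0 : endd o (σ'.concat g) = tgt g := by simp [endd]
        rw [g0] at g2 ⊢
        by_contra hge
        push Not at hge
        have g4 := (hBa δ.W h1.wf.inv.fit).1 g (g1.2 g (by simp))
        have := hgap _ _ g4 hge
        omega
    refine Stagea.loc hBa hMo hd0.wf h1.wf hext0 g3 ?_ σ o _ le_rfl g1
    intro v hv hr hlt
    by_cases hp : v.1 ∈ (C.d0 s).pub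
    · exact hd0.full (ow v 0) (Stagea.adm_ow hv hr) ⟨v, rfl⟩ hp
    · exact Stagea.adv_default (y := ow v 0) (lt_trans hlt g3) hp
  · exact hA.can s hs hJ δ h1.wf hext0 (by rw [h3, r3]; simp)
  · intro I hI hc
    have h8 := (hS.pt I hI (by rw [hc]; exact hs)).1
    rw [hc] at h8
    change C.J s = true at h8
    rw [hJ] at h8
    cases h8
  · intro y y1 y2 y3 y4
    rcases y4 with y4 | y4
    · rw [hJ] at y4
      cases y4
    · rcases lt_or_gt_of_ne y4 with y5 | y5
      · exact h7 y y1 y2 y3 y5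
      · exact (hMo.2.2.1 _ _ v1 hextS).adv _ _ (a7 y y1 y2 y3 y5)

end Step

open Step in
/-- Module STEP. -/
theorem step_of (hA : StepAStatement) (hT : TaskStatement) (hC : CloseStatement)
    (hE : StepTStatement) : StepStatement := by
  intro P hP C n K zp hin
  obtain ⟨K', hKK, hK'⟩ : ∃ K', K ≤ K' ∧ ∀ s < P.p, (C.d0 s).N ≤ K' := by
    refine ⟨K + ∑ s ∈ Finset.range P.p, (C.d0 s).N, by omega, fun s hs => ?_⟩
    have h1 := Finset.single_le_sum (f := fun s => (C.d0 s).N) (fun i _ => Nat.zero_le _)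
      (Finset.mem_range.2 hs)
    have h2 : (C.d0 s).N ≤ ∑ s ∈ Finset.range P.p, (C.d0 s).N := h1
    omega
  obtain ⟨u0, S₀, hA0⟩ := hA P hP C n K' zp hin
  obtain ⟨S, hS, hL, hD⟩ := hT P hP { C with u := u0 } n S₀ hin.fin hA0.inv
  have key : ∀ s, ∃ (δ : Node.Data) (u nb : ℕ) (f : Itm → Cnd3), s < P.p →
      ColOut P C n K' zp u0 S s δ u nb f := by
    intro s
    by_cases hs : s < P.p
    · by_cases hJ : C.J s = true
      · obtain ⟨δ, u, nb, f, h⟩ := col_txt (K := K') hE hP hin hS hs hJ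
        exact ⟨δ, u, nb, f, fun _ => h⟩
      · obtain ⟨δ, u, nb, f, h⟩ := col_str hC hK' hin hA0 hS hL hs (by simpa using hJ)
        exact ⟨δ, u, nb, f, fun _ => h⟩
    · exact ⟨C.d0 s, 0, 0, fun _ => default, fun h => absurd h hs⟩
  choose d u nb f hk using key
  let fin : Itm → Cnd3 := fun I => if I.col < P.p then f I.col I else S.cv I
  have hfin : ∀ I, I.col < P.p → fin I = f I.col I := fun I hI => if_pos hI
  have hfin1 : ∀ I, C.its I → (fin I).1 = (S.cv I).1 := by
    intro I hI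
    by_cases hc : I.col < P.p
    · rw [hfin I hc]
      exact ((hk I.col hc).pt I hI rfl).1
    · show (if I.col < P.p then f I.col I else S.cv I).1 = _
      rw [if_neg hc]
  have hext : ∀ s < P.p, DExt (C.d0 s) (d s) := fun s hs =>
    Mono.dext_trans _ _ _ (hS.wf s hs).2.2 (hk s hs).ext
  refine ⟨d, u, nb, fin, ?_⟩
  refine
    { good := fun s hs => ⟨(hk s hs).gd, hext s hs, (hk s hs).pub⟩
      root := fun s hs => ⟨(hk s hs).n1, (hk s hs).n2, (hk s hs).n3, (hk s hs).bk,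
        hKK.trans (hk s hs).K⟩
      gap := fun s hs => (hk s hs).gap
      szs := fun s hs => (hk s hs).szs
      many := fun s hs => (hk s hs).many
      can := fun s hs => (hk s hs).can
      txt := ?_
      pt := ?_
      con := ?_
      adv := fun s hs => (hk s hs).adv
      nbs := fun s hs => (hk s hs).nbs }
  · intro I hI
    obtain ⟨t1, t2, t3, t4⟩ := hS.txt I hI
    rw [hfin1 I hI]
    refine ⟨t1.leg, t1, t2, fun m hm => t3 m ?_, t4⟩
    unfold ltN
    rw [Nat.unpair_pair]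
    simp [hm]
  · intro I hI hc
    obtain ⟨-, p1, p2, p3, p4, p5, p6⟩ := (hk I.col hc).pt I hI rfl
    rw [hfin I hc]
    exact ⟨p1, p3, p4, p5, p6⟩
  · intro C' hC' al hal
    subst hC'
    -- the advice of the treated states
    have halS : ∀ s < P.p, C.J s = false → ∀ y, ({ C with u := u } : Ctx).Y s y →
        ({ C with u := u0 } : Ctx).Y s y ∧ al s y = S.al s y := by
      intro s hs hJ y hy
      obtain ⟨h1, h2⟩ := (hk s hs).str hJ
      refine ⟨⟨hy.root.trans h1, hy.adm, hy.zero, hy.len⟩, ?_⟩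
      have h3 := hal s hs hJ y hy
      rw [h2 y hy.adm hy.zero hy.root hy.len] at h3
      exact (Option.some.inj h3).symm
    have htup : ∀ H y mu it, PTup P { C with u := u } ⟨d, al, fin⟩ H y mu it →
        PTup P { C with u := u0 } S H y mu it := by
      intro H y mu it h
      refine ⟨fun s hs hJ => ?_, h.itm⟩
      obtain ⟨h1, h2⟩ := h.str s hs hJ
      obtain ⟨h3, -⟩ := halS s hs hJ (y s) h1
      refine ⟨h3, ?_⟩
      refine Stagea.loc hBa hMo (u := u0 s) (hS.wf s hs).1 (hk s hs).gd.wf (hk s hs).ext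
        (hS.root s hs hJ).2.1 ?_ (mu s) o (y s) h3.root.le h2
      intro v hv hr hlt
      by_cases hp : v.1 ∈ (S.g s).pub
      · have h4 := (hS.adn s hs hJ (ow v 0) (Stagea.adm_ow hv hr) ⟨v, rfl⟩ hp).not
        rw [Option.isSome_iff_ne_none]
        rw [← ne_eq] at h4
        refine h4.2 fun h5 => ?_
        have h6 : v.1 = u0 s := h5.1
        omega
      · exact Stagea.adv_default (y := ow v 0) (hlt.trans (hS.root s hs hJ).2.1) hp
    have hev : ∀ i H y mu it nu k, PTup P { C with u := u } ⟨d, al, fin⟩ H y mu it →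
        evS P { C with u := u } ⟨d, al, fin⟩ i H y mu nu k =
          evS P { C with u := u0 } S i H y mu nu k := by
      intro i H y mu it nu k h
      refine Task.ev_eq hP i (fun _ => rfl) (fun s hs hJ => ?_) (fun _ _ => rfl)
      show mu s ++ al s (y s) ++ nu s = mu s ++ S.al s (y s) ++ nu s
      rw [(halS s hs hJ (y s) (h.str s hs hJ).1).2]
    have hev1 : ∀ i H y mu it, PTup P { C with u := u } ⟨d, al, fin⟩ H y mu it →
        evS P { C with u := u } ⟨d, al, fin⟩ i H y mu (fun _ => []) (fun c => fin (it c)) =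
          evS P { C with u := u0 } S i H y mu (fun _ => []) (fun c => S.cv (it c)) := by
      intro i H y mu it h
      rw [hev i H y mu it _ _ h]
      refine Task.ev_eq hP i (fun _ => rfl) (fun s hs hJ => rfl) (fun c hc => ?_)
      exact hfin1 _ (h.itm c hc).1
    have hse : ∀ H y mu it γ' nu k, PTup P { C with u := u } ⟨d, al, fin⟩ H y mu it →
        SExt P { C with u := u } ⟨d, al, fin⟩ H 0 y it γ' nu k →
        SExt P { C with u := u0 } S H 0 y it γ' nu k := by
      intro H y mu it γ' nu k h hx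
      refine ⟨fun s hs => ⟨(hx.good s hs).1, Mono.dext_trans _ _ _ (hk s hs).ext
        (hx.good s hs).2⟩, fun s hs hJ => ?_, fun s hs hJ => ?_, fun c hc => ?_⟩
      · have h1 := hx.str s hs hJ
        simp only [(halS s hs hJ (y s) (h.str s hs hJ).1).2] at h1
        exact h1
      · obtain ⟨c1, c2, c3⟩ := hx.cnd s hs hJ
        have h1 := h.itm s (by rw [Task.tx_of_lt hs]; exact hJ)
        have h2 : (it s).col < P.p := by rw [h1.2]; exact hs
        obtain ⟨-, -, p2, -⟩ := (hk (it s).col h2).pt (it s) h1.1 rfl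
        refine ⟨c1, Kills.cle_trans c1 p2 ?_, c3⟩
        rw [← hfin (it s) h2]
        exact c2
      · have h1 := hx.txt c hc
        simp only [hfin1 _ (h.itm c hc).1] at h1
        exact h1
    refine ⟨?_, ?_, ?_⟩
    · intro H y mu it h i hi m hm
      rcases hD.hit H y mu it (htup _ _ _ _ h) i hi m hm with h1 | h1
      · left
        rw [hev1 i H y mu it h]
        exact h1
      · right
        intro γ' nu k hx
        rw [hev i H y mu it _ _ h]
        exact h1 γ' nu k (hse _ _ _ _ _ _ _ h hx)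
    · intro H y mu it h i hi b' hb hJb
      rcases hD.kill H y mu it (htup _ _ _ _ h) i hi b' hb hJb with h1 | h1
      · left
        rw [hev1 i H y mu it h]
        obtain ⟨v, v1, v2, v3⟩ := h1
        have hE' := hMo.2.2.1 _ _ (hS.wf b' hb).1 (hk b' hb).ext
        exact ⟨v, v1, lt_of_lt_of_le v2 (hk b' hb).ext.N, fun hc => v3 ((hE'.edge _ _ v2).1 hc)⟩
      · right
        intro γ' nu k hx
        rw [hev i H y mu it _ _ h]
        exact h1 γ' nu k (hse _ _ _ _ _ _ _ h hx)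
    · intro y mu it h hJ i hi
      rcases hD.killn y mu it (htup _ _ _ _ h) hJ i hi with h1 | h1
      · left
        rw [hev1 i 0 y mu it h]
        exact h1
      · right
        intro γ' nu k hx
        rw [hev i 0 y mu it _ _ h, hev1 i 0 y mu it h]
        exact h1 γ' nu k (hse _ _ _ _ _ _ _ h hx)

end Pool.Agent.Lib.MP_d48993_lc.Gr
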