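import Pool.Agent.Lib.MP_d48993_lc.AE.Gr.Stm3
import Pool.Agent.Lib.MP_d48993_lc.AE.Node.Codes
import Pool.Agent.Lib.MP_d48993_lc.AE.Node.Basic
import Pool.Agent.Lib.MP_d48993_lc.AE.Node.Mono
import Pool.Agent.Lib.MP_d48993_lc.AE.Node.Finv
import Pool.Agent.Lib.MP_d48993_lc.AE.Node.Stagea

/-!
# Part G (MP_d48993): module STEPA (helper73), the state before the tasks (finding 4200, G8.2)
-/

set_option autoImplicit false

namespace Pool.Agent.Lib.MP_d48993_lc.Gr

open Pool.Agent.Lib.MP_d48993_lc.Node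
open Txt (ht st mC mN mR ltN okN Leg)

namespace StA

theorem endd_snoc (σ : List ℕ) (g : ℕ) (x : Node.St) : endd x (σ ++ [g]) = tgt g := by
  simp [endd]

/-- Finite data have finitely many valid strings from the start state. -/
theorem fin_str (hF : FinvStatement) (δ : Data) : {σ | VStr δ.W o σ (endd o σ)}.Finite := by
  obtain ⟨h1, h2⟩ := hF δ
  refine ((h2 o o).union (h1.biUnion fun s _ => h2 o (tgt s))).subset ?_
  intro σ hσ
  rcases List.eq_nil_or_concat σ with rfl | ⟨τ, s, rfl⟩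
  · exact Or.inl hσ
  · rw [List.concat_eq_append] at hσ ⊢
    have h3 : VStr δ.W o (τ ++ [s]) (endd o (τ ++ [s])) := hσ
    rw [endd_snoc] at h3
    exact Or.inr (Set.mem_biUnion (x := s) (h3.2 s (by simp)) h3)

/-- The extension of a condition by itself. -/
theorem cle_refl (T : List ℕ → Prop) (c : Cnd3) : CLe T c c where
  px := List.prefix_rfl
  old e he := ⟨e.2.2, List.prefix_rfl, he⟩
  new e he h _ _ _ := absurd rfl (h e he)
  fact n hn := by
    rw [List.drop_length] at hn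
    exact absurd hn List.not_mem_nil

theorem lgC_refl (c : Cnd3) : LgC c c := by
  intro e he
  refine ⟨e, he, List.prefix_rfl, fun g hg => ?_⟩
  rw [List.drop_length] at hg
  exact absurd hg List.not_mem_nil

theorem le_refl {T : List ℕ → Bool} (k : ℕ) {w : List ℕ} (h : Leg T w) : Txt.Le T k w w where
  px := List.prefix_rfl
  leg := h
  re a ha := by
    rw [List.drop_length] at ha
    exact absurd ha List.not_mem_nil

/-- The new public root of one colour. -/
theorem col (hF : FinvStatement) (hR : RootStatement) (hP : PubStatement) (δ : Data) (hG : GD δ)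
    (n K D : ℕ) : ∃ (u : ℕ) (γ : Data), (δ.N ≤ u ∧ bk u = n ∧ K ≤ sz u ∧
      (∀ r ∈ δ.pub, sz r ≤ sz u) ∧ γ.N = u + 1 ∧ γ.prv = δ.prv ∧
      ∀ y, Adm y → Zero y → y.1 = u → D < y.2.length → γ.W.adv y = some []) ∧
    (∀ L : List (List ℕ), L.Nodup → (∀ σ ∈ L, VStr δ.W o σ (endd o σ)) →
      3 * L.length + 3 < sz u) ∧
    (∀ δ' : Data, Wf δ' → DExt δ δ' → u ∈ δ'.pub → CanU δ.N u n δ') ∧
    Wf γ ∧ LgD γ ∧ DExt δ γ ∧ γ.pub = δ.pub ++ [u] ∧
    ∀ y, Adm y → Zero y → y.1 ∈ γ.pub → (γ.W.adv y = none ↔ y.1 = u ∧ y.2.length ≤ D) := by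
  have hfs := fin_str hF δ
  obtain ⟨K1, hK1⟩ : ∃ K1 : ℕ, ∀ r ∈ δ.pub, sz r ≤ K1 := by
    refine ⟨(δ.pub.map sz).sum, fun r hr => ?_⟩
    exact List.single_le_sum (by simp) _ (List.mem_map.2 ⟨r, hr, rfl⟩)
  obtain ⟨u, hu1, hu2, hu3, hu4⟩ := hR δ hG n (K + K1 + 3 * hfs.toFinset.card + 4)
  obtain ⟨γ, h1, h2, h3, h4, h5, h6, -, h8, h9⟩ := hP δ u D hG hu1
  refine ⟨u, γ, ⟨hu1, hu2, by omega, fun r hr => ?_, h5, h6, h9⟩, ?_, hu4, h1, h2, h3, h4, h8⟩
  · have := hK1 r hr
    omega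
  · intro L hL hσ
    have h10 : L.length ≤ hfs.toFinset.card := by
      rw [← List.toFinset_card_of_nodup hL]
      exact Finset.card_le_card fun σ h => hfs.mem_toFinset.2 (hσ σ (List.mem_toFinset.1 h))
    omega

end StA

open StA in
/-- Module STEPA. -/
theorem stepA_of (hF : FinvStatement) (hR : RootStatement) (hP : PubStatement) :
    StepAStatement := by
  classical
  intro P _ C n K zp hin
  have hcol : ∀ s, ∃ (u : ℕ) (γ : Data), s < P.p → C.J s = false →
      ((C.d0 s).N ≤ u ∧ bk u = n ∧ K ≤ sz u ∧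
      (∀ r ∈ (C.d0 s).pub, sz r ≤ sz u) ∧ γ.N = u + 1 ∧ γ.prv = (C.d0 s).prv ∧
      ∀ y, Adm y → Zero y → y.1 = u → C.D s < y.2.length → γ.W.adv y = some []) ∧
    (∀ L : List (List ℕ), L.Nodup → (∀ σ ∈ L, VStr (C.d0 s).W o σ (endd o σ)) →
      3 * L.length + 3 < sz u) ∧
    (∀ δ' : Data, Wf δ' → DExt (C.d0 s) δ' → u ∈ δ'.pub → CanU (C.d0 s).N u n δ') ∧
    Wf γ ∧ LgD γ ∧ DExt (C.d0 s) γ ∧ γ.pub = (C.d0 s).pub ++ [u] ∧
    ∀ y, Adm y → Zero y → y.1 ∈ γ.pub →
      (γ.W.adv y = none ↔ y.1 = u ∧ y.2.length ≤ C.D s) := by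
    intro s
    by_cases hs : s < P.p
    · obtain ⟨u, γ, h⟩ := col hF hR hP (C.d0 s) (hin.good s hs) n K (C.D s)
      exact ⟨u, γ, fun _ _ => h⟩
    · exact ⟨0, C.d0 s, fun h => absurd h hs⟩
  choose u γ hc using hcol
  refine ⟨u, ⟨fun s => if C.J s = true then C.d0 s else γ s, fun _ _ => [], C.cur⟩, ?_⟩
  have hgt : ∀ s, C.J s = true → (if C.J s = true then C.d0 s else γ s) = C.d0 s :=
    fun s h => if_pos h
  have hgf : ∀ s, C.J s = false → (if C.J s = true then C.d0 s else γ s) = γ s := by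
    intro s h
    rw [if_neg]
    rw [h]
    exact Bool.false_ne_true
  refine ⟨fun M => ⟨?_, ?_, ?_, ?_, ?_, ?_, hin.lab, ?_, ?_⟩, ?_, ?_, ?_, ?_, rfl, fun _ _ => rfl⟩
  · intro s hs
    show Wf (if C.J s = true then C.d0 s else γ s) ∧ LgD (if C.J s = true then C.d0 s else γ s) ∧
      DExt (C.d0 s) (if C.J s = true then C.d0 s else γ s)
    cases hJ : C.J s with
    | true =>
      rw [if_pos rfl]
      exact ⟨(hin.good s hs).wf, (hin.good s hs).lg, Stagea.dext_refl _⟩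
    | false =>
      rw [if_neg Bool.false_ne_true]
      obtain ⟨-, -, -, h1, h2, h3, -, -⟩ := hc s hs hJ
      exact ⟨h1, h2, h3⟩
  · intro s hs hJ
    have hJ' : C.J s = true := hJ
    show Full (if C.J s = true then C.d0 s else γ s) ∧ (if C.J s = true then C.d0 s else γ s).pub = _
    rw [hgt s hJ']
    exact ⟨(hin.good s hs).full, rfl⟩
  · intro s hs hJ
    have hJ' : C.J s = false := hJ
    obtain ⟨⟨h1, -, -, -, h2, -⟩, -, -, -, -, -, h3, -⟩ := hc s hs hJ'
    show (C.d0 s).N ≤ u s ∧ u s < (if C.J s = true then C.d0 s else γ s).N ∧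
      (if C.J s = true then C.d0 s else γ s).pub = (C.d0 s).pub ++ [u s]
    rw [hgf s hJ', h2]
    exact ⟨h1, Nat.lt_succ_self _, h3⟩
  · intro s hs hJ
    have hJ' : C.J s = false := hJ
    obtain ⟨-, -, -, -, -, -, -, h1⟩ := hc s hs hJ'
    show ∀ y, Adm y → Zero y → y.1 ∈ (if C.J s = true then C.d0 s else γ s).pub →
      ((if C.J s = true then C.d0 s else γ s).W.adv y = none ↔ y.1 = u s ∧ y.2.length ≤ C.D s)
    rw [hgf s hJ']
    exact h1
  · intro s hs hJ y hy
    exact ⟨⟨rfl, fun g hg => absurd hg List.not_mem_nil⟩, fun g hg => absurd hg List.not_mem_nil⟩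
  · intro s hs hJ r h1 h2
    have hJ' : C.J s = false := hJ
    have h1' : u s < r := h1
    have h2' : r < (if C.J s = true then C.d0 s else γ s).N := h2
    obtain ⟨⟨-, -, -, -, h3, -⟩, -⟩ := hc s hs hJ'
    rw [hgf s hJ', h3] at h2'
    omega
  · intro I hI hcol
    obtain ⟨h1, h2, -⟩ := hin.pt I hI hcol
    refine ⟨h1, ?_, cle_refl _ _, lgC_refl _⟩
    show CV (if C.J I.col = true then C.d0 I.col else γ I.col).W (LT P I) (C.cur I)
    rw [hgt _ h1]
    exact h2
  · intro I hI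
    obtain ⟨h1, h2, h3⟩ := hin.leg I hI
    refine ⟨le_refl _ h1, ?_, ?_, h3⟩
    · intro l hl
      have h4 : (st (HT P I) (C.cur I).1).drop (ht (HT P I) (C.cur I).1) = [] := List.drop_length
      have h5 : l ∈ (st (HT P I) (C.cur I).1).drop (ht (HT P I) (C.cur I).1) := hl
      rw [h4] at h5
      exact absurd h5 List.not_mem_nil
    · intro m hm
      refine h2 m ?_
      unfold ltN at hm
      rw [Nat.unpair_pair, Bool.or_eq_true, Bool.and_eq_true, decide_eq_true_eq,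
        decide_eq_true_eq] at hm
      rcases hm with h | ⟨h, -⟩
      · exact h.le
      · exact h.le
  · intro s hs hJ
    obtain ⟨h, -⟩ := hc s hs hJ
    show (C.d0 s).N ≤ u s ∧ bk (u s) = n ∧ K ≤ sz (u s) ∧
      (∀ r ∈ (C.d0 s).pub, sz r ≤ sz (u s)) ∧
      (if C.J s = true then C.d0 s else γ s).N = u s + 1 ∧
      (if C.J s = true then C.d0 s else γ s).prv = (C.d0 s).prv ∧
      ∀ y, Adm y → Zero y → y.1 = u s → C.D s < y.2.length →
        (if C.J s = true then C.d0 s else γ s).W.adv y = some []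
    rw [hgf s hJ]
    exact h
  · intro s hs hJ
    exact (hc s hs hJ).2.1
  · intro s hs hJ
    exact (hc s hs hJ).2.2.1
  · intro s hs hJ
    exact hgt s hJ

/-- Module STEPA, from ROOT. -/
theorem stepA (hR : RootStatement) (hP : PubStatement) : StepAStatement :=
  stepA_of (finv codes (basic codes)) hR hP

end Pool.Agent.Lib.MP_d48993_lc.Gr
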