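import Pool.Agent.Lib.MP_d48993_lc.AE.Gr.Lg
import Pool.Agent.Lib.MP_d48993_lc.AE.Gr.LimF
import Pool.Agent.Lib.MP_d48993_lc.Red
import Pool.Agent.Lib.MP_d48993_lc.Cond

/-!
# Part G (MP_d48993): module CLS (helper39), members: bounded levels (L6) and unions (L7)
-/

set_option autoImplicit false

namespace Pool.Agent.Lib.MP_d48993_lc.Gr

open Pool.Agent.Lib.MP_d48993_lc.Node
open MP_8c048d_lc (pre join RecF length_pre pre_take pre_getElem? pre_congr)

namespace ClsB

/-! ## Initial segments -/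

theorem pre_pfx (F : ℕ → ℕ) {k l : ℕ} (h : k ≤ l) : pre F k <+: pre F l := by
  rw [← min_eq_left h, ← pre_take]
  exact List.take_prefix _ _

theorem pfx_pre {F : ℕ → ℕ} {k : ℕ} {ν : List ℕ} (h : ν <+: pre F k) : ν = pre F ν.length := by
  have h1 := h.length_le
  rw [length_pre] at h1
  rw [List.prefix_iff_eq_take.1 h, pre_take, length_pre, min_eq_left h1]

theorem getD_of_pfx {σ τ : List ℕ} (h : σ <+: τ) {n : ℕ} (hn : n < σ.length) :
    τ.getD n 0 = σ.getD n 0 := by
  obtain ⟨ρ, rfl⟩ := h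
  simp [List.getD, List.getElem?_append_left hn]

theorem eq_pre_of_getD {f : ℕ → ℕ} {σ : List ℕ} (h : ∀ n < σ.length, f n = σ.getD n 0) :
    σ = pre f σ.length := by
  apply List.ext_getElem?
  intro n
  rw [pre_getElem?]
  split
  · rename_i hn
    rw [List.getElem?_eq_getElem hn, h n hn]
    simp [List.getD, List.getElem?_eq_getElem hn]
  · rename_i hn
    exact List.getElem?_eq_none (by omega)

/-- The union of a chain of strings. -/
theorem exists_union {ρ : ℕ → List ℕ} (h1 : ∀ j, ρ j <+: ρ (j + 1))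
    (h2 : ∀ m : ℕ, ∃ j, m ≤ (ρ j).length) : ∃ O : ℕ → ℕ, ∀ j, ρ j = pre O (ρ j).length := by
  have hm : ∀ i j, i ≤ j → ρ i <+: ρ j := by
    intro i j hij
    induction j, hij using Nat.le_induction with
    | base => exact List.prefix_refl _
    | succ j _ ih => exact ih.trans (h1 j)
  choose J hJ using h2
  refine ⟨fun n => (ρ (J (n + 1))).getD n 0, fun j => eq_pre_of_getD fun n hn => ?_⟩
  have h3 := hJ (n + 1)
  rcases le_total (J (n + 1)) j with h4 | h4
  · exact (getD_of_pfx (hm _ _ h4) (by omega)).symm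
  · exact getD_of_pfx (hm _ _ h4) hn

/-! ## Computability -/

theorem comp_bk : Computable (fun x : St => bk x.1) := by
  have : Primrec (fun x : St => bk x.1) :=
    Primrec.fst.comp (Primrec.unpair.comp (Primrec.snd.comp (Primrec.unpair.comp Primrec.fst)))
  exact this.to_comp

theorem comp_pay : Computable pay := by
  have h1 : Primrec (fun x : St => x.2.head?) := Primrec.list_head?.comp Primrec.snd
  have h2 : Primrec₂ (fun (_ : St) (a : ℕ) => str a) :=
    (Primrec.ofNat (List ℕ)).comp Primrec.snd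
  have h3 : Primrec (fun x : St => (x.2.head?.map str).getD []) :=
    Primrec.option_getD.comp (Primrec.option_map h1 h2) (Primrec.const [])
  exact h3.to_comp

/-- The search: the state of `O` at length `k` has level `c`, its payment is longer than `n` and
has the entry `v` at place `n`. -/
def Sch (k₀ c n k v : ℕ) (x : St) : Prop :=
  k₀ ≤ k ∧ bk x.1 = c + x.2.length ∧ n < (pay x).length ∧ (pay x).getD n 0 = v

theorem cop_sch (k₀ c : ℕ) : MP_8c048d_lc.Cop (fun (p : ℕ × ℕ) F =>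
    Sch k₀ c p.1 p.2.unpair.1 p.2.unpair.2 (endd o (pre F p.2.unpair.1))) := by
  have hE : Computable (fun p : St × List ℕ => endd p.1 p.2) := codes.2.2.2.2.2.2.2.2.2.1
  have hk : Computable (fun p : ℕ × ℕ => p.2.unpair.1) :=
    (Primrec.fst.comp (Primrec.unpair.comp Primrec.snd)).to_comp
  have hv : Computable (fun p : ℕ × ℕ => p.2.unpair.2) :=
    (Primrec.snd.comp (Primrec.unpair.comp Primrec.snd)).to_comp
  have hr : RecF (fun (p : ℕ × ℕ) F => (p, endd o (pre F p.2.unpair.1))) := by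
    refine (RecF.of_computable Computable.id).pair ?_
    refine MP_8c048d_lc.RecF.comp (g := fun σ : List ℕ => endd o σ) ?_ ?_
    · exact hE.comp (Computable.pair (Computable.const o) Computable.id)
    · exact MP_8c048d_lc.RecF.pre.comp₁ hk
  have f1 : Computable (fun q : (ℕ × ℕ) × St => q.1) := Computable.fst
  have f2 : Computable (fun q : (ℕ × ℕ) × St => q.2) := Computable.snd
  have hcp : ComputablePred (fun q : (ℕ × ℕ) × St =>
      Sch k₀ c q.1.1 q.1.2.unpair.1 q.1.2.unpair.2 q.2) := by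
    refine Cop.toCP (((Cop.lt (f := fun q : (ℕ × ℕ) × St => k₀)
      (g := fun q => q.1.2.unpair.1 + 1) (Computable.const k₀)
      (Computable.succ.comp (hk.comp f1))).and
      ((Cop.eq (f := fun q : (ℕ × ℕ) × St => bk q.2.1) (g := fun q => c + q.2.2.length)
        (comp_bk.comp f2) ?_).and
      ((Cop.lt (f := fun q : (ℕ × ℕ) × St => q.1.1) (g := fun q => (pay q.2).length)
        (Computable.fst.comp f1) (Computable.list_length.comp (comp_pay.comp f2))).and
      (Cop.eq (f := fun q : (ℕ × ℕ) × St => (pay q.2).getD q.1.1 0)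
        (g := fun q => q.1.2.unpair.2) ?_ (hv.comp f1))))).congr fun q F => ?_)
    · exact (Primrec.nat_add.to_comp).comp (Computable.const c)
        (Computable.list_length.comp (Computable.snd.comp f2))
    · have h1 : Computable (fun q : (ℕ × ℕ) × St => (pay q.2)[q.1.1]?) :=
        Computable.list_getElem?.comp (comp_pay.comp f2) (Computable.fst.comp f1)
      have h2 : Computable (fun q : (ℕ × ℕ) × St => ((pay q.2)[q.1.1]?).getD 0) :=
        (Primrec.option_getD.to_comp).comp h1 (Computable.const 0)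
      exact h2.of_eq fun q => by simp [List.getD]
    · unfold Sch
      constructor
      · rintro ⟨h1, h2, h3, h4⟩
        exact ⟨by omega, h2, h3, h4⟩
      · rintro ⟨h1, h2, h3, h4⟩
        exact ⟨by omega, h2, h3, h4⟩
  exact MP_8c048d_lc.Cop.of_recF hr hcp

/-- A function which is found by the search is computable from `O`. -/
theorem exists_red {O : ℕ → ℕ} {k₀ c : ℕ}
    (h : ∀ n, ∃ k v, Sch k₀ c n k v (endd o (pre O k))) :
    ∃ f : ℕ → ℕ, Red f O ∧ ∀ n, ∃ k, Sch k₀ c n k (f n) (endd o (pre O k)) := by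
  obtain ⟨g, hg, hg2⟩ := redMu (fun n m F => Sch k₀ c n m.unpair.1 m.unpair.2
    (endd o (pre F m.unpair.1))) (cop_sch k₀ c) O (fun n => by
      obtain ⟨k, v, hk⟩ := h n
      exact ⟨Nat.pair k v, by rw [Nat.unpair_pair]; exact hk⟩)
  refine ⟨fun n => (g n).unpair.2, ?_, fun n => ⟨(g n).unpair.1, hg2 n⟩⟩
  have h1 : RecF (fun (n : ℕ) (F : ℕ → ℕ) => (F n).unpair.2) := by
    refine MP_8c048d_lc.RecF.comp (g := fun m : ℕ => m.unpair.2)
      (Primrec.snd.comp Primrec.unpair).to_comp ?_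
    exact MP_8c048d_lc.RecF.at Computable.id
  exact red1_trans h1 hg

/-! ## The states of a member at the public roots -/

section

variable {P : Par} {G : Gph} {s : ℕ}

theorem rup_of (h : Lim4 P G) (hs : s < P.p) {σ : List ℕ} (hσ : LEs G s σ) : Rup o σ := by
  obtain ⟨t, ht⟩ := hσ
  exact Rup.of_vstr (basic codes) (h.good t s hs).wf.inv.fit ht

theorem le_pfx {σ ν : List ℕ} (hσ : LEs G s σ) (hp : ν <+: σ) : LEs G s ν := by
  obtain ⟨t, ht⟩ := hσ
  exact ⟨t, Proc.vstr_pfx ht hp⟩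

theorem rl_pfx (h : Lim4 P G) (hs : s < P.p) {σ ν : List ℕ} (hσ : RL P G s σ) (hp : ν <+: σ) :
    RL P G s ν :=
  ⟨le_pfx hσ.1 hp, hσ.2.pfx (rup_of h hs hσ.1) hp⟩

variable {O : ℕ → ℕ}

theorem rup_mem (h : Lim4 P G) (hs : s < P.p) (hO : O ∈ Mem P G s) (k : ℕ) : Rup o (pre O k) :=
  rup_of h hs (hO k).1

/-- A member passes every public root. -/
theorem exists_kap (h : Lim4 P G) (hs : s < P.p) (hO : O ∈ Mem P G s) (t : ℕ) :
    ∃ k, (endd o (pre O k)).1 = G.u t s := by
  have h1 := (rup_mem h hs hO (G.u t s)).root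
  rw [length_pre] at h1
  obtain ⟨ν, h2, h3⟩ := (hO (G.u t s)).2.pass t (by show G.u t s ≤ _; omega)
  exact ⟨ν.length, by rw [← pfx_pre h2]; exact h3⟩

theorem root_mono (h : Lim4 P G) (hs : s < P.p) (hO : O ∈ Mem P G s) {k l : ℕ} (hkl : k ≤ l) :
    (endd o (pre O k)).1 ≤ (endd o (pre O l)).1 :=
  (rup_mem h hs hO l).le (pre_pfx O hkl) (List.prefix_refl _)

theorem root_lt (h : Lim4 P G) (hs : s < P.p) (hO : O ∈ Mem P G s) {k l : ℕ}
    (hr : (endd o (pre O k)).1 < (endd o (pre O l)).1) : k < l := by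
  by_contra hc
  have := root_mono h hs hO (not_lt.1 hc)
  omega

theorem root_inj (h : Lim4 P G) (hs : s < P.p) (hO : O ∈ Mem P G s) {k l : ℕ}
    (hr : (endd o (pre O k)).1 = (endd o (pre O l)).1) : k = l := by
  have h1 := (rup_mem h hs hO (max k l)).eq (pre_pfx O (le_max_left k l))
    (pre_pfx O (le_max_right k l)) hr
  have := congrArg List.length h1
  rwa [length_pre, length_pre] at this

end

/-- The data of a member with bounded level, in abstract form: `x t` are the public states. -/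
structure Bd (P : Par) (u : ℕ → ℕ) (x : ℕ → St) : Prop where
  root : ∀ t, (x t).1 = u t
  link : ∀ t, Link P t (x t) (x (t + 1))

section

variable {P : Par} {u : ℕ → ℕ} {x : ℕ → St}

theorem Bd.step (hu : Rts P u) (h : Bd P u x) (t : ℕ) :
    blk P.p t - (x t).2.length ≤ blk P.p (t + 1) - (x (t + 1)).2.length := by
  have h1 := (h.link t).le (by rw [h.root]; exact hu.bk t) (by rw [h.root]; exact hu.bk _)
  rw [h.root, h.root, hu.bk, hu.bk] at h1
  have h2 := (h.link t).xb
  have h3 := (h.link t).yb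
  omega

theorem Bd.mono (hu : Rts P u) (h : Bd P u x) {t t' : ℕ} (ht : t ≤ t') :
    blk P.p t - (x t).2.length ≤ blk P.p t' - (x t').2.length := by
  induction t', ht using Nat.le_induction with
  | base => exact le_rfl
  | succ t' _ ih => exact ih.trans (h.step hu t')

/-- A bounded level is constant from some index on. -/
theorem Bd.const (hu : Rts P u) (h : Bd P u x) {b : ℕ}
    (hb : ∀ T, ∃ t ≥ T, blk P.p t < b + (x t).2.length) :
    ∃ t₀ c, ∀ t ≥ t₀, blk P.p t = c + (x t).2.length := by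
  obtain ⟨t₀, ht₀⟩ : ∃ t₀, ∀ t, blk P.p t - (x t).2.length ≤ blk P.p t₀ - (x t₀).2.length := by
    by_contra hc
    push Not at hc
    have key : ∀ m : ℕ, ∃ t, m ≤ blk P.p t - (x t).2.length := by
      intro m
      induction m with
      | zero => exact ⟨0, Nat.zero_le _⟩
      | succ m ih =>
        obtain ⟨t, ht⟩ := ih
        obtain ⟨t', ht'⟩ := hc t
        exact ⟨t', by omega⟩
    obtain ⟨t, ht⟩ := key b
    obtain ⟨t', h1, h2⟩ := hb t
    have h3 := h.mono hu h1
    have h4 := (h.link t').xb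
    omega
  refine ⟨t₀, blk P.p t₀ - (x t₀).2.length, fun t ht => ?_⟩
  have h1 := h.mono hu ht
  have h2 := ht₀ t
  have h3 := (h.link t).xb
  omega

/-- The steps of the payment. -/
theorem Bd.pay_step (hu : Rts P u) (h : Bd P u x) {t₀ c : ℕ}
    (hc : ∀ t ≥ t₀, blk P.p t = c + (x t).2.length) {t : ℕ} (ht : t₀ ≤ t) :
    (blk P.p (t + 1) = blk P.p t → pay (x (t + 1)) = pay (x t)) ∧
    (blk P.p (t + 1) ≠ blk P.p t → pay (x t) <+: pay (x (t + 1)) ∧
      (pay (x t)).length < (pay (x (t + 1))).length ∧ P.TB (pay (x (t + 1)))) := by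
  have hl := h.link t
  refine ⟨fun h1 => ?_, fun h1 => ?_⟩
  · unfold pay
    rw [(hl.ins h1).2]
  · rcases hl.bd h1 with h2 | ⟨-, h2, h3, h4⟩
    · exfalso
      unfold Rise at h2
      rw [h.root, h.root, hu.bk, hu.bk] at h2
      have h3 := hc t ht
      have h4 := hc (t + 1) (by omega)
      omega
    · exact ⟨h2, lt_of_le_of_ne h2.length_le fun he => h3 (h2.eq_of_length he), h4⟩

theorem Bd.pay_mono (hu : Rts P u) (h : Bd P u x) {t₀ c : ℕ}
    (hc : ∀ t ≥ t₀, blk P.p t = c + (x t).2.length) {t t' : ℕ} (ht : t₀ ≤ t) (ht' : t ≤ t') :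
    pay (x t) <+: pay (x t') := by
  induction t', ht' using Nat.le_induction with
  | base => exact List.prefix_refl _
  | succ t' ht' ih =>
    have h1 := h.pay_step hu hc (ht.trans ht')
    by_cases h2 : blk P.p (t' + 1) = blk P.p t'
    · rw [h1.1 h2]; exact ih
    · exact ih.trans (h1.2 h2).1

/-- Longer payments which are nodes of the tree. -/
theorem Bd.pay_next (hu : Rts P u) (h : Bd P u x) {t₀ c : ℕ}
    (hc : ∀ t ≥ t₀, blk P.p t = c + (x t).2.length) {t : ℕ} (ht : t₀ ≤ t) :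
    ∃ t', t ≤ t' ∧ (pay (x t)).length < (pay (x t')).length ∧ P.TB (pay (x t')) := by
  have h2 := two_le_blk P.p t
  have h3 := (blk_iff P.p h2 (t := t)).1 rfl
  have h4 := blk_lst_succ P.p h2
  have h5 := blk_lst P.p h2
  have h6 := (h.pay_step hu hc (t := lst P.p (blk P.p t)) (by omega)).2 (by rw [h4, h5]; omega)
  have h7 := (h.pay_mono hu hc ht (t' := lst P.p (blk P.p t)) h3.2).length_le
  exact ⟨lst P.p (blk P.p t) + 1, by omega, by omega, h6.2.2⟩

theorem Bd.pay_long (hu : Rts P u) (h : Bd P u x) {t₀ c : ℕ}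
    (hc : ∀ t ≥ t₀, blk P.p t = c + (x t).2.length) (t₁ : ℕ) (m : ℕ) :
    ∃ t, t₀ ≤ t ∧ t₁ ≤ t ∧ m ≤ (pay (x t)).length ∧ P.TB (pay (x t)) := by
  induction m with
  | zero =>
    obtain ⟨t, h1, -, h2⟩ := h.pay_next hu hc (t := max t₀ t₁) (le_max_left _ _)
    exact ⟨t, (le_max_left _ _).trans h1, (le_max_right _ _).trans h1, Nat.zero_le _, h2⟩
  | succ m ih =>
    obtain ⟨t, h1, h2, h3, -⟩ := ih
    obtain ⟨t', h4, h5, h6⟩ := h.pay_next hu hc h1
    exact ⟨t', by omega, by omega, by omega, h6⟩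

end

end ClsB

open ClsB

/-- (L6) of module CLS. -/
theorem clsL6 {P : Par} (hP : P.Ok) {G : Gph} (h : Lim4 P G) {s : ℕ} (hs : s < P.p) :
    ∀ O ∈ Mem P G s, O ∈ Up (BB P) ∨ ∀ b : ℕ, ∃ T, ∀ t ≥ T, ∀ k,
      (endd o (pre O k)).1 = G.u t s → b + (endd o (pre O k)).2.length ≤ blk P.p t := by
  intro O hO
  by_contra hcon
  rw [not_or] at hcon
  obtain ⟨hU, hB⟩ := hcon
  push Not at hB
  obtain ⟨b, hb⟩ := hB
  apply hU
  have hu : Rts P (us G s) := h.rts hs
  choose κ hκ using exists_kap h hs hO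
  have hκlt : ∀ {t t' : ℕ}, t < t' → κ t < κ t' := fun {t t'} ht =>
    root_lt h hs hO (by rw [hκ, hκ]; exact hu.mono ht)
  have hκle : ∀ {t t' : ℕ}, t ≤ t' → κ t ≤ κ t' := fun {t t'} ht => by
    rcases ht.lt_or_eq with h1 | rfl
    · exact (hκlt h1).le
    · exact le_rfl
  have hBd : Bd P (us G s) (fun t => endd o (pre O (κ t))) := by
    refine ⟨hκ, fun t => ?_⟩
    exact (hO (κ (t + 1))).2.link t _ _ (pre_pfx O (hκlt (Nat.lt_succ_self t)).le)
      (List.prefix_refl _) (hκ t) (hκ (t + 1))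
  obtain ⟨t₀, c, hc⟩ := hBd.const hu (b := b) (fun T => by
    obtain ⟨t, h1, k, h2, h3⟩ := hb T
    have h4 : k = κ t := root_inj h hs hO (by rw [h2, hκ])
    exact ⟨t, h1, by rw [← h4]; exact h3⟩)
  -- the states found by the search have the payment of a public state
  have key : ∀ k, κ t₀ ≤ k → bk (endd o (pre O k)).1 = c + (endd o (pre O k)).2.length →
      ∃ t ≥ t₀, pay (endd o (pre O k)) = pay (endd o (pre O (κ t))) := by
    intro k hk h1
    obtain ⟨t', ν1, h2, h3, h4, h5, h6⟩ := (hO k).2.last hu (rup_mem h hs hO k) (pre_pfx O hk)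
      (List.prefix_refl _) (hκ t₀)
    have h7 := (hO k).2.prv t' ν1 (pre O k) h4 (List.prefix_refl _) h5 h6
    have h8 : ν1.length = κ t' := root_inj h hs hO (by rw [← pfx_pre h4, hκ]; exact h5)
    have h9 : ν1 = pre O (κ t') := by rw [← h8]; exact pfx_pre h4
    rw [h9] at h7
    refine ⟨t', h2, ?_⟩
    have h10 : blk P.p t' = c + (endd o (pre O (κ t'))).2.length := hc t' h2
    have h11 : bk (endd o (pre O (κ t'))).1 = blk P.p t' := by
      rw [hκ]; exact hu.bk t'
    rcases h7 with h12 | ⟨-, h12⟩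
    · exfalso
      unfold Rise at h12
      omega
    · unfold pay
      rw [h12]
  obtain ⟨f, hf, hf2⟩ := exists_red (O := O) (k₀ := κ t₀) (c := c) (fun n => by
    obtain ⟨t, h1, -, h2, -⟩ := hBd.pay_long hu hc t₀ (n + 1)
    refine ⟨κ t, _, hκle h1, ?_, h2, rfl⟩
    have h3 : bk (endd o (pre O (κ t))).1 = blk P.p t := by rw [hκ]; exact hu.bk t
    rw [h3]
    exact hc t h1)
  have hval : ∀ t ≥ t₀, ∀ n < (pay (endd o (pre O (κ t)))).length,
      f n = (pay (endd o (pre O (κ t)))).getD n 0 := by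
    intro t ht n hn
    obtain ⟨k, h1, h2, h3, h4⟩ := hf2 n
    obtain ⟨t', h5, h6⟩ := key k h1 h2
    rw [h6] at h3 h4
    rw [← h4]
    rcases le_total t t' with h7 | h7
    · exact getD_of_pfx (hBd.pay_mono hu hc ht h7) hn
    · exact (getD_of_pfx (hBd.pay_mono hu hc h5 h7) h3).symm
  refine ⟨f, fun k => ?_, hf⟩
  obtain ⟨t, h1, -, h2, h3⟩ := hBd.pay_long hu hc t₀ k
  have h4 := eq_pre_of_getD (hval t h1)
  rw [h4] at h3
  exact hP.tbt _ _ (pre_pfx f h2) h3

/-- (L7) of module CLS. -/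
theorem clsL7 {P : Par} {G : Gph} (h : Lim4 P G) {s : ℕ} (hs : s < P.p) :
    ∀ ρ : ℕ → List ℕ, (∀ j, ρ j <+: ρ (j + 1)) → (∀ j, ∃ σ, RL P G s σ ∧ ρ j <+: σ) →
      (∀ m : ℕ, ∃ j, m ≤ (ρ j).length) →
      ∃ O ∈ Mem P G s, ∀ j, ρ j = pre O (ρ j).length := by
  intro ρ h1 h2 h3
  obtain ⟨O, hO⟩ := exists_union h1 h3
  refine ⟨O, fun k => ?_, hO⟩
  obtain ⟨j, hj⟩ := h3 k
  obtain ⟨σ, hσ, hp⟩ := h2 j
  refine rl_pfx h hs hσ (List.IsPrefix.trans ?_ hp)
  rw [hO j]
  exact pre_pfx O hj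

end Pool.Agent.Lib.MP_d48993_lc.Gr
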