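import Pool.Agent.Lib.MP_d48993_lc.AE.Gr.LimF
import Pool.Agent.Lib.MP_d48993_lc.AE.Gr.Lg
import Pool.Agent.Lib.MP_d48993_lc.AE.Gr.BlkS
import Pool.Agent.Lib.MP_d48993_lc.AE.Node.Kills
import Pool.Agent.Lib.MP_d48993_lc.AE.Node.Decc
import Pool.Agent.Lib.MP_d48993_lc.AE.Node.Decv
import Pool.Agent.Lib.MP_d48993_lc.AE.Node.Recur
import Pool.Agent.Lib.MP_d48993_lc.Red
import Pool.Agent.Lib.MP_d48993_lc.Pi2

/-!
# Part G (MP_d48993): module CLS, first clause (helper43)

Decidability of regular strings (the public roots are given by a list), and the class of the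
members: `clsA`.
-/

set_option autoImplicit false

namespace Pool.Agent.Lib.MP_d48993_lc.Gr

open Pool.Agent.Lib.MP_d48993_lc.Node
open MP_8c048d_lc (pre join RecF Cop)

namespace ClsA

/-! ## Decidability -/

section dec

variable {α : Type} [Primcodable α]

theorem cop_le {f g : α → ℕ} (hf : Computable f) (hg : Computable g) :
    Cop (fun a (_ : ℕ → ℕ) => f a ≤ g a) :=
  (Cop.lt hg hf).not.congr fun _ _ => not_lt

theorem c_add {f g : α → ℕ} (hf : Computable f) (hg : Computable g) :
    Computable fun a => f a + g a :=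
  Primrec.nat_add.to_comp.comp hf hg

theorem c_bk {f : α → ℕ} (hf : Computable f) : Computable fun a => bk (f a) :=
  (Primrec.fst.comp (Primrec.unpair.comp (Primrec.snd.comp Primrec.unpair))).to_comp.comp hf

theorem c_root {x : α → St} (hx : Computable x) : Computable fun a => (x a).1 :=
  Computable.fst.comp hx

theorem c_len {x : α → St} (hx : Computable x) : Computable fun a => (x a).2.length :=
  Computable.list_length.comp (Computable.snd.comp hx)

theorem c_head {x : α → St} (hx : Computable x) : Computable fun a => (x a).2.head? :=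
  Primrec.list_head?.to_comp.comp (Computable.snd.comp hx)

theorem c_blk (p : ℕ) {f : α → ℕ} (hf : Computable f) : Computable fun a => blk p (f a) :=
  (blk_prim.comp (Primrec.const p) Primrec.id).to_comp.comp hf

theorem c_pay {x : α → St} (hx : Computable x) : Computable fun a => pay (x a) := by
  have h1 : Primrec str := Primrec.ofNat (List ℕ)
  have h2 : Primrec (fun o : Option ℕ => (o.map str).getD []) :=
    Primrec.option_getD.comp (Primrec.option_map Primrec.id (h1.comp Primrec.snd).to₂)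
      (Primrec.const [])
  exact h2.to_comp.comp (c_head hx)

theorem cop_rise {x y : α → St} (hx : Computable x) (hy : Computable y) :
    Cop (fun a (_ : ℕ → ℕ) => Rise (x a) (y a)) :=
  Cop.lt (c_add (c_bk (c_root hx)) (c_len hy)) (c_add (c_bk (c_root hy)) (c_len hx))

theorem cop_same {x y : α → St} (hx : Computable x) (hy : Computable y) :
    Cop (fun a (_ : ℕ → ℕ) => Same (x a) (y a)) :=
  (Cop.eq (c_add (c_bk (c_root hx)) (c_len hy)) (c_add (c_bk (c_root hy)) (c_len hx))).and
    (Cop.eq (c_head hy) (c_head hx))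

theorem cop_lg {x y : α → St} (hx : Computable x) (hy : Computable y) :
    Cop (fun a (_ : ℕ → ℕ) => Lg (x a) (y a)) :=
  (cop_rise hx hy).or (cop_same hx hy)

theorem link_iff (P : Par) (t : ℕ) (x y : St) : Link P t x y ↔
    1 ≤ x.2.length ∧ x.2.length ≤ blk P.p t ∧ 1 ≤ y.2.length ∧ y.2.length ≤ blk P.p (t + 1) ∧
    (blk P.p (t + 1) = blk P.p t → y.2.length = x.2.length ∧ y.2.head? = x.2.head?) ∧
    (¬ blk P.p (t + 1) = blk P.p t → Rise x y ∨
      (bk x.1 + y.2.length = bk y.1 + x.2.length ∧ pay x <+: pay y ∧ ¬ pay x = pay y ∧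
        P.TB (pay y))) :=
  ⟨fun h => ⟨h.x1, h.xb, h.y1, h.yb, h.ins, h.bd⟩, fun ⟨a, b, c, d, e, f⟩ => ⟨a, b, c, d, e, f⟩⟩

theorem cop_link {P : Par} (hP : P.Ok) {t : α → ℕ} {x y : α → St} (ht : Computable t)
    (hx : Computable x) (hy : Computable y) :
    Cop (fun a (_ : ℕ → ℕ) => Link P (t a) (x a) (y a)) := by
  have h1 : Computable fun _ : α => (1 : ℕ) := Computable.const 1
  have ht1 : Computable fun a => t a + 1 := Computable.succ.comp ht
  have hb := c_blk P.p ht
  have hb1 := c_blk P.p ht1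
  have hTB : Cop (fun a (_ : ℕ → ℕ) => P.TB (pay (y a))) :=
    (MP_8c048d_lc.Cop.of_computable hP.tbc).comp (c_pay hy)
  exact ((cop_le h1 (c_len hx)).and ((cop_le (c_len hx) hb).and ((cop_le h1 (c_len hy)).and
    ((cop_le (c_len hy) hb1).and (((Cop.eq hb1 hb).imp ((Cop.eq (c_len hy) (c_len hx)).and
    (Cop.eq (c_head hy) (c_head hx)))).and ((Cop.eq hb1 hb).not.imp ((cop_rise hx hy).or
    ((Cop.eq (c_add (c_bk (c_root hx)) (c_len hy)) (c_add (c_bk (c_root hy)) (c_len hx))).and
    ((Cop.isPre (c_pay hx) (c_pay hy)).and ((Cop.eq (c_pay hx) (c_pay hy)).not.and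
      hTB)))))))))).congr fun a F => (link_iff P (t a) (x a) (y a)).symm

theorem c_end {σ : α → List ℕ} (hσ : Computable σ) : Computable fun a => endd o (σ a) :=
  (Computable.comp (f := fun p : St × List ℕ => endd p.1 p.2) (g := fun a => (o, σ a))
    codes.2.2.2.2.2.2.2.2.2.1 (Computable.pair (Computable.const o) hσ)).of_eq fun _ => rfl

theorem c_endk {σ : α → List ℕ} {k : α → ℕ} (hσ : Computable σ) (hk : Computable k) :
    Computable fun a => endd o ((σ a).take (k a)) := c_end (comp_take hk hσ)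

theorem c_getD {l : α → List ℕ} {i : α → ℕ} (hl : Computable l) (hi : Computable i) :
    Computable fun a => (l a).getD (i a) 0 :=
  (Primrec.list_getD 0).to_comp.comp hl hi

theorem c_range {n : α → ℕ} (hn : Computable n) : Computable fun a => List.range (n a) :=
  Primrec.list_range.to_comp.comp hn

/-- The regularity of a string; the public roots are given by a finite list. -/
def RegK (P : Par) (l σ : List ℕ) : Prop :=
  (∀ t ∈ List.range l.length, l.getD t 0 ≤ (endd o σ).1 →
    ∃ k ∈ List.range (σ.length + 1), (endd o (σ.take k)).1 = l.getD t 0) ∧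
  ∀ t ∈ List.range (l.length - 1), ∀ k ∈ List.range (σ.length + 1),
    (endd o (σ.take k)).1 = l.getD t 0 →
    (1 ≤ (endd o (σ.take k)).2.length ∧ (endd o (σ.take k)).2.length ≤ blk P.p t) ∧
    ∀ k' ∈ List.range (σ.length + 1),
      ((endd o (σ.take k')).1 = l.getD (t + 1) 0 →
        Link P t (endd o (σ.take k)) (endd o (σ.take k'))) ∧
      (k ≤ k' → (endd o (σ.take k')).1 < l.getD (t + 1) 0 →
        Lg (endd o (σ.take k)) (endd o (σ.take k')))

theorem cop_regK {P : Par} (hP : P.Ok) {l σ : α → List ℕ} (hl : Computable l)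
    (hσ : Computable σ) : Cop (fun a (_ : ℕ → ℕ) => RegK P (l a) (σ a)) := by
  have hn : Computable fun a => (σ a).length + 1 :=
    Computable.succ.comp (Computable.list_length.comp hσ)
  refine Cop.and (P := fun a (_ : ℕ → ℕ) => ∀ t ∈ List.range (l a).length,
    (l a).getD t 0 ≤ (endd o (σ a)).1 →
    ∃ k ∈ List.range ((σ a).length + 1), (endd o ((σ a).take k)).1 = (l a).getD t 0)
    (Cop.ballL (P := fun a t (_ : ℕ → ℕ) => (l a).getD t 0 ≤ (endd o (σ a)).1 →
      ∃ k ∈ List.range ((σ a).length + 1), (endd o ((σ a).take k)).1 = (l a).getD t 0) ?_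
      (c_range (Computable.list_length.comp hl))) ?_
  · have hl1 := hl.comp (Computable.fst (α := α) (β := ℕ))
    have hσ1 := hσ.comp (Computable.fst (α := α) (β := ℕ))
    have hn1 := hn.comp (Computable.fst (α := α) (β := ℕ))
    refine Cop.imp (cop_le (c_getD hl1 Computable.snd) (c_root (c_end hσ1))) ?_
    refine Cop.bexL (P := fun (p : α × ℕ) k (_ : ℕ → ℕ) =>
      (endd o ((σ p.1).take k)).1 = (l p.1).getD p.2 0) ?_ (c_range hn1)
    exact Cop.eq (c_root (c_endk (hσ1.comp Computable.fst) Computable.snd))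
      (c_getD (hl1.comp Computable.fst) (Computable.snd.comp Computable.fst))
  · have hm : Computable fun a => (l a).length - 1 :=
      Primrec.nat_sub.to_comp.comp (Computable.list_length.comp hl) (Computable.const 1)
    refine Cop.ballL (P := fun a t (_ : ℕ → ℕ) => ∀ k ∈ List.range ((σ a).length + 1),
      (endd o ((σ a).take k)).1 = (l a).getD t 0 →
      (1 ≤ (endd o ((σ a).take k)).2.length ∧ (endd o ((σ a).take k)).2.length ≤ blk P.p t) ∧
      ∀ k' ∈ List.range ((σ a).length + 1),
        ((endd o ((σ a).take k')).1 = (l a).getD (t + 1) 0 →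
          Link P t (endd o ((σ a).take k)) (endd o ((σ a).take k'))) ∧
        (k ≤ k' → (endd o ((σ a).take k')).1 < (l a).getD (t + 1) 0 →
          Lg (endd o ((σ a).take k)) (endd o ((σ a).take k')))) ?_ (c_range hm)
    have hl1 := hl.comp (Computable.fst (α := α) (β := ℕ))
    have hσ1 := hσ.comp (Computable.fst (α := α) (β := ℕ))
    have hn1 := hn.comp (Computable.fst (α := α) (β := ℕ))
    refine Cop.ballL (P := fun (q : α × ℕ) k (_ : ℕ → ℕ) =>
      (endd o ((σ q.1).take k)).1 = (l q.1).getD q.2 0 →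
      (1 ≤ (endd o ((σ q.1).take k)).2.length ∧
        (endd o ((σ q.1).take k)).2.length ≤ blk P.p q.2) ∧
      ∀ k' ∈ List.range ((σ q.1).length + 1),
        ((endd o ((σ q.1).take k')).1 = (l q.1).getD (q.2 + 1) 0 →
          Link P q.2 (endd o ((σ q.1).take k)) (endd o ((σ q.1).take k'))) ∧
        (k ≤ k' → (endd o ((σ q.1).take k')).1 < (l q.1).getD (q.2 + 1) 0 →
          Lg (endd o ((σ q.1).take k)) (endd o ((σ q.1).take k')))) ?_ (c_range hn1)
    have hl2 := hl1.comp (Computable.fst (α := α × ℕ) (β := ℕ))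
    have hσ2 := hσ1.comp (Computable.fst (α := α × ℕ) (β := ℕ))
    have hn2 := hn1.comp (Computable.fst (α := α × ℕ) (β := ℕ))
    have ht2 : Computable fun p : (α × ℕ) × ℕ => p.1.2 := Computable.snd.comp Computable.fst
    have hk2 : Computable fun p : (α × ℕ) × ℕ => p.2 := Computable.snd
    have hx2 := c_endk hσ2 hk2
    refine Cop.imp (Cop.eq (c_root hx2) (c_getD hl2 ht2))
      (Cop.and (Cop.and (cop_le (Computable.const 1) (c_len hx2))
        (cop_le (c_len hx2) (c_blk P.p ht2))) ?_)
    refine Cop.ballL (P := fun (q : (α × ℕ) × ℕ) k' (_ : ℕ → ℕ) =>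
        ((endd o ((σ q.1.1).take k')).1 = (l q.1.1).getD (q.1.2 + 1) 0 →
          Link P q.1.2 (endd o ((σ q.1.1).take q.2)) (endd o ((σ q.1.1).take k'))) ∧
        (q.2 ≤ k' → (endd o ((σ q.1.1).take k')).1 < (l q.1.1).getD (q.1.2 + 1) 0 →
          Lg (endd o ((σ q.1.1).take q.2)) (endd o ((σ q.1.1).take k')))) ?_ (c_range hn2)
    have hl3 := hl2.comp (Computable.fst (α := (α × ℕ) × ℕ) (β := ℕ))
    have hσ3 := hσ2.comp (Computable.fst (α := (α × ℕ) × ℕ) (β := ℕ))
    have ht3 := ht2.comp (Computable.fst (α := (α × ℕ) × ℕ) (β := ℕ))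
    have hk3 := hk2.comp (Computable.fst (α := (α × ℕ) × ℕ) (β := ℕ))
    have hk4 : Computable fun p : ((α × ℕ) × ℕ) × ℕ => p.2 := Computable.snd
    have hx3 := c_endk hσ3 hk3
    have hx4 := c_endk hσ3 hk4
    have hl4 := c_getD hl3 (Computable.succ.comp ht3)
    exact Cop.and (Cop.imp (Cop.eq (c_root hx4) hl4) (cop_link hP ht3 hx3 hx4))
      (Cop.imp (cop_le hk3 hk4) (Cop.imp (Cop.lt (c_root hx4) hl4) (cop_lg hx3 hx4)))

/-- A bound for the roots of the initial segments. -/
def Bs (σ : List ℕ) : ℕ :=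
  ((List.range (σ.length + 1)).map (fun k => (endd o (σ.take k)).1)).foldr max 0

theorem c_Bs : Computable Bs := by
  have h1 : Computable fun σ : List ℕ =>
      (List.range (σ.length + 1)).map (fun k => (endd o (σ.take k)).1) :=
    Recur.computable_list_map (c_range (Computable.succ.comp Computable.list_length))
      (c_root (c_endk Computable.fst Computable.snd)).to₂
  have h2 : Primrec (fun l : List ℕ => l.foldr max 0) :=
    Primrec.list_foldr Primrec.id (Primrec.const 0)
      (Primrec.nat_max.comp (Primrec.fst.comp Primrec.snd) (Primrec.snd.comp Primrec.snd)).to₂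
  exact h2.to_comp.comp h1

end dec

theorem le_foldr {l : List ℕ} {a : ℕ} (h : a ∈ l) : a ≤ l.foldr max 0 := by
  induction l with
  | nil => simp at h
  | cons b l ih =>
    rcases List.mem_cons.1 h with rfl | h
    · exact le_max_left _ _
    · exact (ih h).trans (le_max_right _ _)

theorem le_Bs {σ ν : List ℕ} (h : ν <+: σ) : (endd o ν).1 ≤ Bs σ := by
  refine le_foldr (List.mem_map.2 ⟨ν.length, List.mem_range.2 ?_, ?_⟩)
  · have := h.length_le
    omega
  · rw [← List.prefix_iff_eq_take.1 h]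

theorem getD_map {u : ℕ → ℕ} {n t : ℕ} (h : t < n) :
    ((List.range n).map u).getD t 0 = u t := by
  rw [List.getD_eq_getElem _ _ (by simpa using h)]
  simp

theorem regK_iff {P : Par} {u : ℕ → ℕ} (hu : ∀ t, t ≤ u t) (σ : List ℕ) :
    RegK P ((List.range (Bs σ + 2)).map u) σ ↔ Reg P u σ := by
  have hB : ∀ ν t, ν <+: σ → (endd o ν).1 = u t → t < Bs σ + 1 := fun ν t h1 h2 => by
    have := le_Bs h1
    have := hu t
    omega
  have hB0 := le_Bs (List.prefix_refl σ)
  have hlen : ((List.range (Bs σ + 2)).map u).length = Bs σ + 2 := by simp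
  have htk : ∀ ν, ν <+: σ → σ.take ν.length = ν := fun ν h => (List.prefix_iff_eq_take.1 h).symm
  have hlt : ∀ ν, ν <+: σ → ν.length ∈ List.range (σ.length + 1) := fun ν h =>
    List.mem_range.2 (Nat.lt_succ_of_le h.length_le)
  have hpf : ∀ k, σ.take k <+: σ := fun k => List.take_prefix k σ
  constructor
  · rintro ⟨h1, h2⟩
    rw [hlen] at h1 h2
    have h3 : ∀ t ν, ν <+: σ → (endd o ν).1 = u t →
        (1 ≤ (endd o ν).2.length ∧ (endd o ν).2.length ≤ blk P.p t) ∧
        ∀ ν', ν' <+: σ → ((endd o ν').1 = u (t + 1) → Link P t (endd o ν) (endd o ν')) ∧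
          (ν.length ≤ ν'.length → (endd o ν').1 < u (t + 1) →
            Lg (endd o ν) (endd o ν')) := by
      intro t ν hν ht
      have htB := hB ν t hν ht
      obtain ⟨h4, h5⟩ := h2 t (List.mem_range.2 (by omega)) ν.length (hlt ν hν)
        (by rw [htk ν hν, getD_map (by omega), ht])
      rw [htk ν hν] at h4 h5
      refine ⟨h4, fun ν' hν' => ?_⟩
      have h6 := h5 ν'.length (hlt ν' hν')
      rw [htk ν' hν', getD_map (by omega)] at h6
      exact h6
    refine ⟨fun t ht => ?_, fun t ν hν ht => (h3 t ν hν ht).1,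
      fun t ν ν' hν hν' ht ht' => ((h3 t ν hν ht).2 ν' hν').1 ht',
      fun t ν ν' hν hν' ht ht' => ((h3 t ν (hν.trans hν') ht).2 ν' hν').2 hν.length_le ht'⟩
    have h4 : t < Bs σ + 2 := by
      have := hu t
      omega
    obtain ⟨k, -, hk⟩ := h1 t (List.mem_range.2 h4) (by rw [getD_map h4]; exact ht)
    rw [getD_map h4] at hk
    exact ⟨σ.take k, hpf k, hk⟩
  · intro h
    rw [RegK, hlen]
    refine ⟨fun t ht h1 => ?_, fun t ht k _ h1 => ?_⟩
    · have ht' := List.mem_range.1 ht
      rw [getD_map ht'] at h1 ⊢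
      obtain ⟨ν, h2, h3⟩ := h.pass t h1
      exact ⟨ν.length, hlt ν h2, by rw [htk ν h2, h3]⟩
    · have ht' := List.mem_range.1 ht
      rw [getD_map (by omega)] at h1
      refine ⟨h.dep t _ (hpf k) h1, fun k' _ => ?_⟩
      rw [getD_map (by omega)]
      refine ⟨fun h2 => h.link t _ _ (hpf k) (hpf k') h1 h2, fun h2 h3 => ?_⟩
      exact h.prv t _ _ (List.take_prefix_take_left h2) (hpf k') h1 h3

/-! ## The class -/

section cls

variable {P : Par} {G : Gph} {s : ℕ}

/-- Valid regular strings are limit decidable. -/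
theorem rl_lim (hP : P.Ok) (h : Lim4 P G) (hs : s < P.p) (hE : Eff P G) :
    ∃ A : ℕ × List ℕ → Bool, Computable A ∧
      ∀ σ, ∃ m₀, ∀ m ≥ m₀, (A (m, σ) = true ↔ RL P G s σ) := by
  classical
  obtain ⟨fd, hfd, hd⟩ := hE.d
  obtain ⟨fu, hfu, hu⟩ := hE.u
  have hdv := Kills.decVStr codes (decv codes).1
  have hend : Computable fun q : ℕ × List ℕ => (endd o q.2).1 := c_root (c_end Computable.snd)
  have hfd' : Computable fun q : ℕ × List ℕ => (fd (q.1, (endd o q.2).1, s), q.2) :=
    Computable.pair (hfd.comp (Computable.pair Computable.fst (Computable.pair hend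
      (Computable.const s)))) Computable.snd
  have hl : Computable fun q : ℕ × List ℕ =>
      (List.range (Bs q.2 + 2)).map (fun t => fu (q.1, t, s)) := by
    refine Recur.computable_list_map (c_range (c_add (c_Bs.comp Computable.snd)
      (Computable.const 2))) ?_
    exact (hfu.comp (Computable.pair (Computable.fst.comp Computable.fst)
      (Computable.pair Computable.snd (Computable.const s)))).to₂
  have h1 : Cop (fun (q : ℕ × List ℕ) (_ : ℕ → ℕ) =>
      VStr (fd (q.1, (endd o q.2).1, s)).W o q.2 (endd o q.2) ∧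
      RegK P ((List.range (Bs q.2 + 2)).map (fun t => fu (q.1, t, s))) q.2) :=
    Cop.and ((MP_8c048d_lc.Cop.of_computable hdv).comp hfd')
      (cop_regK hP hl Computable.snd)
  obtain ⟨_, h2⟩ := Cop.toCP h1
  refine ⟨_, h2, fun σ => ?_⟩
  obtain ⟨k₁, hk₁⟩ := hd (endd o σ).1 s hs
  have h3 : ∀ n, ∃ k₂, ∀ k ≥ k₂, (List.range n).map (fun t => fu (k, t, s)) =
      (List.range n).map (us G s) := by
    intro n
    induction n with
    | zero => exact ⟨0, fun _ _ => rfl⟩
    | succ n ih =>
      obtain ⟨k₂, h4⟩ := ih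
      obtain ⟨k₃, h5⟩ := hu n s hs
      refine ⟨max k₂ k₃, fun k hk => ?_⟩
      rw [List.range_succ, List.map_append, List.map_append, h4 k (le_trans (le_max_left _ _) hk)]
      simp only [List.map_cons, List.map_nil]
      rw [h5 k (le_trans (le_max_right _ _) hk)]
  obtain ⟨k₂, hk₂⟩ := h3 (Bs σ + 2)
  refine ⟨max k₁ k₂, fun m hm => ?_⟩
  have h4 := hk₁ m (le_trans (le_max_left _ _) hm)
  have h5 := hk₂ m (le_trans (le_max_right _ _) hm)
  rw [decide_eq_true_iff]
  show (VStr (fd (m, (endd o σ).1, s)).W o σ (endd o σ) ∧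
    RegK P ((List.range (Bs σ + 2)).map (fun t => fu (m, t, s))) σ) ↔ _
  rw [h4, h5]
  have h6 := regK_iff (P := P) (u := us G s) (fun t => (h.rts hs).le_self t) σ
  have h7 := (limF P hP G h s hs).2.2.2.2.2.1 σ (endd o σ).1 (LimF.lt_N h hs _)
  rw [h6, ← h7]
  exact Iff.rfl

end cls

end ClsA

open ClsA in
/-- Module CLS, first clause: the class `A_s`. -/
theorem clsA : ∀ P : Par, P.Ok → ∀ G : Gph, Lim4 P G → ∀ s < P.p, Eff P G →
    Bound.IsC (BB P) (AA P G s) := by
  intro P hP G h s hs hE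
  obtain ⟨A, hA, h1⟩ := rl_lim hP h hs hE
  have hd : RecF (fun (x : ℕ × ℕ) (F : ℕ → ℕ) =>
      decide (x.1.unpair.1 ≤ x.2) && A (x.2, pre F x.1.unpair.2)) := by
    have h2 : RecF (fun (x : ℕ × ℕ) (F : ℕ → ℕ) => ((x, pre F x.1.unpair.2) :
        (ℕ × ℕ) × List ℕ)) :=
      (RecF.of_computable Computable.id).pair (RecF.pre.comp₁
        (f := fun x : ℕ × ℕ => x.1.unpair.2)
        (Computable.snd.comp (Computable.unpair.comp Computable.fst)))
    have h3 : Computable (fun y : (ℕ × ℕ) × List ℕ =>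
        decide (y.1.1.unpair.1 ≤ y.1.2) && A (y.1.2, y.2)) := by
      have h4 : Primrec (fun p : ℕ × ℕ => decide (p.1 ≤ p.2)) :=
        (PrimrecRel.comp Primrec.nat_le Primrec.fst Primrec.snd).decide
      have h5 : Computable (fun y : (ℕ × ℕ) × List ℕ => y.1.1) :=
        Computable.fst.comp Computable.fst
      have h6 : Computable (fun y : (ℕ × ℕ) × List ℕ => y.1.2) :=
        Computable.snd.comp Computable.fst
      have h7 : Computable (fun y : (ℕ × ℕ) × List ℕ => y.1.1.unpair.1) :=
        Computable.fst.comp (Computable.unpair.comp h5)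
      have h8 : Computable (fun y : (ℕ × ℕ) × List ℕ => decide (y.1.1.unpair.1 ≤ y.1.2)) :=
        Computable.comp (f := fun p : ℕ × ℕ => decide (p.1 ≤ p.2))
          (g := fun y : (ℕ × ℕ) × List ℕ => (y.1.1.unpair.1, y.1.2)) h4.to_comp
          (Computable.pair h7 h6)
      have h9 : Computable (fun y : (ℕ × ℕ) × List ℕ => A (y.1.2, y.2)) :=
        Computable.comp (f := A) (g := fun y : (ℕ × ℕ) × List ℕ => (y.1.2, y.2)) hA
          (Computable.pair h6 Computable.snd)
      exact Computable₂.comp (f := fun a b : Bool => a && b) Primrec.and.to_comp h8 h9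
    exact h2.comp h3
  obtain ⟨S, hS, hS1⟩ := pi2 redMu joinS _ hd
  refine ⟨S, hS, ?_⟩
  rw [hS1]
  have h2 : Mem P G s = {F | ∀ n : ℕ, ∃ m : ℕ, (decide (n.unpair.1 ≤ m) &&
      A (m, pre F n.unpair.2)) = true} := by
    ext O
    constructor
    · intro hO n
      obtain ⟨m₀, hm⟩ := h1 (pre O n.unpair.2)
      refine ⟨max m₀ n.unpair.1, ?_⟩
      rw [Bool.and_eq_true, decide_eq_true_iff]
      exact ⟨le_max_right _ _, (hm _ (le_max_left _ _)).2 (hO _)⟩
    · intro hO k
      obtain ⟨m₀, hm⟩ := h1 (pre O k)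
      obtain ⟨m, h3⟩ := hO (Nat.pair m₀ k)
      rw [Bool.and_eq_true, decide_eq_true_iff] at h3
      simp only [Nat.unpair_pair] at h3
      exact (hm m h3.1).1 h3.2
  rw [AA, h2]

end Pool.Agent.Lib.MP_d48993_lc.Gr
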