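import Pool.Agent.Lib.MP_d48993_lc.AE.Gr.Lg
import Pool.Agent.Lib.MP_d48993_lc.AE.Gr.LimF
import Pool.Agent.Lib.MP_d48993_lc.AE.Split
import Pool.Agent.Lib.MP_d48993_lc.Red

/-!
# Part G, module GCOMP (helper40): continuation of regular strings, companions
(finding 4201, G9, G11)
-/

set_option autoImplicit false

namespace Pool.Agent.Lib.MP_d48993_lc.Gr

open Pool.Agent.Lib.MP_d48993_lc.Node
open Pool.Agent.Lib.MP_d48993_lc.Node.Proc (endd_append endd_snoc ch_append ch_pfx)
open MP_8c048d_lc (pre join RecF length_pre pre_take pre_succ)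

namespace Comp

theorem hB : BasicStatement := basic codes
theorem hM : MonoStatement := mono codes (basic codes)

theorem pre_mono (F : ℕ → ℕ) {k k' : ℕ} (h : k ≤ k') : pre F k <+: pre F k' := by
  rw [← min_eq_left h, ← pre_take]
  exact List.take_prefix _ _

theorem of_pfx_pre {F : ℕ → ℕ} {k : ℕ} {ν : List ℕ} (h : ν <+: pre F k) : ν = pre F ν.length := by
  have h1 := List.prefix_iff_eq_take.1 h
  have h2 := h.length_le
  rw [length_pre] at h2
  rw [pre_take, min_eq_left h2] at h1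
  exact h1

section

variable {P : Par} {G : Gph} {s : ℕ}

theorem limD (h : Lim4 P G) (hs : s < P.p) : Proc.LimD (fun t => G.d t s) (us G s) :=
  LimF.limD codes hB hM h hs

theorem les_iff (h : Lim4 P G) (hs : s < P.p) {σ : List ℕ} :
    LEs G s σ ↔ Ch o σ (endd o σ) ∧ ∀ g ∈ σ, VL G s g :=
  Proc.le_iff hM (limD h hs)

theorem vl_fit (h : Lim4 P G) (hs : s < P.p) {g : ℕ} (hg : VL G s g) : Fit (src g) (tgt g) :=
  Proc.fit_vsl hB (limD h hs) hg

theorem les_rup (h : Lim4 P G) (hs : s < P.p) {σ : List ℕ} (hσ : LEs G s σ) : Rup o σ := by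
  obtain ⟨h1, h2⟩ := (les_iff h hs).1 hσ
  exact ⟨h1, fun g hg => (vl_fit h hs (h2 g hg)).2.2.1⟩

theorem les_pfx (h : Lim4 P G) (hs : s < P.p) {σ ν : List ℕ} (hσ : LEs G s σ) (hν : ν <+: σ) :
    LEs G s ν := (limD h hs).pc _ _ hν hσ

theorem rl_pfx (h : Lim4 P G) (hs : s < P.p) {σ ν : List ℕ} (hσ : RL P G s σ) (hν : ν <+: σ) :
    RL P G s ν :=
  ⟨les_pfx h hs hσ.1 hν, hσ.2.pfx (les_rup h hs hσ.1) hν⟩

theorem les_append (h : Lim4 P G) (hs : s < P.p) {σ τ : List ℕ} (hσ : LEs G s σ)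
    (h1 : Ch (endd o σ) τ (endd (endd o σ) τ)) (h2 : ∀ g ∈ τ, VL G s g) : LEs G s (σ ++ τ) := by
  rw [les_iff h hs] at hσ ⊢
  refine ⟨?_, fun g hg => ?_⟩
  · rw [ch_append, endd_append]
    exact ⟨hσ.1, h1⟩
  · rcases List.mem_append.1 hg with h3 | h3
    · exact hσ.2 g h3
    · exact h2 g h3

theorem les_snoc (h : Lim4 P G) (hs : s < P.p) {σ : List ℕ} {g : ℕ} (hσ : LEs G s σ)
    (h1 : src g = endd o σ) (h2 : VL G s g) : LEs G s (σ ++ [g]) :=
  les_append h hs hσ ⟨h1, rfl⟩ fun g' hg' => by rw [List.mem_singleton.1 hg']; exact h2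

/-- One more symbol into the next public root. -/
theorem ext_link (h : Lim4 P G) (hs : s < P.p) {σ ν : List ℕ} {t : ℕ} (hσ : RL P G s σ)
    (hν : ν <+: σ) (h1 : (endd o ν).1 = G.u t s) (h2 : (endd o σ).1 < G.u (t + 1) s) {y : St}
    (hy : Adm y) (hy1 : y.1 = G.u (t + 1) s) (hl : Link P t (endd o ν) y) :
    ∃ g, RL P G s (σ ++ [g]) ∧ tgt g = y ∧ Ex g = [] := by
  obtain ⟨g, h3, h4, h5, h6⟩ := LimF.can_end hB hM h hs hσ.1 h2 hy hy1
    (by have := hl.yb; omega)
  have h7 := les_snoc h hs hσ.1 h4 h3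
  refine ⟨g, ⟨h7, ?_⟩, h5, h6⟩
  exact hσ.2.snoc_pub (h.rts hs) (les_rup h hs h7) hν h1 (by rw [h5]; exact hy1)
    (by rw [h5]; exact hl)

/-- The length of a public state of a regular string. -/
theorem rl_dep {σ : List ℕ} {t : ℕ} (hσ : RL P G s σ) (h1 : (endd o σ).1 = G.u t s) :
    1 ≤ (endd o σ).2.length ∧ (endd o σ).2.length ≤ blk P.p t :=
  hσ.2.dep t σ (List.prefix_refl _) h1

theorem bku (h : Lim4 P G) (hs : s < P.p) (t : ℕ) : bk (G.u t s) = blk P.p t :=
  (h.root t s hs).2.2.2.1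

theorem adm_up (h : Lim4 P G) (hs : s < P.p) {x : St} {t t' : ℕ} (ht : t ≤ t') (hx : Adm x)
    (h1 : x.1 = G.u t s) : Adm ((G.u t' s, x.2) : St) := by
  have h2 := LimF.sz_mono h hs ht
  rw [← h1] at h2
  exact ⟨hx.1.trans h2, fun b hb => lt_of_lt_of_le (hx.2 b hb) h2⟩

theorem rl_adm (h : Lim4 P G) (hs : s < P.p) {σ : List ℕ} (hσ : RL P G s σ) : Adm (endd o σ) :=
  LimF.end_adm hB h hs hσ.1

/-- Inside of a block the string of the state does not change. -/
theorem ext_in (h : Lim4 P G) (hs : s < P.p) {σ : List ℕ} {t t' : ℕ} (hσ : RL P G s σ)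
    (h1 : (endd o σ).1 = G.u t s) (ht : t ≤ t') (hb : blk P.p t' = blk P.p t) :
    ∃ σ', σ <+: σ' ∧ RL P G s σ' ∧ endd o σ' = (G.u t' s, (endd o σ).2) := by
  induction t', ht using Nat.le_induction with
  | base => exact ⟨σ, List.prefix_refl _, hσ, by rw [← h1]⟩
  | succ n hn ih =>
    have b1 := blk_le_succ P.p n
    have b2 := blk_mono P.p hn
    obtain ⟨σ', h2, h3, h4⟩ := ih (by omega)
    have h5 : (endd o σ').1 = G.u n s := by rw [h4]
    have h6 := rl_dep h3 h5
    have h7 : Adm ((G.u (n + 1) s, (endd o σ').2) : St) :=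
      adm_up h hs (Nat.le_succ n) (rl_adm h hs h3) h5
    obtain ⟨g, h8, h9, -⟩ := ext_link h hs h3 (List.prefix_refl _) h5
      (by rw [h5]; exact h.u_lt hs n) h7 rfl
      (Link.of_ins h6.1 h6.2 (by omega) rfl rfl)
    refine ⟨σ' ++ [g], h2.trans (List.prefix_append _ _), h8, ?_⟩
    rw [endd_snoc, h9, h4]

/-- A Rise at a border, then through the block. -/
theorem ext_rise (h : Lim4 P G) (hs : s < P.p) {σ ν : List ℕ} {n : ℕ} (hn : 2 ≤ n)
    (hσ : RL P G s σ) (hν : ν <+: σ) (h1 : (endd o ν).1 = G.u (lst P.p n) s)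
    (h2 : (endd o σ).1 < G.u (lst P.p n + 1) s) {l : List ℕ}
    (hl : Adm ((G.u (lst P.p n + 1) s, l) : St)) (hl1 : 1 ≤ l.length)
    (hl2 : l.length ≤ (endd o ν).2.length) :
    ∃ g σ', σ ++ [g] <+: σ' ∧ RL P G s σ' ∧ tgt g = (G.u (lst P.p n + 1) s, l) ∧
      endd o σ' = (G.u (lst P.p (n + 1)) s, l) := by
  have h3 := rl_dep (rl_pfx h hs hσ hν) h1
  have b1 := blk_lst P.p hn
  have b2 := blk_lst_succ P.p hn
  have hR : Rise (endd o ν) ((G.u (lst P.p n + 1) s, l) : St) := by
    unfold Rise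
    rw [h1]
    show bk (G.u (lst P.p n) s) + l.length < bk (G.u (lst P.p n + 1) s) + _
    rw [bku h hs, bku h hs, b1, b2]
    omega
  obtain ⟨g, h4, h5, -⟩ := ext_link h hs hσ hν h1 h2 hl rfl
    (Link.of_rise h3.1 h3.2 (by omega) hl1 (by show l.length ≤ _; omega) hR)
  have h6 : endd o (σ ++ [g]) = (G.u (lst P.p n + 1) s, l) := by rw [endd_snoc, h5]
  have b3 := fst_le_lst P.p (show 2 ≤ n + 1 by omega)
  have b4 := lst_succ P.p hn
  obtain ⟨σ', h7, h8, h9⟩ := ext_in h hs h4 (t := lst P.p n + 1) (t' := lst P.p (n + 1))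
    (by rw [h6]) (by omega) (by rw [b2, blk_lst P.p (by omega)])
  exact ⟨g, σ', h7, h8, h5, by rw [h9, h6]⟩

theorem str_encode (l : List ℕ) : str (Encodable.encode l) = l := Denumerable.ofNat_encode l

/-- The level can be kept low: one Rise, then WAIT along the path `h`. -/
theorem low (hP : P.Ok) (h : Lim4 P G) (hs : s < P.p) {σ : List ℕ} {n : ℕ} (hn : 2 ≤ n)
    (hσ : RL P G s σ) (h1 : (endd o σ).1 = G.u (lst P.p n) s) (N : ℕ) (hN : n < N) :
    ∃ σ', σ <+: σ' ∧ RL P G s σ' ∧ (endd o σ').1 = G.u (lst P.p N) s ∧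
      n + (endd o σ').2.length + 1 = N + (endd o σ).2.length ∧
      ∃ j < N, (endd o σ').2.head? = some (Encodable.encode (pre P.h j)) := by
  have hd := rl_dep hσ h1
  rw [blk_lst P.p hn] at hd
  induction N, (show n + 1 ≤ N from hN) using Nat.le_induction with
  | base =>
    have hadm : Adm ((G.u (lst P.p n + 1) s, List.replicate (endd o σ).2.length 0) : St) := by
      have h2 := adm_up h hs (Nat.le_succ (lst P.p n)) (rl_adm h hs hσ) h1
      refine ⟨by have := h2.1; simpa using this, fun b hb => ?_⟩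
      have h3 : b = 0 := (List.mem_replicate.1 hb).2
      have h4 := h2.1
      have h5 : (endd o σ).2.length ≤ sz (G.u (lst P.p n + 1) s) := h4
      show b < sz (G.u (lst P.p n + 1) s)
      omega
    obtain ⟨g, σ', h2, h3, h4, h5⟩ := ext_rise h hs hn hσ (List.prefix_refl _) h1
      (by rw [h1]; exact h.u_lt hs _) hadm (by simpa using hd.1) (by simp)
    refine ⟨σ', (List.prefix_append _ _).trans h2, h3, by rw [h5], by rw [h5]; simp; omega,
      0, by omega, ?_⟩
    rw [h5]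
    show (List.replicate (endd o σ).2.length 0).head? = _
    obtain ⟨k, hk⟩ : ∃ k, (endd o σ).2.length = k + 1 := ⟨(endd o σ).2.length - 1, by omega⟩
    rw [hk]
    rfl
  | succ N hN' ih =>
    obtain ⟨σ', h2, h3, h4, h5, j, hj, h6⟩ := ih (by omega)
    have hN2 : 2 ≤ N := by omega
    have hd' := rl_dep h3 h4
    rw [blk_lst P.p hN2] at hd'
    have hne : (endd o σ').2 ≠ [] := ne_nil_of_len hd'.1
    -- the new state
    have b2 := blk_lst_succ P.p hN2
    obtain ⟨y, hy⟩ : ∃ y : St, y = (G.u (lst P.p N + 1) s,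
      Encodable.encode (pre P.h (j + 1)) :: (endd o σ').2) := ⟨_, rfl⟩
    have hbin : ∀ b ∈ pre P.h (j + 1), b < 2 := hP.tbb _ (hP.path _)
    have hc := h.code (lst P.p N + 1) s hs (pre P.h (j + 1)) hbin (by
      rw [length_pre, b2]; omega)
    have hup := adm_up h hs (Nat.le_succ (lst P.p N)) (rl_adm h hs h3) h4
    have hsz := (h.root (lst P.p N + 1) s hs).2.2.2.2.2
    rw [b2] at hsz
    have hadm : Adm y := by
      subst hy
      refine ⟨?_, fun b hb => ?_⟩
      · show (_ :: (endd o σ').2).length ≤ sz (G.u (lst P.p N + 1) s)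
        simp only [List.length_cons]
        omega
      · show b < sz (G.u (lst P.p N + 1) s)
        rcases List.mem_cons.1 hb with rfl | hb
        · exact hc
        · exact hup.2 b hb
    have hpx : pay (endd o σ') = pre P.h j := by
      unfold pay
      rw [h6]
      exact str_encode _
    have hpy : pay y = pre P.h (j + 1) := by
      subst hy
      exact str_encode _
    have hl : Link P (lst P.p N) (endd o σ') y := by
      refine ⟨hd'.1, by rw [blk_lst P.p hN2]; exact hd'.2, by rw [hy]; simp,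
        by rw [hy, b2]; simp; exact hd'.2, fun hh => ?_, fun _ => Or.inr ⟨?_, ?_, ?_, ?_⟩⟩
      · rw [b2, blk_lst P.p hN2] at hh
        omega
      · rw [h4, hy]
        show bk (G.u (lst P.p N) s) + (_ :: (endd o σ').2).length =
          bk (G.u (lst P.p N + 1) s) + _
        rw [bku h hs, bku h hs, b2, blk_lst P.p hN2, List.length_cons]
        omega
      · rw [hpx, hpy]
        exact pre_mono _ (Nat.le_succ j)
      · rw [hpx, hpy]
        intro he
        have := congrArg List.length he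
        rw [length_pre, length_pre] at this
        omega
      · rw [hpy]
        exact hP.path _
    obtain ⟨g, g1, g2, -⟩ := ext_link h hs h3 (List.prefix_refl _) h4
      (by rw [h4]; exact h.u_lt hs _) hadm (by rw [hy]) hl
    have g3 : endd o (σ' ++ [g]) = y := by rw [endd_snoc, g2]
    have b3 := fst_le_lst P.p (show 2 ≤ N + 1 by omega)
    have b4 := lst_succ P.p hN2
    obtain ⟨σ'', g4, g5, g6⟩ := ext_in h hs g1 (t := lst P.p N + 1) (t' := lst P.p (N + 1))
      (by rw [g3, hy]) (by omega) (by rw [b2, blk_lst P.p (by omega)])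
    refine ⟨σ'', h2.trans ((List.prefix_append _ _).trans g4), g5, by rw [g6], ?_,
      j + 1, by omega, ?_⟩
    · rw [g6, g3, hy]
      simp only [List.length_cons]
      omega
    · rw [g6, g3, hy]
      rfl

end

end Comp

end Pool.Agent.Lib.MP_d48993_lc.Gr
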