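import Pool.Agent.Lib.MP_d48993_lc.AE.Gr.Comp

/-!
# Part G, module GCOMP (helper40): companions (finding 4201, G11)
-/

set_option autoImplicit false

namespace Pool.Agent.Lib.MP_d48993_lc.Gr

open Pool.Agent.Lib.MP_d48993_lc.Node
open Pool.Agent.Lib.MP_d48993_lc.Node.Proc (endd_append endd_snoc ch_append ch_pfx)
open MP_8c048d_lc (pre join RecF length_pre pre_take pre_succ)

namespace Comp

/-- The companion of a symbol. -/
def cmp (g : ℕ) : List ℕ := (Ap g).getD 0 []

/-- The companion of the symbols number `k0, .., k0 + j - 1`, behind `β`. -/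
def FF (O : ℕ → ℕ) (k0 : ℕ) (β : List ℕ) (j : ℕ) : List ℕ :=
  β ++ (List.range j).flatMap (fun i => cmp (O (k0 + i)))

theorem ff_zero (O : ℕ → ℕ) (k0 : ℕ) (β : List ℕ) : FF O k0 β 0 = β := by simp [FF]

theorem ff_succ (O : ℕ → ℕ) (k0 : ℕ) (β : List ℕ) (j : ℕ) :
    FF O k0 β (j + 1) = FF O k0 β j ++ cmp (O (k0 + j)) := by
  simp [FF, List.range_succ, List.flatMap_append]

/-- The companion as a real. -/
def FR (O : ℕ → ℕ) (k0 : ℕ) (β : List ℕ) : ℕ → ℕ := fun n => (FF O k0 β (n + 1)).getD n 0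

theorem red_fr (O : ℕ → ℕ) (k0 : ℕ) (β : List ℕ) : Red (FR O k0 β) O := by
  have h1 : RecF (fun (n : ℕ) (F : ℕ → ℕ) => pre F (k0 + (n + 1))) :=
    RecF.pre.comp₁ (f := fun n => k0 + (n + 1))
      ((Primrec.nat_add.comp (Primrec.const k0) Primrec.succ).to_comp)
  have h2 : Primrec cmp := (Primrec.list_getD []).comp Codes.primrec_Ap (Primrec.const 0)
  have h3 : Primrec (fun p : ℕ × List ℕ => (β ++ (p.2.drop k0).flatMap cmp).getD p.1 0) := by
    refine (Primrec.list_getD 0).comp (Primrec.list_append.comp (Primrec.const β) ?_) Primrec.fst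
    exact Primrec.list_flatMap (f := fun p : ℕ × List ℕ => p.2.drop k0)
      (g := fun _ g => cmp g) (Primrec.list_drop.comp (Primrec.const k0) Primrec.snd)
      (h2.comp Primrec.snd).to₂
  have h4 : RecF (fun (n : ℕ) (F : ℕ → ℕ) =>
      (β ++ ((pre F (k0 + (n + 1))).drop k0).flatMap cmp).getD n 0) :=
    RecF.comp (g := fun p : ℕ × List ℕ => (β ++ (p.2.drop k0).flatMap cmp).getD p.1 0)
      h3.to_comp ((RecF.of_computable Computable.id).pair h1)
  have h5 := red1 _ h4 O
  have e : FR O k0 β = fun n => (β ++ ((pre O (k0 + (n + 1))).drop k0).flatMap cmp).getD n 0 := by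
    funext n
    unfold FR FF
    congr 2
    have e1 : (pre O (k0 + (n + 1))).drop k0 = (List.range (n + 1)).map (fun i => O (k0 + i)) := by
      apply List.ext_getElem?
      intro i
      rw [List.getElem?_drop, MP_8c048d_lc.pre_getElem?, List.getElem?_map]
      by_cases hi : i < n + 1
      · rw [if_pos (by omega), List.getElem?_range hi]
        rfl
      · rw [if_neg (by omega), List.getElem?_eq_none (by simpa using not_lt.1 hi)]
        rfl
    rw [e1, List.flatMap_map]
  rw [e]
  exact h5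

section

variable {P : Par} {G : Gph} {s : ℕ}

/-- Strings are continued by private states above the last public state. -/
theorem reg_append {u : ℕ → ℕ} (hu : Rts P u) {σ ν : List ℕ} {t : ℕ} (hσ : Reg P u σ)
    (hν : ν <+: σ) (h1 : (endd o ν).1 = u t) (τ : List ℕ) (hr : Rup o (σ ++ τ))
    (h2 : ∀ g ∈ τ, (tgt g).1 < u (t + 1) ∧ Lg (endd o ν) (tgt g)) : Reg P u (σ ++ τ) := by
  induction τ using List.reverseRecOn with
  | nil => rw [List.append_nil]; exact hσ
  | append_singleton τ g ih =>
    have h3 : σ ++ τ <+: σ ++ (τ ++ [g]) := by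
      rw [← List.append_assoc]; exact List.prefix_append _ _
    have h4 := ih (hr.pfx h3) fun g' hg' => h2 g' (List.mem_append_left _ hg')
    have h5 := h2 g (by simp)
    rw [← List.append_assoc] at hr ⊢
    exact h4.snoc_prv hu hr (hν.trans (List.prefix_append _ _)) h1 h5.1 h5.2

/-- The companion of a valid symbol. -/
theorem cmp_spec (h : Lim4 P G) (hs : s < P.p) {g : ℕ} (hg : VL G s g) (hr : 0 < rk (src g)) :
    ∃ (β : List ℕ) (s' m : ℕ), cmp g = β ++ [s'] ∧ (∀ g' ∈ cmp g, VL G s g') ∧
      Ch (ow (src g) 0) (cmp g) (ow (tgt g) 0) ∧ (G.d m s).W.adv (ow (src g) 0) = some β ∧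
      tgt s' = ow (tgt g) 0 := by
  obtain ⟨m, hm⟩ := hg
  have hfit := (h.good m s hs).wf.inv.fit
  obtain ⟨-, b2, -, -, -, b6, b7, -⟩ := hB (G.d m s).W hfit
  have hsz : 0 < 2 * sz (src g).1 := by
    unfold rk at hr
    omega
  obtain ⟨β, c1, c2⟩ := b7 g hm hr
  obtain ⟨s', c3, c4, -, -, c5⟩ := c2 0 (by omega)
  have e : cmp g = β ++ [s'] := by
    unfold cmp
    rw [List.getD_eq_getElem?_getD, c3]
    rfl
  obtain ⟨α, d1, d2⟩ := b6 g hm hr 0 hsz
  have e2 : α = cmp g := by
    unfold cmp
    rw [List.getD_eq_getElem?_getD, d1]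
    rfl
  subst e2
  exact ⟨β, s', m, e, fun g' hg' => ⟨m, d2.2 g' hg'⟩, d2.1, c1, c5⟩

section main

variable {O : ℕ → ℕ} {k0 t0 : ℕ} {β : List ℕ}

/-- The state number `j` of `O` behind `k0`. -/
def vv (O : ℕ → ℕ) (k0 j : ℕ) : St := endd o (pre O (k0 + j))

theorem vv_succ (O : ℕ → ℕ) (k0 j : ℕ) : tgt (O (k0 + j)) = vv O k0 (j + 1) := by
  unfold vv
  rw [show k0 + (j + 1) = (k0 + j) + 1 by omega, pre_succ, endd_snoc]

theorem vv_src (h : Lim4 P G) (hs : s < P.p) (hO : O ∈ Mem P G s) (k0 j : ℕ) :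
    src (O (k0 + j)) = vv O k0 j := by
  have h1 := (les_iff h hs).1 (hO (k0 + j + 1)).1
  rw [pre_succ] at h1
  exact (ch_append.1 h1.1).2.1

theorem vv_vl (h : Lim4 P G) (hs : s < P.p) (hO : O ∈ Mem P G s) (k : ℕ) : VL G s (O k) := by
  have h1 := (les_iff h hs).1 (hO (k + 1)).1
  refine h1.2 (O k) ?_
  rw [pre_succ]
  simp

theorem vv_rk (h : Lim4 P G) (hs : s < P.p) (hO : O ∈ Mem P G s)
    (hx : (vv O k0 0).1 = G.u t0 s) (j : ℕ) : 0 < rk (vv O k0 j) := by
  induction j with
  | zero =>
    have h1 := rl_dep (hO (k0 + 0)) hx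
    have h2 := (h.root t0 s hs).2.2.2.2.2
    unfold rk
    rw [hx]
    have h3 : (vv O k0 0).2.length ≤ blk P.p t0 := h1.2
    omega
  | succ j ih =>
    have h1 := vl_fit h hs (vv_vl h hs hO (k0 + j))
    rw [vv_src h hs hO, vv_succ] at h1
    have := h1.2.2.2.1
    omega

theorem vv_lt (h : Lim4 P G) (hs : s < P.p) (hO : O ∈ Mem P G s) {i j : ℕ} (hij : i < j) :
    (vv O k0 i).1 < (vv O k0 j).1 := by
  refine (les_rup h hs (hO (k0 + j)).1).lt (pre_mono O (by omega)) (List.prefix_refl _) ?_
  intro he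
  have := congrArg List.length he
  rw [length_pre, length_pre] at this
  omega

/-- `O` passes all public roots. -/
theorem vv_pass (h : Lim4 P G) (hs : s < P.p) (hO : O ∈ Mem P G s)
    (hx : (vv O k0 0).1 = G.u t0 s) {t j : ℕ} (ht : t0 ≤ t) (hj : G.u t s ≤ (vv O k0 j).1) :
    ∃ i ≤ j, (vv O k0 i).1 = G.u t s := by
  obtain ⟨ν, h1, h2⟩ := (hO (k0 + j)).2.pass t hj
  have h3 := of_pfx_pre h1
  have h4 := h1.length_le
  rw [length_pre] at h4
  have h5 : k0 ≤ ν.length := by
    by_contra h6
    have h7 : (endd o ν).1 < (vv O k0 0).1 := by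
      refine (les_rup h hs (hO (k0 + 0)).1).lt (ν := ν) ?_ (List.prefix_refl _) ?_
      · rw [h3]; exact pre_mono O (by omega)
      · intro he
        have := congrArg List.length he
        rw [length_pre] at this
        omega
    have h8 : G.u t0 s ≤ G.u t s := (h.rts hs).mono.monotone ht
    have h2' : (endd o ν).1 = G.u t s := h2
    omega
  refine ⟨ν.length - k0, by omega, ?_⟩
  unfold vv
  rw [show k0 + (ν.length - k0) = ν.length by omega, ← h3]
  exact h2

/-- The main induction. -/
theorem ff_main (h : Lim4 P G) (hs : s < P.p) (hO : O ∈ Mem P G s)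
    (hx : (vv O k0 0).1 = G.u t0 s)
    (hd : ∀ t, t0 ≤ t → ∀ j, (vv O k0 j).1 = G.u t s → 1 + (vv O k0 j).2.length ≤ blk P.p t)
    (hβ : RL P G s β) (hβe : endd o β = ow (vv O k0 0) 0) (j : ℕ) :
    ∀ i ≤ j, RL P G s (FF O k0 β i) ∧ endd o (FF O k0 β i) = ow (vv O k0 i) 0 := by
  have hu := h.rts hs
  induction j with
  | zero =>
    intro i hi
    obtain rfl : i = 0 := Nat.le_zero.1 hi
    rw [ff_zero]
    exact ⟨hβ, hβe⟩
  | succ j ih =>
    intro i hi
    rcases Nat.lt_or_ge i (j + 1) with hlt | hge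
    · exact ih i (by omega)
    obtain rfl : i = j + 1 := by omega
    obtain ⟨i1, i2⟩ := ih j (le_refl _)
    -- the symbol
    obtain ⟨α, s', m, c1, c2, c3, c4, c5⟩ := cmp_spec h hs (vv_vl h hs hO (k0 + j)) (by
      rw [vv_src h hs hO]; exact vv_rk h hs hO hx j)
    rw [vv_src h hs hO] at c3 c4
    rw [vv_succ] at c3 c5
    have hval : LEs G s (FF O k0 β (j + 1)) := by
      rw [ff_succ]
      refine les_append h hs i1.1 ?_ c2
      rw [i2]
      have := Proc.ch_end c3
      rw [← this]
      exact c3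
    have hend : endd o (FF O k0 β (j + 1)) = ow (vv O k0 (j + 1)) 0 := by
      rw [ff_succ, endd_append, i2]
      exact (Proc.ch_end c3).symm
    refine ⟨⟨hval, ?_⟩, hend⟩
    have hr := les_rup h hs hval
    -- the last public state
    have hr0 : (vv O k0 0).1 ≤ (vv O k0 j).1 := by
      rcases Nat.eq_zero_or_pos j with h0 | h0
      · rw [h0]
      · exact (vv_lt h hs hO h0).le
    obtain ⟨t, ht, hu1, hu2⟩ := hu.last (t := t0) (r := (vv O k0 j).1) (by
      show G.u t0 s ≤ _
      omega)
    change G.u t s ≤ _ at hu1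
    change _ < G.u (t + 1) s at hu2
    obtain ⟨i', hi', hi2⟩ := vv_pass h hs hO hx ht hu1
    obtain ⟨-, k2⟩ := ih i' hi'
    have hpre : FF O k0 β i' <+: FF O k0 β j := by
      have : ∀ a b, a ≤ b → FF O k0 β a <+: FF O k0 β b := by
        intro a b hab
        induction b, hab using Nat.le_induction with
        | base => exact List.prefix_refl _
        | succ b _ ihb => rw [ff_succ]; exact ihb.trans (List.prefix_append _ _)
      exact this _ _ hi'
    have k1 : (endd o (FF O k0 β i')).1 = G.u t s := by rw [k2]; exact hi2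
    -- facts about `O`
    have hne : (vv O k0 i').2 ≠ [] := by
      have := rl_dep (hO (k0 + i')) (t := t) hi2
      exact ne_nil_of_len this.1
    have hOj := hO (k0 + (j + 1))
    have p1 : pre O (k0 + i') <+: pre O (k0 + j) := pre_mono O (by omega)
    have p2 : pre O (k0 + j) <+: pre O (k0 + (j + 1)) := pre_mono O (by omega)
    have hLg : Lg (vv O k0 i') (vv O k0 j) := hOj.2.prv t _ _ p1 p2 hi2 hu2
    have hnext : (vv O k0 (j + 1)).1 ≤ G.u (t + 1) s := by
      by_contra hlt
      obtain ⟨i'', h1, h2⟩ := vv_pass h hs hO hx (t := t + 1) (j := j + 1) (by omega)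
        (not_le.1 hlt).le
      rcases Nat.lt_or_ge i'' (j + 1) with h3 | h3
      · rcases Nat.eq_or_lt_of_le (show i'' ≤ j by omega) with h4 | h4
        · subst h4; omega
        · have := vv_lt (k0 := k0) h hs hO h4
          omega
      · obtain rfl : i'' = j + 1 := by omega
        omega
    -- the advice
    have hstep1 : Reg P (us G s) (FF O k0 β j ++ α) := by
      refine reg_append hu i1.2 hpre k1 α ?_ ?_
      · refine hr.pfx ?_
        rw [ff_succ, c1, ← List.append_assoc]
        exact List.prefix_append _ _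
      · intro g hg
        have q1 : Lg (ow (vv O k0 j) 0) (tgt g) :=
          (h.good m s hs).lg _ _ c4 g hg
        have q2 : Lg (ow (vv O k0 i') 0) (ow (vv O k0 j) 0) := hLg.ow (Or.inr rfl)
        refine ⟨?_, by rw [k2]; exact q2.trans q1⟩
        have q3 : (tgt g).1 < (vv O k0 (j + 1)).1 := by
          have r0 : FF O k0 β j ++ α <+: FF O k0 β (j + 1) := by
            rw [ff_succ, c1, ← List.append_assoc]
            exact List.prefix_append _ _
          obtain ⟨ρ, r1, r2, r3⟩ := (hr.pfx r0).sym (g := g) (List.mem_append_right _ hg)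
          rw [r3]
          have r4 : (vv O k0 (j + 1)).1 = (endd o (FF O k0 β (j + 1))).1 := by rw [hend]; rfl
          rw [r4]
          refine hr.lt (r1.trans r0) (List.prefix_refl _) ?_
          intro he
          have h5 := r1.length_le
          rw [he, ff_succ, c1] at h5
          simp only [List.length_append, List.length_singleton] at h5
          omega
        exact lt_of_lt_of_le q3 hnext
    rw [ff_succ, c1, ← List.append_assoc]
    have hr' : Rup o (FF O k0 β j ++ α ++ [s']) := by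
      rw [ff_succ, c1, ← List.append_assoc] at hr
      exact hr
    rcases Nat.lt_or_ge (vv O k0 (j + 1)).1 (G.u (t + 1) s) with h3 | h3
    · refine hstep1.snoc_prv hu hr' (hpre.trans (List.prefix_append _ _)) k1 ?_ ?_
      · rw [c5]; exact h3
      · rw [c5, k2]
        exact (hOj.2.prv t _ _ (p1.trans p2) (List.prefix_refl _) hi2 h3).ow (Or.inr rfl)
    · have h4 : (vv O k0 (j + 1)).1 = G.u (t + 1) s := le_antisymm hnext h3
      refine hstep1.snoc_pub hu hr' (hpre.trans (List.prefix_append _ _)) k1 ?_ ?_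
      · rw [c5]; exact h4
      · rw [c5, k2]
        have d1 := hd t ht i' hi2
        have d2 := hd (t + 1) (by omega) (j + 1) h4
        have hne' : (vv O k0 (j + 1)).2 ≠ [] := by
          have := rl_dep (hO (k0 + (j + 1))) (t := t + 1) h4
          exact ne_nil_of_len this.1
        rw [link_ow hne hne' (by omega) (by omega)]
        exact hOj.2.link t _ _ (p1.trans p2) (List.prefix_refl _) hi2 h4

end main

end

end Comp

end Pool.Agent.Lib.MP_d48993_lc.Gr
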