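import Pool.Agent.Lib.MP_d48993_lc.AE.Gr.Comp2
import Pool.Agent.Lib.MP_d48993_lc.AE.Node.Can

/-!
# Part G, module GCOMP (helper40): the companion above a given condition (finding 4201, G13 (2))
-/

set_option autoImplicit false

namespace Pool.Agent.Lib.MP_d48993_lc.Gr

open Pool.Agent.Lib.MP_d48993_lc.Node
open Pool.Agent.Lib.MP_d48993_lc.Node.Proc (endd_append endd_snoc ch_append ch_pfx)
open MP_8c048d_lc (pre join RecF length_pre pre_take pre_succ)

namespace Comp

section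

variable {P : Par} {G : Gph} {s : ℕ} {O : ℕ → ℕ} {k0 t0 : ℕ} {β : List ℕ}

theorem vv_next (h : Lim4 P G) (hs : s < P.p) (hO : O ∈ Mem P G s)
    (hx : (vv O k0 0).1 = G.u t0 s) {t j : ℕ} (ht : t0 ≤ t) (hj : (vv O k0 j).1 < G.u (t + 1) s) :
    (vv O k0 (j + 1)).1 ≤ G.u (t + 1) s := by
  by_contra hlt
  obtain ⟨i'', h1, h2⟩ := vv_pass h hs hO hx (t := t + 1) (j := j + 1) (by omega)
    (not_le.1 hlt).le
  rcases Nat.lt_or_ge i'' (j + 1) with h3 | h3
  · rcases Nat.eq_or_lt_of_le (show i'' ≤ j by omega) with h4 | h4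
    · subst h4; omega
    · have := vv_lt (k0 := k0) h hs hO h4
      omega
  · obtain rfl : i'' = j + 1 := by omega
    omega

theorem vv_ge (h : Lim4 P G) (hs : s < P.p) (hO : O ∈ Mem P G s) (j : ℕ) :
    j ≤ (vv O k0 j).1 := by
  have h1 := (les_rup h hs (hO (k0 + j)).1).root
  rw [length_pre] at h1
  unfold vv
  omega

/-- Inside of a block the lengths are constant. -/
theorem len_in (h : Lim4 P G) (hs : s < P.p) {σ ν ν' : List ℕ} (hσ : RL P G s σ)
    (hν : ν <+: σ) (hν' : ν' <+: σ) {t t' : ℕ} (h1 : (endd o ν).1 = G.u t s)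
    (h2 : (endd o ν').1 = G.u t' s) (ht : t ≤ t') (hb : blk P.p t' = blk P.p t) :
    (endd o ν').2.length = (endd o ν).2.length := by
  have hr := les_rup h hs hσ.1
  have hu := h.rts hs
  induction t', ht using Nat.le_induction generalizing ν' with
  | base => rw [hr.eq hν' hν (by omega)]
  | succ n hn ih =>
    have b1 := blk_le_succ P.p n
    have b2 := blk_mono P.p hn
    have h3 : G.u n s < G.u (n + 1) s := h.u_lt hs n
    have h4 := hr.le hν' (List.prefix_refl _)
    obtain ⟨ν1, h5, h6⟩ := hσ.2.pass n (by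
      show G.u n s ≤ _
      omega)
    have h7 := ih h5 h6 (by omega)
    have h8 := hσ.2.link n ν1 ν' h5 hν' h6 h2
    rw [(h8.ins (by omega)).1, h7]

theorem ff_mono (O : ℕ → ℕ) (k0 : ℕ) (β : List ℕ) {a b : ℕ} (hab : a ≤ b) :
    FF O k0 β a <+: FF O k0 β b := by
  induction b, hab using Nat.le_induction with
  | base => exact List.prefix_refl _
  | succ b _ ihb => rw [ff_succ]; exact ihb.trans (List.prefix_append _ _)

/-- The advice is the same in all data. -/
theorem adv_same (h : Lim4 P G) (hs : s < P.p) {m t : ℕ} {y : St} {α : List ℕ}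
    (h1 : (G.d m s).W.adv y = some α) (hy : Adm y) (hz : Zero y) (hu : y.1 = G.u t s) :
    (G.d (t + 1) s).W.adv y = some α := by
  have hp : y.1 ∈ (G.d (t + 1) s).pub := by
    rw [h.pub t s hs, hu]
    simp
  have h2 := (h.good (t + 1) s hs).full y hy hz hp
  obtain ⟨α', h3⟩ := Option.isSome_iff_exists.1 h2
  have e1 := (hM.2.2.1 _ _ (h.good m s hs).wf
    (LimF.dext hM h hs m (max m (t + 1)) (le_max_left _ _))).adv y α h1
  have e2 := (hM.2.2.1 _ _ (h.good (t + 1) s hs).wf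
    (LimF.dext hM h hs (t + 1) (max m (t + 1)) (le_max_right _ _))).adv y α' h3
  rw [h3, ← e2, e1]

/-- The companion of `O` above `σ₀`. -/
theorem colour (hP : P.Ok) (h : Lim4 P G) (hs : s < P.p) {σ₀ : List ℕ} (hσ₀ : Ps P G s σ₀)
    {O : ℕ → ℕ} (hO : O ∈ Mem P G s)
    (hL6 : ∀ b : ℕ, ∃ T, ∀ t ≥ T, ∀ k, (endd o (pre O k)).1 = G.u t s →
      b + (endd o (pre O k)).2.length ≤ blk P.p t) :
    ∃ (O' : ℕ → ℕ) (n0 : ℕ) (d : ℕ → ℕ), Red O' O ∧ (∀ k, RL P G s (pre O' k)) ∧
      ∀ n ≥ n0, 2 ≤ d n ∧ d n ≤ n ∧ ∀ t, blk P.p t = n → ∃ a, σ₀ <+: pre O' a ∧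
        (endd o (pre O' a)).1 = G.u t s ∧ Zero (endd o (pre O' a)) ∧
        (endd o (pre O' a)).2.length = d n ∧
        ∃ a', a ≤ a' ∧
          pre O' a' = pre O' a ++ ((G.d (t + 1) s).W.adv (endd o (pre O' a))).getD [] ∧
          (endd o (pre O' a')).1 < G.u (t + 1) s := by
  classical
  obtain ⟨hR, n1, hn1, hend⟩ := hσ₀
  have hd0 := rl_dep hR hend
  rw [blk_lst P.p hn1] at hd0
  obtain ⟨T, hT⟩ := hL6 (n1 - (endd o σ₀).2.length + 3)
  -- the block before the companion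
  obtain ⟨N, hN⟩ : ∃ N, N = n1 + T + 1 := ⟨_, rfl⟩
  have hN2 : 2 ≤ N := by omega
  obtain ⟨σ1, l1, l2, l3, l4, -⟩ := low hP h hs hn1 hR hend N (by omega)
  have hd1 := rl_dep l2 l3
  rw [blk_lst P.p hN2] at hd1
  obtain ⟨t0, ht0⟩ : ∃ t0, t0 = lst P.p N + 1 := ⟨_, rfl⟩
  have hb0 : blk P.p t0 = N + 1 := by rw [ht0]; exact blk_lst_succ P.p hN2
  have hT0 : T ≤ t0 := by
    have := le_fst P.p (N + 1)
    have := lst_succ P.p hN2
    omega
  -- `O` at the root
  obtain ⟨k0, hx⟩ : ∃ k0, (vv O k0 0).1 = G.u t0 s := by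
    have h1 := vv_ge (k0 := 0) h hs hO (G.u t0 s)
    obtain ⟨ν, h2, h3⟩ := (hO (0 + G.u t0 s)).2.pass t0 h1
    refine ⟨ν.length, ?_⟩
    unfold vv
    rw [Nat.add_zero, ← of_pfx_pre h2]
    exact h3
  have hx1 := hT t0 hT0 (k0 + 0) hx
  rw [hb0] at hx1
  change n1 - (endd o σ₀).2.length + 3 + (vv O k0 0).2.length ≤ N + 1 at hx1
  have hxd := rl_dep (hO (k0 + 0)) (t := t0) hx
  have hxd1 : 1 ≤ (vv O k0 0).2.length := hxd.1
  have hrk := vv_rk h hs hO hx 0
  have hadm0 : Adm (vv O k0 0) := rl_adm h hs (hO (k0 + 0))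
  have hsz0 : 0 < sz (vv O k0 0).1 := by
    unfold rk at hrk
    omega
  have hadm : Adm (ow (vv O k0 0) 0) := Can.adm_ow hadm0 hrk hsz0
  -- the link
  have hl : Link P (lst P.p N) (endd o σ1) (ow (vv O k0 0) 0) := by
    refine Link.of_rise hd1.1 (by rw [blk_lst P.p hN2]; exact hd1.2)
      (by rw [← ht0, hb0, blk_lst P.p hN2]; omega) (by rw [length_ow]; omega)
      (by rw [← ht0, hb0, length_ow]; omega) ?_
    unfold Rise
    rw [length_ow, l3]
    show bk (G.u (lst P.p N) s) + ((vv O k0 0).2.length + 1) < bk (vv O k0 0).1 + _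
    rw [hx, bku h hs, bku h hs, hb0, blk_lst P.p hN2]
    omega
  obtain ⟨g, g1, g2, -⟩ := ext_link h hs l2 (List.prefix_refl _) l3
    (by rw [l3]; exact h.u_lt hs _) hadm (by rw [← ht0]; exact hx) hl
  obtain ⟨β, hβdef⟩ : ∃ β, β = σ1 ++ [g] := ⟨_, rfl⟩
  have hβ : RL P G s β := by rw [hβdef]; exact g1
  have hβe : endd o β = ow (vv O k0 0) 0 := by rw [hβdef, endd_snoc, g2]
  have hσβ : σ₀ <+: β := by
    rw [hβdef]
    exact l1.trans (List.prefix_append _ _)
  have hd : ∀ t, t0 ≤ t → ∀ j, (vv O k0 j).1 = G.u t s →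
      1 + (vv O k0 j).2.length ≤ blk P.p t := by
    intro t ht j hj
    have h1 := hT t (hT0.trans ht) (k0 + j) hj
    change _ + (vv O k0 j).2.length ≤ _ at h1
    omega
  have hmain := fun j => (ff_main h hs hO hx hd hβ hβe j j (le_refl _))
  -- the chain
  have hlen : ∀ j, j ≤ (FF O k0 β j).length := by
    intro j
    induction j with
    | zero => exact Nat.zero_le _
    | succ j ih =>
      obtain ⟨α, s', m, c1, -⟩ := cmp_spec h hs (vv_vl h hs hO (k0 + j)) (by
        rw [vv_src h hs hO]; exact vv_rk h hs hO hx j)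
      rw [ff_succ, c1]
      simp only [List.length_append, List.length_singleton]
      omega
  have hpre : ∀ j, pre (FR O k0 β) (FF O k0 β j).length = FF O k0 β j :=
    AE.Split.chain_pre (fun j => ff_mono O k0 β (Nat.le_succ j)) hlen
  have hRL : ∀ k, RL P G s (pre (FR O k0 β) k) := by
    intro k
    refine rl_pfx h hs (hmain k).1 ?_
    rw [← hpre k]
    exact pre_mono _ (hlen k)
  -- the depths
  have hex : ∀ t, t0 ≤ t → ∃ j, (vv O k0 j).1 = G.u t s := by
    intro t ht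
    obtain ⟨j, -, hj⟩ := vv_pass h hs hO hx ht (vv_ge (k0 := k0) h hs hO (G.u t s))
    exact ⟨j, hj⟩
  have hexn : ∀ n, ∃ j, N + 1 ≤ n → (vv O k0 j).1 = G.u (fst P.p n) s := by
    intro n
    by_cases hn : N + 1 ≤ n
    · obtain ⟨j, hj⟩ := hex (fst P.p n) (by
        have h1 := lst_succ P.p hN2
        have h2 := fst_mono P.p hn
        omega)
      exact ⟨j, fun _ => hj⟩
    · exact ⟨0, fun h => absurd h hn⟩
  choose J hJ using hexn
  refine ⟨FR O k0 β, N + 1, fun n => (vv O k0 (J n)).2.length + 1, red_fr O k0 β, hRL, ?_⟩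
  intro n hn
  have hn2 : 2 ≤ n := by omega
  have hfn : t0 ≤ fst P.p n := by
    have h1 := lst_succ P.p hN2
    have h2 := fst_mono P.p hn
    omega
  have hJn := hJ n hn
  have e1 := hd _ hfn _ hJn
  rw [blk_fst P.p hn2] at e1
  have e2 := (rl_dep (hO (k0 + J n)) hJn).1
  change 1 ≤ (vv O k0 (J n)).2.length at e2
  refine ⟨by show 2 ≤ _ + 1; omega, by show _ + 1 ≤ n; omega, fun t ht => ?_⟩
  obtain ⟨ht1, ht2⟩ := (blk_iff P.p hn2).1 ht
  obtain ⟨j, hj⟩ := hex t (hfn.trans ht1)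
  have hjJ : J n ≤ j := by
    by_contra hlt
    have h1 := vv_lt (k0 := k0) h hs hO (not_le.1 hlt)
    have h2 : G.u (fst P.p n) s ≤ G.u t s := (h.rts hs).mono.monotone ht1
    omega
  have hlen' : (vv O k0 j).2.length = (vv O k0 (J n)).2.length := by
    refine len_in h hs (hO (k0 + j)) (pre_mono O (by omega)) (List.prefix_refl _) hJn hj ht1 ?_
    rw [ht, blk_fst P.p hn2]
  obtain ⟨m1, m2⟩ := hmain j
  have hyadm : Adm (ow (vv O k0 j) 0) := by
    rw [← m2]
    exact rl_adm h hs m1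
  refine ⟨(FF O k0 β j).length, ?_, ?_, ?_, ?_, ?_⟩
  · rw [hpre]
    have h1 := ff_mono O k0 β (Nat.zero_le j)
    rw [ff_zero] at h1
    exact hσβ.trans h1
  · rw [hpre, m2]
    exact hj
  · rw [hpre, m2]
    exact ⟨_, rfl⟩
  · rw [hpre, m2, length_ow, hlen']
  · obtain ⟨α, s', m, c1, c2, c3, c4, c5⟩ := cmp_spec h hs (vv_vl h hs hO (k0 + j)) (by
      rw [vv_src h hs hO]; exact vv_rk h hs hO hx j)
    rw [vv_src h hs hO] at c4
    have hadv := adv_same h hs c4 hyadm ⟨_, rfl⟩ (show (ow (vv O k0 j) 0).1 = G.u t s from hj)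
    have r0 : FF O k0 β j ++ α <+: FF O k0 β (j + 1) := by
      rw [ff_succ, c1, ← List.append_assoc]
      exact List.prefix_append _ _
    have r1 : FF O k0 β j ++ α = pre (FR O k0 β) (FF O k0 β j ++ α).length := by
      refine of_pfx_pre (k := (FF O k0 β (j + 1)).length) ?_
      rw [hpre]
      exact r0
    refine ⟨(FF O k0 β j ++ α).length, by simp, ?_, ?_⟩
    · rw [← r1, hpre, m2, hadv]
      rfl
    · rw [← r1]
      obtain ⟨n1', n2'⟩ := hmain (j + 1)
      have hr := les_rup h hs n1'.1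
      have h1 : (endd o (FF O k0 β j ++ α)).1 < (endd o (FF O k0 β (j + 1))).1 := by
        refine hr.lt r0 (List.prefix_refl _) ?_
        intro he
        have := congrArg List.length he
        rw [ff_succ, c1] at this
        simp only [List.length_append, List.length_singleton] at this
        omega
      have h2 := vv_next h hs hO hx (hfn.trans ht1) (j := j) (by rw [hj]; exact h.u_lt hs t)
      rw [n2'] at h1
      change _ < (vv O k0 (j + 1)).1 at h1
      omega

end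

end Comp

end Pool.Agent.Lib.MP_d48993_lc.Gr
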