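import Pool.Agent.Lib.MP_d48993_lc.AE.Gr.Gt01
import Pool.Agent.Lib.MP_d48993_lc.AE.Node.Decide

/-!
# Part G (MP_d48993): clause (G5) of the interface to the texts (helper99)
-/

set_option autoImplicit false

namespace Pool.Agent.Lib.MP_d48993_lc.Gr

open Pool.Agent.Lib.MP_d48993_lc.Node
open MP_8c048d_lc (pre join RecF)
open Txt (ht st mC mN mR ltN okN Leg)

/-- Clause (G5). -/
def GT5 : Prop :=
  ∀ P : Par, P.Ok → ∀ G : Gph, Lim4 P G → ∀ s < P.p, ∀ hd : ℕ,
    ∀ n I, IsItm P G n I → I.col = s → I.hd = hd →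
      CG P G s (HT P I) (n + 1) I.E (star P G n I) ∧
      Con1 P G s (LT P I) n (n + 1) I.c (star P G n I)

open Gt01 in
/-- Clause (G5), from the record. -/
theorem gt5_of (hB : BasicStatement) : GT5 := by
  intro P hP G h s hs hd n I hI hc _
  subst hc
  have hn := hI.three
  have hcg := (hI.pt hs).2
  obtain ⟨w, hw, ha⟩ := Gt01.CG.atR hn hcg
  have hlen := ha.len
  have hu := h.rts hs
  have e1 : lst P.p (n - 1) + 1 = fst P.p n := by
    have h4 : fst P.p n - 1 = lst P.p (n - 1) := fst_sub P.p hn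
    have := fst_pos P.p hn
    omega
  have e2 : fst P.p n ≤ lst P.p n := fst_le_lst P.p (by omega)
  have hb1 : blk P.p (lst P.p (n - 1)) = n - 1 := blk_lst P.p (by omega)
  have hblk : ∀ t, fst P.p n ≤ t → t ≤ lst P.p n → blk P.p t = n := fun t a b =>
    (blk_iff P.p (by omega)).2 ⟨a, b⟩
  have hv : ∀ t, fst P.p n ≤ t → t ≤ lst P.p n → ItV P G t I := fun t a b =>
    h.itv t I (by rw [hblk t a b]; exact hI)
  have hcur : ∀ t, fst P.p n ≤ t → t < lst P.p n → G.cur (t + 1) I = G.fin t I := fun t a b =>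
    h.cur1 t I (by rw [hblk t a b.le]; exact hI)
      (by rw [hblk t a b.le, hblk (t + 1) (by omega) b])
  have hcur0 : G.cur (fst P.p n) I = I.c := h.cur0 n I hI
  -- the states
  have hat : ∀ t, fst P.p n ≤ t → t ≤ lst P.p n → At ((G.u t I.col, w) : St) (G.fin t I) := by
    intro t a b
    obtain ⟨z, -, -, h3, h4⟩ := ((hv t a b).pt hs).2.2.2.2
    obtain ⟨p, hp⟩ := hcg.cv.root
    obtain ⟨i, -, h5⟩ := h3.en _ hp
    obtain ⟨j, -, h6⟩ := ha.at'.en _ hp
    have h7 := (Gt01.ow_inj (h5.symm.trans h6)).1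
    have h8 : z.2 = w := congrArg Prod.snd h7
    rw [h8] at h4
    exact h4
  -- the conditions grow
  have hcle : ∀ t, fst P.p n ≤ t → t ≤ lst P.p n → CLe (LT P I) I.c (G.fin t I) := by
    intro t a
    induction t, a using Nat.le_induction with
    | base =>
      intro b
      have := ((hv _ le_rfl b).pt hs).2.1
      rwa [hcur0] at this
    | succ t a ih =>
      intro b
      have h1 := ih (by omega)
      have h2 := ((hv (t + 1) (by omega) b).pt hs).2.1
      rw [hcur t a (by omega)] at h2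
      exact Decide.cle_trans ((hv (t + 1) (by omega) b).pt hs).1.uniq h1 h2
  -- the stems are continued
  have hst : ∀ t, fst P.p n ≤ t → ∀ t', t ≤ t' → t' ≤ lst P.p n → ∀ e' ∈ (G.fin t' I).2,
      ∃ e ∈ (G.fin t I).2, e.2.2 <+: e'.2.2 := by
    intro t a t' b
    induction t', b using Nat.le_induction with
    | base => exact fun _ e' he' => ⟨e', he', List.prefix_rfl⟩
    | succ t' b ih =>
      intro d e' he'
      have h2 := ((hv (t' + 1) (by omega) d).pt hs).2.2.1
      rw [hcur t' (by omega) (by omega)] at h2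
      obtain ⟨e1, h3, h4, -⟩ := h2 e' he'
      obtain ⟨e, h5, h6⟩ := ih (by omega) e1 h3
      exact ⟨e, h5, h6.trans h4⟩
  have hvl := (hv _ e2 le_rfl).pt hs
  have hway : ∀ e ∈ (star P G n I).2, ∀ t, fst P.p n ≤ t → t ≤ lst P.p n → ∃ ν i,
      ν <+: e.2.2 ∧ 1 ≤ i ∧ endd o ν = ow ((G.u t I.col, w) : St) i := by
    intro e he t a b
    obtain ⟨e', h1, h2⟩ := hst t a _ b le_rfl e he
    obtain ⟨i, h3, h4⟩ := (hat t a b).en e' h1
    exact ⟨e'.2.2, i, h2, h3, h4⟩
  refine ⟨?_, ⟨⟨hcle _ e2 le_rfl, fun t => (G.u t I.col, w), fun t => rfl, ha.at', ?_, ?_, ?_⟩,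
    ?_⟩⟩
  · refine Gt01.AtR.cg (n := n + 1) (by omega) hw (hv _ e2 le_rfl).leg ⟨?_, ?_, ?_⟩
    · exact hvl.1
    · exact hat _ e2 le_rfl
    · exact hvl.2.2.2.1
  · exact hat _ e2 le_rfl
  · intro t k1 _
    refine link_same h hs hw ?_
    have := blk_mono P.p k1
    omega
  · intro e he t k1 k2
    exact hway e he t (by omega) k2
  · intro z hz e he ν hν hνu i
    obtain ⟨ν', j, h1, h2, h3⟩ := hway e he (fst P.p n) le_rfl e2
    have hrup : Rup o e.2.2 := Rup.of_vstr hB (Ltree.dfit _) (hvl.1.stem e he).2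
    have h7 : ν = ν' := by
      refine hrup.eq hν h1 ?_
      rw [hνu, h3]
      rfl
    obtain ⟨p, hp⟩ := hcg.cv.root
    obtain ⟨i', -, h5⟩ := hz.en _ hp
    obtain ⟨j', -, h6⟩ := ha.at'.en _ hp
    have h9 := (Gt01.ow_inj (h5.symm.trans h6)).1
    rw [h7, h3, h9, rise_ow]
    show bk (G.u (lst P.p (n - 1)) I.col) + w.length < bk (G.u (fst P.p n) I.col) + w.length
    have f1 : bk (G.u (lst P.p (n - 1)) I.col) = blk P.p (lst P.p (n - 1)) := hu.bk _
    have f2 : bk (G.u (fst P.p n) I.col) = blk P.p (fst P.p n) := hu.bk _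
    rw [f1, f2, hb1, blk_fst P.p (by omega)]
    omega

/-- Clause (G5), without hypotheses. -/
theorem gt5 : GT5 := gt5_of (basic codes)

end Pool.Agent.Lib.MP_d48993_lc.Gr
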