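import Pool.Agent.Lib.MP_d48993_lc.AE.Gr.Stm2
import Pool.Agent.Lib.MP_d48993_lc.AE.Gr.Blk

/-!
# Part G (MP_d48993), module GTX: the texts of the items
-/

set_option autoImplicit false

namespace Pool.Agent.Lib.MP_d48993_lc.Gr

open Pool.Agent.Lib.MP_d48993_lc.Node
open Txt (ht st mC mN mR ltN okN Leg)

namespace Gtx

/-- All levels of `w'` behind those of `w` are null. -/
def Nu (T : List ℕ → Bool) (w w' : List ℕ) : Prop := ∀ l ∈ (st T w').drop (ht T w), l.1 = none

theorem ht_le {T : List ℕ → Bool} {w w' : List ℕ} (h : Txt.Le T (ht T w) w w') :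
    ht T w ≤ ht T w' := (h.take le_rfl le_rfl).1

theorem trans {T : List ℕ → Bool} {w w' w'' : List ℕ} (h : Txt.Le T (ht T w) w w')
    (hn : Nu T w w') (h' : Txt.Le T (ht T w') w' w'') (hn' : Nu T w' w'') :
    Txt.Le T (ht T w) w w'' ∧ Nu T w w'' := by
  refine ⟨h.trans (h'.mono (ht_le h)), fun l hl => ?_⟩
  obtain ⟨i, hi, rfl⟩ := List.mem_iff_getElem.1 hl
  rw [List.length_drop] at hi
  rw [List.getElem_drop]
  by_cases hlt : ht T w + i < ht T w'
  · have h1 : st T w' <+: st T w'' := h'.st_prefix le_rfl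
    have h2 : (st T w'')[ht T w + i]'(by omega) = (st T w')[ht T w + i]'hlt :=
      (h1.getElem hlt).symm
    rw [h2]
    have hi2 : i < ((st T w').drop (ht T w)).length := by
      rw [List.length_drop]
      unfold ht at hlt ⊢
      omega
    have h3 : ((st T w').drop (ht T w))[i] = (st T w')[ht T w + i]'hlt := List.getElem_drop
    rw [← h3]
    exact hn _ (List.getElem_mem hi2)
  · obtain ⟨j, hj⟩ : ∃ j, ht T w + i = ht T w' + j := ⟨ht T w + i - ht T w', by omega⟩
    have hi2 : j < ((st T w'').drop (ht T w')).length := by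
      rw [List.length_drop]
      omega
    have h3 : ((st T w'').drop (ht T w'))[j] = (st T w'')[ht T w' + j]'(by omega) :=
      List.getElem_drop
    have h4 : (st T w'')[ht T w + i]'(by omega) = (st T w'')[ht T w' + j]'(by omega) := by
      congr 1
    rw [h4, ← h3]
    exact hn' _ (List.getElem_mem hi2)

variable {P : Par} {G : Gph}

theorem chain (h : Lim4 P G) {n : ℕ} {I : Itm} (hI : IsItm P G n I) {t : ℕ}
    (ht1 : fst P.p n ≤ t) : ∀ m, t + m ≤ lst P.p n →
    Txt.Le (HT P I) (ht (HT P I) (G.cur t I).1) (G.cur t I).1 (G.fin (t + m) I).1 ∧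
      Nu (HT P I) (G.cur t I).1 (G.fin (t + m) I).1 := by
  have hn : 2 ≤ n := by have := hI.three; omega
  intro m
  induction m with
  | zero =>
    intro hm
    have hb : blk P.p t = n := (blk_iff P.p hn).2 ⟨ht1, by omega⟩
    have hv := h.itv t I (by rw [hb]; exact hI)
    exact ⟨hv.le, hv.null⟩
  | succ m ih =>
    intro hm
    obtain ⟨h1, h2⟩ := ih (by omega)
    have hb : blk P.p (t + m) = n := (blk_iff P.p hn).2 ⟨by omega, by omega⟩
    have hb' : blk P.p (t + (m + 1)) = n := (blk_iff P.p hn).2 ⟨by omega, by omega⟩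
    have hv := h.itv (t + (m + 1)) I (by rw [hb']; exact hI)
    have hc : G.cur (t + (m + 1)) I = G.fin (t + m) I :=
      h.cur1 (t + m) I (by rw [hb]; exact hI) (by rw [hb]; exact hb')
    have hle := hv.le
    have hnu := hv.null
    rw [hc] at hle hnu
    exact trans h1 h2 hle hnu

end Gtx

/-- Module GTX. -/
theorem gtx : GTXStatement := by
  intro P _ G h n I hI
  have hn : 2 ≤ n := by have := hI.three; omega
  have hfl := fst_le_lst P.p hn
  obtain ⟨m, hm⟩ : ∃ m, fst P.p n + m = lst P.p n := ⟨lst P.p n - fst P.p n, by omega⟩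
  have h1 := Gtx.chain h hI (t := fst P.p n) le_rfl m (by omega)
  rw [hm, h.cur0 n I hI] at h1
  have hb : blk P.p (lst P.p n) = n := blk_lst P.p hn
  refine ⟨h1.1, h1.2, (h.itv (lst P.p n) I (by rw [hb]; exact hI)).opn, fun t ht => ?_⟩
  obtain ⟨ht1, ht2⟩ := (blk_iff P.p hn).1 ht
  rcases Nat.eq_or_lt_of_le ht2 with h2 | h2
  · subst h2
    exact Txt.Le.rfl' (h.itv _ I (by rw [ht]; exact hI)).leg
  · obtain ⟨k, hk⟩ : ∃ k, t + 1 + k = lst P.p n := ⟨lst P.p n - (t + 1), by omega⟩
    have h3 := Gtx.chain h hI (t := t + 1) (by omega) k (by omega)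
    have hb' : blk P.p (t + 1) = n := (blk_iff P.p hn).2 ⟨by omega, by omega⟩
    rw [hk, h.cur1 t I (by rw [ht]; exact hI) (by rw [hb', ht])] at h3
    exact h3.1

end Pool.Agent.Lib.MP_d48993_lc.Gr
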