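import Pool.Agent.Lib.MP_d48993_lc.AE.Gr.Hh
import Pool.Agent.Lib.MP_d48993_lc.AE.Gr.Cls

/-!
# Part G, module GH (helper40): the statement without hypotheses
-/

set_option autoImplicit false

namespace Pool.Agent.Lib.MP_d48993_lc.Gr

/-- Module GH. -/
theorem hh_all : HStatement := hh cls

end Pool.Agent.Lib.MP_d48993_lc.Gr
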