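import Pool.Agent.Lib.MP_d48993_lc.AE.Gr.Stm3
import Pool.Agent.Lib.MP_d48993_lc.AE.Gr.Lg
import Pool.Agent.Lib.MP_d48993_lc.AE.Node.Codes
import Pool.Agent.Lib.MP_d48993_lc.AE.Node.Basic
import Pool.Agent.Lib.MP_d48993_lc.AE.Node.Mono
import Pool.Agent.Lib.MP_d48993_lc.AE.Node.Finv
import Pool.Agent.Lib.MP_d48993_lc.AE.Node.Ltree
import Pool.Agent.Lib.MP_d48993_lc.AE.Node.LimitStep
import Pool.Agent.Lib.MP_d48993_lc.AE.Node.Stagea

/-!
# Part G (MP_d48993): module STEPT (helper19), the end of a step for a text colour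
-/

set_option autoImplicit false

namespace Pool.Agent.Lib.MP_d48993_lc.Gr

open Pool.Agent.Lib.MP_d48993_lc.Node

namespace StT

/-- The trees `TE Tr E` are closed under initial segments. -/
theorem pc_te {Tr : ℕ → List ℕ → Prop} (h : ∀ e, PC (Tr e)) (E : List ℕ) : PC (TE Tr E) := by
  intro σ τ hp hτ
  cases σ with
  | nil => trivial
  | cons e σ =>
    cases τ with
    | nil => exact absurd (List.prefix_nil.1 hp) (by simp)
    | cons e' τ =>
      obtain ⟨rfl, h1⟩ := List.cons_prefix_cons.1 hp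
      exact ⟨hτ.1, h e _ _ h1 hτ.2⟩

theorem endd_snoc (σ : List ℕ) (g : ℕ) (x : St) : endd x (σ ++ [g]) = tgt g := by
  simp [endd]

/-- Finite data have finitely many valid strings from the start state. -/
theorem fin_str (hF : FinvStatement) (δ : Data) : {σ | VStr δ.W o σ (endd o σ)}.Finite := by
  obtain ⟨h1, h2⟩ := hF δ
  refine ((h2 o o).union (h1.biUnion fun s _ => h2 o (tgt s))).subset ?_
  intro σ hσ
  rcases List.eq_nil_or_concat σ with rfl | ⟨τ, s, rfl⟩
  · exact Or.inl hσ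
  · rw [List.concat_eq_append] at hσ ⊢
    have h3 : VStr δ.W o (τ ++ [s]) (endd o (τ ++ [s])) := hσ
    rw [endd_snoc] at h3
    exact Or.inr (Set.mem_biUnion (x := s) (h3.2 s (by simp)) h3)

/-- A symbol into an own state of the state `(u, z.2)` rises. -/
theorem lg_ow {z : St} {u i j : ℕ} (h1 : 1 ≤ z.2.length) (h2 : bk z.1 ≤ bk u) :
    Lg (ow z i) (ow ((u, z.2) : St) j) := by
  rcases lt_or_eq_of_le h2 with h | h
  · refine Or.inl ?_
    show bk z.1 + (z.2 ++ [j]).length < bk u + (z.2 ++ [i]).length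
    rw [List.length_append, List.length_append, List.length_singleton, List.length_singleton]
    omega
  · refine Or.inr ⟨?_, ?_⟩
    · show bk z.1 + (z.2 ++ [j]).length = bk u + (z.2 ++ [i]).length
      rw [List.length_append, List.length_append, List.length_singleton, List.length_singleton]
      omega
    · show (z.2 ++ [j]).head? = (z.2 ++ [i]).head?
      cases hz : z.2 with
      | nil => rw [hz] at h1; simp at h1
      | cons a l => rfl

end StT

open StT in
/-- Module STEPT. -/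
theorem stepT_of (hB : BasicStatement) (hM : MonoStatement)
    (hF : FinvStatement) (hR : RootStatement) (hP0 : Pub0Statement) (hK : ContStatement4) :
    StepTStatement := by
  classical
  intro P hP C n K b zp S s hin hinv hs hJ
  obtain ⟨hwf, hlg, -⟩ := hinv.wf s hs
  obtain ⟨hfull, hpub⟩ := hinv.full s hs hJ
  have hgd : GD (S.g s) := ⟨hwf, hfull, hlg⟩
  have hfs := fin_str hF (S.g s)
  obtain ⟨K0, hK0⟩ : ∃ K0 : ℕ, ∀ I, C.its I → (S.cv I).2.length ≤ K0 :=
    ⟨hin.fin.toFinset.sup fun I => (S.cv I).2.length, fun I hI =>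
      Finset.le_sup (f := fun I => (S.cv I).2.length) (hin.fin.mem_toFinset.2 hI)⟩
  obtain ⟨K1, hK1⟩ : ∃ K1 : ℕ, ∀ r ∈ (S.g s).pub, sz r ≤ K1 := by
    refine ⟨((S.g s).pub.map sz).sum, fun r hr => ?_⟩
    exact List.single_le_sum (by simp) _ (List.mem_map.2 ⟨r, hr, rfl⟩)
  obtain ⟨u, hu1, hu2, hu3, hu4⟩ := hR (S.g s) hgd n
    (K + K0 + K1 + 3 * hfs.toFinset.card + n + 4)
  obtain ⟨δ, hδ, hext, hδpub, hδN, hδprv, hδadv⟩ := hP0 (S.g s) u hgd hu1
  have hmem : u ∈ δ.pub := by rw [hδpub]; simp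
  have hcan := hu4 δ hδ.wf hext hmem
  -- edges
  have hgap : ∀ x y, δ.W.edge x y → (S.g s).N ≤ y.1 → u ≤ y.1 := by
    rintro x y ⟨-, -, h3⟩ h4
    rcases h3 with h3 | h3
    · have h5 : y.1 ∈ (S.g s).pub ++ [u] := by rw [← hδpub]; exact h3
      rcases List.mem_append.1 h5 with h6 | h6
      · have h7 := hwf.pub _ h6
        omega
      · rw [List.mem_singleton.1 h6]
    · have h5 : (x, y) ∈ (S.g s).prv := by rw [← hδprv]; exact h3
      have h6 : y.1 < (S.g s).N := (hwf.prv _ h5).2.1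
      omega
  -- strings which end below `u`
  have hdown : ∀ σ, VStr δ.W o σ (endd o σ) → (endd o σ).1 < u →
      VStr (S.g s).W o σ (endd o σ) := by
    intro σ hσ hlt
    refine Ltree.vstr_back hB hM hwf hfull hext hσ ?_
    by_contra hge
    rw [not_lt] at hge
    rcases List.eq_nil_or_concat σ with rfl | ⟨τ, g, rfl⟩
    · have h1 := hwf.pos
      have h2 : (S.g s).N ≤ 0 := hge
      omega
    · rw [List.concat_eq_append] at hσ hlt hge
      rw [endd_snoc] at hlt hge
      have h1 := (hB δ.W hδ.wf.inv.fit).1 g (hσ.2 g (by simp))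
      have h2 := hgap _ _ h1 hge
      omega
  -- the conditions
  have hcond : ∀ I, C.its I → I.col = s → ∃ c' : Cnd3, c'.1 = (S.cv I).1 ∧
      CV δ.W (LT P I) c' ∧ CLe (LT P I) (S.cv I) c' ∧ CLe (LT P I) (C.cur I) c' ∧
      LgC (C.cur I) c' ∧ At ((u, (zp I).2) : St) c' ∧
      ∀ e ∈ c'.2, ∀ ν, ν <+: e.2.2 → (endd o ν).1 ∈ δ.pub →
        (endd o ν).1 ≤ (zp I).1 ∨ ν = e.2.2 := by
    intro I hI hcol
    have hIp : I.col < P.p := by rw [hcol]; exact hs
    obtain ⟨-, hcv, hcle, hlgc⟩ := hinv.pt I hI hIp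
    obtain ⟨-, -, hat, hzpub, hzadm, hz1, hz2, hz3, hz4⟩ := hin.pt I hI hIp
    rw [hcol] at hcv hzpub hz4
    have hlen := hK0 I hI
    have hzu : sz (zp I).1 ≤ sz u := by
      have h1 := hK1 (zp I).1 (by rw [hpub]; exact hzpub)
      omega
    -- the numbers of the triples
    have hf1 : ∀ e ∈ (S.cv I).2, 1 + ((S.cv I).2.map Prod.fst).idxOf e.1 ≤ K0 := by
      intro e he
      have h1 : ((S.cv I).2.map Prod.fst).idxOf e.1 < ((S.cv I).2.map Prod.fst).length :=
        List.idxOf_lt_length_iff.2 (List.mem_map.2 ⟨e, he, rfl⟩)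
      rw [List.length_map] at h1
      omega
    have hf2 : ∀ e ∈ (S.cv I).2, ∀ e' ∈ (S.cv I).2,
        1 + ((S.cv I).2.map Prod.fst).idxOf e.1 = 1 + ((S.cv I).2.map Prod.fst).idxOf e'.1 →
        e.1 = e'.1 := by
      intro e he e' he' h
      exact (List.idxOf_inj (List.mem_map.2 ⟨e, he, rfl⟩)).1 (Nat.add_left_cancel h)
    -- the ends of the strings
    have hend : ∀ e ∈ (S.cv I).2, ∀ ν, ν <+: e.2.2 → Adm (endd o ν) ∧
        (endd o ν).1 < (S.g s).N := by
      intro e he ν hν
      refine Ltree0.endd_adm hwf hB Ltree0.adm_o hwf.pos ν fun g hg => ?_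
      exact (hcv.stem e he).2.2 g (hν.subset hg)
    have hsym : ∀ e ∈ (S.cv I).2, ∃ g, VS δ.W g ∧ src g = endd o e.2.2 ∧
        tgt g = ow ((u, (zp I).2) : St) (1 + ((S.cv I).2.map Prod.fst).idxOf e.1) ∧
        Ex g = [] := by
      intro e he
      obtain ⟨h1, h2⟩ := hend e he _ List.prefix_rfl
      have h3 := hf1 e he
      refine hcan (endd o e.2.2) _ h1 h2 ⟨?_, ?_⟩ rfl ?_
      · show ((zp I).2 ++ [_]).length ≤ sz u
        rw [List.length_append, List.length_singleton]
        omega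
      · intro a ha
        show a < sz u
        rcases List.mem_append.1 ha with h | h
        · exact lt_of_lt_of_le (hzadm.2 a h) hzu
        · rw [List.mem_singleton.1 h]
          omega
      · show ((zp I).2 ++ [_]).length ≤ n + 2
        rw [List.length_append, List.length_singleton]
        omega
    have hcvδ : CV δ.W (LT P I) (S.cv I) :=
      ⟨hcv.root, hcv.uniq, hcv.mem, fun e h1 => Stagea.vstr_mono hM hwf hext (hcv.img e h1),
        fun e h1 => ⟨(hcv.stem e h1).1, Stagea.vstr_mono hM hwf hext (hcv.stem e h1).2⟩,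
        hcv.emb, hcv.stemEmb, hcv.parent, hcv.ac⟩
    obtain ⟨c', k1, k2, k3, k4, -, k6⟩ := hK δ (LT P I) (S.cv I) (u, (zp I).2) []
      (fun a => 1 + ((S.cv I).2.map Prod.fst).idxOf a) (fun _ => 0) hδ.wf hcvδ
      (pc_te hP.trt _) hmem (fun e he => lt_of_lt_of_le (hend e he _ List.prefix_rfl).2 hu1)
      hsym (by simp) hf2 (by simp) (by simp)
    have hrep : ∀ e' ∈ c'.2, ∃ e ∈ (S.cv I).2, ∃ g, tgt g =
        ow ((u, (zp I).2) : St) (1 + ((S.cv I).2.map Prod.fst).idxOf e.1) ∧
        e' = (e.1, e.2.1, e.2.2 ++ [g]) := by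
      intro e' he'
      rcases k6 e' he' with ⟨e, he, h1⟩ | ⟨x, hx, -⟩
      · obtain ⟨g, -, -, h2, -, h3⟩ := k4 e he
        exact ⟨e, he, g, h2, k1.uniq e' he' _ h3 h1⟩
      · exact absurd hx List.not_mem_nil
    refine ⟨c', k3, k1, k2, Limit.cle_trans hcle k2 k1.uniq, ?_, ⟨?_, ?_⟩, ?_⟩
    · intro e' he'
      obtain ⟨e, he, g, h1, rfl⟩ := hrep e' he'
      obtain ⟨e0, he0, h2, h3⟩ := hlgc e he
      refine ⟨e0, he0, h2.trans (List.prefix_append _ _), ?_⟩
      intro g' hg'
      have hg'' : g' ∈ (e.2.2 ++ [g]).drop e0.2.2.length := hg'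
      rw [List.drop_append_of_le_length h2.length_le] at hg''
      rcases List.mem_append.1 hg'' with h4 | h4
      · exact h3 g' h4
      · obtain ⟨i, -, h5⟩ := hat.en e0 he0
        rw [List.mem_singleton.1 h4, h1, h5]
        exact lg_ow hz1 (by rw [hu2]; exact hz3)
    · intro e' he'
      obtain ⟨e, he, g, h1, rfl⟩ := hrep e' he'
      refine ⟨1 + ((S.cv I).2.map Prod.fst).idxOf e.1, by omega, ?_⟩
      show endd o (e.2.2 ++ [g]) = _
      rw [endd_snoc]
      exact h1
    · intro e' he' e'' he'' h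
      obtain ⟨e, he, g, h1, rfl⟩ := hrep e' he'
      obtain ⟨f, hf, g', h1', rfl⟩ := hrep e'' he''
      have h2 : endd o (e.2.2 ++ [g]) = endd o (f.2.2 ++ [g']) := h
      rw [endd_snoc, endd_snoc, h1, h1'] at h2
      have h3 : (zp I).2 ++ [1 + ((S.cv I).2.map Prod.fst).idxOf e.1] =
          (zp I).2 ++ [1 + ((S.cv I).2.map Prod.fst).idxOf f.1] := congrArg Prod.snd h2
      have h4 := List.append_cancel_left h3
      have h5 := hf2 e he f hf (List.singleton_inj.1 h4)
      exact k1.uniq _ he' _ he'' h5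
    · intro e' he' ν hν hνpub
      obtain ⟨e, he, g, h1, rfl⟩ := hrep e' he'
      have hν' : ν <+: e.2.2 ++ [g] := hν
      rcases List.prefix_concat_iff.1 hν' with h2 | h2
      · exact Or.inr h2
      · left
        have h3 := (hend e he ν h2).2
        rw [hδpub] at hνpub
        rcases List.mem_append.1 hνpub with h4 | h4
        · rw [hpub] at h4
          exact hz4 _ h4
        · have h5 := List.mem_singleton.1 h4
          omega
  choose! f hf using hcond
  refine ⟨δ, u, f, hδ, hext, hδpub, hu1, hδN, hu2, by omega, hgap, ?_, ?_, hcan, hδadv, hf⟩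
  · intro r hr
    have h1 := hK1 r hr
    omega
  · intro L hL hσ
    have h1 : L.length ≤ hfs.toFinset.card := by
      rw [← List.toFinset_card_of_nodup hL]
      refine Finset.card_le_card fun σ h => ?_
      obtain ⟨h2, h3⟩ := hσ σ (List.mem_toFinset.1 h)
      exact hfs.mem_toFinset.2 (hdown σ h2 h3)
    omega

/-- Module STEPT, from ROOT and CONT4. -/
theorem stepT (hR : RootStatement) (hP0 : Pub0Statement) (hK : ContStatement4) :
    StepTStatement :=
  stepT_of (basic codes) (mono codes (basic codes)) (finv codes (basic codes)) hR hP0 hK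

end Pool.Agent.Lib.MP_d48993_lc.Gr
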