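import Pool.Agent.Lib.MP_d48993_lc.AE.Gr.Defs

/-!
# Part G (MP_d48993): the statements of the modules (finding 4200, G8)
-/

set_option autoImplicit false

namespace Pool.Agent.Lib.MP_d48993_lc.Gr

open Pool.Agent.Lib.MP_d48993_lc.Node
open MP_8c048d_lc (pre join RecF)
open Txt (ht st mC mN mR ltN okN Leg)

/-! ## Basic steps -/

/-- Module AD (from ADOPTA, ADOPTB of NODE): the advice is continued (clean data). -/
def AdoptAGStatement : Prop :=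
  ∀ (δ : Data) (y : St) (α : List ℕ), Wf δ → LgD δ → Adm y → Zero y → y.1 ∈ δ.pub →
    δ.W.adv y = none →
    (∀ y', Adm y' → Zero y' → Cone y y' → y' ≠ y → (δ.W.adv y').isSome) →
    (∀ r, y.1 < r → r < δ.N → ∃ w, δ.W.own r = some w ∧ y.1 ≤ w.1 ∧ (Cone w y → w = y)) →
    VStr δ.W y α (endd y α) → (∀ s ∈ α, ∀ v v', HE s v v' → InCl δ.W y v') →
    ∀ (δ' : Data), GD δ' → DExt δ δ' → ∀ μ w, VStr δ'.W (endd y α) μ w →
    ∃ δ'' : Data, Wf δ'' ∧ LgD δ'' ∧ DExt δ δ'' ∧ δ''.pub = δ.pub ∧ VStr δ''.W (endd y α) μ w ∧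
      (∀ s ∈ μ, ∀ v v', HE s v v' → InCl δ''.W y v') ∧
      (∀ p ∈ δ''.advL, p ∉ δ.advL → δ.N ≤ p.1.1) ∧
      ∀ r, δ.N ≤ r → r < δ''.N → δ''.W.own r = some y ∨ ∃ w', δ''.W.own r = some w' ∧ δ.N ≤ w'.1

/-- Module AD: exactly the edges of the strings of `L` (clean data). -/
def AdoptBGStatement : Prop :=
  ∀ (δ δ' : Data) (L : List (List ℕ)), GD δ → GD δ' → DExt δ δ' →
    (∀ ρ ∈ L, VStr δ'.W o ρ (endd o ρ)) →
    ∃ δ'' : Data, GD δ'' ∧ DExt δ δ'' ∧ δ''.pub = δ.pub ∧ δ''.N = δ'.N ∧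
      (∀ ρ ∈ L, VStr δ''.W o ρ (endd o ρ)) ∧
      ∀ x t, δ''.W.edge x t → δ.N ≤ t.1 → ∃ ρ ∈ L, ∃ s ∈ ρ, HE s x t

/-- Canonical symbols of later data into the root `u`, from the states of roots below `N`. -/
def CanU (N u b : ℕ) (δ' : Data) : Prop :=
  ∀ x y : St, Adm x → x.1 < N → Adm y → y.1 = u → y.2.length ≤ b + 2 →
    ∃ g, VS δ'.W g ∧ src g = x ∧ tgt g = y ∧ Ex g = []

/-- Module ROOT (from CAN, MONO): large roots. -/
def RootStatement : Prop :=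
  ∀ δ : Data, GD δ → ∀ b K : ℕ, ∃ u, δ.N ≤ u ∧ bk u = b ∧ K ≤ sz u ∧
    ∀ δ' : Data, Wf δ' → DExt δ δ' → u ∈ δ'.pub → CanU δ.N u b δ'

/-- Module ROOT: a new public root, the advice of the `0`-states longer than `D` is empty. -/
def PubStatement : Prop :=
  ∀ (δ : Data) (u D : ℕ), GD δ → δ.N ≤ u → ∃ γ : Data, Wf γ ∧ LgD γ ∧ DExt δ γ ∧
    γ.pub = δ.pub ++ [u] ∧ γ.N = u + 1 ∧ γ.prv = δ.prv ∧ (∀ r, γ.W.own r = δ.W.own r) ∧
    (∀ y, Adm y → Zero y → y.1 ∈ γ.pub → (γ.W.adv y = none ↔ y.1 = u ∧ y.2.length ≤ D)) ∧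
    ∀ y, Adm y → Zero y → y.1 = u → D < y.2.length → γ.W.adv y = some []

/-- Module ROOT: a new public root with empty advice. -/
def Pub0Statement : Prop :=
  ∀ (δ : Data) (u : ℕ), GD δ → δ.N ≤ u → ∃ γ : Data, GD γ ∧ DExt δ γ ∧
    γ.pub = δ.pub ++ [u] ∧ γ.N = u + 1 ∧ γ.prv = δ.prv ∧
    ∀ y, Adm y → Zero y → y.1 = u → γ.W.adv y = some []

/-- Module ROOT: the advice of the states of length `D` is given by `al`, of the shorter ones it is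
empty. -/
def CloseStatement : Prop :=
  ∀ (γ : Data) (u D : ℕ) (al : St → List ℕ), Wf γ → LgD γ → u ∈ γ.pub →
    (∀ y, Adm y → Zero y → y.1 ∈ γ.pub → (γ.W.adv y = none ↔ y.1 = u ∧ y.2.length ≤ D)) →
    (∀ y, Adm y → Zero y → y.1 = u → y.2.length = D → VStr γ.W y (al y) (endd y (al y)) ∧
      ∀ g ∈ al y, Lg y (tgt g) ∧ ∀ v v', HE g v v' → InCl γ.W y v') →
    ∃ δ : Data, GD δ ∧ DExt γ δ ∧ δ.pub = γ.pub ∧ δ.N = γ.N ∧ δ.prv = γ.prv ∧
      (∀ y, Adm y → Zero y → y.1 = u → y.2.length = D → δ.W.adv y = some (al y)) ∧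
      ∀ y, Adm y → Zero y → y.1 = u → y.2.length < D → δ.W.adv y = some []

/-! ## The tasks of one root -/

/-- The situation at a root: patterns, treated depths, the data, the new public roots (colours with
`J s = false`), the items with their values, the number of the remaining roots of the block. -/
structure Ctx where
  J : ℕ → Bool
  D : ℕ → ℕ
  d0 : ℕ → Data
  u : ℕ → ℕ
  its : Itm → Prop
  cur : Itm → Cnd3
  r : ℕ

/-- The treated states. -/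
structure Ctx.Y (C : Ctx) (s : ℕ) (y : St) : Prop where
  root : y.1 = C.u s
  adm : Adm y
  zero : Zero y
  len : y.2.length = C.D s

/-- A state of the tasks: data, advice so far, values of the items. -/
structure PS where
  g : ℕ → Data
  al : ℕ → St → List ℕ
  cv : Itm → Cnd3

/-- The invariant of the tasks; all counters below `b` may be used. -/
structure PInv (P : Par) (C : Ctx) (b : ℕ) (S : PS) : Prop where
  wf : ∀ s < P.p, Wf (S.g s) ∧ LgD (S.g s) ∧ DExt (C.d0 s) (S.g s)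
  full : ∀ s < P.p, C.J s = true → Full (S.g s) ∧ (S.g s).pub = (C.d0 s).pub
  root : ∀ s < P.p, C.J s = false → (C.d0 s).N ≤ C.u s ∧ C.u s < (S.g s).N ∧
    (S.g s).pub = (C.d0 s).pub ++ [C.u s]
  adn : ∀ s < P.p, C.J s = false → ∀ y, Adm y → Zero y → y.1 ∈ (S.g s).pub →
    ((S.g s).W.adv y = none ↔ y.1 = C.u s ∧ y.2.length ≤ C.D s)
  al : ∀ s < P.p, C.J s = false → ∀ y, C.Y s y →
    VStr (S.g s).W y (S.al s y) (endd y (S.al s y)) ∧
    ∀ g ∈ S.al s y, Lg y (tgt g) ∧ ∀ v v', HE g v v' → InCl (S.g s).W y v'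
  own : ∀ s < P.p, C.J s = false → ∀ r, C.u s < r → r < (S.g s).N →
    ∃ w, (S.g s).W.own r = some w ∧ (C.u s < w.1 ∨ C.Y s w)
  lab : ∀ I, C.its I → 0 ∉ I.E
  pt : ∀ I, C.its I → I.col < P.p → C.J I.col = true ∧ CV (S.g I.col).W (LT P I) (S.cv I) ∧
    CLe (LT P I) (C.cur I) (S.cv I) ∧ LgC (C.cur I) (S.cv I)
  txt : ∀ I, C.its I → Txt.Le (HT P I) (ht (HT P I) (C.cur I).1) (C.cur I).1 (S.cv I).1 ∧
    (∀ l ∈ (st (HT P I) (S.cv I).1).drop (ht (HT P I) (C.cur I).1), l.1 = none) ∧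
    (∀ m, ltN m b = true → okN (st (HT P I) (S.cv I).1) m = true) ∧
    Txt.opn (HT P I) (S.cv I).1 = none

/-- Later states. -/
structure Lat (P : Par) (C : Ctx) (S S' : PS) : Prop where
  ext : ∀ s < P.p, DExt (S.g s) (S'.g s)
  al : ∀ s < P.p, C.J s = false → ∀ y, C.Y s y → ∃ ν, S'.al s y = S.al s y ++ ν ∧
    VStr (S'.g s).W (endd y (S.al s y)) ν (endd y (S'.al s y)) ∧ ∀ g ∈ ν, Lg y (tgt g)
  pt : ∀ I, C.its I → I.col < P.p → CLe (LT P I) (S.cv I) (S'.cv I)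
  txt : ∀ I, C.its I →
    Txt.Le (HT P I) (ht (HT P I) (S.cv I).1) (S.cv I).1 (S'.cv I).1

/-- Tuples in a state. -/
structure PTup (P : Par) (C : Ctx) (S : PS) (H : ℕ) (y : ℕ → St) (mu : ℕ → List ℕ)
    (it : ℕ → Itm) : Prop where
  str : ∀ s < P.p, C.J s = false → C.Y s (y s) ∧ VStr (S.g s).W o (mu s) (y s)
  itm : ∀ c, Tx P C.J H c = true → C.its (it c) ∧ (it c).col = c

/-- Extensions of a tuple in the state `S`. -/
def SExt (P : Par) (C : Ctx) (S : PS) (H off : ℕ) (y : ℕ → St) (it : ℕ → Itm)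
    (γ' : ℕ → Data) (nu : ℕ → List ℕ) (k : ℕ → Cnd3) : Prop :=
  AExt P C.J H off S.g y (fun s => S.al s (y s)) it (fun c => C.cur (it c))
    (fun c => S.cv (it c)) γ' nu k

/-- Module ADOPT (from AD, MONO, OWN, BASIC, CODES; TXT.reopen): an extension is adopted. -/
def AdoptStatement : Prop :=
  ∀ (P : Par) (C : Ctx) (b m H : ℕ) (S : PS) (y : ℕ → St) (mu : ℕ → List ℕ) (it : ℕ → Itm)
    (γ' : ℕ → Data) (nu : ℕ → List ℕ) (k : ℕ → Cnd3), PInv P C b S → PTup P C S H y mu it →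
    SExt P C S H 1 y it γ' nu k → ltN m b = true → ∃ S' : PS, PInv P C m S' ∧ Lat P C S S' ∧
      (∀ s < P.p, C.J s = false → S'.al s (y s) = S.al s (y s) ++ nu s) ∧
      (∀ c, Tx P C.J H c = true → S'.cv (it c) =
        ((k c).1 ++ [mR (ht (HT P (it c)) (S.cv (it c)).1) [], mN m], (k c).2)) ∧
      ∀ s < P.p, C.J s = true → (S'.g s).N = (γ' s).N ∧
        ∀ x t, (S'.g s).W.edge x t → (S.g s).N ≤ t.1 → (γ' s).W.edge x t

/-- Module TASK: a skipped task (a null level is appended to the texts of the tuple). -/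
def SkipStatement : Prop :=
  ∀ (P : Par) (C : Ctx) (b m H : ℕ) (S : PS) (y : ℕ → St) (mu : ℕ → List ℕ) (it : ℕ → Itm),
    PInv P C b S → PTup P C S H y mu it → ltN m b = true → ∃ S₁ : PS, PInv P C m S₁ ∧
      Lat P C S S₁ ∧ ∀ S' : PS, (∀ s < P.p, Wf (S'.g s)) → Lat P C S₁ S' → ∀ off ≤ 1, ∀ γ' nu k, SExt P C S' H off y it γ' nu k →
        ∃ nu' : ℕ → List ℕ, SExt P C S H 1 y it γ' nu' k ∧ ∀ s < P.p, C.J s = false →
          S.al s (y s) ++ nu' s = S'.al s (y s) ++ nu s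

/-- The value of a functional at a tuple. -/
def evS (P : Par) (C : Ctx) (S : PS) (i H : ℕ) (y : ℕ → St) (mu nu : ℕ → List ℕ)
    (k : ℕ → Cnd3) : List ℕ :=
  ev P i H (tup P C.J H (cat mu (fun s => S.al s (y s)) nu) k)

/-- The contract, in a state. -/
structure Done (P : Par) (C : Ctx) (n : ℕ) (S : PS) : Prop where
  hit : ∀ H y mu it, PTup P C S H y mu it → ∀ i < n, ∀ m < n,
    m ≤ (evS P C S i H y mu (fun _ => []) (fun c => S.cv (it c))).length ∨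
      ∀ γ' nu k, SExt P C S H 0 y it γ' nu k → (evS P C S i H y mu nu k).length < m
  kill : ∀ H y mu it, PTup P C S H y mu it → ∀ i < n, ∀ b < P.p, C.J b = true →
    Bad (S.g b) (evS P C S i H y mu (fun _ => []) (fun c => S.cv (it c))) ∨
      ∀ γ' nu k, SExt P C S H 0 y it γ' nu k → ¬ Bad (γ' b) (evS P C S i H y mu nu k)
  killn : ∀ y mu it, PTup P C S 0 y mu it → (∀ s < P.p, C.J s = false) → ∀ i < n,
    ¬ P.TB (evS P C S i 0 y mu (fun _ => []) (fun c => S.cv (it c))) ∨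
      ∀ γ' nu k, SExt P C S 0 0 y it γ' nu k → (evS P C S i 0 y mu nu k).length ≤
        (evS P C S i 0 y mu (fun _ => []) (fun c => S.cv (it c))).length

/-- Module TASK (from ADOPT, SKIP, FINV, SEARCH): all tasks of a root. The initial state is `S₀`
(every value of the counter with at most `C.r` remaining roots may be used). -/
def TaskStatement : Prop :=
  ∀ (P : Par), P.Ok → ∀ (C : Ctx) (n : ℕ) (S₀ : PS), {I | C.its I}.Finite →
    (∀ M, PInv P C (Nat.pair C.r M) S₀) → ∃ S : PS, PInv P C (Nat.pair C.r 0) S ∧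
      Lat P C S₀ S ∧ Done P C n S

/-- Module CONT4 (from ACCAN, OWN, MONO, BASIC, CODES): the stems of a condition are continued into
different own states of `z`; children of the nodes in `X` (node, number of the child) are added,
all with given own states `f`. -/
def ContStatement4 : Prop :=
  ∀ (δ : Data) (T : List ℕ → Prop) (c : Cnd3) (z : St) (X : List (List ℕ × ℕ))
    (f : List ℕ → ℕ) (f' : List ℕ × ℕ → ℕ), Wf δ → CV δ.W T c → PC T →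
    z.1 ∈ δ.pub → (∀ e ∈ c.2, (endd o e.2.2).1 < z.1) →
    (∀ e ∈ c.2, ∃ g, VS δ.W g ∧ src g = endd o e.2.2 ∧ tgt g = ow z (f e.1) ∧ Ex g = []) →
    (∀ x ∈ X, ∃ e ∈ c.2, e.1 = x.1 ∧ T (x.1 ++ [x.2]) ∧ (∀ e' ∈ c.2, e'.1 ≠ x.1 ++ [x.2]) ∧
      ∃ g, VS δ.W g ∧ src g = endd o e.2.2 ∧ tgt g = ow z (f' x) ∧ Ex g = []) →
    (∀ e ∈ c.2, ∀ e' ∈ c.2, f e.1 = f e'.1 → e.1 = e'.1) →
    (∀ x ∈ X, ∀ x' ∈ X, f' x = f' x' → x = x') → (∀ e ∈ c.2, ∀ x ∈ X, f e.1 ≠ f' x) →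
    ∃ c' : Cnd3, CV δ.W T c' ∧ CLe T c c' ∧ c'.1 = c.1 ∧
      (∀ e ∈ c.2, ∃ g, VS δ.W g ∧ src g = endd o e.2.2 ∧ tgt g = ow z (f e.1) ∧ Ex g = [] ∧
        (e.1, e.2.1, e.2.2 ++ [g]) ∈ c'.2) ∧
      (∀ x ∈ X, ∃ e ∈ c.2, e.1 = x.1 ∧ ∃ g, VS δ.W g ∧ src g = endd o e.2.2 ∧
        tgt g = ow z (f' x) ∧ Ex g = [] ∧ (x.1 ++ [x.2], e.2.2 ++ [g], e.2.2 ++ [g]) ∈ c'.2) ∧
      ∀ e' ∈ c'.2, (∃ e ∈ c.2, e'.1 = e.1) ∨ ∃ x ∈ X, e'.1 = x.1 ++ [x.2]

/-! ## One step -/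

/-- The hypotheses of a step at a root of the block `n`. -/
structure StIn (P : Par) (C : Ctx) (n : ℕ) (zp : Itm → St) : Prop where
  two : 2 ≤ n
  good : ∀ s < P.p, GD (C.d0 s)
  fin : {I | C.its I}.Finite
  dep : ∀ s < P.p, C.D s ≤ n
  lab : ∀ I, C.its I → 0 ∉ I.E
  leg : ∀ I, C.its I → Leg (HT P I) (C.cur I).1 ∧
    (∀ m : ℕ, m.unpair.1 ≤ C.r → okN (st (HT P I) (C.cur I).1) m = true) ∧
    Txt.opn (HT P I) (C.cur I).1 = none
  pt : ∀ I, C.its I → I.col < P.p → C.J I.col = true ∧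
    CV (C.d0 I.col).W (LT P I) (C.cur I) ∧ At (zp I) (C.cur I) ∧
    (zp I).1 ∈ (C.d0 I.col).pub ∧ Adm (zp I) ∧ 1 ≤ (zp I).2.length ∧ (zp I).2.length + 1 ≤ n ∧
    bk (zp I).1 ≤ n ∧ (∀ r ∈ (C.d0 I.col).pub, r ≤ (zp I).1)

/-- The result of a step: the new data `d`, the public roots `u`, the bounds `nb`, the values
`fin`. -/
structure StOut (P : Par) (C : Ctx) (n K : ℕ) (zp : Itm → St) (d : ℕ → Data) (u nb : ℕ → ℕ)
    (fin : Itm → Cnd3) : Prop where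
  good : ∀ s < P.p, GD (d s) ∧ DExt (C.d0 s) (d s) ∧ (d s).pub = (C.d0 s).pub ++ [u s]
  root : ∀ s < P.p, (C.d0 s).N ≤ nb s ∧ nb s ≤ u s ∧ u s < (d s).N ∧ bk (u s) = n ∧ K ≤ sz (u s)
  gap : ∀ s < P.p, ∀ x y, (d s).W.edge x y → nb s ≤ y.1 → u s ≤ y.1
  szs : ∀ s < P.p, ∀ r ∈ (C.d0 s).pub, sz r ≤ sz (u s)
  many : ∀ s < P.p, ∀ L : List (List ℕ), L.Nodup →
    (∀ σ ∈ L, VStr (d s).W o σ (endd o σ) ∧ (endd o σ).1 < u s) → 3 * L.length + 3 < sz (u s)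
  can : ∀ s < P.p, CanU (nb s) (u s) n (d s)
  txt : ∀ I, C.its I → Leg (HT P I) (fin I).1 ∧
    Txt.Le (HT P I) (ht (HT P I) (C.cur I).1) (C.cur I).1 (fin I).1 ∧
    (∀ l ∈ (st (HT P I) (fin I).1).drop (ht (HT P I) (C.cur I).1), l.1 = none) ∧
    (∀ m : ℕ, m.unpair.1 < C.r → okN (st (HT P I) (fin I).1) m = true) ∧
    Txt.opn (HT P I) (fin I).1 = none
  pt : ∀ I, C.its I → I.col < P.p → CV (d I.col).W (LT P I) (fin I) ∧
    CLe (LT P I) (C.cur I) (fin I) ∧ LgC (C.cur I) (fin I) ∧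
    At ((u I.col, (zp I).2) : St) (fin I) ∧
    ∀ e ∈ (fin I).2, ∀ ν, ν <+: e.2.2 → (endd o ν).1 ∈ (d I.col).pub →
      (endd o ν).1 ≤ (zp I).1 ∨ ν = e.2.2
  /-- the contract -/
  con : ∀ C' : Ctx, C' = { C with u := u } → ∀ al : ℕ → St → List ℕ,
    (∀ s < P.p, C.J s = false → ∀ y, C'.Y s y → (d s).W.adv y = some (al s y)) →
    Done P C' n ⟨d, al, fin⟩
  adv : ∀ s < P.p, ∀ y, Adm y → Zero y → y.1 = u s → (C.J s = true ∨ y.2.length ≠ C.D s) →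
    (d s).W.adv y = some []
  nbs : ∀ s < P.p, nb s ≤ sz (u s)

/-- Module STEP (from ROOT, TASK, CONT4, MONO, FINV). -/
def StepStatement : Prop :=
  ∀ (P : Par), P.Ok → ∀ (C : Ctx) (n K : ℕ) (zp : Itm → St), StIn P C n zp →
    ∃ (d : ℕ → Data) (u nb : ℕ → ℕ) (fin : Itm → Cnd3), StOut P C n K zp d u nb fin

end Pool.Agent.Lib.MP_d48993_lc.Gr
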